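import Mathlib

/-! Finite covers from the Hausdorff dimension. -/

open MeasureTheory Filter Topology
open scoped NNReal ENNReal

namespace gtFQ

private theorem dsa_rad {s : ℝ} (hs : 0 < s) {D δ η : ℝ} (hD : 0 ≤ D) (hDδ : D < δ) (hη : 0 < η) :
    ∃ r : ℝ, D < r ∧ r ≤ δ ∧ r ^ s ≤ D ^ s + η := by
  have h0 : 0 ≤ D ^ s := Real.rpow_nonneg hD s
  have h1 : D < (D ^ s + η) ^ (1 / s) := by
    have h2 : (D ^ s) ^ (1 / s) < (D ^ s + η) ^ (1 / s) :=
      Real.rpow_lt_rpow h0 (by linarith) (by positivity)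
    rwa [← Real.rpow_mul hD, mul_one_div_cancel hs.ne', Real.rpow_one] at h2
  refine ⟨min δ ((D ^ s + η) ^ (1 / s)), lt_min hDδ h1, min_le_left _ _, ?_⟩
  calc (min δ ((D ^ s + η) ^ (1 / s))) ^ s ≤ ((D ^ s + η) ^ (1 / s)) ^ s :=
        Real.rpow_le_rpow (le_min (hD.trans hDδ.le) (Real.rpow_nonneg (by linarith) _))
          (min_le_right _ _) hs.le
    _ = D ^ s + η := by
        rw [← Real.rpow_mul (by linarith), one_div_mul_cancel hs.ne', Real.rpow_one]

/-- If `dimH Y < s` and `Y` is compact then `Y` has finite covers by balls of small radii `r i` with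
`∑ (r i)^s` small. (`μH[s] univ = 0` by `hausdorffMeasure_of_dimH_lt` (with `s` as `ℝ≥0`); by
`Measure.hausdorffMeasure_apply` (or `Measure.mkMetric_apply`) there are countable covers `t n` with
`diam (t n) ≤ δ/2` and `∑ diam(t n)^s` small; take a point `y n ∈ t n` and `r n` slightly larger than
`diam (t n)`, so that `∑ (r n)^s ≤ ε`, `r n ≤ δ`, `t n ⊆ ball (y n) (r n)`; finite subcover by
compactness, empty sets `t n` dropped; if `Y` is empty take `N = 0`.) -/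
theorem exists_cover {Y : Type} [MetricSpace Y] [CompactSpace Y] {s : ℝ} (hs : 0 < s)
    (h : dimH (Set.univ : Set Y) < ENNReal.ofReal s) {ε δ : ℝ} (hε : 0 < ε) (hδ : 0 < δ) :
    ∃ (N : ℕ) (y : Fin N → Y) (r : Fin N → ℝ), (∀ i, 0 < r i ∧ r i ≤ δ) ∧
      (∀ x, ∃ i, dist x (y i) < r i) ∧ ∑ i, r i ^ s ≤ ε := by
  classical
  borelize Y
  have h1 : μH[s] (Set.univ : Set Y) = 0 := by
    have h2 := hausdorffMeasure_of_dimH_lt (d := s.toNNReal) h
    rwa [Real.coe_toNNReal s hs.le] at h2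
  rw [Measure.hausdorffMeasure_apply] at h1
  have h3 : (⨅ (t : ℕ → Set Y) (_ : Set.univ ⊆ ⋃ n, t n)
      (_ : ∀ n, Metric.ediam (t n) ≤ ENNReal.ofReal (δ / 2)),
      ∑' n, ⨆ _ : (t n).Nonempty, Metric.ediam (t n) ^ s) < ENNReal.ofReal (ε / 2) := by
    have h4 := (iSup₂_le_iff.1 h1.le) (ENNReal.ofReal (δ / 2)) (by positivity)
    exact lt_of_le_of_lt h4 (by positivity)
  rw [iInf_lt_iff] at h3
  obtain ⟨t, h3⟩ := h3
  rw [iInf_lt_iff] at h3
  obtain ⟨ht, h3⟩ := h3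
  rw [iInf_lt_iff] at h3
  obtain ⟨hd, h3⟩ := h3
  obtain ⟨η, hη, c, hc, hcε⟩ := posSumOfEncodable (half_pos hε) ℕ
  have hfin : ∀ n, Metric.ediam (t n) ≠ ⊤ := fun n => ne_top_of_le_ne_top ENNReal.ofReal_ne_top (hd n)
  have hD : ∀ n, (Metric.ediam (t n)).toReal < δ := fun n => by
    have := ENNReal.toReal_le_of_le_ofReal (by positivity) (hd n)
    linarith
  choose r hr1 hr2 hr3 using fun n => dsa_rad hs (ENNReal.toReal_nonneg (a := Metric.ediam (t n)))
    (hD n) (hη n)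
  let ι := {n : ℕ // (t n).Nonempty}
  choose y hy using fun i : ι => i.2
  obtain ⟨F, hF⟩ := isCompact_univ.elim_finite_subcover (fun i : ι => Metric.ball (y i) (r i))
    (fun i => Metric.isOpen_ball) (fun x _ => by
      obtain ⟨n, hn⟩ := Set.mem_iUnion.1 (ht (Set.mem_univ x))
      refine Set.mem_iUnion.2 ⟨⟨n, ⟨x, hn⟩⟩, ?_⟩
      rw [Metric.mem_ball]
      refine lt_of_le_of_lt ?_ (hr1 n)
      exact Metric.dist_le_diam_of_mem' (hfin n) hn (hy ⟨n, ⟨x, hn⟩⟩))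
  refine ⟨F.card, fun i => y (F.equivFin.symm i), fun i => r (F.equivFin.symm i).1.1, fun i => ⟨?_, hr2 _⟩,
    fun x => ?_, ?_⟩
  · exact lt_of_le_of_lt ENNReal.toReal_nonneg (hr1 _)
  · obtain ⟨i, hi, hx⟩ := Set.mem_iUnion₂.1 (hF (Set.mem_univ x))
    refine ⟨F.equivFin ⟨i, hi⟩, ?_⟩
    show dist x (y (F.equivFin.symm (F.equivFin ⟨i, hi⟩))) <
      r (F.equivFin.symm (F.equivFin ⟨i, hi⟩)).1.1
    rw [Equiv.symm_apply_apply]
    exact hx
  · have e1 : ∑ i : Fin F.card, r (F.equivFin.symm i).1.1 ^ s = ∑ i ∈ F, r i.1 ^ s := by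
      rw [← Finset.sum_coe_sort F (fun i : ι => r i.1 ^ s)]
      exact Equiv.sum_comp F.equivFin.symm (fun i : F => r i.1.1 ^ s)
    rw [e1]
    have e2 : ∑ i ∈ F, (Metric.ediam (t i.1)).toReal ^ s ≤ ε / 2 := by
      rw [← ENNReal.ofReal_le_ofReal_iff (by positivity),
        ENNReal.ofReal_sum_of_nonneg (fun i _ => Real.rpow_nonneg ENNReal.toReal_nonneg s)]
      refine le_trans ?_ h3.le
      calc ∑ i ∈ F, ENNReal.ofReal ((Metric.ediam (t i.1)).toReal ^ s)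
          = ∑ i ∈ F, ⨆ _ : (t i.1).Nonempty, Metric.ediam (t i.1) ^ s := by
            refine Finset.sum_congr rfl fun i _ => ?_
            rw [← ENNReal.ofReal_rpow_of_nonneg ENNReal.toReal_nonneg hs.le,
              ENNReal.ofReal_toReal (hfin _), iSup_pos i.2]
        _ = ∑ n ∈ F.map ⟨Subtype.val, Subtype.val_injective⟩,
            ⨆ _ : (t n).Nonempty, Metric.ediam (t n) ^ s := by
            rw [Finset.sum_map]
            rfl
        _ ≤ _ := ENNReal.sum_le_tsum _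
    have e3 : ∑ i ∈ F, η i.1 ≤ ε / 2 := by
      calc ∑ i ∈ F, η i.1 = ∑ n ∈ F.map ⟨Subtype.val, Subtype.val_injective⟩, η n := by
            rw [Finset.sum_map]
            rfl
        _ ≤ c := sum_le_hasSum _ (fun n _ => (hη n).le) hc
        _ ≤ _ := hcε
    calc ∑ i ∈ F, r i.1 ^ s ≤ ∑ i ∈ F, ((Metric.ediam (t i.1)).toReal ^ s + η i.1) :=
          Finset.sum_le_sum fun i _ => hr3 i.1
      _ = ∑ i ∈ F, (Metric.ediam (t i.1)).toReal ^ s + ∑ i ∈ F, η i.1 := Finset.sum_add_distrib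
      _ ≤ ε / 2 + ε / 2 := add_le_add e2 e3
      _ = ε := by ring

end gtFQ
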