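import Pool.Agent.Lib.gtFP.Defs

/-! Points of long fine chains, Hoelder estimate for quasisymmetric maps at such points. -/

open MeasureTheory Filter Topology
open scoped NNReal ENNReal

namespace gtFQ

open gtFP

/-- there are points at all distances between `τ` and `L` from `x` (up to the factor 2) -/
def LP {X : Type} [MetricSpace X] (τ L : ℝ) (x : X) : Prop :=
  ∀ ρ, τ ≤ ρ → ρ ≤ L → ∃ v, ρ ≤ dist x v ∧ dist x v ≤ 2 * ρ

/-- The first point of a chain with steps at most `τ` at distance at least `ρ ≥ τ` from the start. -/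
private theorem chain_first {X : Type} [MetricSpace X] {τ ρ : ℝ} (hτ : 0 < τ) (hρ : τ ≤ ρ)
    {q : ℕ → X} {m : ℕ} (hstep : ∀ i < m, dist (q i) (q (i + 1)) ≤ τ)
    (hfar : ρ ≤ dist (q 0) (q m)) : ∃ v, ρ ≤ dist (q 0) v ∧ dist (q 0) v ≤ 2 * ρ := by
  classical
  have hex : ∃ j, ρ ≤ dist (q 0) (q j) := ⟨m, hfar⟩
  have h1 := Nat.find_spec hex
  have hmin := fun i (hi : i < Nat.find hex) => Nat.find_min hex hi
  have hle : Nat.find hex ≤ m := Nat.find_min' hex hfar
  set j := Nat.find hex with hj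
  have hj0 : j ≠ 0 := by
    intro h0
    rw [h0, dist_self] at h1
    linarith
  obtain ⟨i, hi⟩ : ∃ i, j = i + 1 := ⟨j - 1, by omega⟩
  refine ⟨q j, h1, ?_⟩
  have h2 : dist (q 0) (q i) < ρ := not_le.1 (hmin i (by omega))
  have h3 : dist (q i) (q (i + 1)) ≤ τ := hstep i (by omega)
  have h4 := dist_triangle (q 0) (q i) (q (i + 1))
  rw [hi]
  linarith

/-- The points of a chain with steps at most `τ` and displacement at least `2L`: one of the two ends
has distance at least `L` from `p i`; walk from `p i` to this end, the first `p j` with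
`ρ ≤ dist (p i) (p j)` has `dist (p i) (p j) ≤ ρ + τ`. -/
theorem chain_lp {X : Type} [MetricSpace X] {τ L : ℝ} (hτ : 0 < τ) {p : ℕ → X} {r : ℕ}
    (hstep : ∀ i < r, dist (p i) (p (i + 1)) ≤ τ) (hfar : 2 * L ≤ dist (p 0) (p r)) {i : ℕ}
    (hi : i ≤ r) : LP τ L (p i) := by
  intro ρ h1 h2
  have h3 := dist_triangle (p 0) (p i) (p r)
  rw [dist_comm (p 0) (p i)] at h3
  rcases le_total L (dist (p i) (p 0)) with h4 | h4
  · exact chain_first (q := fun k => p (i - k)) (m := i) hτ h1 (fun k hk => by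
      have h5 := hstep (i - (k + 1)) (by omega)
      rw [show i - (k + 1) + 1 = i - k by omega] at h5
      rw [dist_comm]
      exact h5) (by
      simp only [Nat.sub_zero, Nat.sub_self]
      linarith)
  · exact chain_first (q := fun k => p (i + k)) (m := r - i) hτ h1 (fun k hk => by
      have h5 := hstep (i + k) (by omega)
      rw [add_assoc] at h5
      exact h5) (by
      simp only [add_zero]
      rw [show i + (r - i) = r by omega]
      linarith)

/-- A homeomorphism of `[0,∞)` maps `0` to `0` (it is strictly monotone or strictly antitone and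
surjective) and is continuous. -/
theorem exists_eta_small (η : ℝ≥0 ≃ₜ ℝ≥0) : ∃ lam : ℝ≥0, 0 < lam ∧ lam < 1 ∧ η lam ≤ 1 / 2 := by
  have h0 : η 0 = 0 := by
    rcases η.continuous.strictMono_of_inj η.injective with h | h
    · obtain ⟨x, hx⟩ := η.surjective 0
      have h1 := h.monotone (zero_le (a := x))
      rw [hx] at h1
      exact le_antisymm h1 zero_le
    · exfalso
      obtain ⟨x, hx⟩ := η.surjective (η 0 + 1)
      have h1 := h.antitone (zero_le (a := x))
      rw [hx] at h1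
      have h2 : η 0 < η 0 + 1 := lt_add_of_pos_right _ one_pos
      exact absurd h1 (not_le.2 h2)
  have h1 : Tendsto η (𝓝 0) (𝓝 0) := by
    have := η.continuous.tendsto 0
    rwa [h0] at this
  have h2 : ∀ᶠ x in 𝓝 (0 : ℝ≥0), η x < 1 / 2 := h1.eventually (gt_mem_nhds (by norm_num))
  have h3 : ∀ᶠ x in 𝓝[>] (0 : ℝ≥0), η x < 1 / 2 := h2.filter_mono nhdsWithin_le_nhds
  have h4 : ∀ᶠ x in 𝓝[>] (0 : ℝ≥0), x ∈ Set.Ioo (0 : ℝ≥0) 1 := Ioo_mem_nhdsGT one_pos
  obtain ⟨x, hx1, hx2⟩ := (h3.and h4).exists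
  exact ⟨x, hx2.1, hx2.2, hx1.le⟩

/-- Let `η lam ≤ 1/2`, `0 < lam < 1`. Claim, by induction on `j`: if `τ ≤ dist x v ≤ (lam/2)^j L` then
`dist (f x) (f v) ≤ 2^{-j} D`. Step: `ρ = dist x v / lam`, `τ ≤ ρ ≤ (lam/2)^j L / 2`; `LP` gives `v'` with
`ρ ≤ dist x v' ≤ 2 ρ ≤ (lam/2)^j L`, so `dist x v ≤ lam * dist x v'` and
`dist (f x) (f v) ≤ η lam * dist (f x) (f v') ≤ (1/2) 2^{-j} D`. Then take
`c = log 2 / log (2/lam)`, `C₃ = (2 D + 1) / L^c`. -/
theorem qs_hoelder {X Y : Type} [MetricSpace X] [MetricSpace Y] (f : X ≃ₜ Y)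
    (hf : IsQuasisymmetric f) {D L : ℝ} (hD : ∀ y y' : Y, dist y y' ≤ D) (hL : 0 < L) :
    ∃ c C₃ : ℝ, 0 < c ∧ 0 < C₃ ∧ ∀ (x : X) (τ : ℝ), 0 < τ → LP τ L x → ∀ v, τ ≤ dist x v →
      dist (f x) (f v) ≤ C₃ * dist x v ^ c := by
  obtain ⟨η, hη⟩ := hf
  obtain ⟨lam, hlam0, hlam1, hlam⟩ := exists_eta_small η
  have hl0 : (0 : ℝ) < lam := by exact_mod_cast hlam0
  have hl1 : (lam : ℝ) < 1 := by exact_mod_cast hlam1
  set θ : ℝ := (lam : ℝ) / 2 with hθ
  have hθ0 : 0 < θ := by positivity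
  have hθ1 : θ < 1 := by rw [hθ]; linarith
  have hlogθ : Real.log θ < 0 := Real.log_neg hθ0 hθ1
  have hlog2 : 0 < Real.log 2 := Real.log_pos (by norm_num)
  set c : ℝ := Real.log 2 / (-Real.log θ) with hc
  have hc0 : 0 < c := div_pos hlog2 (by linarith)
  have hθc : θ ^ c = 1 / 2 := by
    rw [Real.rpow_def_of_pos hθ0, hc]
    have hne : Real.log θ ≠ 0 := hlogθ.ne
    have : Real.log θ * (Real.log 2 / (-Real.log θ)) = -Real.log 2 := by
      rw [div_neg, mul_neg, mul_div_cancel₀ _ hne]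
    rw [this, Real.exp_neg, Real.exp_log (by norm_num)]
    norm_num
  have hLc : 0 < L ^ c := Real.rpow_pos_of_pos hL c
  refine ⟨c, (2 * |D| + 1) / L ^ c, hc0, by positivity, ?_⟩
  intro x τ hτ hLP v hv
  have hD0 : 0 ≤ D := by
    have := hD (f x) (f x)
    rwa [dist_self] at this
  have hclaim : ∀ (j : ℕ) (v : X), τ ≤ dist x v → dist x v ≤ θ ^ j * L →
      dist (f x) (f v) ≤ (1 / 2) ^ j * D := by
    intro j
    induction j with
    | zero =>
      intro v _ _
      rw [pow_zero, one_mul]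
      exact hD _ _
    | succ j ih =>
      intro v hv1 hv2
      have hs0 : 0 < dist x v := lt_of_lt_of_le hτ hv1
      have hρ1 : dist x v ≤ dist x v / lam := by
        rw [le_div_iff₀ hl0]
        nlinarith
      have hρ2 : dist x v / lam ≤ θ ^ j * L / 2 := by
        rw [div_le_iff₀ hl0]
        have : θ ^ (j + 1) * L = θ ^ j * L / 2 * lam := by
          rw [pow_succ, hθ]
          ring
        linarith
      have hθj : θ ^ j ≤ 1 := pow_le_one₀ hθ0.le hθ1.le
      have hθjL : θ ^ j * L ≤ L := by nlinarith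
      have hρ3 : dist x v / lam ≤ L := by linarith
      obtain ⟨v', hv'1, hv'2⟩ := hLP (dist x v / lam) (hv1.trans hρ1) hρ3
      have hih := ih v' (le_trans (hv1.trans hρ1) hv'1) (by linarith)
      have hqs := hη x v v' lam (by
        rw [← NNReal.coe_le_coe]
        push_cast
        rw [div_le_iff₀ hl0] at hv'1
        linarith)
      have hqs' : dist (f x) (f v) ≤ (η lam : ℝ) * dist (f x) (f v') := by
        have := NNReal.coe_le_coe.2 hqs
        push_cast at this
        exact this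
      have hη2 : (η lam : ℝ) ≤ 1 / 2 := by
        have := NNReal.coe_le_coe.2 hlam
        push_cast at this
        exact this
      calc dist (f x) (f v) ≤ (η lam : ℝ) * dist (f x) (f v') := hqs'
        _ ≤ 1 / 2 * ((1 / 2) ^ j * D) :=
            mul_le_mul hη2 hih dist_nonneg (by norm_num)
        _ = (1 / 2) ^ (j + 1) * D := by rw [pow_succ]; ring
  have hs0 : 0 < dist x v := lt_of_lt_of_le hτ hv
  have habs : |D| = D := abs_of_nonneg hD0
  rw [habs]
  have hrw : (2 * D + 1) / L ^ c * dist x v ^ c = (2 * D + 1) * (dist x v / L) ^ c := by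
    rw [Real.div_rpow hs0.le hL.le]
    ring
  rw [hrw]
  rcases le_or_gt L (dist x v) with h1 | h1
  · have h2 : 1 ≤ dist x v / L := by
      rw [le_div_iff₀ hL]
      linarith
    have h3 : 1 ≤ (dist x v / L) ^ c := Real.one_le_rpow h2 hc0.le
    have h4 := hD (f x) (f v)
    nlinarith
  · have hx0 : 0 < dist x v / L := div_pos hs0 hL
    have hx1 : dist x v / L ≤ 1 := by
      rw [div_le_iff₀ hL]
      linarith
    obtain ⟨j, hj1, hj2⟩ := exists_nat_pow_near_of_lt_one hx0 hx1 hθ0 hθ1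
    have h2 : dist x v ≤ θ ^ j * L := by
      rw [div_le_iff₀ hL] at hj2
      exact hj2
    have h3 := hclaim j v hv h2
    have h4 : (1 / 2 : ℝ) ^ (j + 1) ≤ (dist x v / L) ^ c := by
      have h5 : (θ ^ (j + 1)) ^ c ≤ (dist x v / L) ^ c :=
        Real.rpow_le_rpow (by positivity) hj1.le hc0.le
      have h6 : (θ ^ (j + 1)) ^ c = (1 / 2 : ℝ) ^ (j + 1) := by
        rw [← Real.rpow_natCast, ← Real.rpow_mul hθ0.le, mul_comm, Real.rpow_mul hθ0.le, hθc,
          Real.rpow_natCast]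
      rw [← h6]
      exact h5
    have h7 : (1 / 2 : ℝ) ^ j = 2 * (1 / 2) ^ (j + 1) := by
      rw [pow_succ]
      ring
    rw [h7] at h3
    have h8 : 0 ≤ (dist x v / L) ^ c := Real.rpow_nonneg hx0.le c
    nlinarith [mul_le_mul_of_nonneg_left h4 hD0]

end gtFQ
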