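import Pool.Agent.Lib.gtFQ.DsA
import Pool.Agent.Lib.gtFQ.DsB

/-! The covers of `Y` of small total size, seen in `X`. -/

open MeasureTheory Filter Topology
open scoped NNReal ENNReal

namespace gtFQ

open gtFP

private theorem exists_lower {N : ℕ} (r : Fin N → ℝ) (hr : ∀ i, 0 < r i) :
    ∃ r₀ : ℝ, 0 < r₀ ∧ ∀ i, r₀ ≤ r i := by
  rcases isEmpty_or_nonempty (Fin N) with h | h
  · exact ⟨1, one_pos, fun i => (h.false i).elim⟩
  · obtain ⟨i, hi⟩ := Finite.exists_min r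
    exact ⟨r i, hr i, hi⟩

/-- the radius of a ball of `Y`, seen in `X` -/
private theorem exists_max {X Y : Type} [MetricSpace X] [MetricSpace Y] [CompactSpace X]
    (f : X ≃ₜ Y) (x : X) {ρ : ℝ} (hρ : 0 ≤ ρ) :
    ∃ u, dist (f x) (f u) ≤ ρ ∧ ∀ v, dist (f x) (f v) ≤ ρ → dist x v ≤ dist x u := by
  have hc : IsCompact {u : X | dist (f x) (f u) ≤ ρ} :=
    (isClosed_le (continuous_const.dist f.continuous) continuous_const).isCompact
  have hne : {u : X | dist (f x) (f u) ≤ ρ}.Nonempty := ⟨x, by simpa using hρ⟩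
  obtain ⟨u, hu, hmax⟩ := hc.exists_isMaxOn hne
    (f := fun v => dist x v) (continuous_const.dist continuous_id).continuousOn
  exact ⟨u, hu, fun v hv => hmax hv⟩

/-- Let `f : X → Y` be quasisymmetric, `X` compact, `dimH Y < s`. Proof. `D` = bound of the distances in
`Y`; `c`, `C'₃` from `qs_hoelder`, `C₂ = 2 η(C') + 1`, `C₃ = C'₃ 4^c` (or so). Given `ε`, `δ`: by uniform
continuity of `f.symm` there is `δ₁ ≤ δ` such that `dist (f x) (f u) ≤ 2 δ₁` implies
`dist x u ≤ min δ (L/4)`. Take the cover of `exists_cover` with `ε`, `δ₁`; let `r₀` be the smallest of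
the radii and `τ > 0` such that `dist u v ≤ 2 τ` implies `dist (f u) (f v) ≤ r₀` (and `τ ≤ L`).
`ι` = the indices `i` for which some `x` with `LP τ L x` has `dist (f x) (y i) < r i`; choose such an
`x i`; `R i = dist (x i) (u i)` = the maximum of `dist (x i) u` over the compact set
`{u | dist (f (x i)) (f u) ≤ 2 r i}`. Then
* `R i ≤ min δ (L/4)`;
* `τ ≤ R i`: otherwise `LP` with `ρ = τ` gives `v` with `R i < τ ≤ dist (x i) v ≤ 2 τ`, so
  `dist (f (x i)) (f v) ≤ r₀ ≤ 2 r i`, a contradiction to the maximality;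
* if `dist (x i) v ≤ C' R i = C' dist (x i) (u i)` then
  `dist (f (x i)) (f v) ≤ η(C') dist (f (x i)) (f (u i)) ≤ 2 η(C') r i`;
* `LP` with `ρ = 2 R i ≤ L` gives `v` with `R i < dist (x i) v ≤ 4 R i`, so
  `2 r i < dist (f (x i)) (f v) ≤ C'₃ (4 R i)^c`;
* a chain point `p j` satisfies `LP τ L (p j)` (`chain_lp`), `f (p j)` is in some ball
  `dist (f (p j)) (y i) < r i`, so `i ∈ ι` and `dist (f (x i)) (f (p j)) < 2 r i`, hence
  `dist (x i) (p j) ≤ R i`; and `dist (f (p j)) (f (p (j+1))) ≤ r₀ ≤ r i`. -/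
theorem cover_data {X Y : Type} [MetricSpace X] [MetricSpace Y] [CompactSpace X] (f : X ≃ₜ Y)
    (hf : IsQuasisymmetric f) {s L C' : ℝ} (hs : 0 < s) (hL : 0 < L) (hC' : 1 ≤ C')
    (h : dimH (Set.univ : Set Y) < ENNReal.ofReal s) :
    ∃ c C₂ C₃ : ℝ, 0 < c ∧ 0 < C₂ ∧ 0 < C₃ ∧ ∀ ε δ : ℝ, 0 < ε → 0 < δ →
      ∃ (τ : ℝ) (ι : Type) (_ : Fintype ι) (x : ι → X) (R r : ι → ℝ), 0 < τ ∧
        (∀ i, 0 < R i ∧ R i ≤ δ) ∧ (∀ i, 0 < r i ∧ r i ≤ δ) ∧ (∑ i, r i ^ s ≤ ε) ∧
        (∀ i v, dist (x i) v ≤ C' * R i → dist (f (x i)) (f v) ≤ C₂ * r i) ∧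
        (∀ i, r i ≤ C₃ * R i ^ c) ∧
        ∀ (p : ℕ → X) (m : ℕ), (∀ j < m, dist (p j) (p (j + 1)) ≤ τ) →
          2 * L ≤ dist (p 0) (p m) → ∀ j ≤ m, ∃ i, dist (x i) (p j) ≤ R i ∧
            (j < m → dist (f (p j)) (f (p (j + 1))) ≤ r i) := by
  classical
  have : CompactSpace Y := f.compactSpace
  -- a bound of the distances
  have hD : ∀ y y' : Y, dist y y' ≤ Metric.diam (Set.univ : Set Y) := fun y y' =>
    Metric.dist_le_diam_of_mem isCompact_univ.isBounded (Set.mem_univ _) (Set.mem_univ _)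
  obtain ⟨c, C'₃, hc, hC'₃, hH⟩ := qs_hoelder f hf hD hL
  obtain ⟨η, hη⟩ := hf
  have hC'0 : 0 ≤ C' := by linarith
  set E : ℝ≥0 := η C'.toNNReal with hE
  refine ⟨c, 2 * E + 1, C'₃ * 4 ^ c, hc, by positivity, by positivity, ?_⟩
  intro ε δ hε hδ
  -- uniform continuity of the inverse
  have hmin : 0 < min δ (L / 4) := lt_min hδ (by linarith)
  obtain ⟨δ₀, hδ₀, hδ₀'⟩ := Metric.uniformContinuous_iff.1
    (CompactSpace.uniformContinuous_of_continuous f.symm.continuous) (min δ (L / 4)) hmin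
  have hδ₁ : 0 < min δ (δ₀ / 4) := lt_min hδ (by linarith)
  have hinv : ∀ x u : X, dist (f x) (f u) ≤ 2 * min δ (δ₀ / 4) → dist x u ≤ min δ (L / 4) := by
    intro x u hxu
    have h1 : dist (f x) (f u) < δ₀ := by
      have := min_le_right δ (δ₀ / 4)
      linarith
    have h2 := hδ₀' h1
    rw [f.symm_apply_apply, f.symm_apply_apply] at h2
    exact h2.le
  obtain ⟨N, y, r, hr, hcov, hsum⟩ := exists_cover (Y := Y) hs h hε hδ₁
  obtain ⟨r₀, hr₀, hr₀'⟩ := exists_lower r fun i => (hr i).1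
  obtain ⟨δ₂, hδ₂, hδ₂'⟩ := Metric.uniformContinuous_iff.1
    (CompactSpace.uniformContinuous_of_continuous f.continuous) r₀ hr₀
  have hτ : 0 < min (δ₂ / 4) L := lt_min (by linarith) hL
  have hτL : min (δ₂ / 4) L ≤ L := min_le_right _ _
  have hτ2 : 2 * min (δ₂ / 4) L < δ₂ := by
    have := min_le_left (δ₂ / 4) L
    linarith
  generalize min (δ₂ / 4) L = τ at hτ hτL hτ2
  let ι : Type := {i : Fin N // ∃ x, LP τ L x ∧ dist (f x) (y i) < r i}
  have hx : ∀ i : ι, ∃ x, LP τ L x ∧ dist (f x) (y i.1) < r i.1 := fun i => i.2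
  choose x hxLP hxy using hx
  have hu : ∀ i : ι, ∃ u, dist (f (x i)) (f u) ≤ 2 * r i.1 ∧
      ∀ v, dist (f (x i)) (f v) ≤ 2 * r i.1 → dist (x i) v ≤ dist (x i) u := fun i =>
    exists_max f (x i) (by have := (hr i.1).1; linarith)
  choose u hu1 hu2 using hu
  have hRle : ∀ i : ι, dist (x i) (u i) ≤ min δ (L / 4) := fun i =>
    hinv _ _ ((hu1 i).trans (by have := (hr i.1).2; linarith))
  have hRτ : ∀ i : ι, τ ≤ dist (x i) (u i) := by
    intro i
    by_contra hcon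
    push Not at hcon
    obtain ⟨v, hv1, hv2⟩ := hxLP i τ le_rfl hτL
    have h1 : dist (f (x i)) (f v) < r₀ := hδ₂' (lt_of_le_of_lt hv2 hτ2)
    have h2 := hr₀' i.1
    have h3 := (hr i.1).1
    have h4 := hu2 i v (by linarith)
    linarith
  refine ⟨τ, ι, inferInstance, x, fun i => dist (x i) (u i), fun i => r i.1, hτ, ?_, ?_, ?_, ?_,
    ?_, ?_⟩
  · intro i
    exact ⟨lt_of_lt_of_le hτ (hRτ i), (hRle i).trans (min_le_left _ _)⟩
  · intro i
    exact ⟨(hr i.1).1, (hr i.1).2.trans (min_le_left _ _)⟩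
  · refine le_trans ?_ hsum
    have h1 : ∑ i : ι, r i.1 ^ s =
        ∑ i ∈ Finset.univ.filter (fun i : Fin N => ∃ x, LP τ L x ∧ dist (f x) (y i) < r i),
          r i ^ s := by
      exact (Finset.sum_subtype (p := fun i : Fin N => ∃ x, LP τ L x ∧ dist (f x) (y i) < r i)
        (Finset.univ.filter fun i : Fin N => ∃ x, LP τ L x ∧ dist (f x) (y i) < r i)
        (fun i => by rw [Finset.mem_filter]; exact ⟨fun h => h.2, fun h => ⟨Finset.mem_univ _, h⟩⟩)
        (fun i => r i ^ s)).symm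
    rw [h1]
    exact Finset.sum_le_sum_of_subset_of_nonneg (Finset.filter_subset _ _)
      fun i _ _ => Real.rpow_nonneg (hr i).1.le s
  · intro i v hv
    have h1 : nndist (x i) v ≤ C'.toNNReal * nndist (x i) (u i) := by
      rw [← NNReal.coe_le_coe, NNReal.coe_mul, Real.coe_toNNReal _ hC'0, coe_nndist, coe_nndist]
      exact hv
    have h2 := hη (x i) v (u i) _ h1
    rw [← NNReal.coe_le_coe, NNReal.coe_mul, coe_nndist, coe_nndist] at h2
    have h3 := hu1 i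
    have h4 : (E : ℝ) * dist (f (x i)) (f (u i)) ≤ E * (2 * r i.1) := by gcongr
    have h5 := (hr i.1).1
    have h6 : dist (f (x i)) (f v) ≤ (E : ℝ) * dist (f (x i)) (f (u i)) := h2
    nlinarith
  · intro i
    have hRpos : 0 < dist (x i) (u i) := lt_of_lt_of_le hτ (hRτ i)
    have hRL : dist (x i) (u i) ≤ L / 4 := (hRle i).trans (min_le_right _ _)
    have hRt := hRτ i
    obtain ⟨v, hv1, hv2⟩ := hxLP i (2 * dist (x i) (u i)) (by linarith) (by linarith)
    have h1 : 2 * r i.1 < dist (f (x i)) (f v) := by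
      by_contra hcon
      push Not at hcon
      have := hu2 i v hcon
      linarith
    have h2 := hH (x i) τ hτ (hxLP i) v (by linarith)
    have h3 : dist (x i) v ^ c ≤ (4 * dist (x i) (u i)) ^ c :=
      Real.rpow_le_rpow dist_nonneg (by linarith) hc.le
    rw [Real.mul_rpow (by norm_num) hRpos.le] at h3
    have h4 : C'₃ * dist (x i) v ^ c ≤ C'₃ * (4 ^ c * dist (x i) (u i) ^ c) := by gcongr
    have h5 := (hr i.1).1
    rw [mul_assoc]
    linarith
  · intro p m hstep hfar j hj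
    have hlp : LP τ L (p j) := chain_lp hτ hstep hfar hj
    obtain ⟨i, hi⟩ := hcov (f (p j))
    refine ⟨⟨i, p j, hlp, hi⟩, ?_, ?_⟩
    · refine hu2 ⟨i, p j, hlp, hi⟩ (p j) ?_
      have h1 := hxy ⟨i, p j, hlp, hi⟩
      have h2 := dist_triangle (f (x ⟨i, p j, hlp, hi⟩)) (y i) (f (p j))
      rw [dist_comm (y i)] at h2
      show _ ≤ 2 * r i
      have h1' : dist (f (x ⟨i, p j, hlp, hi⟩)) (y i) < r i := h1
      linarith
    · intro hjm
      have h1 : dist (p j) (p (j + 1)) < δ₂ := by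
        have := hstep j hjm
        linarith
      exact (hδ₂' h1).le.trans (hr₀' i)

end gtFQ
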