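import Mathlib

/-! Displacement of a sequence and distinct labels. -/

namespace gtFQ

/-- Strong induction on `r`: let `j ≤ r` be the last index with the label of `0`:
`dist (q 0) (q j) ≤ W (lab 0)`; if `j = r` we are done, otherwise `dist (q j) (q (j+1)) ≤ W (lab 0)`
and the sequence `q (j+1), …, q r` does not have the label `lab 0`. -/
theorem sum_labels {Y K : Type} [PseudoMetricSpace Y] [DecidableEq K] (q : ℕ → Y) (lab : ℕ → K)
    (W : K → ℝ) (hW : ∀ κ, 0 ≤ W κ) (r : ℕ)
    (h1 : ∀ i ≤ r, ∀ j ≤ r, lab i = lab j → dist (q i) (q j) ≤ W (lab i))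
    (h2 : ∀ i < r, dist (q i) (q (i + 1)) ≤ W (lab i)) :
    dist (q 0) (q r) ≤ 2 * ∑ κ ∈ (Finset.range (r + 1)).image lab, W κ := by
  classical
  induction r using Nat.strong_induction_on generalizing q lab with
  | _ r ih =>
    set s : Finset ℕ := (Finset.range (r + 1)).filter fun i => lab i = lab 0 with hs
    have h0s : 0 ∈ s := by
      rw [hs, Finset.mem_filter]
      exact ⟨Finset.mem_range.2 (by omega), rfl⟩
    have hne : s.Nonempty := ⟨0, h0s⟩
    obtain ⟨hj1, hj2⟩ := Finset.mem_filter.1 (s.max'_mem hne)
    set j := s.max' hne with hj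
    have hjr : j ≤ r := by
      have := Finset.mem_range.1 hj1
      omega
    have hmem : lab 0 ∈ (Finset.range (r + 1)).image lab :=
      Finset.mem_image.2 ⟨0, Finset.mem_range.2 (by omega), rfl⟩
    have hd1 : dist (q 0) (q j) ≤ W (lab 0) := h1 0 (Nat.zero_le r) j hjr hj2.symm
    rcases Nat.lt_or_ge j r with hlt | hge
    · have hd2 : dist (q j) (q (j + 1)) ≤ W (lab 0) := by
        have := h2 j hlt
        rwa [hj2] at this
      have hd3 := ih (r - (j + 1)) (by omega) (fun i => q (j + 1 + i)) (fun i => lab (j + 1 + i))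
        (fun i hi i' hi' h => h1 (j + 1 + i) (by omega) (j + 1 + i') (by omega) h)
        (fun i hi => h2 (j + 1 + i) (by omega))
      simp only [add_zero] at hd3
      rw [show j + 1 + (r - (j + 1)) = r by omega] at hd3
      have hsub : (Finset.range (r - (j + 1) + 1)).image (fun i => lab (j + 1 + i)) ⊆
          ((Finset.range (r + 1)).image lab).erase (lab 0) := by
        intro κ hκ
        obtain ⟨i, hi, rfl⟩ := Finset.mem_image.1 hκ
        have hi' := Finset.mem_range.1 hi
        refine Finset.mem_erase.2 ⟨fun hc => ?_, Finset.mem_image.2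
          ⟨j + 1 + i, Finset.mem_range.2 (by omega), rfl⟩⟩
        have h3 : j + 1 + i ∈ s := by
          rw [hs, Finset.mem_filter]
          exact ⟨Finset.mem_range.2 (by omega), hc⟩
        have h4 := s.le_max' _ h3
        rw [← hj] at h4
        omega
      have hsum : ∑ κ ∈ (Finset.range (r - (j + 1) + 1)).image (fun i => lab (j + 1 + i)), W κ ≤
          ∑ κ ∈ ((Finset.range (r + 1)).image lab).erase (lab 0), W κ :=
        Finset.sum_le_sum_of_subset_of_nonneg hsub fun κ _ _ => hW κ
      have htot := Finset.add_sum_erase _ W hmem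
      have htri := dist_triangle (q 0) (q j) (q r)
      have htri2 := dist_triangle (q j) (q (j + 1)) (q r)
      linarith
    · have hjr' : j = r := by omega
      rw [hjr'] at hd1
      have hle : W (lab 0) ≤ ∑ κ ∈ (Finset.range (r + 1)).image lab, W κ :=
        Finset.single_le_sum (fun κ _ => hW κ) hmem
      have := hW (lab 0)
      linarith

end gtFQ
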