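import Pool.Agent.Lib.gtFQ.DsE1

/-! Crossing chains of cubes give fine chains of points of `F`. -/

open MeasureTheory Filter Topology
open scoped NNReal ENNReal

namespace gtFQ

open gtFP

variable {d : ℕ}

theorem dse_touch {n K : ℕ} (hn : 1 ≤ n) {x y : EuclideanSpace ℝ (Fin d)} {a b : Fin d → ℤ}
    (hx : x ∈ cube n K a) (hy : y ∈ cube n K b) (h : nd a b ≤ 1) :
    dist x y ≤ Real.sqrt d * (2 / (n : ℝ) ^ K) := by
  have hn' : (0 : ℝ) < (n : ℝ) := by exact_mod_cast hn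
  have hN : (0 : ℝ) < (n : ℝ) ^ K := by positivity
  refine (dist_le_sd x y).trans (mul_le_mul_of_nonneg_left ?_ (Real.sqrt_nonneg _))
  refine (dist_pi_le_iff (by positivity)).2 fun t => ?_
  rw [Real.dist_eq, abs_le, ← neg_div]
  have h1 := nd_le.1 h t
  have h2 : a t ≤ b t + 1 := by omega
  have h3 : b t ≤ a t + 1 := by omega
  have h2' : (a t : ℝ) ≤ b t + 1 := by exact_mod_cast h2
  have h3' : (b t : ℝ) ≤ a t + 1 := by exact_mod_cast h3
  obtain ⟨x1, x2⟩ := hx t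
  obtain ⟨y1, y2⟩ := hy t
  rw [div_le_iff₀ hN] at x1 y1
  rw [le_div_iff₀ hN] at x2 y2
  constructor
  · rw [div_le_iff₀ hN]
    show -2 ≤ (x t - y t) * (n : ℝ) ^ K
    linarith [sub_mul (x t) (y t) ((n : ℝ) ^ K)]
  · rw [le_div_iff₀ hN]
    show (x t - y t) * (n : ℝ) ^ K ≤ 2
    linarith [sub_mul (x t) (y t) ((n : ℝ) ^ K)]

theorem dse_far {n K L : ℕ} (hn : 1 ≤ n) {x y : EuclideanSpace ℝ (Fin d)} {a b : Fin d → ℤ}
    (hx : x ∈ cube n K a) (hy : y ∈ cube n K b) (hL : 1 ≤ L) (h : L ≤ nd a b) :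
    ((L : ℝ) - 1) / (n : ℝ) ^ K ≤ dist x y := by
  have hn' : (0 : ℝ) < (n : ℝ) := by exact_mod_cast hn
  have hN : (0 : ℝ) < (n : ℝ) ^ K := by positivity
  obtain ⟨t, ht⟩ := exists_of_le_nd hL h
  have hsd : |x t - y t| ≤ sd x y := by
    have := dist_le_pi_dist x.ofLp y.ofLp t
    simpa [Real.dist_eq, sd] using this
  refine le_trans ?_ (hsd.trans (sd_le_dist x y))
  rw [div_le_iff₀ hN]
  obtain ⟨x1, x2⟩ := hx t
  obtain ⟨y1, y2⟩ := hy t
  rw [div_le_iff₀ hN] at x1 y1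
  rw [le_div_iff₀ hN] at x2 y2
  rcases le_total (a t) (b t) with hab | hab
  · have h1 : a t + L ≤ b t := by omega
    have h1' : (a t : ℝ) + L ≤ b t := by exact_mod_cast h1
    have h2 : -(x t - y t) * (n : ℝ) ^ K ≤ |x t - y t| * (n : ℝ) ^ K :=
      mul_le_mul_of_nonneg_right (neg_le_abs _) hN.le
    linarith [sub_mul (x t) (y t) ((n : ℝ) ^ K), neg_mul (x t - y t) ((n : ℝ) ^ K)]
  · have h1 : b t + L ≤ a t := by omega
    have h1' : (b t : ℝ) + L ≤ a t := by exact_mod_cast h1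
    have h2 : (x t - y t) * (n : ℝ) ^ K ≤ |x t - y t| * (n : ℝ) ^ K :=
      mul_le_mul_of_nonneg_right (le_abs_self _) hN.le
    linarith [sub_mul (x t) (y t) ((n : ℝ) ^ K)]

/-- The cubes `f i` of a crossing chain have their ancestors of level `k` at distance at most 2 from `z`
(`nd_anc_mul`), so they are kept and in the box (`kept_add`, `Blk`). Apply `near_perc` with
`τ' = min τ (1/(4 n^k)) / 4` and take `m` so large that `√d / n^(k+m) ≤ τ'`; touching cubes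
(`nd ≤ 1`) have points at distance at most `2 √d / n^(k+m)`, and
`dist (p 0) (p r) ≥ (2 n^m - 1) / n^(k+m) - 2 τ' ≥ 1/n^k - 2 τ'` (one coordinate). -/
theorem chain_points {n k : ℕ} (hn : 2 ≤ n) {ω : Cfg d} {z : Fin d → ℤ} (hz : Blk n k ω z)
    {τ : ℝ} (hτ : 0 < τ) :
    ∃ m₀, ∀ m, m₀ ≤ m → ∀ r f, IsCr n m k ω z r f → ∃ p : ℕ → perc n ω,
      (∀ i < r, dist (p i) (p (i + 1)) ≤ τ) ∧ 1 / (2 * (n : ℝ) ^ k) ≤ dist (p 0) (p r) ∧
      ∀ i ≤ r, ∃ q ∈ cube n (k + m) (f i), dist (p i : EuclideanSpace ℝ (Fin d)) q ≤ τ := by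
  have hn1 : 1 ≤ n := by omega
  have hn' : (0 : ℝ) < (n : ℝ) := by exact_mod_cast hn1
  have hnk : (0 : ℝ) < (n : ℝ) ^ k := by positivity
  set τ' : ℝ := min τ (1 / (4 * (n : ℝ) ^ k)) / 4 with hτ'def
  have hmin : 0 < min τ (1 / (4 * (n : ℝ) ^ k)) := lt_min hτ (by positivity)
  have hτ' : 0 < τ' := by positivity
  have hτ1 : 4 * τ' ≤ τ := by
    have := min_le_left τ (1 / (4 * (n : ℝ) ^ k))
    rw [hτ'def]
    linarith
  have hτ2 : 4 * τ' ≤ 1 / (4 * (n : ℝ) ^ k) := by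
    have := min_le_right τ (1 / (4 * (n : ℝ) ^ k))
    rw [hτ'def]
    linarith
  obtain ⟨K₀, hK₀⟩ := near_perc hn ω hτ'
  -- `√d / n^m ≤ τ'` for large `m`
  obtain ⟨m₁, hm₁⟩ : ∃ m₁ : ℕ, ∀ m, m₁ ≤ m → Real.sqrt d / (n : ℝ) ^ (k + m) ≤ τ' := by
    have h2n : (1 : ℝ) < n := by
      have : (2 : ℝ) ≤ n := by exact_mod_cast hn
      linarith
    obtain ⟨m₁, hm₁⟩ := pow_unbounded_of_one_lt (Real.sqrt d / τ') h2n
    refine ⟨m₁, fun m hm => ?_⟩
    have h1 : (n : ℝ) ^ m₁ ≤ (n : ℝ) ^ (k + m) := pow_le_pow_right₀ h2n.le (by omega)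
    rw [div_lt_iff₀ hτ'] at hm₁
    rw [div_le_iff₀ (by positivity)]
    calc Real.sqrt d ≤ (n : ℝ) ^ m₁ * τ' := hm₁.le
      _ ≤ (n : ℝ) ^ (k + m) * τ' := mul_le_mul_of_nonneg_right h1 hτ'.le
      _ = τ' * (n : ℝ) ^ (k + m) := mul_comm _ _
  refine ⟨max K₀ m₁, fun m hm r f hcr => ?_⟩
  obtain ⟨c1, c2, c3, c4, c5⟩ := hcr
  have hpos : (0 : ℤ) < (n : ℤ) ^ m := by
    have : (0 : ℤ) < (n : ℤ) := by exact_mod_cast hn1
    positivity
  have hnear : ∀ i, i ≤ r → ∃ x : perc n ω, ∃ q ∈ cube n (k + m) (f i),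
      dist (x : EuclideanSpace ℝ (Fin d)) q ≤ τ' := by
    intro i hi
    have h1 : nd z (anc n m (f i)) ≤ 2 := by
      rw [← c1]
      exact nd_anc_mul hn1 (c4 i hi)
    obtain ⟨h2, h3⟩ := hz _ h1
    have h4 : InBox (n ^ (k + m)) (f i) := by
      intro t
      obtain ⟨b1, b2⟩ := h2 t
      simp only [anc] at b1 b2
      have e := Int.mul_ediv_add_emod (f i t) ((n : ℤ) ^ m)
      have e0 := Int.emod_nonneg (f i t) hpos.ne'
      constructor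
      · have := mul_nonneg hpos.le b1
        linarith
      · push_cast at b2 ⊢
        rw [Int.ediv_lt_iff_lt_mul hpos, ← pow_add] at b2
        exact b2
    obtain ⟨x, hx, q, hq, hd⟩ := hK₀ (k + m) (by
      have := le_max_left K₀ m₁
      omega) (f i) h4 (kept_add.2 ⟨h3, c2 i hi⟩)
    exact ⟨⟨x, hx⟩, q, hq, hd⟩
  obtain ⟨x0, -⟩ := hnear 0 (Nat.zero_le r)
  have hall : ∀ i, ∃ x : perc n ω, i ≤ r → ∃ q ∈ cube n (k + m) (f i),
      dist (x : EuclideanSpace ℝ (Fin d)) q ≤ τ' := by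
    intro i
    by_cases hi : i ≤ r
    · obtain ⟨x, hx⟩ := hnear i hi
      exact ⟨x, fun _ => hx⟩
    · exact ⟨x0, fun h => absurd h hi⟩
  choose p hp using hall
  refine ⟨p, ?_, ?_, ?_⟩
  · intro i hi
    obtain ⟨q, hq, hd⟩ := hp i hi.le
    obtain ⟨q', hq', hd'⟩ := hp (i + 1) hi
    have h1 := dse_touch hn1 hq hq' (c3 i hi)
    have h2 := hm₁ m ((le_max_right K₀ m₁).trans hm)
    have h3 : Real.sqrt d * (2 / (n : ℝ) ^ (k + m)) = 2 * (Real.sqrt d / (n : ℝ) ^ (k + m)) := by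
      ring
    have h4 := dist_triangle4 (p i : EuclideanSpace ℝ (Fin d)) q q' (p (i + 1))
    rw [dist_comm] at hd'
    show dist (p i : EuclideanSpace ℝ (Fin d)) (p (i + 1)) ≤ τ
    linarith
  · obtain ⟨q, hq, hd⟩ := hp 0 (Nat.zero_le r)
    obtain ⟨q', hq', hd'⟩ := hp r le_rfl
    have hnm : 1 ≤ n ^ m := Nat.one_le_pow _ _ hn1
    have h1 := dse_far hn1 hq hq' (by omega) c5
    have h4 := dist_triangle4 q (p 0 : EuclideanSpace ℝ (Fin d)) (p r) q'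
    have h5 : 1 / (n : ℝ) ^ k ≤ (((2 * n ^ m : ℕ) : ℝ) - 1) / (n : ℝ) ^ (k + m) := by
      rw [div_le_div_iff₀ hnk (by positivity), pow_add]
      push_cast
      have h6 : (1 : ℝ) ≤ (n : ℝ) ^ m := by exact_mod_cast hnm
      nlinarith [mul_nonneg hnk.le (sub_nonneg.2 h6)]
    rw [dist_comm] at hd
    have h7 : 1 / (4 * (n : ℝ) ^ k) = 1 / 4 * (1 / (n : ℝ) ^ k) := by
      field_simp
    have h8 : 1 / (2 * (n : ℝ) ^ k) = 1 / 2 * (1 / (n : ℝ) ^ k) := by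
      field_simp
    have h9 : 0 < 1 / (n : ℝ) ^ k := by positivity
    rw [h7] at hτ2
    rw [h8]
    show _ ≤ dist (p 0 : EuclideanSpace ℝ (Fin d)) (p r)
    linarith
  · intro i hi
    obtain ⟨q, hq, hd⟩ := hp i hi
    exact ⟨q, hq, hd.trans (by linarith)⟩

end gtFQ
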