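import Pool.Agent.Lib.gtFQ.MSa
import Pool.Agent.Lib.gtFP.TopB
import Pool.Agent.Lib.gtFP.GeoC

/-! Kept cubes of large level are close to `F`. -/

open MeasureTheory Filter Topology
open scoped NNReal ENNReal

namespace gtFQ

open gtFP

variable {d : ℕ}

/-- all cubes at distance at most 2 from `z` (level `k`) are kept and lie in the box -/
def Blk (n k : ℕ) (ω : Cfg d) (z : Fin d → ℤ) : Prop :=
  ∀ a, nd z a ≤ 2 → InBox (n ^ k) a ∧ Kept n k ω a

/-- Every kept cube of a large level is close to `F = ⋂ F_k`: the `F_k` are compact and decreasing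
(`isCompact_percStep`, `percStep_succ_subset`), so `F_k` is contained in the open `τ`-neighbourhood of
`F` for large `k` (for instance `IsCompact.nonempty_iInter_of_directed_nonempty_isCompact_isClosed` for
the sets `F_k \ U`, or `exists_subset_nhds_of_isCompact`); take the corner of the cube for `q`. -/
theorem near_perc {n : ℕ} (hn : 2 ≤ n) (ω : Cfg d) {τ : ℝ} (hτ : 0 < τ) :
    ∃ K₀, ∀ k, K₀ ≤ k → ∀ a : Fin d → ℤ, InBox (n ^ k) a → Kept n k ω a →
      ∃ x ∈ perc n ω, ∃ q ∈ cube n k a, dist x q ≤ τ := by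
  have hn1 : 1 ≤ n := by omega
  have hanti : Antitone fun k => percStep n k ω :=
    antitone_nat_of_succ_le fun k => percStep_succ_subset hn1 k ω
  have hdir : Directed (· ⊇ ·) fun k => percStep n k ω := hanti.directed_ge
  have hU : ∀ x ∈ ⋂ k, percStep n k ω, Metric.thickening τ (perc n ω) ∈ 𝓝 x := by
    intro x hx
    exact Metric.isOpen_thickening.mem_nhds (Metric.self_subset_thickening hτ _ hx)
  obtain ⟨K₀, hK₀⟩ := exists_subset_nhds_of_isCompact hdir
    (fun k => isCompact_percStep hn1 k ω) hU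
  refine ⟨K₀, fun k hk a ha hka => ?_⟩
  have hpos : (0 : ℝ) < (n : ℝ) ^ k := by
    have : (0 : ℝ) < n := by exact_mod_cast hn1
    positivity
  let q : EuclideanSpace ℝ (Fin d) := WithLp.toLp 2 fun t => (a t : ℝ) / (n : ℝ) ^ k
  have hq : q ∈ cube n k a := by
    intro t
    refine ⟨le_rfl, ?_⟩
    exact div_le_div_of_nonneg_right (by linarith) hpos.le
  have hqs : q ∈ percStep n k ω := ⟨a, ha, hka, hq⟩
  have hqt := hK₀ (hanti hk hqs)
  rw [Metric.mem_thickening_iff] at hqt
  obtain ⟨x, hx, hxq⟩ := hqt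
  exact ⟨x, hx, q, hq, by rw [dist_comm]; exact hxq.le⟩

end gtFQ
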