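import Pool.Agent.Lib.gtFQ.DsE
import Pool.Agent.Lib.gtFQ.DsD

/-! Multi-scale weights from the covers. -/

open MeasureTheory Filter Topology
open scoped NNReal ENNReal

namespace gtFQ

open gtFP

variable {d : ℕ}

private theorem dsf_cube_anc {n K s : ℕ} (hn : 1 ≤ n) {a : Fin d → ℤ}
    {q : EuclideanSpace ℝ (Fin d)} (h : q ∈ cube n (K + s) a) : q ∈ cube n K (anc n s a) := by
  intro t
  have hn' : (0 : ℝ) < n := by exact_mod_cast hn
  have hN : (0 : ℝ) < (n : ℝ) ^ K := by positivity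
  have hs : (0 : ℝ) < (n : ℝ) ^ s := by positivity
  have hpos : (0 : ℤ) < (n : ℤ) ^ s := by positivity
  obtain ⟨h1, h2⟩ := h t
  have e1 : (a t / (n : ℤ) ^ s) * (n : ℤ) ^ s ≤ a t := Int.ediv_mul_le _ hpos.ne'
  have e2 : a t < (a t / (n : ℤ) ^ s + 1) * (n : ℤ) ^ s := Int.lt_ediv_add_one_mul_self _ hpos
  have e3 : a t + 1 ≤ (a t / (n : ℤ) ^ s + 1) * (n : ℤ) ^ s := e2
  have f1 : ((a t / (n : ℤ) ^ s : ℤ) : ℝ) * (n : ℝ) ^ s ≤ a t := by exact_mod_cast e1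
  have f3 : ((a t : ℤ) : ℝ) + 1 ≤ (((a t / (n : ℤ) ^ s : ℤ) : ℝ) + 1) * (n : ℝ) ^ s := by
    exact_mod_cast e3
  rw [pow_add] at h1 h2
  constructor
  · refine le_trans ?_ h1
    rw [div_le_div_iff₀ hN (by positivity)]
    show ((a t / (n : ℤ) ^ s : ℤ) : ℝ) * ((n : ℝ) ^ K * (n : ℝ) ^ s) ≤ a t * (n : ℝ) ^ K
    calc ((a t / (n : ℤ) ^ s : ℤ) : ℝ) * ((n : ℝ) ^ K * (n : ℝ) ^ s)
        = (((a t / (n : ℤ) ^ s : ℤ) : ℝ) * (n : ℝ) ^ s) * (n : ℝ) ^ K := by ring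
      _ ≤ a t * (n : ℝ) ^ K := mul_le_mul_of_nonneg_right f1 hN.le
  · refine le_trans h2 ?_
    rw [div_le_div_iff₀ (by positivity) hN]
    show (((a t : ℤ) : ℝ) + 1) * (n : ℝ) ^ K ≤
      (((a t / (n : ℤ) ^ s : ℤ) : ℝ) + 1) * ((n : ℝ) ^ K * (n : ℝ) ^ s)
    calc (((a t : ℤ) : ℝ) + 1) * (n : ℝ) ^ K
        ≤ ((((a t / (n : ℤ) ^ s : ℤ) : ℝ) + 1) * (n : ℝ) ^ s) * (n : ℝ) ^ K :=
          mul_le_mul_of_nonneg_right f3 hN.le
      _ = (((a t / (n : ℤ) ^ s : ℤ) : ℝ) + 1) * ((n : ℝ) ^ K * (n : ℝ) ^ s) := by ring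

private theorem dsf_near {n K : ℕ} (hn : 1 ≤ n) {x q : EuclideanSpace ℝ (Fin d)} {c : Fin d → ℤ}
    (hq : q ∈ cube n K c) (hd : (n : ℝ) ^ K * dist x q ≤ 5 / 4) : nd (fl n K x) c ≤ 2 := by
  refine nd_le.2 fun t => ?_
  have hn' : (0 : ℝ) < n := by exact_mod_cast hn
  have hN : (0 : ℝ) < (n : ℝ) ^ K := by positivity
  have h1 : |x t - q t| ≤ dist x q := (sd_le_iff dist_nonneg).1 (sd_le_dist x q) t
  have h2 : |(n : ℝ) ^ K * x t - (n : ℝ) ^ K * q t| ≤ 5 / 4 := by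
    rw [← mul_sub, abs_mul, abs_of_nonneg hN.le]
    exact (mul_le_mul_of_nonneg_left h1 hN.le).trans hd
  obtain ⟨h3, h4⟩ := abs_le.1 h2
  obtain ⟨h5, h6⟩ := hq t
  rw [div_le_iff₀ hN] at h5
  rw [le_div_iff₀ hN] at h6
  have h7 : ⌊(n : ℝ) ^ K * x t⌋ ≤ c t + 2 := by
    have h8 : ⌊(n : ℝ) ^ K * x t⌋ < c t + 3 := by
      rw [Int.floor_lt]
      push_cast
      nlinarith [mul_comm (q t) ((n : ℝ) ^ K)]
    omega
  have h9 : c t - 2 ≤ ⌊(n : ℝ) ^ K * x t⌋ := by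
    rw [Int.le_floor]
    push_cast
    nlinarith [mul_comm (q t) ((n : ℝ) ^ K)]
  simp only [fl]
  omega

private theorem dsf_diam {n K : ℕ} (hn : 1 ≤ n) {q q' : EuclideanSpace ℝ (Fin d)}
    {c : Fin d → ℤ} (hq : q ∈ cube n K c) (hq' : q' ∈ cube n K c) :
    dist q q' ≤ (d : ℝ) * (1 / (n : ℝ) ^ K) := by
  have hn' : (0 : ℝ) < n := by exact_mod_cast hn
  have hN : (0 : ℝ) < (n : ℝ) ^ K := by positivity
  have h1 : sd q q' ≤ 1 / (n : ℝ) ^ K := by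
    refine (sd_le_iff (by positivity)).2 fun t => ?_
    obtain ⟨h5, h6⟩ := hq t
    obtain ⟨h7, h8⟩ := hq' t
    rw [add_div] at h6 h8
    rw [abs_le]
    constructor <;> linarith
  have h2 : Real.sqrt d ≤ d := by
    rcases Nat.eq_zero_or_pos d with h | h
    · subst h
      simp
    · have h3 : (1 : ℝ) ≤ d := by exact_mod_cast h
      rw [Real.sqrt_le_left (by linarith)]
      nlinarith
  calc dist q q' ≤ Real.sqrt d * sd q q' := dist_le_sd q q'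
    _ ≤ (d : ℝ) * (1 / (n : ℝ) ^ K) :=
      mul_le_mul h2 h1 dist_nonneg (Nat.cast_nonneg d)

private theorem dsf_sup_rpow_le {ι : Type*} {t : ℝ} (ht : 0 < t) (s : Finset ι) (F : ι → ℝ≥0) :
    ((s.sup F : ℝ≥0) : ℝ≥0∞) ^ t ≤ ∑ c ∈ s, (F c : ℝ≥0∞) ^ t := by
  rcases s.eq_empty_or_nonempty with h | h
  · subst h
    simp [ENNReal.zero_rpow_of_pos ht]
  · obtain ⟨c, hc, hsup⟩ := Finset.exists_mem_eq_sup s h F
    rw [hsup]
    exact Finset.single_le_sum (f := fun c => (F c : ℝ≥0∞) ^ t) (fun _ _ => zero_le) hc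

/-- the cubes at index distance at most 2 -/
private noncomputable def dsf_nb (c : Fin d → ℤ) : Finset (Fin d → ℤ) :=
  Fintype.piFinset fun t => Finset.Icc (c t - 2) (c t + 2)

private theorem dsf_mem_nb {Q c : Fin d → ℤ} : Q ∈ dsf_nb c ↔ nd c Q ≤ 2 := by
  simp only [dsf_nb, Fintype.mem_piFinset, Finset.mem_Icc, nd_le]
  refine forall_congr' fun t => ?_
  omega

private theorem dsf_card_nb (c : Fin d → ℤ) : (dsf_nb c).card = 5 ^ d := by
  simp only [dsf_nb, Fintype.card_piFinset, Int.card_Icc]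
  rw [Finset.prod_congr rfl fun t _ => show (c t + 2 + 1 - (c t - 2)).toNat = 5 by
    rw [show c t + 2 + 1 - (c t - 2) = 5 by ring]; rfl]
  simp

open Classical in
/-- the supremum of the radii near a cube -/
private noncomputable def dsf_S {ι : Type} [Fintype ι] (lev : ι → ℕ) (F : ι → Fin d → ℤ)
    (r : ι → ℝ) (l : ℕ) (a : Fin d → ℤ) : ℝ≥0 :=
  (Finset.univ.filter fun i => lev i = l ∧ nd (F i) a ≤ 2).sup fun i => (r i).toNNReal

private theorem dsf_le_S {ι : Type} [Fintype ι] {lev : ι → ℕ} {F : ι → Fin d → ℤ}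
    {r : ι → ℝ} {l : ℕ} {a : Fin d → ℤ} {i : ι} (h1 : lev i = l) (h2 : nd (F i) a ≤ 2) :
    r i ≤ dsf_S lev F r l a := by
  classical
  have h3 : (r i).toNNReal ≤ dsf_S lev F r l a :=
    Finset.le_sup (f := fun i => (r i).toNNReal)
      (Finset.mem_filter.2 ⟨Finset.mem_univ i, h1, h2⟩)
  exact (Real.le_coe_toNNReal _).trans (by exact_mod_cast h3)

/-- the cost -/
private theorem dsf_cost {ι : Type} [Fintype ι] (lev : ι → ℕ) (F : ι → Fin d → ℤ)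
    (r : ι → ℝ) {t : ℝ} (ht : 0 < t) (b : ℝ≥0) {A : ℝ} (hA : 0 ≤ A) :
    cost b t (fun l a => ((A.toNNReal * dsf_S lev F r l a : ℝ≥0) : ℝ≥0∞)) ≤
      ((5 ^ d : ℕ) : ℝ≥0∞) * ∑ i, ((b : ℝ≥0∞) ^ (lev i) * ENNReal.ofReal (A * r i)) ^ t := by
  classical
  have h1 : ∀ (l : ℕ) (a : Fin d → ℤ),
      ((b : ℝ≥0∞) ^ l * ((A.toNNReal * dsf_S lev F r l a : ℝ≥0) : ℝ≥0∞)) ^ t ≤
      ∑' i : ι, if lev i = l ∧ nd (F i) a ≤ 2 then
        ((b : ℝ≥0∞) ^ (lev i) * ENNReal.ofReal (A * r i)) ^ t else 0 := by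
    intro l a
    rw [tsum_fintype, ← Finset.sum_filter]
    have e1 : (b : ℝ≥0∞) ^ l * ((A.toNNReal * dsf_S lev F r l a : ℝ≥0) : ℝ≥0∞) =
        (((Finset.univ.filter fun i => lev i = l ∧ nd (F i) a ≤ 2).sup
          fun i => (b ^ l * A.toNNReal) * (r i).toNNReal : ℝ≥0) : ℝ≥0∞) := by
      rw [← NNReal.mul_finset_sup]
      unfold dsf_S
      push_cast
      ring
    rw [e1]
    refine (dsf_sup_rpow_le ht _ _).trans (le_of_eq ?_)
    refine Finset.sum_congr rfl fun i hi => ?_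
    obtain ⟨-, h2, -⟩ := Finset.mem_filter.1 hi
    rw [h2]
    congr 1
    rw [ENNReal.ofReal, Real.toNNReal_mul hA]
    push_cast
    ring
  have h2 : ∀ i : ι, (∑' (l : ℕ) (a : Fin d → ℤ), if lev i = l ∧ nd (F i) a ≤ 2 then
        ((b : ℝ≥0∞) ^ (lev i) * ENNReal.ofReal (A * r i)) ^ t else 0) =
      ((5 ^ d : ℕ) : ℝ≥0∞) * ((b : ℝ≥0∞) ^ (lev i) * ENNReal.ofReal (A * r i)) ^ t := by
    intro i
    rw [tsum_eq_single (lev i)]
    · rw [tsum_eq_sum (s := dsf_nb (F i))]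
      · rw [Finset.sum_congr rfl (g := fun _ =>
          ((b : ℝ≥0∞) ^ (lev i) * ENNReal.ofReal (A * r i)) ^ t) fun a ha =>
            if_pos ⟨rfl, dsf_mem_nb.1 ha⟩]
        rw [Finset.sum_const, dsf_card_nb, nsmul_eq_mul]
      · intro a ha
        exact if_neg fun h => ha (dsf_mem_nb.2 h.2)
    · intro l hl
      rw [ENNReal.tsum_eq_zero]
      intro a
      exact if_neg fun h => hl h.1.symm
  unfold cost
  calc ∑' (l : ℕ) (a : Fin d → ℤ),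
        ((b : ℝ≥0∞) ^ l * ((A.toNNReal * dsf_S lev F r l a : ℝ≥0) : ℝ≥0∞)) ^ t
      ≤ ∑' (l : ℕ) (a : Fin d → ℤ) (i : ι), if lev i = l ∧ nd (F i) a ≤ 2 then
        ((b : ℝ≥0∞) ^ (lev i) * ENNReal.ofReal (A * r i)) ^ t else 0 :=
        ENNReal.tsum_le_tsum fun l => ENNReal.tsum_le_tsum fun a => h1 l a
    _ = ∑' (l : ℕ) (i : ι) (a : Fin d → ℤ), if lev i = l ∧ nd (F i) a ≤ 2 then
        ((b : ℝ≥0∞) ^ (lev i) * ENNReal.ofReal (A * r i)) ^ t else 0 :=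
        tsum_congr fun l => ENNReal.tsum_comm
    _ = ∑' (i : ι) (l : ℕ) (a : Fin d → ℤ), if lev i = l ∧ nd (F i) a ≤ 2 then
        ((b : ℝ≥0∞) ^ (lev i) * ENNReal.ofReal (A * r i)) ^ t else 0 := ENNReal.tsum_comm
    _ = ∑' i : ι, ((5 ^ d : ℕ) : ℝ≥0∞) *
        ((b : ℝ≥0∞) ^ (lev i) * ENNReal.ofReal (A * r i)) ^ t := tsum_congr h2
    _ = ((5 ^ d : ℕ) : ℝ≥0∞) * ∑ i, ((b : ℝ≥0∞) ^ (lev i) * ENNReal.ofReal (A * r i)) ^ t := by
        rw [tsum_fintype, Finset.mul_sum]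
    _ ≤ _ := le_rfl

/-- Let `N_i = n^(k + lev i)`, `a_i` = the index of the cube of level `k + lev i` of the point `x i`
(floor, `fl`). Weights `σ l a' = sup { ofReal (A * r i) | lev i = l, nd (a_i) a' ≤ 2 }`,
`A = (4 C₂ + 2)/m₁`. Cost: `(b^l σ l a')^t ≤ ∑_{i : lev i = l, nd a_i a' ≤ 2} (b^l A r i)^t` and every `i`
is counted for at most `5^d` cubes `a'`. Admissible at depth `m` for `m` large (`m ≥ lev i` for all
`i`, `m ≥ m₀` of `chain_points` for `τ₂ = min τ (min_i R i) / 4`): for a crossing chain `f` and its points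
`p j` choose `s j : ι` by `hch`; label of `j` = `(lev (s j), anc n (m - lev (s j)) (f j))`. The cube of
the label is hit by the chain. Since `|x (s j) - p j| ≤ R ≤ 1/N` and `p j` is within
`τ₂ ≤ 1/(4N)` of its cube, `nd (a_(s j)) (the cube) ≤ 2`. If `i`, `j` have the same label then
`dist (p i) (p j) ≤ √d / N + 2 τ₂ ≤ d n R + R`, so `dist (x (s i)) (p j) ≤ (d n + 2) R (s i)` and
`dist (f (p i)) (f (p j)) ≤ 2 C₂ r (s i)`. So `sum_labels` (with
`W κ = (2 C₂ + 1) sup { r i | lev i = κ.1, nd (a_i) κ.2 ≤ 2 }`) gives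
`m₁ ≤ dist (f (p 0)) (f (p r)) ≤ 2 ∑_{labels} W`. -/
theorem good_of_data {n k : ℕ} (hn : 2 ≤ n) {ω : Cfg d} {z : Fin d → ℤ} (hz : Blk n k ω z)
    {Y : Type} [MetricSpace Y] (f : perc n ω ≃ₜ Y) {t : ℝ} (ht : 1 ≤ t)
    {C₂ m₁ τ : ℝ} (hC₂ : 0 < C₂) (hm₁ : 0 < m₁) (hτ : 0 < τ)
    (hfar : ∀ x y : perc n ω, 1 / (2 * (n : ℝ) ^ k) ≤ dist x y → m₁ ≤ dist (f x) (f y))
    {ι : Type} [Fintype ι] (x : ι → perc n ω) (R r : ι → ℝ) (lev : ι → ℕ)
    (hR : ∀ i, 1 / (n : ℝ) ^ (k + lev i + 1) < R i ∧ R i ≤ 1 / (n : ℝ) ^ (k + lev i))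
    (hr : ∀ i, 0 ≤ r i)
    (hball : ∀ i v, dist (x i) v ≤ ((d : ℝ) * n + 2) * R i → dist (f (x i)) (f v) ≤ C₂ * r i)
    (hch : ∀ (p : ℕ → perc n ω) (m : ℕ), (∀ j < m, dist (p j) (p (j + 1)) ≤ τ) →
      1 / (2 * (n : ℝ) ^ k) ≤ dist (p 0) (p m) → ∀ j ≤ m, ∃ i, dist (x i) (p j) ≤ R i ∧
        (j < m → dist (f (p j)) (f (p (j + 1))) ≤ r i))
    (b : ℝ≥0) :
    ∃ m, Good n m k ω z b t (((5 ^ d : ℕ) : ℝ≥0∞) *
      ∑ i, ((b : ℝ≥0∞) ^ (lev i) * ENNReal.ofReal ((4 * C₂ + 2) / m₁ * r i)) ^ t) := by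
  classical
  have hn1 : 1 ≤ n := by omega
  have hn' : (1 : ℝ) ≤ n := by exact_mod_cast hn1
  have hn0 : (0 : ℝ) < n := by linarith
  set L : ℕ := Finset.univ.sup lev with hL
  have hlevL : ∀ i, lev i ≤ L := fun i => Finset.le_sup (f := lev) (Finset.mem_univ i)
  set τ₂ : ℝ := min τ (1 / (4 * (n : ℝ) ^ (k + L + 1))) with hτ₂
  have hτ₂pos : 0 < τ₂ := lt_min hτ (by positivity)
  have hτ₂i : ∀ i, τ₂ ≤ 1 / (n : ℝ) ^ (k + lev i + 1) / 4 := by
    intro i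
    refine (min_le_right _ _).trans ?_
    rw [div_div, mul_comm ((n : ℝ) ^ (k + lev i + 1)) 4]
    apply one_div_le_one_div_of_le (by positivity)
    have h1 : (n : ℝ) ^ (k + lev i + 1) ≤ (n : ℝ) ^ (k + L + 1) :=
      pow_le_pow_right₀ hn' (by have := hlevL i; omega)
    linarith
  obtain ⟨m₀, hm₀⟩ := chain_points hn hz hτ₂pos
  set A : ℝ := (4 * C₂ + 2) / m₁ with hA
  have hA0 : 0 ≤ A := by positivity
  set F : ι → Fin d → ℤ := fun i => fl n (k + lev i) (x i : EuclideanSpace ℝ (Fin d)) with hF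
  set m : ℕ := max m₀ L with hm
  have hlevm : ∀ i, lev i ≤ m := fun i => (hlevL i).trans (le_max_right _ _)
  refine ⟨m, fun l a => ((A.toNNReal * dsf_S lev F r l a : ℝ≥0) : ℝ≥0∞), ?_,
    dsf_cost lev F r (by linarith) b hA0⟩
  intro e g hg
  obtain ⟨p, hp1, hp2, hp3⟩ := hm₀ m (le_max_left _ _) e g hg
  have H := hch p e (fun j hj => (hp1 j hj).trans (min_le_left _ _)) hp2
  obtain ⟨i₀, -⟩ := H 0 (Nat.zero_le e)
  have : Nonempty ι := ⟨i₀⟩
  choose! s hs1 hs2 using H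
  -- facts about one index
  have hRpos : ∀ i, 0 < R i := fun i => lt_trans (by positivity) (hR i).1
  have hfact : ∀ j ≤ e, ∃ q : EuclideanSpace ℝ (Fin d),
      q ∈ cube n (k + lev (s j)) (anc n (m - lev (s j)) (g j)) ∧
      dist (p j : EuclideanSpace ℝ (Fin d)) q ≤ 1 / (n : ℝ) ^ (k + lev (s j) + 1) / 4 ∧
      nd (F (s j)) (anc n (m - lev (s j)) (g j)) ≤ 2 := by
    intro j hj
    obtain ⟨q, hq, hpq⟩ := hp3 j hj
    have hlm := hlevm (s j)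
    have hq' : q ∈ cube n (k + lev (s j) + (m - lev (s j))) (g j) := by
      rwa [show k + lev (s j) + (m - lev (s j)) = k + m by omega]
    have hq2 := dsf_cube_anc hn1 hq'
    have h1 : dist (p j : EuclideanSpace ℝ (Fin d)) q ≤ R (s j) / 4 := by
      have := hτ₂i (s j)
      have := (hR (s j)).1
      linarith
    refine ⟨q, hq2, hpq.trans (hτ₂i (s j)), dsf_near hn1 hq2 ?_⟩
    have h2 : dist (x (s j) : EuclideanSpace ℝ (Fin d)) (p j) ≤ R (s j) := hs1 j hj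
    have h3 : dist (x (s j) : EuclideanSpace ℝ (Fin d)) q ≤ 5 / 4 * R (s j) := by
      have := dist_triangle (x (s j) : EuclideanSpace ℝ (Fin d)) (p j) q
      linarith
    have h4 : (n : ℝ) ^ (k + lev (s j)) * R (s j) ≤ 1 := by
      have h5 := (hR (s j)).2
      rwa [le_div_iff₀ (by positivity), mul_comm] at h5
    have h6 : (n : ℝ) ^ (k + lev (s j)) * dist (x (s j) : EuclideanSpace ℝ (Fin d)) q ≤
        (n : ℝ) ^ (k + lev (s j)) * (5 / 4 * R (s j)) :=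
      mul_le_mul_of_nonneg_left h3 (by positivity)
    linarith
  set lab : ℕ → (Σ _ : ℕ, (Fin d → ℤ)) :=
    fun j => ⟨lev (s j), anc n (m - lev (s j)) (g j)⟩ with hlab
  set W : (Σ _ : ℕ, (Fin d → ℤ)) → ℝ :=
    fun κ => (2 * C₂ + 1) * (dsf_S lev F r κ.1 κ.2 : ℝ) with hW
  have hW0 : ∀ κ, 0 ≤ W κ := fun κ => by
    show 0 ≤ (2 * C₂ + 1) * (dsf_S lev F r κ.1 κ.2 : ℝ)
    positivity
  have hrS : ∀ j ≤ e, r (s j) ≤ dsf_S lev F r (lab j).1 (lab j).2 := by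
    intro j hj
    obtain ⟨q, -, -, h3⟩ := hfact j hj
    exact dsf_le_S (i := s j) rfl h3
  have key := sum_labels (fun j => f (p j)) lab W hW0 e ?_ ?_
  · have h1 := (hfar (p 0) (p e) hp2).trans key
    -- the sum over labels is at most the length
    have h2 : (1 : ℝ) ≤ ∑ κ ∈ (Finset.range (e + 1)).image lab,
        A * (dsf_S lev F r κ.1 κ.2 : ℝ) := by
      have e1 : 2 * ∑ κ ∈ (Finset.range (e + 1)).image lab, W κ =
          m₁ * ∑ κ ∈ (Finset.range (e + 1)).image lab, A * (dsf_S lev F r κ.1 κ.2 : ℝ) := by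
        rw [Finset.mul_sum, Finset.mul_sum]
        refine Finset.sum_congr rfl fun κ _ => ?_
        show 2 * ((2 * C₂ + 1) * (dsf_S lev F r κ.1 κ.2 : ℝ)) =
          m₁ * ((4 * C₂ + 2) / m₁ * (dsf_S lev F r κ.1 κ.2 : ℝ))
        field_simp
        ring
      rw [e1] at h1
      have h3 : m₁ * 1 ≤ m₁ * ∑ κ ∈ (Finset.range (e + 1)).image lab,
          A * (dsf_S lev F r κ.1 κ.2 : ℝ) := by linarith
      exact le_of_mul_le_mul_left h3 hm₁
    have h3 : (1 : ℝ≥0) ≤ ∑ κ ∈ (Finset.range (e + 1)).image lab,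
        A.toNNReal * dsf_S lev F r κ.1 κ.2 := by
      rw [← NNReal.coe_le_coe]
      push_cast
      rw [Real.coe_toNNReal A hA0]
      exact h2
    have h4 : (1 : ℝ≥0∞) ≤ ∑ κ ∈ (Finset.range (e + 1)).image lab,
        ((A.toNNReal * dsf_S lev F r κ.1 κ.2 : ℝ≥0) : ℝ≥0∞) := by
      exact_mod_cast h3
    refine h4.trans ?_
    unfold len
    rw [← Finset.sum_sigma (Finset.range (m + 1)) (fun l => hits n m l e g)
      (fun κ => ((A.toNNReal * dsf_S lev F r κ.1 κ.2 : ℝ≥0) : ℝ≥0∞))]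
    refine Finset.sum_le_sum_of_subset ?_
    intro κ hκ
    obtain ⟨j, hj, rfl⟩ := Finset.mem_image.1 hκ
    have hj' : j ≤ e := by
      have := Finset.mem_range.1 hj
      omega
    rw [Finset.mem_sigma]
    refine ⟨Finset.mem_range.2 ?_, mem_hits.2 ⟨j, hj', rfl⟩⟩
    have := hlevm (s j)
    show lev (s j) < m + 1
    omega
  · intro i hi j hj hij
    have h1 : lev (s i) = lev (s j) ∧
        anc n (m - lev (s i)) (g i) = anc n (m - lev (s j)) (g j) := by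
      simpa [lab] using hij
    obtain ⟨q, hq, hpq, -⟩ := hfact i hi
    obtain ⟨q', hq', hpq', -⟩ := hfact j hj
    rw [← h1.2, ← h1.1] at hq'
    have hqq := dsf_diam hn1 hq hq'
    have hRi := (hR (s i)).1
    rw [← h1.1] at hpq'
    have hN : 1 / (n : ℝ) ^ (k + lev (s i)) ≤ n * R (s i) := by
      have h2 : 1 / (n : ℝ) ^ (k + lev (s i)) = n * (1 / (n : ℝ) ^ (k + lev (s i) + 1)) := by
        rw [pow_succ]
        field_simp
      rw [h2]
      exact mul_le_mul_of_nonneg_left hRi.le hn0.le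
    have hdN : (d : ℝ) * (1 / (n : ℝ) ^ (k + lev (s i))) ≤ d * (n * R (s i)) :=
      mul_le_mul_of_nonneg_left hN (Nat.cast_nonneg d)
    have hRp := hRpos (s i)
    have hd0 : (0 : ℝ) ≤ (d : ℝ) * n * R (s i) := by positivity
    have hxi : dist (x (s i) : EuclideanSpace ℝ (Fin d)) (p i) ≤ R (s i) := hs1 i hi
    have hij2 : dist (p i : EuclideanSpace ℝ (Fin d)) (p j) ≤
        (d : ℝ) * n * R (s i) + R (s i) / 2 := by
      have t1 := dist_triangle (p i : EuclideanSpace ℝ (Fin d)) q (p j)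
      have t2 := dist_triangle q q' (p j : EuclideanSpace ℝ (Fin d))
      rw [dist_comm q' (p j : EuclideanSpace ℝ (Fin d))] at t2
      linarith
    have hxj : dist (x (s i) : EuclideanSpace ℝ (Fin d)) (p j) ≤
        ((d : ℝ) * n + 2) * R (s i) := by
      have t1 := dist_triangle (x (s i) : EuclideanSpace ℝ (Fin d)) (p i) (p j)
      linarith
    have hxi' : dist (x (s i) : EuclideanSpace ℝ (Fin d)) (p i) ≤
        ((d : ℝ) * n + 2) * R (s i) := by linarith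
    have b1 := hball (s i) (p i) hxi'
    have b2 := hball (s i) (p j) hxj
    have b3 := dist_triangle (f (p i)) (f (x (s i))) (f (p j))
    rw [dist_comm (f (p i)) (f (x (s i)))] at b3
    have h2 := hrS i hi
    have h3 : C₂ * r (s i) ≤ C₂ * (dsf_S lev F r (lab i).1 (lab i).2 : ℝ) :=
      mul_le_mul_of_nonneg_left h2 hC₂.le
    have h4 : (0 : ℝ) ≤ dsf_S lev F r (lab i).1 (lab i).2 := NNReal.coe_nonneg _
    show dist (f (p i)) (f (p j)) ≤ (2 * C₂ + 1) * (dsf_S lev F r (lab i).1 (lab i).2 : ℝ)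
    linarith
  · intro i hi
    have h1 := hs2 i hi.le hi
    have h2 := hrS i hi.le
    have h3 : (0 : ℝ) ≤ dsf_S lev F r (lab i).1 (lab i).2 := NNReal.coe_nonneg _
    show dist (f (p i)) (f (p (i + 1))) ≤ (2 * C₂ + 1) * (dsf_S lev F r (lab i).1 (lab i).2 : ℝ)
    nlinarith

end gtFQ
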