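import Mathlib

/-! The cost of one term. -/

open scoped NNReal ENNReal

namespace gtFQ

/-- Pure computation of the cost. With `r ≤ C₃ R^c`, `R ≤ n^{-(k+l)}`, `b ≤ n^β`,
`β = c (1 - s/t)`: `b^l ≤ (n^l)^β ≤ R^{-β} ≤ (C₃/r)^{β/c}`, so
`(b^l A r)^t ≤ A^t C₃^(β t/c) r^(t - β t/c) = A^t C₃^(t - s) r^s`. -/
theorem cost_term {n k l : ℕ} (hn : 2 ≤ n) {b : ℝ≥0} {c C₃ A R r s t : ℝ} (hc : 0 < c)
    (hC₃ : 0 < C₃) (hA : 0 < A) (hR : 0 < R) (hr : 0 < r) (hs : 0 < s) (hst : s < t)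
    (hR' : R ≤ 1 / (n : ℝ) ^ (k + l)) (hrR : r ≤ C₃ * R ^ c)
    (hb : (b : ℝ) ≤ (n : ℝ) ^ (c * (1 - s / t))) :
    ((b : ℝ≥0∞) ^ l * ENNReal.ofReal (A * r)) ^ t ≤ ENNReal.ofReal (A ^ t * C₃ ^ (t - s) * r ^ s) := by
  have ht : 0 < t := hs.trans hst
  have hn1 : (1 : ℝ) ≤ (n : ℝ) := by exact_mod_cast (by omega : 1 ≤ n)
  have hn0 : (0 : ℝ) ≤ (n : ℝ) := by linarith
  have hx : 0 < 1 - s / t := by
    rw [sub_pos, div_lt_one ht]
    exact hst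
  have hβ : 0 < c * (1 - s / t) := mul_pos hc hx
  have hnl : (n : ℝ) ^ l ≤ 1 / R := by
    have h1 : (n : ℝ) ^ l ≤ (n : ℝ) ^ (k + l) := pow_le_pow_right₀ hn1 (by omega)
    have h2 : (0 : ℝ) < (n : ℝ) ^ (k + l) := by positivity
    have h3 : (n : ℝ) ^ (k + l) ≤ 1 / R := by
      rw [le_div_iff₀ hR]
      rw [le_div_iff₀ h2] at hR'
      linarith
    exact h1.trans h3
  have h1 : (b : ℝ) ^ l ≤ ((n : ℝ) ^ (c * (1 - s / t))) ^ l :=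
    pow_le_pow_left₀ b.coe_nonneg hb l
  have h2 : ((n : ℝ) ^ (c * (1 - s / t))) ^ l = ((n : ℝ) ^ l) ^ (c * (1 - s / t)) := by
    rw [← Real.rpow_natCast, ← Real.rpow_mul hn0, mul_comm (c * (1 - s / t)), Real.rpow_mul hn0,
      Real.rpow_natCast]
  have h3 : ((n : ℝ) ^ l) ^ (c * (1 - s / t)) ≤ (1 / R) ^ (c * (1 - s / t)) :=
    Real.rpow_le_rpow (by positivity) hnl hβ.le
  have h4 : (1 / R) ^ (c * (1 - s / t)) = ((1 / R) ^ c) ^ (1 - s / t) :=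
    Real.rpow_mul (by positivity) _ _
  have hRc : 0 < R ^ c := Real.rpow_pos_of_pos hR c
  have h5 : (1 / R) ^ c ≤ C₃ / r := by
    rw [Real.div_rpow zero_le_one hR.le, Real.one_rpow, div_le_div_iff₀ hRc hr]
    linarith
  have h6 : ((1 / R) ^ c) ^ (1 - s / t) ≤ (C₃ / r) ^ (1 - s / t) :=
    Real.rpow_le_rpow (by positivity) h5 hx.le
  have h7 : (b : ℝ) ^ l ≤ (C₃ / r) ^ (1 - s / t) := by
    calc (b : ℝ) ^ l ≤ ((n : ℝ) ^ l) ^ (c * (1 - s / t)) := h2 ▸ h1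
      _ ≤ (1 / R) ^ (c * (1 - s / t)) := h3
      _ ≤ (C₃ / r) ^ (1 - s / t) := h4 ▸ h6
  have hbl : (0 : ℝ) ≤ (b : ℝ) ^ l := pow_nonneg b.coe_nonneg l
  have hAr : 0 < A * r := mul_pos hA hr
  have hCr : 0 < C₃ / r := div_pos hC₃ hr
  have h8 : ((b : ℝ) ^ l * (A * r)) ^ t ≤ A ^ t * C₃ ^ (t - s) * r ^ s := by
    calc ((b : ℝ) ^ l * (A * r)) ^ t ≤ ((C₃ / r) ^ (1 - s / t) * (A * r)) ^ t :=
          Real.rpow_le_rpow (by positivity) (mul_le_mul_of_nonneg_right h7 hAr.le) ht.le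
      _ = (C₃ / r) ^ (t - s) * (A ^ t * r ^ t) := by
          rw [Real.mul_rpow (by positivity) hAr.le, Real.mul_rpow hA.le hr.le,
            ← Real.rpow_mul hCr.le]
          congr 2
          field_simp
      _ = C₃ ^ (t - s) / r ^ (t - s) * (A ^ t * r ^ t) := by
          rw [Real.div_rpow hC₃.le hr.le]
      _ = A ^ t * C₃ ^ (t - s) * (r ^ t / r ^ (t - s)) := by ring
      _ = A ^ t * C₃ ^ (t - s) * r ^ s := by
          rw [← Real.rpow_sub hr]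
          congr 2
          ring
  have e1 : ((b : ℝ≥0∞) ^ l * ENNReal.ofReal (A * r)) =
      ENNReal.ofReal ((b : ℝ) ^ l * (A * r)) := by
    rw [ENNReal.ofReal_mul hbl, ENNReal.ofReal_pow b.coe_nonneg, ENNReal.ofReal_coe_nnreal]
  rw [e1, ENNReal.ofReal_rpow_of_nonneg (by positivity) ht.le]
  exact ENNReal.ofReal_le_ofReal h8

end gtFQ
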