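import Pool.Agent.Lib.gtFQ.DsC
import Pool.Agent.Lib.gtFQ.DsF
import Pool.Agent.Lib.gtFQ.DsG0
import Pool.Agent.Lib.gtFP.FinB

/-! If the conformal Hausdorff dimension of `F` is less than `s < t` then blocks are `Gz`. -/

open MeasureTheory Filter Topology
open scoped NNReal ENNReal

namespace gtFQ

open gtFP

variable {d : ℕ}

private theorem dsG_lev {n k : ℕ} (hn : 2 ≤ n) {R : ℝ} (hR : 0 < R) (hR1 : R ≤ 1 / (n : ℝ) ^ k) :
    ∃ l : ℕ, 1 / (n : ℝ) ^ (k + l + 1) < R ∧ R ≤ 1 / (n : ℝ) ^ (k + l) := by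
  classical
  have hn1 : (1 : ℝ) < n := by exact_mod_cast (by omega : 1 < n)
  have hex : ∃ l : ℕ, 1 / (n : ℝ) ^ (k + l + 1) < R := by
    obtain ⟨l, hl⟩ := pow_unbounded_of_one_lt (1 / R) hn1
    refine ⟨l, ?_⟩
    rw [div_lt_iff₀ (by positivity)]
    have h1 : (n : ℝ) ^ l ≤ (n : ℝ) ^ (k + l + 1) := pow_le_pow_right₀ hn1.le (by omega)
    have h2 : 1 < R * (n : ℝ) ^ l := by
      rw [div_lt_iff₀ hR] at hl
      linarith
    calc (1 : ℝ) < R * (n : ℝ) ^ l := h2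
      _ ≤ R * (n : ℝ) ^ (k + l + 1) := mul_le_mul_of_nonneg_left h1 hR.le
  refine ⟨Nat.find hex, Nat.find_spec hex, ?_⟩
  rcases Nat.eq_zero_or_pos (Nat.find hex) with h0 | h0
  · rw [h0, add_zero]
    exact hR1
  · obtain ⟨l', hl'⟩ : ∃ l', Nat.find hex = l' + 1 := ⟨Nat.find hex - 1, by omega⟩
    have h3 := Nat.find_min hex (show l' < Nat.find hex by omega)
    rw [hl', ← add_assoc]
    exact not_lt.1 h3

private theorem dsG_m1 {X Y : Type} [MetricSpace X] [MetricSpace Y] [CompactSpace X] (f : X ≃ₜ Y)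
    {ρ : ℝ} (hρ : 0 < ρ) : ∃ m₁ : ℝ, 0 < m₁ ∧ ∀ x y : X, ρ ≤ dist x y → m₁ ≤ dist (f x) (f y) := by
  haveI : CompactSpace Y := f.compactSpace
  have huc : UniformContinuous f.symm :=
    CompactSpace.uniformContinuous_of_continuous f.symm.continuous
  obtain ⟨m₁, hm₁, h⟩ := Metric.uniformContinuous_iff.1 huc ρ hρ
  refine ⟨m₁, hm₁, fun x y hxy => ?_⟩
  by_contra hlt
  push Not at hlt
  have h1 := h hlt
  rw [f.symm_apply_apply, f.symm_apply_apply] at h1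
  linarith

/-- Assembly: from `confDimH < s` get `Y`, `f` quasisymmetric with `dimH Y < s` (`iInf_lt_iff`);
`F` is compact (`isCompact_perc`), `L = 1/(4 n^k)`, `C' = d n + 2`; `c, C₂, C₃` from `cover_data`;
`m₁ > 0` from the uniform continuity of `f.symm`; `i` with `1 + 1/(i+1) ≤ n^(c (1 - s/t))`. For each `j`
choose `ε` with `5^d A^t C₃^(t-s) ε ≤ 1/(j+1)`, `δ = 1/n^k`, `lev i` = the largest `l` with
`R i ≤ 1/n^(k+l)`, and apply `good_of_data`, `cost_term`. -/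
theorem gz_of_confDimH_lt {n k : ℕ} (hn : 2 ≤ n) {ω : Cfg d} {z : Fin d → ℤ}
    (hz : Blk n k ω z) {t s : ℝ} (hs : 0 < s) (hst : s < t) (ht : 1 ≤ t)
    (h : confDimH (perc n ω) < ENNReal.ofReal s) :
    ∃ i : ℕ, Gz n k ω z (1 + 1 / ((i : ℝ≥0) + 1)) t := by
  classical
  have hn1 : (1 : ℝ) < n := by exact_mod_cast (by omega : 1 < n)
  have hn0 : (0 : ℝ) < n := by linarith
  unfold confDimH at h
  simp only [iInf_lt_iff] at h
  obtain ⟨Y, hY, ⟨f, hf⟩, hdim⟩ := h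
  haveI hcomp : CompactSpace (perc n ω) := isCompact_iff_compactSpace.1
    (isCompact_perc (by omega) ω)
  have hL : (0 : ℝ) < 1 / (4 * (n : ℝ) ^ k) := by positivity
  have hC' : (1 : ℝ) ≤ (d : ℝ) * n + 2 := by
    have : (0 : ℝ) ≤ (d : ℝ) * n := by positivity
    linarith
  obtain ⟨c, C₂, C₃, hc, hC₂, hC₃, hcov⟩ := cover_data f hf hs hL hC' hdim
  obtain ⟨m₁, hm₁, hfar⟩ := dsG_m1 f (show (0 : ℝ) < 1 / (2 * (n : ℝ) ^ k) by positivity)
  have ht0 : 0 < t := by linarith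
  have hβ : 0 < c * (1 - s / t) := by
    have : s / t < 1 := by
      rw [div_lt_one ht0]
      exact hst
    apply mul_pos hc
    linarith
  obtain ⟨i, hi⟩ := exists_nat_one_div_lt
    (show (0 : ℝ) < (n : ℝ) ^ (c * (1 - s / t)) - 1 by
      have := Real.one_lt_rpow hn1 hβ
      linarith)
  refine ⟨i, fun j => ?_⟩
  set A : ℝ := (4 * C₂ + 2) / m₁ with hA
  have hA0 : 0 < A := by positivity
  set B : ℝ := (5 : ℝ) ^ d * (A ^ t * C₃ ^ (t - s)) with hB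
  have hB0 : 0 < B := by positivity
  have hε : (0 : ℝ) < 1 / (((j : ℝ) + 1) * B) := by positivity
  obtain ⟨τ, ι, hι, x, R, r, hτ, hRδ, hrδ, hsum, hball, hrR, hch⟩ :=
    hcov (1 / (((j : ℝ) + 1) * B)) (1 / (n : ℝ) ^ k) hε (by positivity)
  have hlev : ∀ a : ι, ∃ l : ℕ, 1 / (n : ℝ) ^ (k + l + 1) < R a ∧ R a ≤ 1 / (n : ℝ) ^ (k + l) :=
    fun a => dsG_lev hn (hRδ a).1 (hRδ a).2
  choose lev hlev using hlev
  have h2L : 2 * (1 / (4 * (n : ℝ) ^ k)) = 1 / (2 * (n : ℝ) ^ k) := by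
    field_simp
    norm_num
  obtain ⟨m, hm⟩ := good_of_data hn hz f ht hC₂ hm₁ hτ hfar x R r lev hlev
    (fun a => (hrδ a).1.le) hball (fun p m h1 h2 => hch p m h1 (by rw [h2L]; exact h2))
    (1 + 1 / ((i : ℝ≥0) + 1))
  obtain ⟨σ, hσ1, hσ2⟩ := hm
  refine ⟨m, σ, hσ1, hσ2.trans ?_⟩
  have hterm : ∀ a : ι, (((1 + 1 / ((i : ℝ≥0) + 1) : ℝ≥0) : ℝ≥0∞) ^ (lev a) *
      ENNReal.ofReal (A * r a)) ^ t ≤ ENNReal.ofReal (A ^ t * C₃ ^ (t - s) * r a ^ s) := by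
    intro a
    apply cost_term (k := k) hn hc hC₃ hA0 (hRδ a).1 (hrδ a).1 hs hst (hlev a).2 (hrR a)
    push_cast
    linarith
  have hsum2 : ∑ a, (((1 + 1 / ((i : ℝ≥0) + 1) : ℝ≥0) : ℝ≥0∞) ^ (lev a) *
      ENNReal.ofReal (A * r a)) ^ t ≤
        ENNReal.ofReal (A ^ t * C₃ ^ (t - s) * (1 / (((j : ℝ) + 1) * B))) := by
    calc ∑ a, (((1 + 1 / ((i : ℝ≥0) + 1) : ℝ≥0) : ℝ≥0∞) ^ (lev a) *
        ENNReal.ofReal (A * r a)) ^ t
        ≤ ∑ a, ENNReal.ofReal (A ^ t * C₃ ^ (t - s) * r a ^ s) :=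
          Finset.sum_le_sum fun a _ => hterm a
      _ = ENNReal.ofReal (∑ a, A ^ t * C₃ ^ (t - s) * r a ^ s) := by
          rw [ENNReal.ofReal_sum_of_nonneg]
          intro a _
          have := (hrδ a).1
          positivity
      _ = ENNReal.ofReal (A ^ t * C₃ ^ (t - s) * ∑ a, r a ^ s) := by
          rw [Finset.mul_sum]
      _ ≤ _ := by
          apply ENNReal.ofReal_le_ofReal
          apply mul_le_mul_of_nonneg_left hsum
          positivity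
  calc ((5 ^ d : ℕ) : ℝ≥0∞) * ∑ a, (((1 + 1 / ((i : ℝ≥0) + 1) : ℝ≥0) : ℝ≥0∞) ^ (lev a) *
      ENNReal.ofReal (A * r a)) ^ t
      ≤ ((5 ^ d : ℕ) : ℝ≥0∞) *
        ENNReal.ofReal (A ^ t * C₃ ^ (t - s) * (1 / (((j : ℝ) + 1) * B))) := by
        gcongr
    _ = ENNReal.ofReal ((5 : ℝ) ^ d * (A ^ t * C₃ ^ (t - s) * (1 / (((j : ℝ) + 1) * B)))) := by
        rw [ENNReal.ofReal_mul (by positivity : (0 : ℝ) ≤ (5 : ℝ) ^ d)]
        congr 1
        rw [show ((5 : ℝ) ^ d) = ((5 ^ d : ℕ) : ℝ) by push_cast; rfl, ENNReal.ofReal_natCast]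
    _ = ENNReal.ofReal (1 / ((j : ℝ) + 1)) := by
        congr 1
        rw [hB]
        have h1 : (5 : ℝ) ^ d ≠ 0 := by positivity
        have h2 : A ^ t ≠ 0 := by positivity
        have h3 : C₃ ^ (t - s) ≠ 0 := by positivity
        have h4 : (j : ℝ) + 1 ≠ 0 := by positivity
        field_simp
    _ ≤ 1 / ((j : ℝ≥0∞) + 1) := by
        rw [ENNReal.ofReal_div_of_pos (by positivity), ENNReal.ofReal_one,
          ENNReal.ofReal_add (by positivity) zero_le_one, ENNReal.ofReal_natCast, ENNReal.ofReal_one]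

end gtFQ
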