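import Pool.Agent.Lib.gtFQ.Exp2a

/-! Measurability of `LL2`, expectation of `YY2` (ports of gtFP/MeasB.lean, gtFP/Expc.lean). -/

open MeasureTheory ProbabilityTheory
open scoped NNReal ENNReal

namespace gtFQ

open gtFP

variable {d : ℕ}

private theorem meas_ss' {n H k : ℕ} (hn : 1 ≤ n) (z : Fin d → ℤ) {t : ℝ} {η : ℝ≥0∞} :
    MeasurableSet[sg (Lv d k H)] {ω : Cfg d | SS n H k ω z t η} :=
  sg_mono (show LvN n k H z ⊆ Lv d k H from fun _ hi => ⟨hi.1, hi.2.1⟩) _ (meas_ss hn z)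

/-- Independence of the past and the event that a cube has no single scale weights. -/
private theorem lint_past_ss {n H : ℕ} (hn : 1 ≤ n)
    (p : unitInterval) (j : ℕ) (z : Fin d → ℤ) {t : ℝ} {η : ℝ≥0∞} (f : Cfg d → ℝ≥0∞)
    (hf : @Measurable _ _ (sg (Lv d 0 (H * j))) _ f) :
    ∫⁻ ω, f ω * (open Classical in if SS n H (H * j) ω z t η then (0 : ℝ≥0∞) else 1) ∂(percLaw d p) =
      (∫⁻ ω, f ω ∂(percLaw d p)) * percLaw d p {ω | ¬ SS n H 0 ω 0 t η} := by
  classical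
  have hdis : Disjoint (Lv d 0 (H * j)) (Lv d (H * j) H) := by
    rw [Set.disjoint_left]
    rintro i ⟨_, h2⟩ ⟨h3, _⟩
    omega
  have hind : Indep (sg (Lv d 0 (H * j))) (sg (Lv d (H * j) H)) (percLaw d p) := sg_indep hdis
  have hg : @Measurable _ _ (sg (Lv d (H * j) H)) _
      (fun ω : Cfg d => if SS n H (H * j) ω z t η then (0 : ℝ≥0∞) else 1) :=
    Measurable.ite (meas_ss' hn z) measurable_const measurable_const
  have h := lintegral_mul_eq_lintegral_mul_lintegral_of_independent_measurableSpace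
    (sg_le _) (sg_le _) hind hf hg
  have h2 : ∫⁻ ω, (if SS n H (H * j) ω z t η then (0 : ℝ≥0∞) else 1) ∂(percLaw d p) =
      percLaw d p {ω | ¬ SS n H 0 ω 0 t η} := by
    rw [← prob_ss (n := n) (H := H) (k := H * j) hn z p]
    have h3 : (fun ω : Cfg d => if SS n H (H * j) ω z t η then (0 : ℝ≥0∞) else 1) =
        Set.indicator {ω | ¬ SS n H (H * j) ω z t η} 1 := by
      funext ω
      by_cases hs : SS n H (H * j) ω z t η
      · simp [Set.indicator_apply, hs]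
      · simp [Set.indicator_apply, hs]
    rw [h3, lintegral_indicator_one]
    exact (sg_le _ _ (meas_ss' hn z)).compl
  rw [← h2, ← h]

private theorem meas_YY2 {n H M : ℕ} (hn : 1 ≤ n) {δ K : ℝ≥0} {t : ℝ} {η : ℝ≥0∞} (j : ℕ) :
    Measurable (fun ω : Cfg d => YY2 n H M δ K t η j ω) := by
  classical
  have h1 : (fun ω : Cfg d => YY2 n H M δ K t η j ω) = fun ω =>
      ∑ c ∈ boxF d (n ^ (H * j)), if Kept n (H * j) ω c then
        (LL2 n H M δ K t η ω j c : ℝ≥0∞) ^ t else 0 := by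
    funext ω
    simp only [YY2, Rf]
    rw [Finset.sum_filter]
  rw [h1]
  refine Finset.measurable_sum _ fun c _ => ?_
  refine Measurable.ite (sg_le _ _ (meas_kept c)) ?_ measurable_const
  have h2 : Measurable (fun ω : Cfg d => LL2 n H M δ K t η ω j c) :=
    (meas_LL2 hn j c).mono (sg_le _) le_rfl
  exact (measurable_coe_nnreal_ennreal.comp h2).pow_const t

/-- like `gtFP.lintegral_YY_succ`; the event `{not SS n H (H*j) z}` is in `sg (Lv d (H*j) H)`
(`meas_ss`, `LvN ⊆ Lv`), probability `prob_ss` -/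
theorem lintegral_YY2_succ {n H M : ℕ} (hn : 1 ≤ n) {δ K : ℝ≥0} {t : ℝ} (ht : 1 ≤ t) {η : ℝ≥0∞}
    (p : unitInterval) (j : ℕ) :
    ∫⁻ ω, YY2 n H M δ K t η (j + 1) ω ∂(percLaw d p) ≤
      (CC d M t * (((n ^ H) ^ d : ℕ) * (δ : ℝ≥0∞) ^ t +
        (K : ℝ≥0∞) ^ t * ((7 ^ d : ℕ) : ℝ≥0∞) ^ t * η +
          ((n ^ H) ^ d : ℕ) * ((7 ^ d : ℕ) * percLaw d p {ω | ¬ SS n H 0 ω 0 t η}))) *
        ∫⁻ ω, YY2 n H M δ K t η j ω ∂(percLaw d p) := by
  classical
  set μ := percLaw d p with hμ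
  set P : ℝ≥0∞ := μ {ω | ¬ SS n H 0 ω 0 t η} with hP
  set A : ℝ≥0∞ := (((n ^ H) ^ d : ℕ) : ℝ≥0∞) * (δ : ℝ≥0∞) ^ t +
    (K : ℝ≥0∞) ^ t * ((7 ^ d : ℕ) : ℝ≥0∞) ^ t * η with hA
  set B : ℝ≥0∞ := (((n ^ H) ^ d : ℕ) : ℝ≥0∞) with hB
  have hfm : ∀ Q : Fin d → ℤ, @Measurable _ _ (sg (Lv d 0 (H * j))) _
      (fun ω : Cfg d => if Kept n (H * j) ω Q then (LL2 n H M δ K t η ω j Q : ℝ≥0∞) ^ t
        else 0) := by
    intro Q
    refine Measurable.ite (meas_kept Q) ?_ measurable_const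
    exact (measurable_coe_nnreal_ennreal.comp (meas_LL2 hn j Q)).pow_const t
  have hfm' : ∀ Q : Fin d → ℤ, Measurable
      (fun ω : Cfg d => if Kept n (H * j) ω Q then (LL2 n H M δ K t η ω j Q : ℝ≥0∞) ^ t
        else 0) :=
    fun Q => (hfm Q).mono (sg_le _) le_rfl
  have hbm : ∀ z : Fin d → ℤ, Measurable
      (fun ω : Cfg d => if SS n H (H * j) ω z t η then (0 : ℝ≥0∞) else 1) := fun z =>
    Measurable.ite (sg_le _ _ (meas_ss' hn z)) measurable_const measurable_const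
  have hYY : ∀ ω : Cfg d, YY2 n H M δ K t η j ω = ∑ Q ∈ boxF d (n ^ (H * j)),
      (if Kept n (H * j) ω Q then (LL2 n H M δ K t η ω j Q : ℝ≥0∞) ^ t else 0) := by
    intro ω
    simp only [YY2, Rf]
    rw [Finset.sum_filter]
  have hone : ∀ Q : Fin d → ℤ,
      ∫⁻ ω, (if Kept n (H * j) ω Q then (LL2 n H M δ K t η ω j Q : ℝ≥0∞) ^ t else 0) *
        (A + B * ∑ z ∈ nbF Q, if SS n H (H * j) ω z t η then 0 else 1) ∂μ =
      (∫⁻ ω, (if Kept n (H * j) ω Q then (LL2 n H M δ K t η ω j Q : ℝ≥0∞) ^ t else 0) ∂μ) *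
        (A + B * ((7 ^ d : ℕ) * P)) := by
    intro Q
    have e1 : ∀ ω : Cfg d,
        (if Kept n (H * j) ω Q then (LL2 n H M δ K t η ω j Q : ℝ≥0∞) ^ t else 0) *
          (A + B * ∑ z ∈ nbF Q, if SS n H (H * j) ω z t η then 0 else 1) =
        (if Kept n (H * j) ω Q then (LL2 n H M δ K t η ω j Q : ℝ≥0∞) ^ t else 0) * A +
          B * ∑ z ∈ nbF Q,
            (if Kept n (H * j) ω Q then (LL2 n H M δ K t η ω j Q : ℝ≥0∞) ^ t else 0) *
              (if SS n H (H * j) ω z t η then (0 : ℝ≥0∞) else 1) := by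
      intro ω
      rw [← Finset.mul_sum]
      ring
    simp_rw [e1]
    have hm : Measurable (fun ω : Cfg d => ∑ z ∈ nbF Q,
        (if Kept n (H * j) ω Q then (LL2 n H M δ K t η ω j Q : ℝ≥0∞) ^ t else 0) *
          (if SS n H (H * j) ω z t η then (0 : ℝ≥0∞) else 1)) :=
      Finset.measurable_fun_sum _ fun z _ => (hfm' Q).mul (hbm z)
    have hsum : ∫⁻ ω, ∑ z ∈ nbF Q,
        (if Kept n (H * j) ω Q then (LL2 n H M δ K t η ω j Q : ℝ≥0∞) ^ t else 0) *
          (if SS n H (H * j) ω z t η then (0 : ℝ≥0∞) else 1) ∂μ =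
        ∑ z ∈ nbF Q, ∫⁻ ω,
        (if Kept n (H * j) ω Q then (LL2 n H M δ K t η ω j Q : ℝ≥0∞) ^ t else 0) *
          (if SS n H (H * j) ω z t η then (0 : ℝ≥0∞) else 1) ∂μ :=
      lintegral_finsetSum _ fun z _ => (hfm' Q).mul (hbm z)
    rw [lintegral_add_left ((hfm' Q).mul_const _), lintegral_mul_const _ (hfm' Q),
      lintegral_const_mul _ hm, hsum,
      Finset.sum_congr rfl fun z _ => lint_past_ss hn p j z _ (hfm Q),
      Finset.sum_const, card_nbF, nsmul_eq_mul]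
    ring
  calc ∫⁻ ω, YY2 n H M δ K t η (j + 1) ω ∂μ
      ≤ ∫⁻ ω, CC d M t * ∑ Q ∈ boxF d (n ^ (H * j)),
            (if Kept n (H * j) ω Q then (LL2 n H M δ K t η ω j Q : ℝ≥0∞) ^ t else 0) *
            (A + B * ∑ z ∈ nbF Q, if SS n H (H * j) ω z t η then 0 else 1) ∂μ :=
        lintegral_mono fun ω => YY2_succ_le' hn ht j ω
    _ = CC d M t * ∑ Q ∈ boxF d (n ^ (H * j)),
          ∫⁻ ω, (if Kept n (H * j) ω Q then (LL2 n H M δ K t η ω j Q : ℝ≥0∞) ^ t else 0) *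
            (A + B * ∑ z ∈ nbF Q, if SS n H (H * j) ω z t η then 0 else 1) ∂μ := by
        have hm1 : ∀ Q : Fin d → ℤ, Measurable (fun ω : Cfg d =>
            (if Kept n (H * j) ω Q then (LL2 n H M δ K t η ω j Q : ℝ≥0∞) ^ t else 0) *
            (A + B * ∑ z ∈ nbF Q, if SS n H (H * j) ω z t η then 0 else 1)) := fun Q =>
          (hfm' Q).mul (measurable_const.add
            ((Finset.measurable_fun_sum _ fun z _ => hbm z).const_mul _))
        have hm2 : Measurable (fun ω : Cfg d => ∑ Q ∈ boxF d (n ^ (H * j)),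
            (if Kept n (H * j) ω Q then (LL2 n H M δ K t η ω j Q : ℝ≥0∞) ^ t else 0) *
            (A + B * ∑ z ∈ nbF Q, if SS n H (H * j) ω z t η then 0 else 1)) :=
          Finset.measurable_fun_sum _ fun Q _ => hm1 Q
        rw [lintegral_const_mul _ hm2, lintegral_finsetSum _ fun Q _ => hm1 Q]
    _ = CC d M t * ∑ Q ∈ boxF d (n ^ (H * j)),
          (∫⁻ ω, (if Kept n (H * j) ω Q then (LL2 n H M δ K t η ω j Q : ℝ≥0∞) ^ t else 0) ∂μ) *
            (A + B * ((7 ^ d : ℕ) * P)) := by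
        rw [Finset.sum_congr rfl fun Q _ => hone Q]
    _ = _ := by
        rw [← Finset.sum_mul]
        simp_rw [hYY]
        rw [lintegral_finsetSum _ fun Q _ => hfm' Q]
        ring

theorem ae_tsum_YY2_lt_top {n H M : ℕ} (hn : 1 ≤ n) {δ K : ℝ≥0} {t : ℝ} (ht : 1 ≤ t) {η : ℝ≥0∞}
    (p : unitInterval)
    (hκ : CC d M t * (((n ^ H) ^ d : ℕ) * (δ : ℝ≥0∞) ^ t +
        (K : ℝ≥0∞) ^ t * ((7 ^ d : ℕ) : ℝ≥0∞) ^ t * η +
          ((n ^ H) ^ d : ℕ) * ((7 ^ d : ℕ) * percLaw d p {ω | ¬ SS n H 0 ω 0 t η})) < 1) :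
    ∀ᵐ ω ∂(percLaw d p), ∑' j, YY2 n H M δ K t η j ω < ⊤ := by
  classical
  set κ := CC d M t * (((n ^ H) ^ d : ℕ) * (δ : ℝ≥0∞) ^ t +
        (K : ℝ≥0∞) ^ t * ((7 ^ d : ℕ) : ℝ≥0∞) ^ t * η +
          ((n ^ H) ^ d : ℕ) * ((7 ^ d : ℕ) * percLaw d p {ω | ¬ SS n H 0 ω 0 t η})) with hκd
  have h0 : ∫⁻ ω, YY2 n H M δ K t η 0 ω ∂(percLaw d p) ≤ 1 := by
    have hp : IsProbabilityMeasure (percLaw d p) := by unfold percLaw; infer_instance
    calc ∫⁻ ω, YY2 n H M δ K t η 0 ω ∂(percLaw d p) ≤ ∫⁻ _, 1 ∂(percLaw d p) := by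
          refine lintegral_mono fun ω => ?_
          simp only [YY2]
          calc ∑ c ∈ Rf n H 0 ω, (LL2 n H M δ K t η ω 0 c : ℝ≥0∞) ^ t
              = ∑ c ∈ Rf n H 0 ω, 1 := by
                refine Finset.sum_congr rfl fun c _ => ?_
                simp [LL2]
            _ ≤ ∑ c ∈ ({0} : Finset (Fin d → ℤ)), (1 : ℝ≥0∞) := by
                refine Finset.sum_le_sum_of_subset fun c hc => ?_
                rw [mem_Rf] at hc
                rw [Finset.mem_singleton]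
                funext t
                have := hc.1 t
                simp only [mul_zero, pow_zero, Nat.cast_one] at this
                simp only [Pi.zero_apply]
                omega
            _ = 1 := by simp
      _ = 1 := by simp
  have h1 : ∀ j, ∫⁻ ω, YY2 n H M δ K t η j ω ∂(percLaw d p) ≤ κ ^ j := by
    intro j
    induction j with
    | zero => simpa using h0
    | succ j ih =>
      refine (lintegral_YY2_succ hn ht p j).trans ?_
      rw [pow_succ, mul_comm]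
      exact mul_le_mul' ih le_rfl
  have h2 : ∫⁻ ω, ∑' j, YY2 n H M δ K t η j ω ∂(percLaw d p) < ⊤ := by
    rw [lintegral_tsum fun j => (meas_YY2 hn j).aemeasurable]
    refine (ENNReal.tsum_le_tsum h1).trans_lt ?_
    rw [ENNReal.tsum_geometric]
    exact ENNReal.inv_lt_top.2 (tsub_pos_of_lt hκ)
  exact ae_lt_top (Measurable.ennreal_tsum fun j => meas_YY2 hn j) h2.ne

end gtFQ
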