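import Pool.Agent.Lib.gtFQ.Sum2
import Pool.Agent.Lib.gtFP.Expc

/-! Measurability of `LL2`, expectation of `YY2` (ports of gtFP/MeasB.lean, gtFP/Expc.lean). -/

open MeasureTheory ProbabilityTheory
open scoped NNReal ENNReal

namespace gtFQ

open gtFP

variable {d : ℕ}

/-- `wS z c` depends on finitely many coordinates (`wS_congr`, `finite_LvN`), so it is measurable with
respect to `sg (LvN n k H z)` (`meas_of_dep` for the sets `{wS ≤ x}`). -/
theorem meas_wS {n H k : ℕ} (hn : 1 ≤ n) (z c : Fin d → ℤ) {t : ℝ} {η : ℝ≥0∞} :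
    @Measurable _ _ (sg (LvN n k H z)) _ (fun ω : Cfg d => wS n H k ω z t η c) := by
  intro A _
  refine meas_of_dep (finite_LvN hn z) fun ω ω' h hω => ?_
  have h1 : wS n H k ω z t η c = wS n H k ω' z t η c := by rw [wS_congr hn h]
  simp only [Set.mem_preimage] at hω ⊢
  rw [← h1]
  exact hω

private theorem exp2a_sub (n H j : ℕ) (z : Fin d → ℤ) :
    LvN n (H * j) H z ⊆ Lv d 0 (H * (j + 1)) := by
  rintro i ⟨h1, h2, -⟩
  exact ⟨by omega, by rw [Nat.mul_add, mul_one]; omega⟩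

private theorem exp2a_nb {n H : ℕ} (hn : 1 ≤ n) (j : ℕ) {t : ℝ} {η : ℝ≥0∞} (Q : Fin d → ℤ) :
    MeasurableSet[sg (Lv d 0 (H * (j + 1)))] {ω : Cfg d | Nb2 n H j t η ω Q} := by
  have h1 : {ω : Cfg d | Nb2 n H j t η ω Q} =
      ⋃ z ∈ {z : Fin d → ℤ | nd Q z ≤ 3}, {ω : Cfg d | SS n H (H * j) ω z t η}ᶜ := by
    ext ω
    simp only [Nb2, Set.mem_ofPred_eq, Set.mem_iUnion, exists_prop, Set.mem_compl_iff]
  rw [h1]
  exact @MeasurableSet.biUnion _ _ (sg (Lv d 0 (H * (j + 1)))) _ _ (Set.to_countable _)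
    fun z _ => @MeasurableSet.compl _ _ (sg (Lv d 0 (H * (j + 1))))
      (sg_mono (exp2a_sub n H j z) _ (meas_ss hn z))

private theorem exp2a_sum (m0 : MeasurableSpace (Cfg d)) (s : Finset (Fin d → ℤ))
    (f : (Fin d → ℤ) → Cfg d → ℝ≥0) (h : ∀ c, @Measurable _ _ m0 _ (f c)) :
    @Measurable _ _ m0 _ (fun ω => ∑ c ∈ s, f c ω) :=
  Finset.measurable_sum s fun c _ => h c

private theorem exp2a_wt {n H : ℕ} (hn : 1 ≤ n) (δ K : ℝ≥0) (j : ℕ) {t : ℝ} {η : ℝ≥0∞}
    (c : Fin d → ℤ) :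
    @Measurable _ _ (sg (Lv d 0 (H * (j + 1)))) _
      (fun ω : Cfg d => wt2 n H δ K t η j ω c) := by
  classical
  have h := exp2a_nb (t := t) (η := η) hn j (H := H) (anc n H c)
  have h2 : ∀ z : Fin d → ℤ, @Measurable _ _ (sg (Lv d 0 (H * (j + 1)))) _
      (fun ω : Cfg d => (wS n H (H * j) ω z t η c).toNNReal) := fun z =>
    ((meas_wS hn z c).mono (sg_mono (exp2a_sub n H j z)) le_rfl).ennreal_toNNReal
  have h3 := exp2a_sum (sg (Lv d 0 (H * (j + 1)))) (nbF (anc n H c)) _ h2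
  have h4 : @Measurable _ _ (sg (Lv d 0 (H * (j + 1)))) _ (fun ω : Cfg d =>
      min (1 / 2) (max δ (K * ∑ z ∈ nbF (anc n H c), (wS n H (H * j) ω z t η c).toNNReal))) :=
    Measurable.min measurable_const (Measurable.max measurable_const (h3.const_mul K))
  exact Measurable.ite h measurable_const h4

private theorem exp2a_sup (m0 : MeasurableSpace (Cfg d)) (s : Finset (Fin d → ℤ))
    (f : (Fin d → ℤ) → Cfg d → ℝ≥0) (h : ∀ c, @Measurable _ _ m0 _ (f c)) :
    @Measurable _ _ m0 _ (fun ω => s.sup fun c => f c ω) := by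
  classical
  induction s using Finset.induction_on with
  | empty =>
    simp only [Finset.sup_empty]
    exact @measurable_const _ _ _ m0 _
  | insert a s ha ih =>
    simp only [Finset.sup_insert]
    exact Measurable.sup (h a) ih

/-- like `gtFP.meas_LL` -/
theorem meas_LL2 {n H M : ℕ} (hn : 1 ≤ n) {δ K : ℝ≥0} {t : ℝ} {η : ℝ≥0∞} (j : ℕ)
    (a : Fin d → ℤ) :
    @Measurable _ _ (sg (Lv d 0 (H * j))) _ (fun ω : Cfg d => LL2 n H M δ K t η ω j a) := by
  classical
  induction j generalizing a with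
  | zero => exact @measurable_const _ _ _ (sg (Lv d 0 (H * 0))) _
  | succ j ih =>
    have hsub : Lv d 0 (H * j) ⊆ Lv d 0 (H * (j + 1)) := by
      rintro i ⟨h1, h2⟩
      exact ⟨h1, by rw [Nat.mul_add, mul_one]; omega⟩
    have h1 : (fun ω : Cfg d => LL2 n H M δ K t η ω (j + 1) a) = fun ω =>
        (boxF d (n ^ (H * (j + 1)))).sup fun c => if Kept n (H * (j + 1)) ω c then
          wt2 n H δ K t η j ω c * LL2 n H M δ K t η ω j (anc n H c) *
            ((1 + (nd a c : ℝ≥0)) ^ M)⁻¹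
          else 0 := by
      funext ω
      show ((Rf n H (j + 1) ω).sup fun c =>
        wt2 n H δ K t η j ω c * LL2 n H M δ K t η ω j (anc n H c) *
          ((1 + (nd a c : ℝ≥0)) ^ M)⁻¹) = _
      refine le_antisymm (Finset.sup_le fun c hc => ?_) (Finset.sup_le fun c hc => ?_)
      · have hc' := mem_Rf.1 hc
        have h2 := Finset.le_sup (f := fun c => if Kept n (H * (j + 1)) ω c then
          wt2 n H δ K t η j ω c * LL2 n H M δ K t η ω j (anc n H c) *
            ((1 + (nd a c : ℝ≥0)) ^ M)⁻¹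
          else 0) (mem_boxF.2 hc'.1)
        simp only [if_pos hc'.2] at h2
        exact h2
      · by_cases hk : Kept n (H * (j + 1)) ω c
        · rw [if_pos hk]
          exact Finset.le_sup (f := fun c =>
            wt2 n H δ K t η j ω c * LL2 n H M δ K t η ω j (anc n H c) *
              ((1 + (nd a c : ℝ≥0)) ^ M)⁻¹)
            (mem_Rf.2 ⟨mem_boxF.1 hc, hk⟩)
        · rw [if_neg hk]
          exact bot_le
    rw [h1]
    refine exp2a_sup (sg (Lv d 0 (H * (j + 1)))) _ _ fun c => ?_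
    refine Measurable.ite (meas_kept c) ?_ measurable_const
    have h2 : @Measurable _ _ (sg (Lv d 0 (H * (j + 1)))) _
        (fun ω : Cfg d => LL2 n H M δ K t η ω j (anc n H c)) :=
      (ih (anc n H c)).mono (sg_mono hsub) le_rfl
    exact ((exp2a_wt hn δ K j c).mul h2).mul_const _

end gtFQ
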