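import Pool.Agent.Lib.gtFP.DimH

/-! The Hausdorff dimension of a compact space is at most its upper box dimension. -/

open MeasureTheory Filter Topology
open scoped NNReal ENNReal

namespace gtFQ

open gtFP

private theorem exists_cover {Y : Type} [MetricSpace Y] [CompactSpace Y] {r : ℝ} (hr : 0 < r) :
    ∃ A : Finset Y, A.card = coverNum Y r ∧ ∀ y, ∃ x ∈ A, dist y x ≤ r := by
  have hne : {k | ∃ s : Finset Y, s.card = k ∧ ∀ y, ∃ x ∈ s, dist y x ≤ r}.Nonempty := by
    obtain ⟨s, -, hs, hcov⟩ := finite_cover_balls_of_compact (isCompact_univ (X := Y)) hr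
    refine ⟨hs.toFinset.card, hs.toFinset, rfl, fun y => ?_⟩
    have hy := hcov (Set.mem_univ y)
    simp only [Set.mem_iUnion] at hy
    obtain ⟨x, hx, hxy⟩ := hy
    exact ⟨x, hs.mem_toFinset.2 hx, (Metric.mem_ball.1 hxy).le⟩
  exact Nat.sInf_mem hne

/-- If `upperBoxDim Y < ofReal t`, `t > 0`, then `log N(r) < t log (1/r)` for all small `r`
(`eventually_lt_of_limsup_lt`; `0 < r < 1`), i.e. `N(r) ≤ r^{-t}`; for a compact `Y` and `r > 0` the
set in the definition of `coverNum` is not empty and `N(r)` is attained (`Nat.sInf_mem`). For the `r`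
in `[r₀, 1)` use a cover for `r₀`, so that `gtFP.dimH_le` applies with
`C = max 1 (N(r₀))`. Then `dimH ≤ t` for all such `t`. -/
theorem dimH_le_upperBoxDim {Y : Type} [MetricSpace Y] [CompactSpace Y] :
    dimH (Set.univ : Set Y) ≤ upperBoxDim Y := by
  refine le_of_forall_gt_imp_ge_of_dense fun c hc => ?_
  rcases eq_or_ne c ⊤ with rfl | hctop
  · exact le_top
  have hc0 : 0 < c := lt_of_le_of_lt zero_le hc
  have ht : 0 < c.toReal := ENNReal.toReal_pos hc0.ne' hctop
  have hct : ENNReal.ofReal c.toReal = c := ENNReal.ofReal_toReal hctop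
  set t := c.toReal with htdef
  rw [← hct] at hc ⊢
  have hev := eventually_lt_of_limsup_lt (show limsup (fun r : ℝ =>
    ENNReal.ofReal (Real.log (coverNum Y r) / Real.log (1 / r))) (𝓝[>] 0) < ENNReal.ofReal t
    from hc)
  obtain ⟨u, hu, hsub⟩ := mem_nhdsGT_iff_exists_Ioo_subset.1 hev
  have hu0 : (0 : ℝ) < u := hu
  set v : ℝ := min u 1 with hv
  have hv0 : 0 < v := lt_min hu0 one_pos
  have hsmall : ∀ r : ℝ, 0 < r → r < v → (coverNum Y r : ℝ) ≤ r ^ (-t) := by
    intro r hr0 hrv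
    have hru : r < u := lt_of_lt_of_le hrv (min_le_left _ _)
    have hr1 : r < 1 := lt_of_lt_of_le hrv (min_le_right _ _)
    have h1 : ENNReal.ofReal (Real.log (coverNum Y r) / Real.log (1 / r)) < ENNReal.ofReal t :=
      hsub ⟨hr0, hru⟩
    rw [ENNReal.ofReal_lt_ofReal_iff ht] at h1
    have hlog : 0 < Real.log (1 / r) := Real.log_pos (by rw [lt_div_iff₀ hr0]; linarith)
    rw [div_lt_iff₀ hlog] at h1
    have h2 : t * Real.log (1 / r) = Real.log (r ^ (-t)) := by
      rw [Real.log_rpow hr0, one_div, Real.log_inv]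
      ring
    rw [h2] at h1
    have hpos : 0 < r ^ (-t) := Real.rpow_pos_of_pos hr0 _
    rcases Nat.eq_zero_or_pos (coverNum Y r) with h0 | h0
    · rw [h0, Nat.cast_zero]; exact hpos.le
    · exact ((Real.log_lt_log_iff (by exact_mod_cast h0) hpos).1 h1).le
  have hone : ∀ r : ℝ, 0 < r → r < 1 → (1 : ℝ) ≤ r ^ (-t) := by
    intro r hr0 hr1
    exact Real.one_le_rpow_of_pos_of_le_one_of_nonpos hr0 hr1.le (by linarith)
  refine gtFP.dimH_le (C := max 1 (coverNum Y (v / 2) : ℝ)) ht (by positivity) ?_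
  intro r hr0 hr1
  have hr2 := hone r hr0 hr1
  rcases lt_or_ge r v with h | h
  · obtain ⟨A, hA, hcov⟩ := exists_cover (Y := Y) hr0
    refine ⟨A, ?_, hcov⟩
    rw [hA]
    calc (coverNum Y r : ℝ) ≤ 1 * r ^ (-t) := by rw [one_mul]; exact hsmall r hr0 h
      _ ≤ _ := mul_le_mul_of_nonneg_right (le_max_left _ _) (by linarith)
  · obtain ⟨A, hA, hcov⟩ := exists_cover (Y := Y) (half_pos hv0)
    refine ⟨A, ?_, fun y => ?_⟩
    · rw [hA]
      calc (coverNum Y (v / 2) : ℝ) ≤ max 1 (coverNum Y (v / 2) : ℝ) * 1 := by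
            rw [mul_one]; exact le_max_right _ _
        _ ≤ _ := mul_le_mul_of_nonneg_left hr2 (by positivity)
    · obtain ⟨x, hx, hxy⟩ := hcov y
      exact ⟨x, hx, by linarith⟩

/-- a space quasisymmetrically equivalent to a compact space is compact -/
theorem confDimH_le_confDimB {X : Type} [MetricSpace X] [CompactSpace X] :
    confDimH X ≤ confDimB X := by
  unfold confDimH confDimB
  refine iInf_mono fun Y => iInf_mono fun _ => iInf_mono fun h => ?_
  obtain ⟨f, -⟩ := h
  have : CompactSpace Y := f.compactSpace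
  exact dimH_le_upperBoxDim

end gtFQ
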