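import Pool.Agent.Lib.gtFQ.Geo2a

/-! The weights `LL2` form a `LamB` on `F` with the greedy crossing condition. -/

open MeasureTheory Filter Topology
open scoped NNReal ENNReal

namespace gtFQ

open gtFP

variable {d : ℕ}

private theorem g2b_find {S : ℕ} {g : ℕ → ℕ} (g0 : g 0 = 0) (i : ℕ) :
    (∃ s < S, g s ≤ i ∧ i < g (s + 1)) ∨ g S ≤ i := by
  induction S with
  | zero => right; omega
  | succ S ih =>
    rcases ih with ⟨s, hs, h⟩ | h
    · exact Or.inl ⟨s, by omega, h⟩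
    · rcases Nat.lt_or_ge i (g (S + 1)) with h' | h'
      · exact Or.inl ⟨S, by omega, h, h'⟩
      · exact Or.inr h'

private theorem g2b_card (b : Fin d → ℤ) (T : Finset (Fin d → ℤ)) (V : ℝ≥0) :
    ∑ a ∈ T, (if nd b a ≤ 4 then V else 0) ≤ 9 ^ d * V := by
  classical
  rw [← Finset.sum_filter, Finset.sum_const, nsmul_eq_mul]
  refine mul_le_mul_of_nonneg_right ?_ V.2
  have hsub : T.filter (fun a => nd b a ≤ 4) ⊆
      Fintype.piFinset fun t => Finset.Icc (b t - 4) (b t + 4) := by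
    intro a ha
    have h := (Finset.mem_filter.1 ha).2
    rw [Fintype.mem_piFinset]
    intro t
    have := nd_le.1 h t
    rw [Finset.mem_Icc]
    omega
  have h1 := Finset.card_le_card hsub
  have h2 : (Fintype.piFinset fun t => Finset.Icc (b t - 4) (b t + 4)).card = 9 ^ d := by
    simp only [Fintype.card_piFinset, Int.card_Icc]
    rw [Finset.prod_congr rfl fun t _ => show (b t + 4 + 1 - (b t - 4)).toNat = 9 by
      rw [show b t + 4 + 1 - (b t - 4) = 9 by ring]; rfl]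
    simp
  rw [h2] at h1
  exact_mod_cast h1

private theorem g2b_low {n H M j q : ℕ} (hn : 1 ≤ n) {δ K : ℝ≥0} {t : ℝ} {η : ℝ≥0∞} {ω : Cfg d}
    {x0 : EuclideanSpace ℝ (Fin d)} {a c0 c : Fin d → ℤ} (hc : c ∈ Rf n H (j + 1) ω)
    (h0 : x0 ∈ cube n (H * (j + 1)) c0) (h1 : nd (anc n H c0) (anc n H c) ≤ 3)
    (h2 : nd a c ≤ q) :
    wt2 n H δ K t η j ω c * LL2 n H M δ K t η ω j (fl n (H * j) x0) ≤
      5 ^ M * (1 + (q : ℝ≥0)) ^ M * LL2 n H M δ K t η ω (j + 1) a := by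
  have hmj : H * (j + 1) = H * j + H := by ring
  have hlow := LL2_low (M := M) (δ := δ) (K := K) (t := t) (η := η) (a := a) hc
  have hhar := LL2_har (M := M) (δ := δ) (K := K) (t := t) (η := η) (ω := ω) (n := n) (H := H) j
    (fl n (H * j) x0) (anc n H c)
  have hnd4 : nd (fl n (H * j) x0) (anc n H c) ≤ 4 := by
    have h5 : nd (fl n (H * j) x0) (anc n H c0) ≤ 1 := by
      rw [← anc_fl (m := H) hn x0, ← hmj]
      exact (nd_anc_le hn _ _).trans (nd_fl_cube hn h0)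
    have h6 := nd_tri (fl n (H * j) x0) (anc n H c0) (anc n H c)
    omega
  generalize LL2 n H M δ K t η ω (j + 1) a = A at hlow ⊢
  generalize LL2 n H M δ K t η ω j (fl n (H * j) x0) = B at hhar ⊢
  generalize LL2 n H M δ K t η ω j (anc n H c) = L at hlow hhar
  generalize wt2 n H δ K t η j ω c = W at hlow ⊢
  have hB : B ≤ 5 ^ M * L := by
    refine hhar.trans (mul_le_mul_of_nonneg_right ?_ L.2)
    refine pow_le_pow_left₀ (by positivity) ?_ _
    have h7 : (nd (fl n (H * j) x0) (anc n H c) : ℝ≥0) ≤ 4 := by exact_mod_cast hnd4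
    calc 1 + (nd (fl n (H * j) x0) (anc n H c) : ℝ≥0) ≤ 1 + 4 := by gcongr
      _ = 5 := by norm_num
  have hA : W * L ≤ (1 + (q : ℝ≥0)) ^ M * A := by
    have h8 : W * L = W * L * ((1 + (nd a c : ℝ≥0)) ^ M)⁻¹ * (1 + (nd a c : ℝ≥0)) ^ M := by
      rw [mul_assoc, inv_mul_cancel₀ (by positivity), mul_one]
    rw [h8]
    calc W * L * ((1 + (nd a c : ℝ≥0)) ^ M)⁻¹ * (1 + (nd a c : ℝ≥0)) ^ M
        ≤ A * (1 + (q : ℝ≥0)) ^ M := by
          refine mul_le_mul hlow ?_ (by positivity) A.2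
          refine pow_le_pow_left₀ (by positivity) ?_ _
          have h9 : (nd a c : ℝ≥0) ≤ q := by exact_mod_cast h2
          gcongr
      _ = (1 + (q : ℝ≥0)) ^ M * A := mul_comm _ _
  calc W * B ≤ W * (5 ^ M * L) := by gcongr
    _ = 5 ^ M * (W * L) := by ring
    _ ≤ 5 ^ M * ((1 + (q : ℝ≥0)) ^ M * A) := by gcongr
    _ = 5 ^ M * (1 + (q : ℝ≥0)) ^ M * A := by ring

/-- jumps of the greedy sequence -/
private theorem g2b_jump {x : ℕ → EuclideanSpace ℝ (Fin d)} {A : ℝ} {r S : ℕ} {g : ℕ → ℕ}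
    (h1 : ∀ i < r, sd (x i) (x (i + 1)) < A)
    (gm : ∀ i < S, g i < g (i + 1)) (gr : g S ≤ r)
    (gin : ∀ i < S, ∀ l, g i ≤ l → l < g (i + 1) → sd (x (g i)) (x l) < 3 * A) :
    ∀ i < S, g (i + 1) ≤ r ∧ sd (x (g i)) (x (g (i + 1))) < 4 * A := by
  have hmono : ∀ k, ∀ i, i + k = S → g i ≤ g S := by
    intro k
    induction k with
    | zero => intro i hi; rw [show i = S by omega]
    | succ k ih =>
      intro i hi
      exact (gm i (by omega)).le.trans (ih (i + 1) (by omega))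
  intro i hi
  have hle : g (i + 1) ≤ r := (hmono (S - (i + 1)) (i + 1) (by omega)).trans gr
  refine ⟨hle, ?_⟩
  have hlt := gm i hi
  obtain ⟨l, hl⟩ : ∃ l, g (i + 1) = l + 1 := ⟨g (i + 1) - 1, by omega⟩
  have h2 := gin i hi l (by omega) (by omega)
  have h3 := h1 l (by omega)
  rw [← hl] at h3
  have h4 := sd_tri (x (g i)) (x l) (x (g (i + 1)))
  linarith

private theorem g2b_total {x : ℕ → EuclideanSpace ℝ (Fin d)} {A : ℝ} {S : ℕ} {g : ℕ → ℕ}
    (g0 : g 0 = 0) (hj : ∀ i < S, sd (x (g i)) (x (g (i + 1))) < 4 * A) :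
    ∀ i ≤ S, sd (x 0) (x (g i)) ≤ i * (4 * A) := by
  intro i
  induction i with
  | zero =>
    intro _
    rw [g0, sd_self]
    simp
  | succ i ih =>
    intro hi
    have h1 := ih (by omega)
    have h2 := hj i (by omega)
    have h3 := sd_tri (x 0) (x (g i)) (x (g (i + 1)))
    push_cast
    linarith

/-- The greedy crossing condition. Let `N = n^H`, `x_i = f i`, choose kept cubes `c_i ∋ x_i` of block
level `j + 1`. As in gtFP/GeoD.lean: `nd c_i c_{i+1} ≤ 1`, `nd c_0 c_r ≥ 3N - 1 ≥ 2N`,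
`nd c_0 c_i ≤ 3N`, `z = anc n H c_0`, `nd (anc c_i) z ≤ 3`, and for `i ≤ r`, `s` with
`g s ≤ i < g (s+1)` (or `g S ≤ i`): `nd (fl x_{g s}) c_i ≤ 4`, so by `LL2_low`, `LL2_har`
`Λ_{j+1}(x_{g s}) ≥ wt2 c_i * 5^{-M} * 5^{-M} Λ_j(x_0)`.
Case 1: `z` has no single scale weights. Then `wt2 c_i = 1/2` for all `i`, so
`Λ_{j+1}(x_{g s}) ≥ (1/2) 10^{-M} Λ_j(x_0)` (with the cube of `x_{g s}` itself: distance at most 1);
the number `S` of greedy steps satisfies `3 N ≤ 4 S + 3`, hence `S ≥ N/2`, and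
`N ≥ 4 * 10^M`.
Case 2: `SS n H (H*j) ω z t η`. The chain `c_0, …` stopped when it reaches distance `2N` (`IsCr`), has
`∑ wS z c ≥ 1` over its distinct cubes, and `K wS z c_i ≤ wt2 c_i` (`K_wS_le`), so
`K ≤ ∑_{distinct c_i} wt2 c_i ≤ ∑_{s ≤ S} 9^d max wt2 ≤ ∑_{s ≤ S} 9^d 25^M Λ_{j+1}(x_{g s}) / Λ_j(x_0)`
(at most `9^d` distinct cubes at distance at most 4 from `fl x_{g s}`), and the last term is at most
`5^M` times the one for `s = S - 1` (`S ≥ 1`, `sd (x_{g (S-1)}) (x_{g S}) < 4 N^{-(j+1)}`, `LL2_har`).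
So `K ≥ 9^d * 25^M * (1 + 5^M)` suffices. -/
theorem cross2_perc {n H M : ℕ} (hn : 1 ≤ n) {δ K : ℝ≥0} (hδ0 : 0 < δ) (hδ : δ ≤ 1 / 2) {t : ℝ}
    (ht : 0 < t) {η : ℝ≥0∞} {ω : Cfg d} (hN : 4 * 10 ^ M ≤ n ^ H)
    (hK : ((9 ^ d * 25 ^ M * (1 + 5 ^ M) : ℕ) : ℝ≥0) ≤ K)
    (hη : (K : ℝ≥0∞) * η ^ (1 / t) ≤ 1 / 2) :
    Cross2 (X := perc n ω) (fun x y => sd x.1 y.1) (n ^ H)
      (fun j x => LamP2 n H M δ K t η ω j x.1) := by
  classical
  intro j f r h1 h2 h3 S g g0 gm gr gj gin gend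
  have hc' : ∀ i, ∃ c : Fin d → ℤ, i ≤ r →
      c ∈ Rf n H (j + 1) ω ∧ (f i).1 ∈ cube n (H * (j + 1)) c := by
    intro i
    obtain ⟨c, hc1, hc2⟩ := exists_Rf (m := H) (j := j + 1) (f i).2
    exact ⟨c, fun _ => ⟨hc1, hc2⟩⟩
  choose c hc using hc'
  have hnpos : (0 : ℝ) < (n : ℝ) := by exact_mod_cast hn
  have hN0 : (0 : ℝ) < ((n ^ H : ℕ) : ℝ) := by
    push_cast
    positivity
  have hpow : (n : ℝ) ^ (H * (j + 1)) = ((n ^ H : ℕ) : ℝ) ^ (j + 1) := by
    push_cast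
    rw [pow_mul]
  have hN1 : 1 ≤ n ^ H := Nat.one_le_pow _ _ hn
  have hN4 : 4 ≤ n ^ H := by
    have : 1 ≤ 10 ^ M := Nat.one_le_pow _ _ (by norm_num)
    omega
  have hmj : H * (j + 1) = H * j + H := by ring
  have hP : (0 : ℝ) < ((n ^ H : ℕ) : ℝ) ^ (j + 1) := pow_pos hN0 _
  -- greedy sequence
  have h1' : ∀ i < r, sd (f i).1 (f (i + 1)).1 < 1 / ((n ^ H : ℕ) : ℝ) ^ (j + 1) := h1
  have e3 : ∀ u : ℝ, 3 / ((n ^ H : ℕ) : ℝ) ^ (j + 1) = 3 * (1 / ((n ^ H : ℕ) : ℝ) ^ (j + 1)) := by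
    intro _
    ring
  have gin' : ∀ i < S, ∀ l, g i ≤ l → l < g (i + 1) →
      sd (f (g i)).1 (f l).1 < 3 * (1 / ((n ^ H : ℕ) : ℝ) ^ (j + 1)) := by
    intro i hi l hl1 hl2
    rw [← e3 0]
    exact gin i hi l hl1 hl2
  have hjump := g2b_jump (x := fun i => (f i).1) h1' gm gr gin'
  have htot := g2b_total (x := fun i => (f i).1) g0 (fun i hi => (hjump i hi).2) S le_rfl
  have hend : sd (f (g S)).1 (f r).1 < 3 / ((n ^ H : ℕ) : ℝ) ^ (j + 1) := gend r gr le_rfl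
  have h3' : 3 / ((n ^ H : ℕ) : ℝ) ^ j ≤ sd (f 0).1 (f r).1 := h3
  have hcount : 3 * n ^ H < 4 * S + 3 := by
    have h4 := sd_tri (f 0).1 (f (g S)).1 (f r).1
    have h5 : 3 / ((n ^ H : ℕ) : ℝ) ^ j < S * (4 * (1 / ((n ^ H : ℕ) : ℝ) ^ (j + 1))) +
        3 / ((n ^ H : ℕ) : ℝ) ^ (j + 1) := by
      have htot' : sd (f 0).1 (f (g S)).1 ≤ S * (4 * (1 / ((n ^ H : ℕ) : ℝ) ^ (j + 1))) := htot
      linarith
    have h6 : 3 / ((n ^ H : ℕ) : ℝ) ^ j * ((n ^ H : ℕ) : ℝ) ^ (j + 1) = 3 * ((n ^ H : ℕ) : ℝ) := by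
      rw [pow_succ]
      field_simp
    have h7 : (S * (4 * (1 / ((n ^ H : ℕ) : ℝ) ^ (j + 1))) + 3 / ((n ^ H : ℕ) : ℝ) ^ (j + 1)) *
        ((n ^ H : ℕ) : ℝ) ^ (j + 1) = 4 * S + 3 := by
      field_simp
    have h8 := mul_lt_mul_of_pos_right h5 hP
    rw [h6, h7] at h8
    exact_mod_cast h8
  have hS : 1 ≤ S := by omega
  -- the cubes
  have hstep : ∀ i < r, nd (c i) (c (i + 1)) ≤ 1 := by
    intro i hi
    refine nd_cube_le hn (hc i hi.le).2 (hc (i + 1) hi).2 ?_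
    rw [hpow]
    have h := h1' i hi
    rw [lt_div_iff₀ hP] at h
    rw [mul_comm]
    exact_mod_cast h
  have hfar : 2 * n ^ H ≤ nd (c 0) (c r) := by
    have h := le_nd_cube (K := 3 * n ^ H) hn (hc 0 (Nat.zero_le _)).2 (hc r le_rfl).2 (by
      rw [hpow, pow_succ]
      have h := h3'
      rw [div_le_iff₀ (pow_pos hN0 _)] at h
      calc ((3 * n ^ H : ℕ) : ℝ) = 3 * ((n ^ H : ℕ) : ℝ) := by push_cast; ring
        _ ≤ (sd (f 0).1 (f r).1 * ((n ^ H : ℕ) : ℝ) ^ j) * ((n ^ H : ℕ) : ℝ) :=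
          mul_le_mul_of_nonneg_right h hN0.le
        _ = ((n ^ H : ℕ) : ℝ) ^ j * ((n ^ H : ℕ) : ℝ) * sd (f 0).1 (f r).1 := by ring)
    omega
  have hloc : ∀ i ≤ r, Loc n H (H * j) ω (c i) := by
    intro i hi
    have h := (mem_Rf.1 (hc i hi).1).2
    rw [hmj] at h
    exact (kept_add.1 h).2
  have hnear : ∀ u v : ℕ, u ≤ r → v ≤ r → sd (f u).1 (f v).1 < 3 / ((n ^ H : ℕ) : ℝ) ^ (j + 1) →
      nd (fl n (H * (j + 1)) (f u).1) (c v) ≤ 4 := by
    intro u v hu hv huv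
    have h5 : nd (fl n (H * (j + 1)) (f u).1) (c u) ≤ 1 := nd_fl_cube hn (hc u hu).2
    have h6 : nd (c u) (c v) ≤ 3 := by
      refine nd_cube_le hn (hc u hu).2 (hc v hv).2 ?_
      rw [hpow]
      rw [lt_div_iff₀ hP] at huv
      rw [mul_comm]
      exact_mod_cast huv
    have h7 := nd_tri (fl n (H * (j + 1)) (f u).1) (c u) (c v)
    omega
  show ((LL2 n H M δ K t η ω j (fl n (H * j) (f 0).1) : ℝ≥0) : ℝ) ≤
    ∑ i ∈ Finset.range S, ((LL2 n H M δ K t η ω (j + 1) (fl n (H * (j + 1)) (f (g i)).1) : ℝ≥0) : ℝ)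
  by_cases hss : SS n H (H * j) ω (anc n H (c 0)) t η
  · -- single scale weights
    have hex : ∃ i, 2 * n ^ H ≤ nd (c 0) (c i) := ⟨r, hfar⟩
    obtain ⟨i₀, hi₀, hmin⟩ : ∃ i₀, 2 * n ^ H ≤ nd (c 0) (c i₀) ∧
        ∀ i < i₀, nd (c 0) (c i) < 2 * n ^ H :=
      ⟨Nat.find hex, Nat.find_spec hex, fun i hi => not_le.1 (Nat.find_min hex hi)⟩
    have hle : i₀ ≤ r := by
      by_contra hcon
      have := hmin r (by omega)
      omega
    have hup : ∀ i ≤ i₀, nd (c 0) (c i) ≤ 2 * n ^ H := by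
      intro i hi
      rcases Nat.lt_or_ge i i₀ with hlt | hge
      · exact (hmin i hlt).le
      · have hii : i = i₀ := by omega
        rcases Nat.eq_zero_or_pos i with hz | hp
        · rw [hz, nd_self]
          omega
        · have e1 := hmin (i - 1) (by omega)
          have e2 := hstep (i - 1) (by omega)
          have e3 : i - 1 + 1 = i := by omega
          rw [e3] at e2
          have e4 := nd_tri (c 0) (c (i - 1)) (c i)
          omega
    have hcr : IsCr n H (H * j) ω (anc n H (c 0)) i₀ c :=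
      ⟨rfl, fun i hi => hloc i (hi.trans hle), fun i hi => hstep i (by omega), hup, hi₀⟩
    have hw := wS_spec hss i₀ c hcr
    set T := (Finset.range (i₀ + 1)).image c with hT
    have hanc : ∀ i ≤ i₀, nd (anc n H (c 0)) (anc n H (c i)) ≤ 3 := by
      intro i hi
      have := nd_anc_mul (K := 2) hn (hup i hi)
      omega
    have hKT : K ≤ ∑ a ∈ T, wt2 n H δ K t η j ω a := by
      have h5 : (K : ℝ≥0∞) ≤ ∑ a ∈ T, (wt2 n H δ K t η j ω a : ℝ≥0∞) := by
        calc (K : ℝ≥0∞) = K * 1 := (mul_one _).symm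
          _ ≤ K * ∑ a ∈ T, wS n H (H * j) ω (anc n H (c 0)) t η a := by gcongr
          _ = ∑ a ∈ T, K * wS n H (H * j) ω (anc n H (c 0)) t η a := Finset.mul_sum _ _ _
          _ ≤ _ := by
            refine Finset.sum_le_sum fun a ha => ?_
            obtain ⟨i, hi, rfl⟩ := Finset.mem_image.1 ha
            refine K_wS_le ht hη ?_
            rw [nd_comm]
            exact hanc i (by have := Finset.mem_range.1 hi; omega)
      exact_mod_cast h5
    have hgr : ∀ s ≤ S, g s ≤ r := by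
      intro s hs
      rcases Nat.lt_or_ge s S with h | h
      · exact (gm s h).le.trans (hjump s h).1
      · rw [show s = S by omega]
        exact gr
    set B := LL2 n H M δ K t η ω j (fl n (H * j) (f 0).1) with hB
    set L : ℕ → ℝ≥0 := fun s => LL2 n H M δ K t η ω (j + 1) (fl n (H * (j + 1)) (f (g s)).1) with hL
    have hterm : ∀ a ∈ T, wt2 n H δ K t η j ω a * B ≤ ∑ s ∈ Finset.range (S + 1),
        (if nd (fl n (H * (j + 1)) (f (g s)).1) a ≤ 4 then 25 ^ M * L s else 0) := by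
      intro a ha
      obtain ⟨i, hi, rfl⟩ := Finset.mem_image.1 ha
      have hi' : i ≤ i₀ := by have := Finset.mem_range.1 hi; omega
      have hir : i ≤ r := hi'.trans hle
      obtain ⟨s, hs, hsd⟩ : ∃ s ≤ S, sd (f (g s)).1 (f i).1 < 3 / ((n ^ H : ℕ) : ℝ) ^ (j + 1) := by
        rcases g2b_find (S := S) g0 i with ⟨s, hs, h5, h6⟩ | h5
        · exact ⟨s, hs.le, gin s hs i h5 h6⟩
        · exact ⟨S, le_rfl, gend i h5 hir⟩
      have hnd := hnear (g s) i (hgr s hs) hir hsd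
      have hlow := g2b_low (M := M) (δ := δ) (K := K) (t := t) (η := η) (q := 4) hn (hc i hir).1
        (hc 0 (Nat.zero_le _)).2 (hanc i hi') hnd
      have h25 : (5 : ℝ≥0) ^ M * (1 + ((4 : ℕ) : ℝ≥0)) ^ M = 25 ^ M := by
        rw [← mul_pow]
        norm_num
      rw [h25] at hlow
      refine hlow.trans ?_
      have h6 : 25 ^ M * L s = if nd (fl n (H * (j + 1)) (f (g s)).1) (c i) ≤ 4 then
          25 ^ M * L s else 0 := (if_pos hnd).symm
      change 25 ^ M * L s ≤ _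
      rw [h6]
      exact Finset.single_le_sum (f := fun s =>
        if nd (fl n (H * (j + 1)) (f (g s)).1) (c i) ≤ 4 then 25 ^ M * L s else 0)
        (fun _ _ => by positivity) (Finset.mem_range.2 (by omega))
    have hsum : K * B ≤ ∑ s ∈ Finset.range (S + 1), 9 ^ d * (25 ^ M * L s) := by
      calc K * B ≤ (∑ a ∈ T, wt2 n H δ K t η j ω a) * B := by gcongr
        _ = ∑ a ∈ T, wt2 n H δ K t η j ω a * B := Finset.sum_mul _ _ _
        _ ≤ ∑ a ∈ T, ∑ s ∈ Finset.range (S + 1),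
            (if nd (fl n (H * (j + 1)) (f (g s)).1) a ≤ 4 then 25 ^ M * L s else 0) :=
          Finset.sum_le_sum hterm
        _ = ∑ s ∈ Finset.range (S + 1), ∑ a ∈ T,
            (if nd (fl n (H * (j + 1)) (f (g s)).1) a ≤ 4 then 25 ^ M * L s else 0) :=
          Finset.sum_comm
        _ ≤ _ := Finset.sum_le_sum fun s _ => g2b_card _ _ _
    have hlast : L S ≤ 5 ^ M * L (S - 1) := by
      have h5 := (hjump (S - 1) (by omega)).2
      rw [Nat.sub_add_cancel hS] at h5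
      have h6 : nd (fl n (H * (j + 1)) (f (g S)).1) (fl n (H * (j + 1)) (f (g (S - 1))).1) ≤ 4 := by
        refine nd_fl_le ?_
        rw [hpow, sd_comm]
        have h7 : sd (f (g (S - 1))).1 (f (g S)).1 < 4 * (1 / ((n ^ H : ℕ) : ℝ) ^ (j + 1)) := h5
        have h8 := mul_lt_mul_of_pos_left h7 hP
        have h9 : ((n ^ H : ℕ) : ℝ) ^ (j + 1) * (4 * (1 / ((n ^ H : ℕ) : ℝ) ^ (j + 1))) = 4 := by
          field_simp
        rw [h9] at h8
        exact_mod_cast h8.le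
      refine (LL2_har (j + 1) _ (fl n (H * (j + 1)) (f (g (S - 1))).1)).trans ?_
      refine mul_le_mul_of_nonneg_right ?_ (NNReal.coe_nonneg _)
      refine pow_le_pow_left₀ (by positivity) ?_ _
      have h7 : (nd (fl n (H * (j + 1)) (f (g S)).1) (fl n (H * (j + 1)) (f (g (S - 1))).1) : ℝ≥0)
          ≤ 4 := by exact_mod_cast h6
      calc 1 + (nd (fl n (H * (j + 1)) (f (g S)).1)
            (fl n (H * (j + 1)) (f (g (S - 1))).1) : ℝ≥0) ≤ 1 + 4 := by gcongr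
        _ = 5 := by norm_num
    have hlast' : L (S - 1) ≤ ∑ s ∈ Finset.range S, L s :=
      Finset.single_le_sum (f := L) (fun _ _ => by positivity) (Finset.mem_range.2 (by omega))
    have hfin : K * B ≤ K * ∑ s ∈ Finset.range S, L s := by
      calc K * B ≤ ∑ s ∈ Finset.range (S + 1), 9 ^ d * (25 ^ M * L s) := hsum
        _ = 9 ^ d * 25 ^ M * (∑ s ∈ Finset.range S, L s + L S) := by
          rw [← Finset.sum_range_succ, Finset.mul_sum]
          refine Finset.sum_congr rfl fun s _ => ?_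
          ring
        _ ≤ 9 ^ d * 25 ^ M * (∑ s ∈ Finset.range S, L s + 5 ^ M * ∑ s ∈ Finset.range S, L s) := by
          gcongr
          exact hlast.trans (by gcongr)
        _ = ((9 ^ d * 25 ^ M * (1 + 5 ^ M) : ℕ) : ℝ≥0) * ∑ s ∈ Finset.range S, L s := by
          push_cast
          ring
        _ ≤ K * ∑ s ∈ Finset.range S, L s := by gcongr
    have hKpos : 0 < K := by
      refine lt_of_lt_of_le ?_ hK
      have : 0 < 9 ^ d * 25 ^ M * (1 + 5 ^ M) := by positivity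
      exact_mod_cast this
    have hres : B ≤ ∑ s ∈ Finset.range S, L s := le_of_mul_le_mul_left hfin hKpos
    have : (B : ℝ) ≤ ((∑ s ∈ Finset.range S, L s : ℝ≥0) : ℝ) := by exact_mod_cast hres
    rw [NNReal.coe_sum] at this
    exact this
  · -- no single scale weights
    have hone : ∀ s < S, 2 * ((LL2 n H M δ K t η ω j (fl n (H * j) (f 0).1) : ℝ≥0) : ℝ) ≤
        ((n ^ H : ℕ) : ℝ) *
          ((LL2 n H M δ K t η ω (j + 1) (fl n (H * (j + 1)) (f (g s)).1) : ℝ≥0) : ℝ) := by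
      intro s hs
      have hlt : g s < r := lt_of_lt_of_le (gm s hs) (hjump s hs).1
      have hnd : nd (c 0) (c (g s)) ≤ 3 * n ^ H := by
        refine nd_cube_le hn (hc 0 (Nat.zero_le _)).2 (hc (g s) hlt.le).2 ?_
        rw [hpow, pow_succ]
        have h : sd (f 0).1 (f (g s)).1 < 3 / ((n ^ H : ℕ) : ℝ) ^ j := h2 (g s) hlt
        rw [lt_div_iff₀ (pow_pos hN0 _)] at h
        calc ((n ^ H : ℕ) : ℝ) ^ j * ((n ^ H : ℕ) : ℝ) * sd (f 0).1 (f (g s)).1
            = (sd (f 0).1 (f (g s)).1 * ((n ^ H : ℕ) : ℝ) ^ j) * ((n ^ H : ℕ) : ℝ) := by ring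
          _ < 3 * ((n ^ H : ℕ) : ℝ) := mul_lt_mul_of_pos_right h hN0
          _ = ((3 * n ^ H : ℕ) : ℝ) := by push_cast; ring
      have hnda : nd (anc n H (c 0)) (anc n H (c (g s))) ≤ 3 := nd_anc_mul hn hnd
      have hwt : wt2 n H δ K t η j ω (c (g s)) = 1 / 2 := by
        have : Nb2 n H j t η ω (anc n H (c (g s))) :=
          ⟨anc n H (c 0), by rw [nd_comm]; exact hnda, hss⟩
        unfold wt2
        rw [if_pos this]
      have hlow := g2b_low (M := M) (δ := δ) (K := K) (t := t) (η := η) (q := 1) hn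
        (hc (g s) hlt.le).1 (hc 0 (Nat.zero_le _)).2 hnda (nd_fl_cube hn (hc (g s) hlt.le).2)
      rw [hwt] at hlow
      have h10 : (5 : ℝ≥0) ^ M * (1 + ((1 : ℕ) : ℝ≥0)) ^ M = 10 ^ M := by
        rw [← mul_pow]
        norm_num
      rw [h10] at hlow
      have hlow' : 1 / 2 * ((LL2 n H M δ K t η ω j (fl n (H * j) (f 0).1) : ℝ≥0) : ℝ) ≤
          10 ^ M * ((LL2 n H M δ K t η ω (j + 1) (fl n (H * (j + 1)) (f (g s)).1) : ℝ≥0) : ℝ) := by
        exact_mod_cast hlow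
      have hNr : 4 * (10 : ℝ) ^ M ≤ ((n ^ H : ℕ) : ℝ) := by exact_mod_cast hN
      have hA0 : (0 : ℝ) ≤
          ((LL2 n H M δ K t η ω (j + 1) (fl n (H * (j + 1)) (f (g s)).1) : ℝ≥0) : ℝ) :=
        NNReal.coe_nonneg _
      nlinarith [mul_le_mul_of_nonneg_right hNr hA0]
    have hB0 : (0 : ℝ) ≤ ((LL2 n H M δ K t η ω j (fl n (H * j) (f 0).1) : ℝ≥0) : ℝ) :=
      NNReal.coe_nonneg _
    have hsum : (S : ℝ) * (2 * ((LL2 n H M δ K t η ω j (fl n (H * j) (f 0).1) : ℝ≥0) : ℝ)) ≤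
        ((n ^ H : ℕ) : ℝ) * ∑ s ∈ Finset.range S,
          ((LL2 n H M δ K t η ω (j + 1) (fl n (H * (j + 1)) (f (g s)).1) : ℝ≥0) : ℝ) := by
      rw [Finset.mul_sum]
      calc (S : ℝ) * (2 * ((LL2 n H M δ K t η ω j (fl n (H * j) (f 0).1) : ℝ≥0) : ℝ))
          = ∑ _s ∈ Finset.range S,
            2 * ((LL2 n H M δ K t η ω j (fl n (H * j) (f 0).1) : ℝ≥0) : ℝ) := by
            rw [Finset.sum_const, Finset.card_range, nsmul_eq_mul]
        _ ≤ _ := Finset.sum_le_sum fun s hs => hone s (Finset.mem_range.1 hs)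
    have hSN : ((n ^ H : ℕ) : ℝ) ≤ 2 * (S : ℝ) := by
      have : n ^ H ≤ 2 * S := by omega
      exact_mod_cast this
    have hfin : ((n ^ H : ℕ) : ℝ) * ((LL2 n H M δ K t η ω j (fl n (H * j) (f 0).1) : ℝ≥0) : ℝ) ≤
        ((n ^ H : ℕ) : ℝ) * ∑ s ∈ Finset.range S,
          ((LL2 n H M δ K t η ω (j + 1) (fl n (H * (j + 1)) (f (g s)).1) : ℝ≥0) : ℝ) := by
      refine le_trans ?_ hsum
      nlinarith [mul_le_mul_of_nonneg_right hSN hB0]
    exact le_of_mul_le_mul_left hfin hN0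

end gtFQ
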