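import Pool.Agent.Lib.gtFQ.NetA

/-! The lower bound for chains from the greedy crossing condition. -/

open scoped NNReal ENNReal

namespace gtFQ

open gtFP

variable {X : Type} {s : X → X → ℝ} {N : ℕ} {Λ : ℕ → X → ℝ} {δ H : ℝ}

private theorem LamB.s_nonneg' (h : LamB s N Λ δ H) (x y : X) : 0 ≤ s x y := by
  by_cases hxy : x = y
  · rw [hxy, h.s_self]
  · exact (h.s_pos x y hxy).le

private theorem LamB.δ_le (h : LamB s N Λ δ H) (x : X) : δ ≤ 1 / 2 := by
  have h1 := h.low 0 x
  have h2 := h.dec 0 x
  have h3 := h.pos 0 x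
  have : δ * Λ 0 x ≤ 1 / 2 * Λ 0 x := h1.trans h2
  exact le_of_mul_le_mul_right this h3

private theorem LamB.exists_fine (h : LamB s N Λ δ H) (f : ℕ → X) (r : ℕ) :
    ∃ K : ℕ, ∀ i < r, f i = f (i + 1) ∨ 1 / (N : ℝ) ^ K < s (f i) (f (i + 1)) := by
  induction r with
  | zero => exact ⟨0, fun i hi => absurd hi (by omega)⟩
  | succ r ih =>
    obtain ⟨K, hK⟩ := ih
    have hN : (1 : ℝ) ≤ N := by exact_mod_cast le_trans (by norm_num) h.hN
    by_cases hr : f r = f (r + 1)
    · refine ⟨K, fun i hi => ?_⟩
      rcases Nat.lt_succ_iff_lt_or_eq.1 hi with hi | rfl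
      · exact hK i hi
      · exact Or.inl hr
    · obtain ⟨k, hk⟩ := h.exists_kk hr
      refine ⟨max K (k + 1), fun i hi => ?_⟩
      rcases Nat.lt_succ_iff_lt_or_eq.1 hi with hi | rfl
      · rcases hK i hi with h1 | h1
        · exact Or.inl h1
        · refine Or.inr (lt_of_le_of_lt ?_ h1)
          exact one_div_le_one_div_of_le (by positivity)
            (pow_le_pow_right₀ hN (le_max_left _ _))
      · refine Or.inr (lt_of_le_of_lt ?_ hk)
        exact one_div_le_one_div_of_le (by positivity)
          (pow_le_pow_right₀ hN (le_max_right _ _))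

private theorem greedy (P : ℕ → ℕ → Prop) (hP : ∀ a, ¬ P a a) (r : ℕ) :
    ∀ n a, a ≤ r → r ≤ a + n → ∃ (S : ℕ) (g : ℕ → ℕ), g 0 = a ∧ (∀ i < S, g i < g (i + 1)) ∧
      g S ≤ r ∧ (∀ i < S, P (g i) (g (i + 1))) ∧
      (∀ i < S, ∀ l, g i ≤ l → l < g (i + 1) → ¬ P (g i) l) ∧
      (∀ l, g S ≤ l → l ≤ r → ¬ P (g S) l) := by
  intro n
  induction n with
  | zero =>
    intro a ha hr
    refine ⟨0, fun _ => a, rfl, fun i hi => absurd hi (Nat.not_lt_zero _), ha,
      fun i hi => absurd hi (Nat.not_lt_zero _), fun i hi => absurd hi (Nat.not_lt_zero _), ?_⟩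
    intro l h1 h2
    have h1' : a ≤ l := h1
    have : l = a := by omega
    rw [this]
    exact hP a
  | succ n ih =>
    intro a ha hr
    by_cases hex : ∃ l, a ≤ l ∧ l ≤ r ∧ P a l
    · classical
      obtain ⟨hb1, hb2, hb3⟩ := Nat.find_spec hex
      have hmin := fun i (hi : i < Nat.find hex) => Nat.find_min hex hi
      set b := Nat.find hex with hb
      have hab : a < b := by
        rcases lt_or_eq_of_le hb1 with h1 | h1
        · exact h1
        · rw [← h1] at hb3
          exact absurd hb3 (hP a)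
      obtain ⟨S, g, h0, h1, h2, h3, h4, h5⟩ := ih b hb2 (by omega)
      refine ⟨S + 1, fun i => if i = 0 then a else g (i - 1), by simp, ?_, ?_, ?_, ?_, ?_⟩
      · intro i hi
        rcases Nat.eq_zero_or_pos i with rfl | hpos
        · simp only [if_true, zero_add, one_ne_zero, if_false, Nat.sub_self]
          rw [h0]
          exact hab
        · have e1 : i ≠ 0 := by omega
          have e2 : i + 1 - 1 = i - 1 + 1 := by omega
          simp only [e1, if_false, Nat.add_eq_zero_iff, one_ne_zero, and_false, e2]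
          exact h1 (i - 1) (by omega)
      · simpa using h2
      · intro i hi
        rcases Nat.eq_zero_or_pos i with rfl | hpos
        · simp only [if_true, zero_add, one_ne_zero, if_false, Nat.sub_self]
          rw [h0]
          exact hb3
        · have e1 : i ≠ 0 := by omega
          have e2 : i + 1 - 1 = i - 1 + 1 := by omega
          simp only [e1, if_false, Nat.add_eq_zero_iff, one_ne_zero, and_false, e2]
          exact h3 (i - 1) (by omega)
      · intro i hi l hl1 hl2
        rcases Nat.eq_zero_or_pos i with rfl | hpos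
        · simp only [if_true, zero_add, one_ne_zero, if_false, Nat.sub_self] at hl1 hl2 ⊢
          rw [h0] at hl2
          intro hc
          exact hmin l hl2 ⟨hl1, by omega, hc⟩
        · have e1 : i ≠ 0 := by omega
          have e2 : i + 1 - 1 = i - 1 + 1 := by omega
          simp only [e1, if_false, Nat.add_eq_zero_iff, one_ne_zero, and_false, e2] at hl1 hl2 ⊢
          exact h4 (i - 1) (by omega) l hl1 hl2
      · intro l hl1 hl2
        simp only [Nat.add_eq_zero_iff, one_ne_zero, and_false, if_false,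
          Nat.add_sub_cancel] at hl1 ⊢
        exact h5 l hl1 hl2
    · refine ⟨0, fun _ => a, rfl, fun i hi => absurd hi (Nat.not_lt_zero _), ha,
        fun i hi => absurd hi (Nat.not_lt_zero _), fun i hi => absurd hi (Nat.not_lt_zero _), ?_⟩
      intro l h1 h2 h3
      exact hex ⟨l, h1, h2, h3⟩

private theorem sum_pieces (F : ℕ → ℝ) (g : ℕ → ℕ) (S : ℕ) (hg : ∀ i < S, g i < g (i + 1)) :
    g 0 ≤ g S ∧ ∑ i ∈ Finset.range S, ∑ l ∈ Finset.Ico (g i) (g (i + 1)), F l =
      ∑ l ∈ Finset.Ico (g 0) (g S), F l := by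
  induction S with
  | zero => simp
  | succ S ih =>
    obtain ⟨h1, h2⟩ := ih fun i hi => hg i (by omega)
    have h3 := hg S (by omega)
    refine ⟨by omega, ?_⟩
    rw [Finset.sum_range_succ, h2, Finset.sum_Ico_consecutive _ h1 h3.le]

private theorem LamB.chain_aux (h : LamB s N Λ δ H) (hc2 : Cross2 s N Λ) (K D : ℕ) :
    ∀ j, K ≤ j + D → ∀ (f : ℕ → X) (r : ℕ),
      (∀ i < r, f i = f (i + 1) ∨ 1 / (N : ℝ) ^ K < s (f i) (f (i + 1))) →
      3 / (N : ℝ) ^ j ≤ s (f 0) (f r) →
      δ / H * Λ j (f 0) ≤ ∑ i ∈ Finset.range r, qd s N Λ (f i) (f (i + 1)) := by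
  have hN4 : (4 : ℝ) ≤ N := by exact_mod_cast h.hN
  have hN1 : (1 : ℝ) ≤ N := by linarith
  have hN0 : (0 : ℝ) < N := by linarith
  have hH0 : 0 < H := by linarith [h.H1]
  have hδH : 0 < δ / H := div_pos h.δpos hH0
  have hle1 : ∀ x : X, δ / H ≤ 1 := fun x => by
    rw [div_le_one hH0]
    linarith [h.δ_le x, h.H1]
  induction D with
  | zero =>
    intro j hj f r hf hd
    have hex : ∃ i, f i ≠ f 0 := by
      refine ⟨r, fun hr => ?_⟩
      rw [hr, h.s_self] at hd
      have : (0 : ℝ) < 3 / (N : ℝ) ^ j := by positivity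
      linarith
    classical
    have hfind := Nat.find_spec hex
    have hmin := fun i (hi : i < Nat.find hex) => Nat.find_min hex hi
    set i₁ := Nat.find hex with hi₁
    have hi₁pos : i₁ ≠ 0 := by
      intro h0
      rw [h0] at hfind
      exact hfind rfl
    obtain ⟨i, hi⟩ : ∃ i, i₁ = i + 1 := ⟨i₁ - 1, by omega⟩
    have h0 : f i = f 0 := by
      by_contra hc
      exact hmin i (by omega) hc
    have hne : f i ≠ f (i + 1) := by
      rw [← hi, h0]
      exact fun hc => hfind hc.symm
    have hir : i < r := by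
      by_contra hc
      have : r < i₁ := by omega
      have := not_not.1 (hmin r this)
      rw [this, h.s_self] at hd
      have : (0 : ℝ) < 3 / (N : ℝ) ^ j := by positivity
      linarith
    have hj1 : 1 / (N : ℝ) ^ (j + 1) < s (f i) (f (i + 1)) := by
      rcases hf i hir with h1 | h1
      · exact absurd h1 hne
      · refine lt_of_le_of_lt ?_ h1
        exact one_div_le_one_div_of_le (by positivity) (pow_le_pow_right₀ hN1 (by omega))
    have hjump := h.jump hne hj1
    calc δ / H * Λ j (f 0) ≤ 1 * Λ j (f 0) :=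
          mul_le_mul_of_nonneg_right (hle1 (f 0)) (h.pos _ _).le
      _ = Λ j (f i) := by rw [one_mul, h0]
      _ ≤ qd s N Λ (f i) (f (i + 1)) := hjump
      _ ≤ _ := Finset.single_le_sum (f := fun i => qd s N Λ (f i) (f (i + 1)))
          (fun i _ => h.qd_nonneg _ _) (Finset.mem_range.2 hir)
  | succ D ih =>
    intro j hj f r hf hd
    have hex : ∃ i, 3 / (N : ℝ) ^ j ≤ s (f 0) (f i) := ⟨r, hd⟩
    classical
    have hfind := Nat.find_spec hex
    have hmin := fun i (hi : i < Nat.find hex) => Nat.find_min hex hi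
    have hr' : Nat.find hex ≤ r := Nat.find_min' hex hd
    set r' := Nat.find hex with hr'def
    have hmono : ∑ i ∈ Finset.range r', qd s N Λ (f i) (f (i + 1)) ≤
        ∑ i ∈ Finset.range r, qd s N Λ (f i) (f (i + 1)) :=
      Finset.sum_le_sum_of_subset_of_nonneg (Finset.range_mono hr')
        (fun i _ _ => h.qd_nonneg _ _)
    refine le_trans ?_ hmono
    have hlt : ∀ i < r', s (f 0) (f i) < 3 / (N : ℝ) ^ j := fun i hi => not_le.1 (hmin i hi)
    by_cases hbig : ∃ i < r', 1 / (N : ℝ) ^ (j + 1) ≤ s (f i) (f (i + 1))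
    · obtain ⟨i, hi, hs⟩ := hbig
      have hne : f i ≠ f (i + 1) := by
        intro hc
        rw [← hc, h.s_self] at hs
        have : (0 : ℝ) < 1 / (N : ℝ) ^ (j + 1) := by positivity
        linarith
      have h2 : 1 / (N : ℝ) ^ (j + 1 + 1) < s (f i) (f (i + 1)) := by
        refine lt_of_lt_of_le ?_ hs
        exact one_div_lt_one_div_of_lt (by positivity)
          (pow_lt_pow_right₀ (by linarith) (by omega))
      have hjump := h.jump hne h2
      have hhar := h.har j (f 0) (f i) (hlt i hi).le
      have hlow := h.low j (f i)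
      calc δ / H * Λ j (f 0) ≤ δ / H * (H * Λ j (f i)) :=
            mul_le_mul_of_nonneg_left hhar hδH.le
        _ = δ * Λ j (f i) := by field_simp
        _ ≤ Λ (j + 1) (f i) := hlow
        _ ≤ qd s N Λ (f i) (f (i + 1)) := hjump
        _ ≤ _ := Finset.single_le_sum (f := fun i => qd s N Λ (f i) (f (i + 1)))
            (fun i _ => h.qd_nonneg _ _) (Finset.mem_range.2 hi)
    · push Not at hbig
      have hu : (0 : ℝ) < 3 / (N : ℝ) ^ (j + 1) := by positivity
      obtain ⟨S, g, h0, h1, h2, h3, h4, h5⟩ := greedy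
        (fun a l => 3 / (N : ℝ) ^ (j + 1) ≤ s (f a) (f l)) (fun a ha => by
          rw [h.s_self] at ha
          linarith) r' r' 0 (Nat.zero_le _) (by omega)
      have hcross := hc2 j f r' hbig hlt hfind S g h0 h1 h2 h3
        (fun i hi l hl1 hl2 => not_le.1 (h4 i hi l hl1 hl2))
        (fun l hl1 hl2 => not_le.1 (h5 l hl1 hl2))
      obtain ⟨hg0, hsum⟩ := sum_pieces (fun i => qd s N Λ (f i) (f (i + 1))) g S h1
      have hgS : ∀ i < S, g (i + 1) ≤ r' := by
        intro i hi
        have hmon : ∀ t, i + 1 + t ≤ S → g (i + 1) ≤ g (i + 1 + t) := by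
          intro t
          induction t with
          | zero => intro _; exact le_rfl
          | succ t iht =>
            intro ht
            have e1 := iht (by omega)
            have e2 := h1 (i + 1 + t) (by omega)
            rw [show i + 1 + (t + 1) = i + 1 + t + 1 by omega]
            omega
        have e3 := hmon (S - (i + 1)) (by omega)
        rw [show i + 1 + (S - (i + 1)) = S by omega] at e3
        omega
      have hpiece : ∀ i ∈ Finset.range S, δ / H * Λ (j + 1) (f (g i)) ≤
          ∑ l ∈ Finset.Ico (g i) (g (i + 1)), qd s N Λ (f l) (f (l + 1)) := by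
        intro i hi
        rw [Finset.mem_range] at hi
        have hab := h1 i hi
        have hbr := hgS i hi
        have hsub := ih (j + 1) (by omega) (fun l => f (g i + l)) (g (i + 1) - g i)
          (fun l hl => by
            have := hf (g i + l) (by omega)
            simpa [add_assoc] using this)
          (by
            simp only [add_zero]
            rw [show g i + (g (i + 1) - g i) = g (i + 1) by omega]
            exact h3 i hi)
        have hsum1 : ∑ l ∈ Finset.range (g (i + 1) - g i),
            qd s N Λ (f (g i + l)) (f (g i + (l + 1))) =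
            ∑ l ∈ Finset.Ico (g i) (g (i + 1)), qd s N Λ (f l) (f (l + 1)) := by
          rw [Finset.sum_Ico_eq_sum_range]
          rfl
        rw [← hsum1]
        simpa using hsub
      calc δ / H * Λ j (f 0) ≤ δ / H * ∑ i ∈ Finset.range S, Λ (j + 1) (f (g i)) :=
            mul_le_mul_of_nonneg_left hcross hδH.le
        _ = ∑ i ∈ Finset.range S, δ / H * Λ (j + 1) (f (g i)) := Finset.mul_sum _ _ _
        _ ≤ ∑ i ∈ Finset.range S, ∑ l ∈ Finset.Ico (g i) (g (i + 1)),
              qd s N Λ (f l) (f (l + 1)) := Finset.sum_le_sum hpiece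
        _ = ∑ l ∈ Finset.Ico (g 0) (g S), qd s N Λ (f l) (f (l + 1)) := hsum
        _ ≤ ∑ l ∈ Finset.range r', qd s N Λ (f l) (f (l + 1)) := by
            refine Finset.sum_le_sum_of_subset_of_nonneg ?_ (fun i _ _ => h.qd_nonneg _ _)
            intro l hl
            rw [Finset.mem_Ico] at hl
            rw [Finset.mem_range]
            omega

/-- Port of gtFP/MetB.lean (read its proof first). Case without big jumps: build the greedy sequence
(`g 0 = 0`, `g (i+1)` = first index `l > g i`, `l ≤ r'`, with `3 N^{-(j+1)} ≤ s (f (g i)) (f l)`, as long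
as there is one), apply the induction hypothesis (for `j + 1`) to the pieces from `g i` to `g (i+1)`
(cost at least `δ/H Λ_{j+1}(f (g i))` each), sum over the disjoint pieces and use `Cross2`. The case
of a big jump and the case of a fine chain are as in MetB. -/
theorem LamB.chain_lower' (h : LamB s N Λ δ H) (hc : Cross2 s N Λ) (j : ℕ) (f : ℕ → X) (r : ℕ)
    (hd : 3 / (N : ℝ) ^ j ≤ s (f 0) (f r)) :
    δ / H * Λ j (f 0) ≤ ∑ i ∈ Finset.range r, qd s N Λ (f i) (f (i + 1)) := by
  obtain ⟨K, hK⟩ := h.exists_fine f r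
  exact h.chain_aux hc K K j (by omega) f r hK hd

theorem LamB.toG (h : LamB s N Λ δ H) (hc : Cross2 s N Λ) : LamG s N Λ δ H :=
  { h with chain_lower := h.chain_lower' hc }

end gtFQ
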