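import Pool.Agent.Lib.gtFQ.NetA
import Pool.Agent.Lib.gtFP.Defs

/-! The abstract metric construction, part 6: covering numbers. -/

open scoped NNReal ENNReal

namespace gtFQ

open gtFP

variable {X : Type} {s : X → X → ℝ} {N : ℕ} {Λ : ℕ → X → ℝ} {δ H : ℝ}

/-- Covering numbers. Let `φ k : X → V` be codes such that `Λ k x = L k (φ k x)` and points with the
same code of level `k` have `s x y ≤ N^{-k}`, and suppose that
`∑_{k < J} ∑_{Q ∈ T k} L k Q ^ t ≤ S` for all `J`, where `φ k` has values in the finset `T k`.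
Then for every `r ∈ (0,1)` there is a finset `A ⊆ X` with at most `C r^{-t}` elements such that every
`y` has some `x ∈ A` with `qd y x ≤ r`.
Proof: let `r' = r/2`. For `y : X` let `J y` be the least `k` with `Λ k y ≤ r'` (exists,
`Λ k y ≤ 2^{-k}`; bounded by a number `J₀` depending on `r`). If `J x = J y = k` and
`φ k x = φ k y` then `x = y` or `kk x y ≥ k` (as `s x y ≤ N^{-k}`), so `qd x y ≤ Λ k x + Λ k y ≤ 2 r'`.
Choose one point for each pair `(k, Q)` which is `(J y, φ (J y) y)` for some `y`. For such a pair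
`L k Q = Λ k y ≥ δ Λ (k-1) y ≥ δ r'` if `k ≥ 1`, and for `k = 0` the set is handled by
`Λ 0 y ≥ ..`: if `k = 0` all points have... (for `k = 0`: `J y = 0`; the number of codes of level
`0` is at most `card (T 0)`, a constant). So the number of pairs is at most
`card (T 0) + (δ r')^{-t} S`. -/
theorem LamB.exists_cover (h : LamB s N Λ δ H) {V : Type} (φ : ℕ → X → V) (L : ℕ → V → ℝ)
    (hL : ∀ k x, Λ k x = L k (φ k x)) (hL0 : ∀ k Q, 0 ≤ L k Q)
    (hφ : ∀ k x y, φ k x = φ k y → s x y ≤ 1 / (N : ℝ) ^ k)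
    (T : ℕ → Finset V) (hT : ∀ k x, φ k x ∈ T k) {t S : ℝ} (ht : 0 < t)
    (hS : ∀ J, ∑ k ∈ Finset.range J, ∑ Q ∈ T k, L k Q ^ t ≤ S) :
    ∃ C : ℝ, 0 ≤ C ∧ ∀ r : ℝ, 0 < r → r < 1 → ∃ A : Finset X, (A.card : ℝ) ≤ C * r ^ (-t) ∧
      ∀ y, ∃ x ∈ A, qd s N Λ y x ≤ r := by
  classical
  have hS0 : 0 ≤ S := by simpa using hS 0
  have hδ := h.δpos
  have hC0 : (0 : ℝ) ≤ S * (δ / 2) ^ (-t) := mul_nonneg hS0 (Real.rpow_nonneg (by positivity) _)
  refine ⟨(T 0).card + S * (δ / 2) ^ (-t), by positivity, ?_⟩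
  intro r hr hr1
  have hΛ : ∀ k y, Λ k y ≤ (1 / 2 : ℝ) ^ k := by
    intro k y
    induction k with
    | zero => simpa using h.zero y
    | succ k ih =>
      have h1 := h.dec k y
      rw [pow_succ]
      linarith
  obtain ⟨J₀, hJ₀⟩ := exists_pow_lt_of_lt_one (show (0 : ℝ) < r / 2 by positivity)
    (show (1 / 2 : ℝ) < 1 by norm_num)
  have hex : ∀ y, ∃ k, Λ k y ≤ r / 2 := fun y => ⟨J₀, (hΛ J₀ y).trans hJ₀.le⟩
  obtain ⟨J, hJ1, hJ2, hJ3⟩ : ∃ J : X → ℕ, (∀ y, Λ (J y) y ≤ r / 2) ∧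
      (∀ y k, k < J y → r / 2 < Λ k y) ∧ ∀ y, J y ≤ J₀ :=
    ⟨fun y => Nat.find (hex y), fun y => Nat.find_spec (hex y),
      fun y k hk => not_le.1 (Nat.find_min (hex y) hk),
      fun y => Nat.find_min' (hex y) ((hΛ J₀ y).trans hJ₀.le)⟩
  obtain ⟨P, hPdef⟩ : ∃ P : Finset (Σ _ : ℕ, V), P = ((Finset.range (J₀ + 1)).sigma T).filter
      (fun q => ∃ y, J y = q.1 ∧ φ q.1 y = q.2) := ⟨_, rfl⟩
  have hP : ∀ q ∈ P, ∃ y, J y = q.1 ∧ φ q.1 y = q.2 := by
    intro q hq
    rw [hPdef] at hq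
    exact (Finset.mem_filter.1 hq).2
  let g : {q // q ∈ P} → X := fun q => (hP q.1 q.2).choose
  have hg : ∀ q : {q // q ∈ P}, J (g q) = q.1.1 ∧ φ q.1.1 (g q) = q.1.2 :=
    fun q => (hP q.1 q.2).choose_spec
  refine ⟨P.attach.image g, ?_, ?_⟩
  · have hc1 : (P.attach.image g).card ≤ P.card := by
      have h1 := Finset.card_image_le (s := P.attach) (f := g)
      rwa [Finset.card_attach] at h1
    have hc0 : (P.filter (fun q => q.1 = 0)).card ≤ (T 0).card := by
      have h1 : P.filter (fun q => q.1 = 0) ⊆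
          (T 0).image (fun Q => (⟨0, Q⟩ : Σ _ : ℕ, V)) := by
        rintro ⟨k, Q⟩ hq
        rw [Finset.mem_filter, hPdef, Finset.mem_filter, Finset.mem_sigma] at hq
        obtain ⟨⟨⟨-, h2⟩, -⟩, h3⟩ := hq
        have h4 : k = 0 := h3
        subst h4
        exact Finset.mem_image_of_mem _ h2
      exact (Finset.card_le_card h1).trans Finset.card_image_le
    have hc2 : ((P.filter (fun q => ¬ q.1 = 0)).card : ℝ) * (δ * (r / 2)) ^ t ≤ S := by
      calc ((P.filter (fun q => ¬ q.1 = 0)).card : ℝ) * (δ * (r / 2)) ^ t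
          = ∑ _q ∈ P.filter (fun q => ¬ q.1 = 0), (δ * (r / 2)) ^ t := by
            rw [Finset.sum_const, nsmul_eq_mul]
        _ ≤ ∑ q ∈ P.filter (fun q => ¬ q.1 = 0), L q.1 q.2 ^ t := by
            refine Finset.sum_le_sum fun q hq => ?_
            obtain ⟨hq1, hq2⟩ := Finset.mem_filter.1 hq
            obtain ⟨y, hy1, hy2⟩ := hP q hq1
            refine Real.rpow_le_rpow (by positivity) ?_ ht.le
            rw [← hy2, ← hL]
            obtain ⟨k, hk⟩ := Nat.exists_eq_succ_of_ne_zero hq2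
            have h1 := h.low k y
            have h2 := hJ2 y k (by omega)
            rw [hk]
            calc δ * (r / 2) ≤ δ * Λ k y := by gcongr
              _ ≤ _ := h1
        _ ≤ ∑ q ∈ (Finset.range (J₀ + 1)).sigma T, L q.1 q.2 ^ t := by
            refine Finset.sum_le_sum_of_subset_of_nonneg ?_ fun q _ _ =>
              Real.rpow_nonneg (hL0 _ _) _
            refine (Finset.filter_subset _ _).trans ?_
            rw [hPdef]
            exact Finset.filter_subset _ _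
        _ = ∑ k ∈ Finset.range (J₀ + 1), ∑ Q ∈ T k, L k Q ^ t := by
            rw [Finset.sum_sigma]
        _ ≤ S := hS _
    have hpos : 0 < (δ * (r / 2)) ^ t := Real.rpow_pos_of_pos (by positivity) _
    have hc3 : ((P.filter (fun q => ¬ q.1 = 0)).card : ℝ) ≤ S * (δ / 2) ^ (-t) * r ^ (-t) := by
      have h1 : (δ / 2) ^ (-t) * r ^ (-t) = ((δ * (r / 2)) ^ t)⁻¹ := by
        rw [← Real.mul_rpow (by positivity) hr.le, show δ / 2 * r = δ * (r / 2) by ring,
          Real.rpow_neg (by positivity)]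
      rw [mul_assoc, h1, ← div_eq_mul_inv, le_div_iff₀ hpos]
      exact hc2
    have hr2 : 1 ≤ r ^ (-t) :=
      Real.one_le_rpow_of_pos_of_le_one_of_nonpos hr hr1.le (by linarith)
    have hc4 : P.card = (P.filter (fun q => q.1 = 0)).card +
        (P.filter (fun q => ¬ q.1 = 0)).card :=
      (Finset.card_filter_add_card_filter_not _).symm
    have hc5 : ((P.attach.image g).card : ℝ) ≤ (T 0).card +
        ((P.filter (fun q => ¬ q.1 = 0)).card : ℝ) := by
      have h1 : (P.attach.image g).card ≤ (T 0).card + (P.filter (fun q => ¬ q.1 = 0)).card := by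
        omega
      exact_mod_cast h1
    have hc6 : ((T 0).card : ℝ) ≤ (T 0).card * r ^ (-t) :=
      le_mul_of_one_le_right (by positivity) hr2
    rw [add_mul]
    linarith
  · intro y
    have hq : (⟨J y, φ (J y) y⟩ : Σ _ : ℕ, V) ∈ P := by
      rw [hPdef]
      exact Finset.mem_filter.2 ⟨Finset.mem_sigma.2
        ⟨Finset.mem_range.2 (Nat.lt_succ_of_le (hJ3 y)), hT _ _⟩, y, rfl, rfl⟩
    refine ⟨g ⟨_, hq⟩, Finset.mem_image_of_mem _ (Finset.mem_attach _ _), ?_⟩
    obtain ⟨h1, h2⟩ := hg ⟨_, hq⟩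
    generalize g ⟨_, hq⟩ = x at h1 h2
    change J x = J y at h1
    change φ (J y) x = φ (J y) y at h2
    by_cases hxy : y = x
    · unfold qd
      rw [if_pos hxy]
      exact hr.le
    · have h3 : s y x ≤ 1 / (N : ℝ) ^ (J y) := hφ _ _ _ h2.symm
      have h4 := h.kk_lt hxy
      have hN : (1 : ℝ) ≤ N := by
        have := h.hN
        exact_mod_cast (by omega : 1 ≤ N)
      have h5 : J y ≤ kk s N y x := by
        by_contra hc
        have h6 : kk s N y x + 1 ≤ J y := by omega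
        have h7 : 1 / (N : ℝ) ^ (J y) ≤ 1 / (N : ℝ) ^ (kk s N y x + 1) :=
          one_div_le_one_div_of_le (by positivity) (pow_le_pow_right₀ hN h6)
        linarith
      unfold qd
      rw [if_neg hxy]
      have h6 := h.anti y h5
      have h7 := h.anti x h5
      have h8 := hJ1 y
      have h9 := hJ1 x
      rw [h1] at h9
      linarith

end gtFQ
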