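import Pool.Agent.Lib.gtFQ.NetA
import Pool.Agent.Lib.gtFP.Defs

/-! The abstract metric construction, part 4: quasisymmetry. -/

open scoped NNReal ENNReal

namespace gtFQ

open gtFP

variable {X : Type} {s : X → X → ℝ} {N : ℕ} {Λ : ℕ → X → ℝ} {δ H : ℝ}

private theorem LamB.dec_pow (h : LamB s N Λ δ H) (x : X) (k m : ℕ) :
    Λ (k + m) x ≤ (1 / 2) ^ m * Λ k x := by
  induction m with
  | zero => simp
  | succ m ih =>
    calc Λ (k + (m + 1)) x ≤ 1 / 2 * Λ (k + m) x := h.dec (k + m) x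
      _ ≤ 1 / 2 * ((1 / 2) ^ m * Λ k x) := by
          exact mul_le_mul_of_nonneg_left ih (by norm_num)
      _ = (1 / 2) ^ (m + 1) * Λ k x := by ring

private theorem LamB.low_pow (h : LamB s N Λ δ H) (x : X) (k m : ℕ) :
    Λ k x ≤ (1 / δ) ^ m * Λ (k + m) x := by
  have hδ := h.δpos
  induction m with
  | zero => simp
  | succ m ih =>
    have h1 : Λ (k + m) x ≤ 1 / δ * Λ (k + m + 1) x := by
      rw [div_mul_eq_mul_div, one_mul, le_div_iff₀ hδ, mul_comm]
      exact h.low (k + m) x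
    calc Λ k x ≤ (1 / δ) ^ m * Λ (k + m) x := ih
      _ ≤ (1 / δ) ^ m * (1 / δ * Λ (k + m + 1) x) := by
          exact mul_le_mul_of_nonneg_left h1 (by positivity)
      _ = (1 / δ) ^ (m + 1) * Λ (k + (m + 1)) x := by
          rw [show k + (m + 1) = k + m + 1 by omega]; ring

private theorem LamB.main_ineq (h : LamB s N Λ δ H) (hδ1 : δ ≤ 1 / 2) {x a b : X} {t : ℝ}
    (ha : x ≠ a) (hb : x ≠ b) (hab : s x a ≤ t * s x b) :
    Λ (kk s N x a) x ≤ (2 + 1 / δ) * (t ^ (Real.log 2 / Real.log N) +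
      t ^ (Real.log (1 / δ) / Real.log N)) * Λ (kk s N x b) x := by
  have hδ := h.δpos
  have hN4 : (4 : ℝ) ≤ N := by exact_mod_cast h.hN
  have hN0 : (0 : ℝ) < N := by linarith
  have hN1 : (1 : ℝ) < N := by linarith
  have hlN : 0 < Real.log N := Real.log_pos hN1
  have h1δ : 1 < 1 / δ := by rw [lt_div_iff₀ hδ]; linarith
  have hsa := h.kk_lt ha
  have hsb := h.kk_le hb
  have hsb0 := h.s_pos x b hb
  have hsa0 := h.s_pos x a ha
  have ht : 0 < t := by
    by_contra hc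
    have : t * s x b ≤ 0 := mul_nonpos_of_nonpos_of_nonneg (not_lt.1 hc) hsb0.le
    linarith
  set ka := kk s N x a with hka
  set kb := kk s N x b with hkb
  -- `N ^ kb < t * N ^ (ka + 1)`
  have key : (N : ℝ) ^ kb < t * (N : ℝ) ^ (ka + 1) := by
    have h1 : 1 / (N : ℝ) ^ (ka + 1) < t * (1 / (N : ℝ) ^ kb) :=
      lt_of_lt_of_le hsa (hab.trans (mul_le_mul_of_nonneg_left hsb ht.le))
    rw [mul_one_div, div_lt_div_iff₀ (by positivity) (by positivity), one_mul] at h1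
    exact h1
  have hNα : ∀ c : ℝ, 0 < c → (N : ℝ) ^ (Real.log c / Real.log N) = c := by
    intro c hc
    rw [Real.rpow_def_of_pos hN0, mul_div_cancel₀ _ hlN.ne', Real.exp_log hc]
  have hα : 0 < Real.log 2 / Real.log N := div_pos (Real.log_pos (by norm_num)) hlN
  have hβ : 0 < Real.log (1 / δ) / Real.log N := div_pos (Real.log_pos h1δ) hlN
  have hpow : ∀ (c : ℝ) (m : ℕ), 0 < c →
      ((N : ℝ) ^ m) ^ (Real.log c / Real.log N) = c ^ m := by
    intro c m hc
    rw [← Real.rpow_natCast, ← Real.rpow_mul hN0.le, mul_comm, Real.rpow_mul hN0.le, hNα c hc,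
      Real.rpow_natCast]
  have tα0 : 0 ≤ t ^ (Real.log 2 / Real.log N) := Real.rpow_nonneg ht.le _
  have tβ0 : 0 ≤ t ^ (Real.log (1 / δ) / Real.log N) := Real.rpow_nonneg ht.le _
  have hΛb := h.pos kb x
  have hδ' : 0 < 1 / δ := by positivity
  rcases le_or_gt kb ka with hc | hc
  · -- `kb ≤ ka`
    obtain ⟨m, hm⟩ := Nat.exists_eq_add_of_le hc
    have h1 := h.dec_pow x kb m
    rw [← hm] at h1
    have h2 : 1 < t * (N : ℝ) ^ (m + 1) := by
      have e : (N : ℝ) ^ (ka + 1) = (N : ℝ) ^ kb * (N : ℝ) ^ (m + 1) := by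
        rw [← pow_add, hm]; congr 1
      rw [e] at key
      have hp : 0 < (N : ℝ) ^ kb := by positivity
      have key2 : (N : ℝ) ^ kb * 1 < (N : ℝ) ^ kb * (t * (N : ℝ) ^ (m + 1)) := by linarith
      exact lt_of_mul_lt_mul_left key2 hp.le
    have h3 : 1 ≤ t ^ (Real.log 2 / Real.log N) * 2 ^ (m + 1) := by
      have h4 := Real.one_le_rpow h2.le hα.le
      rwa [Real.mul_rpow ht.le (by positivity), hpow 2 (m + 1) (by norm_num)] at h4
    have h5 : ((1 : ℝ) / 2) ^ m ≤ 2 * t ^ (Real.log 2 / Real.log N) := by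
      have hp : (0 : ℝ) < 2 ^ m := by positivity
      rw [one_div, inv_pow, inv_eq_one_div, div_le_iff₀ hp]
      have e : t ^ (Real.log 2 / Real.log N) * 2 ^ (m + 1) =
          2 * t ^ (Real.log 2 / Real.log N) * 2 ^ m := by ring
      linarith
    refine h1.trans (mul_le_mul_of_nonneg_right (h5.trans ?_) hΛb.le)
    have e1 : (2 + 1 / δ) * (t ^ (Real.log 2 / Real.log N) +
      t ^ (Real.log (1 / δ) / Real.log N)) = 2 * t ^ (Real.log 2 / Real.log N) +
        (2 * t ^ (Real.log (1 / δ) / Real.log N) + 1 / δ * (t ^ (Real.log 2 / Real.log N) +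
      t ^ (Real.log (1 / δ) / Real.log N))) := by ring
    rw [e1]
    have : 0 ≤ 2 * t ^ (Real.log (1 / δ) / Real.log N) +
        1 / δ * (t ^ (Real.log 2 / Real.log N) + t ^ (Real.log (1 / δ) / Real.log N)) := by
      positivity
    linarith
  · -- `ka < kb`
    obtain ⟨m, hm⟩ := Nat.exists_eq_add_of_lt hc
    have h1 := h.low_pow x ka (m + 1)
    rw [show ka + (m + 1) = kb by omega] at h1
    have h2 : (N : ℝ) ^ m < t := by
      have e : (N : ℝ) ^ kb = (N : ℝ) ^ m * (N : ℝ) ^ (ka + 1) := by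
        rw [← pow_add]; congr 1; omega
      rw [e] at key
      exact lt_of_mul_lt_mul_right key (by positivity)
    have h3 : (1 / δ) ^ m ≤ t ^ (Real.log (1 / δ) / Real.log N) := by
      rw [← hpow (1 / δ) m hδ']
      exact Real.rpow_le_rpow (by positivity) h2.le hβ.le
    have h5 : (1 / δ) ^ (m + 1) ≤ 1 / δ * t ^ (Real.log (1 / δ) / Real.log N) := by
      rw [pow_succ, mul_comm]
      exact mul_le_mul_of_nonneg_left h3 hδ'.le
    refine h1.trans (mul_le_mul_of_nonneg_right (h5.trans ?_) hΛb.le)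
    have e1 : (2 + 1 / δ) * (t ^ (Real.log 2 / Real.log N) +
      t ^ (Real.log (1 / δ) / Real.log N)) = 1 / δ * t ^ (Real.log (1 / δ) / Real.log N) +
        (1 / δ * t ^ (Real.log 2 / Real.log N) + 2 * (t ^ (Real.log 2 / Real.log N) +
      t ^ (Real.log (1 / δ) / Real.log N))) := by ring
    rw [e1]
    have : 0 ≤ 1 / δ * t ^ (Real.log 2 / Real.log N) + 2 * (t ^ (Real.log 2 / Real.log N) +
      t ^ (Real.log (1 / δ) / Real.log N)) := by
      positivity
    linarith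

/-- Let `x ≠ a`, `x ≠ b`, `s x a ≤ t * s x b`, `ka = kk x a`, `kb = kk x b`. Then
`N^{-(ka+1)} < t N^{-kb}`, i.e. `N^{kb} < t N^{ka+1}`.
If `kb ≤ ka` then `Λ_ka(x) ≤ 2^{-(ka-kb)} Λ_kb(x)`; if `ka < kb` then
`Λ_ka(x) ≤ δ^{-(kb-ka)} Λ_kb(x)`. Also `Λ_ka(x) ≤ qd x a ≤ (1+H) Λ_ka(x)` (`har`, `kk_le`), the same
for `b`. With `α = log 2 / log N` (i.e. `N^α = 2`) and `β = log (1/δ) / log N` (`N^β = 1/δ`; note
`δ ≤ 1/2` by `low`, `dec`, `pos`, if `X` is nonempty) one gets
`qd x a ≤ C (t^α + t^β) qd x b` with `C = (1+H) max(2, 1/δ)` or so. -/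
theorem LamB.qs_ineq (h : LamB s N Λ δ H) :
    ∃ C α β : ℝ, 0 < C ∧ 0 < α ∧ 0 < β ∧ ∀ (x a b : X) (t : ℝ), 0 ≤ t → s x a ≤ t * s x b →
      qd s N Λ x a ≤ C * (t ^ α + t ^ β) * qd s N Λ x b := by
  rcases isEmpty_or_nonempty X with hX | ⟨⟨x0⟩⟩
  · exact ⟨1, 1, 1, one_pos, one_pos, one_pos, fun x => (hX.false x).elim⟩
  have hδ := h.δpos
  have hH := h.H1
  have hδ1 : δ ≤ 1 / 2 := by
    have h1 := (h.low 0 x0).trans (h.dec 0 x0)
    exact le_of_mul_le_mul_right h1 (h.pos 0 x0)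
  have hN4 : (4 : ℝ) ≤ N := by exact_mod_cast h.hN
  have hlN : 0 < Real.log N := Real.log_pos (by linarith)
  have h1δ : 1 < 1 / δ := by rw [lt_div_iff₀ hδ]; linarith
  have hα : 0 < Real.log 2 / Real.log N := div_pos (Real.log_pos (by norm_num)) hlN
  have hβ : 0 < Real.log (1 / δ) / Real.log N := div_pos (Real.log_pos h1δ) hlN
  have hC : 0 < (1 + H) * (2 + 1 / δ) := by positivity
  refine ⟨(1 + H) * (2 + 1 / δ), Real.log 2 / Real.log N, Real.log (1 / δ) / Real.log N, hC, hα, hβ,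
    fun x a b t ht hab => ?_⟩
  have t0 : 0 ≤ t ^ (Real.log 2 / Real.log N) + t ^ (Real.log (1 / δ) / Real.log N) :=
    add_nonneg (Real.rpow_nonneg ht _) (Real.rpow_nonneg ht _)
  by_cases ha : x = a
  · have e : qd s N Λ x a = 0 := by simp [qd, ha]
    rw [e]
    exact mul_nonneg (mul_nonneg hC.le t0) (h.qd_nonneg x b)
  by_cases hb : x = b
  · exfalso
    rw [← hb, h.s_self, mul_zero] at hab
    exact absurd hab (not_le.2 (h.s_pos x a ha))
  have h1 := h.main_ineq hδ1 ha hb hab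
  have h2 : qd s N Λ x a ≤ (1 + H) * Λ (kk s N x a) x := by
    have h3 : Λ (kk s N x a) a ≤ H * Λ (kk s N x a) x := by
      apply h.har
      rw [h.s_symm]
      refine (h.kk_le ha).trans ?_
      have hp : (0 : ℝ) < (N : ℝ) ^ kk s N x a := by
        have : (0 : ℝ) < N := by linarith
        positivity
      rw [div_le_div_iff_of_pos_right hp]
      norm_num
    have e : qd s N Λ x a = Λ (kk s N x a) x + Λ (kk s N x a) a := by simp [qd, ha]
    rw [e]
    linarith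
  have h4 : Λ (kk s N x b) x ≤ qd s N Λ x b := by
    have e : qd s N Λ x b = Λ (kk s N x b) x + Λ (kk s N x b) b := by simp [qd, hb]
    rw [e]
    have := h.pos (kk s N x b) b
    linarith
  calc qd s N Λ x a ≤ (1 + H) * Λ (kk s N x a) x := h2
    _ ≤ (1 + H) * ((2 + 1 / δ) * (t ^ (Real.log 2 / Real.log N) +
      t ^ (Real.log (1 / δ) / Real.log N)) * Λ (kk s N x b) x) :=
        mul_le_mul_of_nonneg_left h1 (by linarith)
    _ = (1 + H) * (2 + 1 / δ) * (t ^ (Real.log 2 / Real.log N) +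
      t ^ (Real.log (1 / δ) / Real.log N)) * Λ (kk s N x b) x := by ring
    _ ≤ _ := mul_le_mul_of_nonneg_left h4 (mul_nonneg hC.le t0)

end gtFQ
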