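import Pool.Agent.Lib.gtFQ.NetC
import Pool.Agent.Lib.gtFP.MetE
import Pool.Agent.Lib.gtFQ.NetD
import Pool.Agent.Lib.gtFP.Homeo

/-! The abstract metric construction, part 5: the quasisymmetrically equivalent space. -/

open scoped NNReal ENNReal

namespace gtFQ

open gtFP

variable {X : Type} {s : X → X → ℝ} {N : ℕ} {Λ : ℕ → X → ℝ} {δ H : ℝ}

/-- Put the metric `ρ` of `exists_metric` on the copy `Cpy X`. It is a metric: `ρ x y = 0` gives
`qd x y = 0`, so `x = y` (`pos`). The bijection `X → Cpy X` is continuous: if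
`s x y ≤ dist x y < N^{-(k+1)}` then `kk x y ≥ k+1`.. so `ρ x y ≤ qd x y ≤ 2 * (1/2)^k` or so
(`anti`, `dec`, `zero`). Its inverse is continuous: either directly (`qd x y ≥ Λ_k(x) ≥ ..`) or
because `X` is compact (`Continuous.homeoOfEquivCompactToT2`). Quasisymmetry: if
`dist x a ≤ t * dist x b` then `s x a ≤ (C₀ t) * s x b`, so
`ρ x a ≤ qd x a ≤ C ((C₀ t)^α + (C₀ t)^β) qd x b ≤ C/c (..) ρ x b`, and `(C₀ t)^α ≤ (1+C₀)^α t^α`
etc.; `exists_homeo`. -/
theorem LamG.exists_QS [MetricSpace X] [CompactSpace X] (h : LamG s N Λ δ H) (C₀ : ℝ)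
    (h1 : ∀ x y, s x y ≤ dist x y) (h2 : ∀ x y, dist x y ≤ C₀ * s x y) :
    ∃ mY : MetricSpace (Cpy X), QSEquiv X (Cpy X) ∧
      ∀ x y : X, dist (Cpy.mk x) (Cpy.mk y) ≤ qd s N Λ x y := by
  obtain ⟨ρ, c, hc, ρ0, ρsymm, ρtri, ρlow, ρup⟩ := h.exists_metric
  obtain ⟨C, α, β, hC, hα, hβ, hqs⟩ := h.qs_ineq
  have hNR : (4 : ℝ) ≤ (N : ℝ) := by exact_mod_cast h.hN
  have hΛ : ∀ (k : ℕ) (x : X), Λ k x ≤ (1 / 2) ^ k := by
    intro k x
    induction k with
    | zero => simpa using h.zero x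
    | succ k ih =>
      calc Λ (k + 1) x ≤ 1 / 2 * Λ k x := h.dec k x
        _ ≤ 1 / 2 * (1 / 2) ^ k := by gcongr
        _ = (1 / 2) ^ (k + 1) := by rw [pow_succ]; ring
  have hzero : ∀ x y : X, ρ x y = 0 → x = y := by
    intro x y hxy
    by_contra hne
    have e1 := ρlow x y
    have e2 : 0 < qd s N Λ x y := by
      unfold qd
      rw [if_neg hne]
      exact add_pos (h.pos _ _) (h.pos _ _)
    have e3 : 0 < c * qd s N Λ x y := mul_pos hc e2
    linarith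
  let mY : MetricSpace (Cpy X) :=
    { dist := fun a b => ρ a.val b.val
      dist_self := fun a => ρ0 a.val
      dist_comm := fun a b => ρsymm a.val b.val
      dist_triangle := fun a b d => ρtri a.val b.val d.val
      eq_of_dist_eq_zero := by
        rintro ⟨a⟩ ⟨b⟩ hab
        exact congrArg Cpy.mk (hzero a b hab) }
  have hdist : ∀ x y : X, dist (Cpy.mk x) (Cpy.mk y) = ρ x y := fun x y => rfl
  refine ⟨mY, ?_, fun x y => ρup x y⟩
  have hcont : Continuous (cpyEquiv X) := by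
    rw [Metric.continuous_iff]
    intro b ε hε
    obtain ⟨k, hk⟩ : ∃ k : ℕ, ((1 : ℝ) / 2) ^ k < ε / 2 :=
      exists_pow_lt_of_lt_one (by linarith) (by norm_num)
    refine ⟨1 / (N : ℝ) ^ (k + 1), by positivity, fun a ha => ?_⟩
    show ρ a b < ε
    by_cases hab : a = b
    · rw [hab, ρ0]
      exact hε
    · have e1 : 1 / (N : ℝ) ^ (kk s N a b + 1) < 1 / (N : ℝ) ^ (k + 1) :=
        lt_of_lt_of_le (h.kk_lt hab) ((h1 a b).trans ha.le)
      have e2 : k ≤ kk s N a b := by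
        by_contra hlt
        have e3 : kk s N a b + 1 ≤ k + 1 := by omega
        have e4 : (N : ℝ) ^ (kk s N a b + 1) ≤ (N : ℝ) ^ (k + 1) :=
          pow_le_pow_right₀ (by linarith) e3
        have e5 : 1 / (N : ℝ) ^ (k + 1) ≤ 1 / (N : ℝ) ^ (kk s N a b + 1) :=
          one_div_le_one_div_of_le (by positivity) e4
        linarith
      have e6 : qd s N Λ a b = Λ (kk s N a b) a + Λ (kk s N a b) b := by
        unfold qd
        rw [if_neg hab]
      have e7 := (h.anti a e2).trans (hΛ k a)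
      have e8 := (h.anti b e2).trans (hΛ k b)
      have e9 := ρup a b
      linarith
  refine ⟨hcont.homeoOfEquivCompactToT2, ?_⟩
  set C1 : ℝ := max C₀ 1 with hC1
  have hC1pos : 0 < C1 := lt_of_lt_of_le one_pos (le_max_right _ _)
  have hs0 : ∀ x y : X, 0 ≤ s x y := by
    intro x y
    by_cases hxy : x = y
    · rw [hxy, h.s_self]
    · exact (h.s_pos x y hxy).le
  set M : ℝ := C1 ^ α + C1 ^ β with hM
  have hMα : C1 ^ α ≤ M := le_add_of_nonneg_right (Real.rpow_nonneg hC1pos.le _)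
  have hMβ : C1 ^ β ≤ M := le_add_of_nonneg_left (Real.rpow_nonneg hC1pos.le _)
  have hMpos : 0 < M := lt_of_lt_of_le (Real.rpow_pos_of_pos hC1pos α) hMα
  obtain ⟨η, hη⟩ := exists_homeo (C := C * M / c) (α := α) (β := β) (by positivity) hα hβ
  refine ⟨η, fun x a b t hxab => ?_⟩
  have g1 : dist x a ≤ (t : ℝ) * dist x b := by
    have := NNReal.coe_le_coe.2 hxab
    simpa using this
  have ht : (0 : ℝ) ≤ (t : ℝ) := t.2
  have g2 : s x a ≤ (C1 * (t : ℝ)) * s x b := by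
    calc s x a ≤ dist x a := h1 x a
      _ ≤ (t : ℝ) * dist x b := g1
      _ ≤ (t : ℝ) * (C₀ * s x b) := mul_le_mul_of_nonneg_left (h2 x b) ht
      _ ≤ (t : ℝ) * (C1 * s x b) :=
          mul_le_mul_of_nonneg_left (mul_le_mul_of_nonneg_right (le_max_left _ _) (hs0 x b)) ht
      _ = (C1 * (t : ℝ)) * s x b := by ring
  have g3 := hqs x a b (C1 * (t : ℝ)) (by positivity) g2
  rw [Real.mul_rpow hC1pos.le ht, Real.mul_rpow hC1pos.le ht] at g3
  have htα : (0 : ℝ) ≤ (t : ℝ) ^ α := Real.rpow_nonneg ht _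
  have htβ : (0 : ℝ) ≤ (t : ℝ) ^ β := Real.rpow_nonneg ht _
  have g4 : C1 ^ α * (t : ℝ) ^ α + C1 ^ β * (t : ℝ) ^ β ≤ M * ((t : ℝ) ^ α + (t : ℝ) ^ β) := by
    have k1 := mul_le_mul_of_nonneg_right hMα htα
    have k2 := mul_le_mul_of_nonneg_right hMβ htβ
    linarith
  have hqb : 0 ≤ qd s N Λ x b := h.qd_nonneg x b
  have g5 : qd s N Λ x a ≤ C * (M * ((t : ℝ) ^ α + (t : ℝ) ^ β)) * qd s N Λ x b :=
    g3.trans (mul_le_mul_of_nonneg_right (mul_le_mul_of_nonneg_left g4 hC.le) hqb)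
  have g6 : qd s N Λ x b ≤ ρ x b / c := by
    rw [le_div_iff₀ hc, mul_comm]
    exact ρlow x b
  have g7 : ρ x a ≤ C * M / c * ((t : ℝ) ^ α + (t : ℝ) ^ β) * ρ x b := by
    calc ρ x a ≤ qd s N Λ x a := ρup x a
      _ ≤ C * (M * ((t : ℝ) ^ α + (t : ℝ) ^ β)) * qd s N Λ x b := g5
      _ ≤ C * (M * ((t : ℝ) ^ α + (t : ℝ) ^ β)) * (ρ x b / c) :=
          mul_le_mul_of_nonneg_left g6 (by positivity)
      _ = C * M / c * ((t : ℝ) ^ α + (t : ℝ) ^ β) * ρ x b := by ring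
  rw [← NNReal.coe_le_coe, NNReal.coe_mul, coe_nndist, coe_nndist, hη t]
  exact g7

end gtFQ
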