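import Pool.Agent.Lib.gtFQ.Fin2a
import Pool.Agent.Lib.gtFQ.Geo2
import Pool.Agent.Lib.gtFQ.NetB
import Pool.Agent.Lib.gtFQ.NetE
import Pool.Agent.Lib.gtFQ.NetCov

/-! The conformal box dimension is at most `t` if single scale weights exist with high
probability. -/

open MeasureTheory Filter Topology
open scoped NNReal ENNReal

namespace gtFQ

open gtFP

variable {d : ℕ}

/-- port of gtFP/FinB.lean -/
theorem confDimB_le_of_sum2 {n H M : ℕ} (hn : 1 ≤ n) {δ K : ℝ≥0} (hδ0 : 0 < δ) (hδ : δ ≤ 1 / 2)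
    {t : ℝ} (ht : 0 < t) {η : ℝ≥0∞} {ω : Cfg d} (hN : 4 * 10 ^ M ≤ n ^ H)
    (hK : ((9 ^ d * 25 ^ M * (1 + 5 ^ M) : ℕ) : ℝ≥0) ≤ K)
    (hη : (K : ℝ≥0∞) * η ^ (1 / t) ≤ 1 / 2) (h : ∑' j, YY2 n H M δ K t η j ω < ⊤) :
    confDimB (perc n ω) ≤ ENNReal.ofReal t := by
  classical
  haveI hcomp : CompactSpace (perc n ω) := isCompact_iff_compactSpace.1 (isCompact_perc hn ω)
  have hL := lamB_perc (M := M) (K := K) (t := t) (η := η) hn hδ0 hδ (ω := ω) hN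
  have hc := cross2_perc (M := M) hn hδ0 hδ ht (ω := ω) hN hK hη
  have hG := hL.toG hc
  obtain ⟨mY, hQS, hdist⟩ := hG.exists_QS (Real.sqrt d) (fun x y => sd_le_dist x.1 y.1)
    (fun x y => dist_le_sd x.1 y.1)
  obtain ⟨T, S, hT, hS⟩ := exists_sum_bound2 ht h
  obtain ⟨C, hC, hcov⟩ := hL.exists_cover (V := Fin d → ℤ) (fun j x => fl n (H * j) x.1)
    (fun j Q => (LL2 n H M δ K t η ω j Q : ℝ)) (fun k x => rfl) (fun k Q => NNReal.coe_nonneg _)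
    (by
      intro k x y hxy
      have h1 := sd_of_fl_eq (k := H * k) hn hxy
      have h2 : (((n ^ H : ℕ) : ℝ)) ^ k = (n : ℝ) ^ (H * k) := by
        rw [Nat.cast_pow, ← pow_mul]
      rw [h2]
      exact h1)
    T
    (by
      intro k x
      obtain ⟨c, hc, hxc⟩ := exists_Rf (m := H) (j := k) x.2
      exact hT k _ ⟨c, hc, nd_fl_cube hn hxc⟩)
    ht hS
  have hcov' : ∀ r : ℝ, 0 < r → r < 1 → ∃ A : Finset (Cpy (perc n ω)),
      (A.card : ℝ) ≤ C * r ^ (-t) ∧ ∀ y, ∃ x ∈ A, dist y x ≤ r := by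
    intro r hr hr1
    obtain ⟨A, hA, hA2⟩ := hcov r hr hr1
    refine ⟨A.map (cpyEquiv (perc n ω)).toEmbedding, ?_, ?_⟩
    · rw [Finset.card_map]
      exact hA
    · rintro ⟨y⟩
      obtain ⟨x, hx, hxy⟩ := hA2 y
      exact ⟨Cpy.mk x, Finset.mem_map_of_mem _ hx, (hdist y x).trans hxy⟩
  exact (iInf_le_of_le (Cpy (perc n ω)) (iInf_le_of_le mY (iInf_le_of_le hQS le_rfl))).trans
    (upperBoxDim_le ht hC hcov')

end gtFQ
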