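import Pool.Agent.Lib.gtFQ.Fin2b
import Pool.Agent.Lib.gtFQ.Exp2

/-! The conformal box dimension is at most `t` if single scale weights exist with high
probability. -/

open MeasureTheory Filter Topology
open scoped NNReal ENNReal

namespace gtFQ

open gtFP

variable {d : ℕ}

private theorem finc2_first {K d u : ℕ} {t : ℝ} (hK : 1 ≤ K) (hu : 2 * (d : ℝ) ≤ u * t) :
    ((K ^ d : ℕ) : ℝ≥0∞) * (((((K : ℝ≥0) ^ u)⁻¹ : ℝ≥0) : ℝ≥0∞) ^ t) ≤ ((K ^ d : ℕ) : ℝ≥0∞)⁻¹ := by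
  have hK0 : (K : ℝ≥0) ≠ 0 := by
    have : K ≠ 0 := by omega
    exact_mod_cast this
  have h1 : ((((K : ℝ≥0) ^ u)⁻¹ : ℝ≥0) : ℝ≥0∞) = ((K : ℝ≥0∞) ^ (u : ℝ))⁻¹ := by
    rw [ENNReal.coe_inv (pow_ne_zero _ hK0), ENNReal.rpow_natCast]
    push_cast
    rfl
  have hK1 : (1 : ℝ≥0∞) ≤ (K : ℝ≥0∞) := by exact_mod_cast hK
  have hKt : (K : ℝ≥0∞) ≠ ⊤ := ENNReal.natCast_ne_top K
  have hKz : (K : ℝ≥0∞) ≠ 0 := (lt_of_lt_of_le one_pos hK1).ne'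
  have h2 : (((((K : ℝ≥0) ^ u)⁻¹ : ℝ≥0) : ℝ≥0∞) ^ t) ≤
      (((K ^ d : ℕ) : ℝ≥0∞) * ((K ^ d : ℕ) : ℝ≥0∞))⁻¹ := by
    rw [h1, ENNReal.inv_rpow, ← ENNReal.rpow_mul]
    refine ENNReal.inv_le_inv.2 ?_
    have h3 : ((K ^ d : ℕ) : ℝ≥0∞) * ((K ^ d : ℕ) : ℝ≥0∞) = (K : ℝ≥0∞) ^ (2 * (d : ℝ)) := by
      have h4 : (2 * (d : ℝ)) = ((d + d : ℕ) : ℝ) := by push_cast; ring
      rw [h4, ENNReal.rpow_natCast, pow_add]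
      push_cast
      rfl
    rw [h3]
    exact ENNReal.rpow_le_rpow_of_exponent_le hK1 hu
  have hz : ((K ^ d : ℕ) : ℝ≥0∞) ≠ 0 := by
    push_cast
    exact pow_ne_zero _ hKz
  have ht : ((K ^ d : ℕ) : ℝ≥0∞) ≠ ⊤ := ENNReal.natCast_ne_top _
  calc ((K ^ d : ℕ) : ℝ≥0∞) * (((((K : ℝ≥0) ^ u)⁻¹ : ℝ≥0) : ℝ≥0∞) ^ t)
      ≤ ((K ^ d : ℕ) : ℝ≥0∞) * (((K ^ d : ℕ) : ℝ≥0∞) * ((K ^ d : ℕ) : ℝ≥0∞))⁻¹ :=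
        mul_le_mul_right h2 _
    _ = ((K ^ d : ℕ) : ℝ≥0∞)⁻¹ := by
        rw [ENNReal.mul_inv (Or.inl hz) (Or.inl ht), ← mul_assoc, ENNReal.mul_inv_cancel hz ht,
          one_mul]

/-- `c * (x * (4 * (c * x))⁻¹) = 4⁻¹`. -/
private theorem finc2_quarter {c x : ℝ≥0∞} (hc : c ≠ 0) (hc' : c ≠ ⊤) (hx : x ≠ 0) (hx' : x ≠ ⊤) :
    c * (x * (4 * (c * x))⁻¹) = 4⁻¹ := by
  have hz : c * x ≠ 0 := mul_ne_zero hc hx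
  have htop : c * x ≠ ⊤ := ENNReal.mul_ne_top hc' hx'
  rw [← mul_assoc, ENNReal.mul_inv (Or.inl (by norm_num)) (Or.inl (by norm_num)),
    mul_comm (4⁻¹ : ℝ≥0∞), ← mul_assoc, ENNReal.mul_inv_cancel hz htop, one_mul]

private theorem finc2_eta {K : ℝ≥0} (hK : 1 ≤ K) {t : ℝ} (ht : 0 < t) {η : ℝ≥0∞}
    (hη : η ≤ ((2 * (K : ℝ≥0∞))⁻¹) ^ t) : (K : ℝ≥0∞) * η ^ (1 / t) ≤ 1 / 2 := by
  have hK1 : (1 : ℝ≥0∞) ≤ (K : ℝ≥0∞) := by exact_mod_cast hK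
  have hKz : (K : ℝ≥0∞) ≠ 0 := (lt_of_lt_of_le one_pos hK1).ne'
  have h1 : η ^ (1 / t) ≤ (2 * (K : ℝ≥0∞))⁻¹ := by
    calc η ^ (1 / t) ≤ (((2 * (K : ℝ≥0∞))⁻¹) ^ t) ^ (1 / t) :=
          ENNReal.rpow_le_rpow hη (by positivity)
      _ = (2 * (K : ℝ≥0∞))⁻¹ := by
          rw [← ENNReal.rpow_mul, mul_one_div_cancel ht.ne', ENNReal.rpow_one]
  calc (K : ℝ≥0∞) * η ^ (1 / t) ≤ (K : ℝ≥0∞) * (2 * (K : ℝ≥0∞))⁻¹ := mul_le_mul_right h1 _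
    _ = 1 / 2 := by
        rw [ENNReal.mul_inv (Or.inl (by norm_num)) (Or.inl (by norm_num)),
          mul_comm (2⁻¹ : ℝ≥0∞), ← mul_assoc, ENNReal.mul_inv_cancel hKz ENNReal.coe_ne_top,
          one_mul, one_div]

/-- Choice of the parameters: `M` with `M t ≥ d + 2`, `K = 9^d 25^M (1 + 5^M)`, `η` small, then `H` from
the hypothesis with `(n^H)^d P(not SS) ≤ ε`, `n^H ≥ 4 * 10^M`, and `δ` small. -/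
theorem ae_confDimB_le {n : ℕ} (hn : 2 ≤ n) (hd : 1 ≤ d) (p : unitInterval) {t : ℝ} (ht : 1 ≤ t)
    (h : ∀ η ε : ℝ≥0∞, 0 < η → 0 < ε → ∀ H₀, ∃ H, H₀ ≤ H ∧
      (((n ^ H) ^ d : ℕ) : ℝ≥0∞) * percLaw d p {ω | ¬ SS n H 0 ω 0 t η} ≤ ε) :
    ∀ᵐ ω ∂(percLaw d p), confDimB (perc n ω) ≤ ENNReal.ofReal t := by
  have ht0 : 0 < t := lt_of_lt_of_le one_pos ht
  obtain ⟨M, hM⟩ := exists_nat_ge (((d : ℝ) + 2) / t)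
  have hM' : (d : ℝ) + 2 ≤ M * t := by rwa [div_le_iff₀ ht0] at hM
  have hC : CC d M t < ⊤ := CC_lt_top ht0 hM'
  obtain ⟨u₀, hu₀⟩ := exists_nat_ge (2 * (d : ℝ) / t)
  have hu : 2 * (d : ℝ) ≤ ((u₀ + 1 : ℕ) : ℝ) * t := by
    rw [div_le_iff₀ ht0] at hu₀
    push_cast
    nlinarith
  obtain ⟨c₀, hc₀⟩ := ENNReal.exists_nat_gt hC.ne
  have hc₁ : (0 : ℝ≥0∞) < c₀ := lt_of_le_of_lt zero_le hc₀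
  have hct : (c₀ : ℝ≥0∞) ≠ ⊤ := ENNReal.natCast_ne_top _
  have h7t : ((7 ^ d : ℕ) : ℝ≥0∞) ≠ ⊤ := ENNReal.natCast_ne_top _
  have h7z : ((7 ^ d : ℕ) : ℝ≥0∞) ≠ 0 := by
    have : (7 ^ d : ℕ) ≠ 0 := by positivity
    exact_mod_cast this
  obtain ⟨K, hKd⟩ : ∃ K : ℝ≥0, K = ((9 ^ d * 25 ^ M * (1 + 5 ^ M) : ℕ) : ℝ≥0) := ⟨_, rfl⟩
  have hK1 : 1 ≤ K := by
    rw [hKd]
    have : 1 ≤ 9 ^ d * 25 ^ M * (1 + 5 ^ M) := Nat.one_le_iff_ne_zero.2 (by positivity)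
    exact_mod_cast this
  have hKe1 : (1 : ℝ≥0∞) ≤ (K : ℝ≥0∞) := by exact_mod_cast hK1
  have hKez : (K : ℝ≥0∞) ≠ 0 := (lt_of_lt_of_le one_pos hKe1).ne'
  have hAz : (K : ℝ≥0∞) ^ t * ((7 ^ d : ℕ) : ℝ≥0∞) ^ t ≠ 0 :=
    mul_ne_zero (ENNReal.rpow_pos (pos_iff_ne_zero.2 hKez) ENNReal.coe_ne_top).ne'
      (ENNReal.rpow_pos (pos_iff_ne_zero.2 h7z) h7t).ne'
  have hAt : (K : ℝ≥0∞) ^ t * ((7 ^ d : ℕ) : ℝ≥0∞) ^ t ≠ ⊤ :=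
    ENNReal.mul_ne_top (ENNReal.rpow_ne_top_of_nonneg ht0.le ENNReal.coe_ne_top)
      (ENNReal.rpow_ne_top_of_nonneg ht0.le h7t)
  obtain ⟨η, hη⟩ : ∃ η : ℝ≥0∞, η =
      min (4 * ((c₀ : ℝ≥0∞) * ((K : ℝ≥0∞) ^ t * ((7 ^ d : ℕ) : ℝ≥0∞) ^ t)))⁻¹
        (((2 * (K : ℝ≥0∞))⁻¹) ^ t) := ⟨_, rfl⟩
  have h2K : (2 * (K : ℝ≥0∞)) ≠ ⊤ := ENNReal.mul_ne_top (by norm_num) ENNReal.coe_ne_top
  have hη0 : 0 < η := by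
    rw [hη]
    refine lt_min (ENNReal.inv_pos.2
      (ENNReal.mul_ne_top (by norm_num) (ENNReal.mul_ne_top hct hAt))) ?_
    refine ENNReal.rpow_pos (ENNReal.inv_pos.2 h2K) (ENNReal.inv_ne_top.2 ?_)
    exact mul_ne_zero (by norm_num) hKez
  have hη1 : η ≤ (4 * ((c₀ : ℝ≥0∞) * ((K : ℝ≥0∞) ^ t * ((7 ^ d : ℕ) : ℝ≥0∞) ^ t)))⁻¹ := by
    rw [hη]
    exact min_le_left _ _
  have hη2 : (K : ℝ≥0∞) * η ^ (1 / t) ≤ 1 / 2 := by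
    refine finc2_eta hK1 ht0 ?_
    rw [hη]
    exact min_le_right _ _
  have hden : (4 * ((c₀ : ℝ≥0∞) * ((7 ^ d : ℕ) : ℝ≥0∞))) ≠ ⊤ :=
    ENNReal.mul_ne_top (by norm_num) (ENNReal.mul_ne_top hct h7t)
  obtain ⟨m, hm, hmq⟩ := h η (4 * ((c₀ : ℝ≥0∞) * ((7 ^ d : ℕ) : ℝ≥0∞)))⁻¹ hη0
    (ENNReal.inv_pos.2 hden) (4 * 10 ^ M + 2 * c₀ + 2)
  have hK : m < n ^ m := lt_of_lt_of_le Nat.lt_two_pow_self (Nat.pow_le_pow_left hn m)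
  have hKd' : n ^ m ≤ (n ^ m) ^ d := Nat.le_self_pow (by omega) _
  have hKu : n ^ m ≤ (n ^ m) ^ (u₀ + 1) := Nat.le_self_pow (by omega) _
  have hδ0 : (0 : ℝ≥0) < (((n ^ m : ℕ) : ℝ≥0) ^ (u₀ + 1))⁻¹ := by
    have h0 : (0 : ℝ≥0) < ((n ^ m : ℕ) : ℝ≥0) := by
      have : 0 < n ^ m := by omega
      exact_mod_cast this
    positivity
  have hδ : (((n ^ m : ℕ) : ℝ≥0) ^ (u₀ + 1))⁻¹ ≤ 1 / 2 := by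
    rw [one_div]
    refine inv_anti₀ (by norm_num) ?_
    have : 2 ≤ (n ^ m) ^ (u₀ + 1) := by omega
    exact_mod_cast this
  have hA : CC d M t * ((((n ^ m) ^ d : ℕ) : ℝ≥0∞) *
      (((((((n ^ m : ℕ) : ℝ≥0)) ^ (u₀ + 1))⁻¹ : ℝ≥0) : ℝ≥0∞) ^ t)) < 2⁻¹ := by
    refine lt_of_le_of_lt (mul_le_mul_right (finc2_first (by omega) hu) _) ?_
    rw [← div_eq_mul_inv]
    refine ENNReal.div_lt_of_lt_mul (lt_of_lt_of_le hc₀ ?_)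
    have h1 : ((2 * c₀ : ℕ) : ℝ≥0∞) ≤ (((n ^ m) ^ d : ℕ) : ℝ≥0∞) := by
      have : 2 * c₀ ≤ (n ^ m) ^ d := by omega
      exact_mod_cast this
    calc (c₀ : ℝ≥0∞) = 2⁻¹ * ((2 * c₀ : ℕ) : ℝ≥0∞) := by
          push_cast
          rw [← mul_assoc, ENNReal.inv_mul_cancel (by norm_num) (by norm_num), one_mul]
      _ ≤ 2⁻¹ * (((n ^ m) ^ d : ℕ) : ℝ≥0∞) := mul_le_mul_right h1 _
  have hE : CC d M t * ((K : ℝ≥0∞) ^ t * ((7 ^ d : ℕ) : ℝ≥0∞) ^ t * η) ≤ 4⁻¹ := by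
    calc CC d M t * ((K : ℝ≥0∞) ^ t * ((7 ^ d : ℕ) : ℝ≥0∞) ^ t * η)
        ≤ (c₀ : ℝ≥0∞) * ((K : ℝ≥0∞) ^ t * ((7 ^ d : ℕ) : ℝ≥0∞) ^ t *
            (4 * ((c₀ : ℝ≥0∞) * ((K : ℝ≥0∞) ^ t * ((7 ^ d : ℕ) : ℝ≥0∞) ^ t)))⁻¹) :=
          mul_le_mul' hc₀.le (mul_le_mul_right hη1 _)
      _ = 4⁻¹ := finc2_quarter hc₁.ne' hct hAz hAt
  have hB : CC d M t * ((((n ^ m) ^ d : ℕ) : ℝ≥0∞) * (((7 ^ d : ℕ) : ℝ≥0∞) *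
      percLaw d p {ω | ¬ SS n m 0 ω 0 t η})) ≤ 4⁻¹ := by
    have h1 : (((n ^ m) ^ d : ℕ) : ℝ≥0∞) * (((7 ^ d : ℕ) : ℝ≥0∞) *
        percLaw d p {ω | ¬ SS n m 0 ω 0 t η}) =
        ((7 ^ d : ℕ) : ℝ≥0∞) * ((((n ^ m) ^ d : ℕ) : ℝ≥0∞) *
          percLaw d p {ω | ¬ SS n m 0 ω 0 t η}) := by ring
    calc CC d M t * ((((n ^ m) ^ d : ℕ) : ℝ≥0∞) * (((7 ^ d : ℕ) : ℝ≥0∞) *
          percLaw d p {ω | ¬ SS n m 0 ω 0 t η}))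
        ≤ (c₀ : ℝ≥0∞) * (((7 ^ d : ℕ) : ℝ≥0∞) *
            (4 * ((c₀ : ℝ≥0∞) * ((7 ^ d : ℕ) : ℝ≥0∞)))⁻¹) := by
          rw [h1]
          exact mul_le_mul' hc₀.le (mul_le_mul_right hmq _)
      _ = 4⁻¹ := finc2_quarter hc₁.ne' hct h7z h7t
  have h44 : (4⁻¹ : ℝ≥0∞) + 4⁻¹ = 2⁻¹ := by
    have h4 : (4 : ℝ≥0∞) = 2 * 2 := by norm_num
    rw [h4, ENNReal.mul_inv (Or.inl (by norm_num)) (Or.inl (by norm_num)), ← mul_add,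
      ENNReal.inv_two_add_inv_two, mul_one]
  have hκ : CC d M t * ((((n ^ m) ^ d : ℕ) : ℝ≥0∞) *
      (((((((n ^ m : ℕ) : ℝ≥0)) ^ (u₀ + 1))⁻¹ : ℝ≥0) : ℝ≥0∞) ^ t) +
        (K : ℝ≥0∞) ^ t * ((7 ^ d : ℕ) : ℝ≥0∞) ^ t * η +
        (((n ^ m) ^ d : ℕ) : ℝ≥0∞) * (((7 ^ d : ℕ) : ℝ≥0∞) *
          percLaw d p {ω | ¬ SS n m 0 ω 0 t η})) < 1 := by
    rw [add_assoc, mul_add, mul_add]
    have hEB := (add_le_add hE hB).trans h44.le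
    calc _ < 2⁻¹ + 2⁻¹ := ENNReal.add_lt_add_of_lt_of_le
          (ne_top_of_le_ne_top (by norm_num) hEB) hA hEB
      _ = 1 := ENNReal.inv_two_add_inv_two
  filter_upwards [ae_tsum_YY2_lt_top (n := n) (H := m) (M := M) (by omega) ht p hκ] with ω hω
  exact confDimB_le_of_sum2 (by omega) hδ0 hδ ht0 (by omega) hKd.ge hη2 hω

end gtFQ
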