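import Pool.Agent.Lib.gtFQ.PrA1

/-! Probability: measurability, two far apart events, independence over rings. -/

open MeasureTheory ProbabilityTheory Filter Topology
open scoped NNReal ENNReal

namespace gtFQ

open gtFP

variable {d : ℕ}

theorem meas_good {n m k : ℕ} (hn : 1 ≤ n) (z : Fin d → ℤ) {b : ℝ≥0} {t : ℝ} {θ : ℝ≥0∞} :
    MeasurableSet[sg (LvN n k m z)] {ω : Cfg d | Good n m k ω z b t θ} :=
  meas_of_dep (finite_LvN hn z) fun _ _ h hg => good_congr hn h hg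

theorem meas_gz {n k : ℕ} (hn : 1 ≤ n) (z : Fin d → ℤ) {b : ℝ≥0} {t : ℝ} :
    MeasurableSet[sg (LvI n k z)] {ω : Cfg d | Gz n k ω z b t} := by
  have h1 : {ω : Cfg d | Gz n k ω z b t} =
      ⋂ i : ℕ, ⋃ m : ℕ, {ω : Cfg d | Good n m k ω z b t (1 / ((i : ℝ≥0∞) + 1))} := by
    ext ω
    simp only [Gz, Set.mem_ofPred_eq, Set.mem_iInter, Set.mem_iUnion]
  rw [h1]
  refine @MeasurableSet.iInter _ _ (sg (LvI n k z)) _ _ fun i => ?_
  refine @MeasurableSet.iUnion _ _ (sg (LvI n k z)) _ _ fun m => ?_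
  exact sg_mono (LvN_subset z) _ (meas_good hn z)

private theorem measurable_shiftCfg (n k : ℕ) (z : Fin d → ℤ) :
    Measurable (shiftCfg (d := d) n k z) :=
  measurable_pi_lambda _ fun _ => measurable_pi_apply _

/-- probability of `not Good` does not depend on the cube (`good_shift`, `map_shiftCfg`) -/
theorem prob_good {n m k : ℕ} (hn : 1 ≤ n) (z : Fin d → ℤ) (p : unitInterval) {b : ℝ≥0} {t : ℝ}
    {θ : ℝ≥0∞} :
    percLaw d p {ω | ¬ Good n m k ω z b t θ} = percLaw d p {ω | ¬ Good n m 0 ω 0 b t θ} := by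
  have h1 : {ω : Cfg d | ¬ Good n m k ω z b t θ} =
      shiftCfg n k z ⁻¹' {ω | ¬ Good n m 0 ω 0 b t θ} := by
    ext ω
    exact not_congr (good_shift hn z ω)
  have h2 : MeasurableSet {ω : Cfg d | ¬ Good n m 0 ω 0 b t θ} :=
    (sg_le _ _ (meas_good (d := d) hn 0)).compl
  rw [h1, ← Measure.map_apply (measurable_shiftCfg n k z) h2, map_shiftCfg]

theorem prob_gz {n k : ℕ} (hn : 1 ≤ n) (z : Fin d → ℤ) (p : unitInterval) {b : ℝ≥0} {t : ℝ} :
    percLaw d p {ω | ¬ Gz n k ω z b t} = percLaw d p {ω | ¬ Gz n 0 ω 0 b t} := by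
  have h1 : {ω : Cfg d | ¬ Gz n k ω z b t} =
      shiftCfg n k z ⁻¹' {ω | ¬ Gz n 0 ω 0 b t} := by
    ext ω
    exact not_congr (gz_shift hn z ω)
  have h2 : MeasurableSet {ω : Cfg d | ¬ Gz n 0 ω 0 b t} :=
    (sg_le _ _ (meas_gz (d := d) hn 0)).compl
  rw [h1, ← Measure.map_apply (measurable_shiftCfg n k z) h2, map_shiftCfg]

end gtFQ
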