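import Pool.Agent.Lib.gtFQ.PrA1

/-! Probability: measurability, two far apart events, independence over rings. -/

open MeasureTheory ProbabilityTheory Filter Topology
open scoped NNReal ENNReal

namespace gtFQ

open gtFP

variable {d : ℕ}

private theorem disj_LvI {n k : ℕ} {z₀ z₁ : Fin d → ℤ} (h : 7 ≤ nd z₀ z₁) :
    Disjoint (LvI n k z₀) (LvI n k z₁) := by
  rw [Set.disjoint_left]
  intro i hi hj
  have h1 : nd (anc n (i.1 - k) i.2) z₀ ≤ 2 := hi.2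
  have h2 : nd (anc n (i.1 - k) i.2) z₁ ≤ 2 := hj.2
  have h3 := nd_tri z₀ (anc n (i.1 - k) i.2) z₁
  rw [nd_comm z₀ (anc n (i.1 - k) i.2)] at h3
  omega

/-- Two far apart bad cubes: union bound over pairs, independence from `sg_indep` since
`LvI n k z₀` and `LvI n k z₁` are disjoint for `nd z₀ z₁ ≥ 7`. -/
theorem two_far {n k : ℕ} (hn : 1 ≤ n) (p : unitInterval) (B : Finset (Fin d → ℤ))
    (E : (Fin d → ℤ) → Set (Cfg d)) (hE : ∀ z, MeasurableSet[sg (LvI n k z)] (E z)) {e : ℝ≥0∞}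
    (he : ∀ z, percLaw d p (E z) ≤ e) :
    percLaw d p {ω | ∃ z₀ ∈ B, ∃ z₁ ∈ B, 7 ≤ nd z₀ z₁ ∧ ω ∈ E z₀ ∧ ω ∈ E z₁} ≤
      ((B.card : ℝ≥0∞) ^ 2) * e ^ 2 := by
  classical
  have hsub : {ω : Cfg d | ∃ z₀ ∈ B, ∃ z₁ ∈ B, 7 ≤ nd z₀ z₁ ∧ ω ∈ E z₀ ∧ ω ∈ E z₁} ⊆
      ⋃ z₀ ∈ B, ⋃ z₁ ∈ B, {ω | 7 ≤ nd z₀ z₁ ∧ ω ∈ E z₀ ∧ ω ∈ E z₁} := by
    rintro ω ⟨z₀, h0, z₁, h1, h2⟩
    simp only [Set.mem_iUnion, exists_prop]
    exact ⟨z₀, h0, z₁, h1, h2⟩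
  have hone : ∀ z₀ z₁ : Fin d → ℤ,
      percLaw d p {ω | 7 ≤ nd z₀ z₁ ∧ ω ∈ E z₀ ∧ ω ∈ E z₁} ≤ e ^ 2 := by
    intro z₀ z₁
    by_cases h : 7 ≤ nd z₀ z₁
    · have h1 : {ω : Cfg d | 7 ≤ nd z₀ z₁ ∧ ω ∈ E z₀ ∧ ω ∈ E z₁} = E z₀ ∩ E z₁ := by
        ext ω
        exact ⟨fun h2 => h2.2, fun h2 => ⟨h, h2⟩⟩
      have h2 := (Indep_iff _ _ _).1 (sg_indep (p := p) (disj_LvI (n := n) (k := k) h))
        (E z₀) (E z₁) (hE z₀) (hE z₁)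
      rw [h1, h2, pow_two]
      exact mul_le_mul' (he z₀) (he z₁)
    · have h1 : {ω : Cfg d | 7 ≤ nd z₀ z₁ ∧ ω ∈ E z₀ ∧ ω ∈ E z₁} = ∅ := by
        ext ω
        exact ⟨fun h2 => absurd h2.1 h, fun h2 => absurd h2 (Set.notMem_empty ω)⟩
      rw [h1, measure_empty]
      exact zero_le
  refine (measure_mono hsub).trans ?_
  refine (measure_biUnion_finset_le _ _).trans ?_
  refine (Finset.sum_le_sum fun z₀ _ => (measure_biUnion_finset_le _ _).trans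
    (Finset.sum_le_sum fun z₁ _ => hone z₀ z₁)).trans ?_
  rw [Finset.sum_const, Finset.sum_const, nsmul_eq_mul, nsmul_eq_mul, ← mul_assoc, ← pow_two]

end gtFQ
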