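import Pool.Agent.Lib.gtFQ.PrA1

/-! Probability: measurability, two far apart events, independence over rings. -/

open MeasureTheory ProbabilityTheory Filter Topology
open scoped NNReal ENNReal

namespace gtFQ

open gtFP

variable {d : ℕ}

/-- the cubes at index distance at most 5 -/
private noncomputable def bx5 (Q : Fin d → ℤ) : Finset (Fin d → ℤ) :=
  Fintype.piFinset fun t => Finset.Icc (Q t - 5) (Q t + 5)

private theorem mem_bx5 {Q z : Fin d → ℤ} : z ∈ bx5 Q ↔ nd z Q ≤ 5 := by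
  simp only [bx5, Fintype.mem_piFinset, Finset.mem_Icc, nd_le]
  refine forall_congr' fun t => ?_
  omega

private theorem card_bx5 (Q : Fin d → ℤ) : (bx5 Q).card = 11 ^ d := by
  simp only [bx5, Fintype.card_piFinset, Int.card_Icc]
  rw [Finset.prod_congr rfl fun t _ => show (Q t + 5 + 1 - (Q t - 5)).toNat = 11 by
    rw [show Q t + 5 + 1 - (Q t - 5) = 11 by ring]; rfl]
  simp

/-- the ring around the ancestor of `a` -/
private def ringC (n k h : ℕ) (a : Fin d → ℤ) : Set (ℕ × (Fin d → ℤ)) :=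
  {c | k < c.1 ∧ 3 ≤ nd (anc n (c.1 - k) c.2) (anc n h a) ∧
    nd (anc n (c.1 - k) c.2) (anc n h a) ≤ 7}

private theorem ringC_disj {n h₀ l' i i' : ℕ} (hn : 1 ≤ n) (hh : 8 ≤ n ^ h₀) (a : Fin d → ℤ)
    (hii : i < i') (hi' : h₀ * i' ≤ l') :
    Disjoint (ringC n (l' - h₀ * i) (h₀ * i) a) (ringC n (l' - h₀ * i') (h₀ * i') a) := by
  rw [Set.disjoint_left]
  rintro c ⟨h1, -, h3⟩ ⟨-, h5, -⟩
  obtain ⟨j, rfl⟩ : ∃ j, i' = i + (j + 1) := ⟨i' - i - 1, by omega⟩
  have e1 : h₀ * (i + (j + 1)) = h₀ * (j + 1) + h₀ * i := by ring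
  have e2 : anc n (h₀ * (i + (j + 1))) a = anc n (h₀ * (j + 1)) (anc n (h₀ * i) a) := by
    rw [anc_anc, e1]
  have e3 : c.1 - (l' - h₀ * (i + (j + 1))) = h₀ * (j + 1) + (c.1 - (l' - h₀ * i)) := by omega
  have e4 : anc n (c.1 - (l' - h₀ * (i + (j + 1)))) c.2 =
      anc n (h₀ * (j + 1)) (anc n (c.1 - (l' - h₀ * i)) c.2) := by
    rw [anc_anc, e3]
  have e5 : n ^ h₀ ≤ n ^ (h₀ * (j + 1)) :=
    Nat.pow_le_pow_right hn (Nat.le_mul_of_pos_right _ (Nat.succ_pos _))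
  have e6 : nd (anc n (c.1 - (l' - h₀ * (i + (j + 1)))) c.2)
      (anc n (h₀ * (i + (j + 1))) a) ≤ 1 := by
    rw [e2, e4]
    exact nd_anc_mul hn (by omega)
  omega

private theorem ring_meas {n k h : ℕ} (a : Fin d → ℤ)
    (E : (Fin d → ℤ) → Set (Cfg d)) (hE : ∀ z, MeasurableSet[sg (LvI n k z)] (E z)) :
    MeasurableSet[sg (ringC n k h a)] {ω : Cfg d | ∃ z, nd z (anc n h a) = 5 ∧ ω ∈ E z} := by
  have h1 : {ω : Cfg d | ∃ z, nd z (anc n h a) = 5 ∧ ω ∈ E z} =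
      ⋃ z ∈ {z : Fin d → ℤ | nd z (anc n h a) = 5}, E z := by
    ext ω
    simp
  rw [h1]
  refine @MeasurableSet.biUnion _ _ (sg (ringC n k h a)) _ _ (Set.to_countable _) fun z hz => ?_
  refine sg_mono (I := LvI n k z) ?_ _ (hE z)
  rintro c ⟨hc1, hc2⟩
  have hz' : nd z (anc n h a) = 5 := hz
  have h3 := nd_tri (anc n (c.1 - k) c.2) z (anc n h a)
  have h4 := nd_tri z (anc n (c.1 - k) c.2) (anc n h a)
  rw [nd_comm z (anc n (c.1 - k) c.2)] at h4
  exact ⟨hc1, by omega, by omega⟩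

private theorem ring_prob {n h : ℕ} (p : unitInterval) (a : Fin d → ℤ)
    (E : (Fin d → ℤ) → Set (Cfg d)) {e : ℝ≥0∞} (he : ∀ z, percLaw d p (E z) ≤ e) :
    percLaw d p {ω : Cfg d | ∃ z, nd z (anc n h a) = 5 ∧ ω ∈ E z} ≤ (11 ^ d : ℕ) * e := by
  have h1 : {ω : Cfg d | ∃ z, nd z (anc n h a) = 5 ∧ ω ∈ E z} ⊆
      ⋃ z ∈ bx5 (anc n h a), E z := by
    rintro ω ⟨z, hz, hω⟩
    simp only [Set.mem_iUnion]
    exact ⟨z, mem_bx5.2 hz.le, hω⟩
  calc percLaw d p {ω : Cfg d | ∃ z, nd z (anc n h a) = 5 ∧ ω ∈ E z}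
      ≤ percLaw d p (⋃ z ∈ bx5 (anc n h a), E z) := measure_mono h1
    _ ≤ ∑ z ∈ bx5 (anc n h a), percLaw d p (E z) := measure_biUnion_finset_le _ _
    _ ≤ ∑ z ∈ bx5 (anc n h a), e := Finset.sum_le_sum fun z _ => he z
    _ = (11 ^ d : ℕ) * e := by rw [Finset.sum_const, card_bx5, nsmul_eq_mul]

/-- Rings: for a cube `a` of level `l'` and the scales `h₀ i`, `i < s`, `h₀ (s-1) ≤ l'`, let
`P_i = anc n (h₀ i) a` (level `l' - h₀ i`). The events (some `z` with `nd z P_i = 5` is in `E`) for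
different `i` are independent if `n^h₀ ≥ 8`: a coordinate of `LvI n (l' - h₀ i) z` has an ancestor `y`
of level `l' - h₀ i` with `3 ≤ nd y P_i ≤ 7`, and then its ancestor of level `l' - h₀ i'`, `i' > i`, is
at distance at most `1` from `P_{i'}` (`nd_anc_mul`). Each has probability at most `11^d e`
(`11^d` = number of `z` with `nd z P ≤ 5`). Induction on `s` with `sg_indep`. -/
theorem prob_rings {n h₀ l' s : ℕ} (hn : 1 ≤ n) (hh : 8 ≤ n ^ h₀) (p : unitInterval)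
    (a : Fin d → ℤ) (hs : ∀ i < s, h₀ * i ≤ l')
    (E : ℕ → (Fin d → ℤ) → Set (Cfg d)) (hE : ∀ k z, MeasurableSet[sg (LvI n k z)] (E k z))
    {e : ℝ≥0∞} (he : ∀ k z, percLaw d p (E k z) ≤ e) :
    percLaw d p {ω | ∀ i < s, ∃ z, nd z (anc n (h₀ * i) a) = 5 ∧ ω ∈ E (l' - h₀ * i) z} ≤
      ((11 ^ d : ℕ) * e) ^ s := by
  have key : ∀ r ≤ s, MeasurableSet[sg (⋃ i ∈ {i | i < r}, ringC n (l' - h₀ * i) (h₀ * i) a)]
      {ω : Cfg d | ∀ i < r, ∃ z, nd z (anc n (h₀ * i) a) = 5 ∧ ω ∈ E (l' - h₀ * i) z} ∧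
      percLaw d p {ω | ∀ i < r, ∃ z, nd z (anc n (h₀ * i) a) = 5 ∧ ω ∈ E (l' - h₀ * i) z} ≤
      ((11 ^ d : ℕ) * e) ^ r := by
    intro r
    induction r with
    | zero =>
      intro _
      have h0 : {ω : Cfg d | ∀ i < 0, ∃ z, nd z (anc n (h₀ * i) a) = 5 ∧
          ω ∈ E (l' - h₀ * i) z} = Set.univ := by
        ext ω; simp
      rw [h0]
      refine ⟨@MeasurableSet.univ _ (sg _), ?_⟩
      have : IsProbabilityMeasure (percLaw d p) := by unfold percLaw; infer_instance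
      rw [measure_univ, pow_zero]
    | succ r ih =>
      intro hr
      obtain ⟨hm, hp⟩ := ih (by omega)
      set A : Set (Cfg d) := {ω | ∀ i < r, ∃ z, nd z (anc n (h₀ * i) a) = 5 ∧
        ω ∈ E (l' - h₀ * i) z} with hA
      set B : Set (Cfg d) := {ω | ∃ z, nd z (anc n (h₀ * r) a) = 5 ∧
        ω ∈ E (l' - h₀ * r) z} with hB
      have hAB : {ω : Cfg d | ∀ i < r + 1, ∃ z, nd z (anc n (h₀ * i) a) = 5 ∧
          ω ∈ E (l' - h₀ * i) z} = A ∩ B := by
        ext ω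
        constructor
        · intro h
          exact ⟨fun i hi => h i (by omega), h r (by omega)⟩
        · rintro ⟨h1, h2⟩ i hi
          rcases Nat.lt_succ_iff_lt_or_eq.1 hi with h | rfl
          · exact h1 i h
          · exact h2
      have hBm : MeasurableSet[sg (ringC n (l' - h₀ * r) (h₀ * r) a)] B :=
        ring_meas a _ (fun z => hE _ z)
      have hBp : percLaw d p B ≤ (11 ^ d : ℕ) * e := ring_prob p a _ (fun z => he _ z)
      have hdis : Disjoint (⋃ i ∈ {i | i < r}, ringC n (l' - h₀ * i) (h₀ * i) a)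
          (ringC n (l' - h₀ * r) (h₀ * r) a) := by
        rw [Set.disjoint_iUnion₂_left]
        intro i hi
        exact ringC_disj hn hh a hi (hs r (by omega))
      have hind : Indep (sg (⋃ i ∈ {i | i < r}, ringC n (l' - h₀ * i) (h₀ * i) a))
          (sg (ringC n (l' - h₀ * r) (h₀ * r) a)) (percLaw d p) := sg_indep hdis
      rw [hAB]
      refine ⟨?_, ?_⟩
      · refine @MeasurableSet.inter _ (sg _) _ _ (sg_mono ?_ _ hm) (sg_mono ?_ _ hBm)
        · exact Set.biUnion_subset_biUnion_left fun i hi => Nat.lt_succ_of_lt hi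
        · exact Set.subset_biUnion_of_mem (u := fun i => ringC n (l' - h₀ * i) (h₀ * i) a)
            (show r ∈ {i | i < r + 1} from Nat.lt_succ_self r)
      · rw [(Indep_iff _ _ _).1 hind A B hm hBm, pow_succ]
        exact mul_le_mul' hp hBp
  exact (key s le_rfl).2

end gtFQ
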