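import Pool.Agent.Lib.gtFQ.RecD
import Pool.Agent.Lib.gtFQ.PrA

/-! The main recursion, probabilistic part. -/

open MeasureTheory ProbabilityTheory Filter Topology
open scoped NNReal ENNReal

namespace gtFQ

open gtFP

/-- Blocks of length `u`. -/
private theorem recp1_blocks (u K : ℕ) (hu : 1 ≤ u) :
    ∑ l ∈ Finset.range (u * K), (1 / 2 : ℝ≥0) ^ (l / u) ≤
      (u : ℝ≥0) * ∑ k ∈ Finset.range K, (1 / 2 : ℝ≥0) ^ k := by
  induction K with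
  | zero => simp
  | succ K ih =>
    rw [Nat.mul_succ, Finset.sum_range_add, Finset.sum_range_succ, mul_add]
    refine add_le_add ih ?_
    have h1 : ∀ x ∈ Finset.range u, (1 / 2 : ℝ≥0) ^ ((u * K + x) / u) = (1 / 2 : ℝ≥0) ^ K := by
      intro x hx
      rw [Finset.mem_range] at hx
      congr 1
      rw [Nat.mul_add_div (by omega), Nat.div_eq_of_lt hx, add_zero]
    rw [Finset.sum_congr rfl h1, Finset.sum_const, Finset.card_range, nsmul_eq_mul]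

private theorem recp1_geom (K : ℕ) : ∑ k ∈ Finset.range K, (1 / 2 : ℝ≥0) ^ k ≤ 2 := by
  have h : ∀ K : ℕ, ∑ k ∈ Finset.range K, (1 / 2 : ℝ≥0) ^ k + 2 * (1 / 2) ^ K = 2 := by
    intro K
    induction K with
    | zero => simp
    | succ K ih =>
      rw [Finset.sum_range_succ]
      have h1 : (1 / 2 : ℝ≥0) ^ K + 2 * (1 / 2) ^ (K + 1) = 2 * (1 / 2) ^ K := by
        have h2 : (2 : ℝ≥0) * (1 / 2) ^ (K + 1) = (1 / 2) ^ K := by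
          rw [pow_succ']
          rw [← mul_assoc]
          norm_num
        rw [h2, two_mul]
      rw [add_assoc, h1]
      exact ih
  exact (le_self_add).trans (h K).le

private theorem recp1_sum (u m : ℕ) (hu : 1 ≤ u) :
    ∑ l ∈ Finset.Icc (6 * u) m, (1 / 2 : ℝ≥0) ^ (l / u) ≤ (u : ℝ≥0) * 2 := by
  calc ∑ l ∈ Finset.Icc (6 * u) m, (1 / 2 : ℝ≥0) ^ (l / u)
      ≤ ∑ l ∈ Finset.range (u * (m + 1)), (1 / 2 : ℝ≥0) ^ (l / u) := by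
        refine Finset.sum_le_sum_of_subset ?_
        intro x hx
        rw [Finset.mem_Icc] at hx
        rw [Finset.mem_range]
        calc x < m + 1 := by omega
          _ ≤ u * (m + 1) := Nat.le_mul_of_pos_left _ (by omega)
    _ ≤ (u : ℝ≥0) * ∑ k ∈ Finset.range (m + 1), (1 / 2 : ℝ≥0) ^ k := recp1_blocks u _ hu
    _ ≤ (u : ℝ≥0) * 2 := by
        gcongr
        exact recp1_geom _

private theorem recp1_main (d n : ℕ) (hn : 2 ≤ n) {u : ℕ} (hu : 1 ≤ u) :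
    ∃ q₀ : ℝ≥0, 0 < q₀ ∧ ∀ q : ℝ≥0, 0 < q → q ≤ q₀ → ∀ m₀ : ℕ,
      ∑ l' ∈ Finset.Icc (6 * u) m₀, (((7 * n ^ l') ^ d : ℕ) : ℝ≥0) *
        ((11 ^ d : ℕ) * q) ^ (l' / u + 1) ≤ q / 2 := by
  obtain ⟨N, hN⟩ : ∃ N : ℝ≥0, N = (n : ℝ≥0) ^ d := ⟨_, rfl⟩
  obtain ⟨E, hE⟩ : ∃ E : ℝ≥0, E = N ^ u * 11 ^ d := ⟨_, rfl⟩
  obtain ⟨C, hC⟩ : ∃ C : ℝ≥0, C = 7 ^ d := ⟨_, rfl⟩
  have hn1 : (1 : ℝ≥0) ≤ n := by exact_mod_cast (by omega : 1 ≤ n)
  have hN1 : 1 ≤ N := by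
    rw [hN]
    exact one_le_pow₀ hn1
  have hE1 : 1 ≤ E := by
    rw [hE]
    exact one_le_mul (one_le_pow₀ hN1) (one_le_pow₀ (by norm_num))
  have hC1 : 1 ≤ C := by
    rw [hC]
    exact one_le_pow₀ (by norm_num)
  have hu1 : (1 : ℝ≥0) ≤ u := by exact_mod_cast hu
  obtain ⟨Z, hZ⟩ : ∃ Z : ℝ≥0, Z = 8 * C * u * E ^ 2 := ⟨_, rfl⟩
  have hE0 : 0 < E := lt_of_lt_of_le one_pos hE1
  have hC0 : 0 < C := lt_of_lt_of_le one_pos hC1
  have hu0 : (0 : ℝ≥0) < u := lt_of_lt_of_le one_pos hu1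
  have hZ0 : 0 < Z := by
    rw [hZ]
    positivity
  have hEZ : 2 * E ≤ Z := by
    rw [hZ]
    calc 2 * E = 2 * 1 * 1 * (E * 1) := by ring
      _ ≤ 8 * C * u * (E * E) := by
          gcongr
          norm_num
      _ = 8 * C * u * E ^ 2 := by ring
  refine ⟨Z⁻¹, inv_pos.2 hZ0, fun q hq hq0 m₀ => ?_⟩
  have hqZ : Z * q ≤ 1 := by
    calc Z * q ≤ Z * Z⁻¹ := by gcongr
      _ = 1 := mul_inv_cancel₀ hZ0.ne'
  have hEq : E * q ≤ 1 / 2 := by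
    have h1 : 2 * (E * q) ≤ 1 := by
      calc 2 * (E * q) = 2 * E * q := by ring
        _ ≤ Z * q := by gcongr
        _ ≤ 1 := hqZ
    rw [le_div_iff₀ (by norm_num : (0 : ℝ≥0) < 2), mul_comm]
    exact h1
  have hterm : ∀ l ∈ Finset.Icc (6 * u) m₀, (((7 * n ^ l) ^ d : ℕ) : ℝ≥0) *
      ((11 ^ d : ℕ) * q) ^ (l / u + 1) ≤ (2 * C * (E * q) ^ 2) * (1 / 2 : ℝ≥0) ^ (l / u) := by
    intro l hl
    rw [Finset.mem_Icc] at hl
    obtain ⟨k, hk⟩ : ∃ k, l / u = k + 1 := by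
      have h1 : 6 ≤ l / u := by
        rw [Nat.le_div_iff_mul_le (by omega)]
        exact hl.1
      exact ⟨l / u - 1, by omega⟩
    have h2 : l ≤ u * (l / u + 1) := (Nat.lt_mul_div_succ l (by omega)).le
    have h3 : (((7 * n ^ l) ^ d : ℕ) : ℝ≥0) ≤ C * (N ^ u) ^ (l / u + 1) := by
      push_cast
      rw [mul_pow, ← hC, ← pow_mul, mul_comm l d, pow_mul, ← hN, ← pow_mul]
      gcongr
    have h4 : ((11 ^ d : ℕ) : ℝ≥0) = 11 ^ d := by push_cast; rfl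
    calc (((7 * n ^ l) ^ d : ℕ) : ℝ≥0) * ((11 ^ d : ℕ) * q) ^ (l / u + 1)
        ≤ (C * (N ^ u) ^ (l / u + 1)) * (11 ^ d * q) ^ (l / u + 1) := by
          rw [h4]
          gcongr
      _ = C * (E * q) ^ (l / u + 1) := by
          rw [hE, mul_assoc, ← mul_pow, mul_assoc]
      _ = C * (E * q) ^ 2 * (E * q) ^ k := by
          rw [hk]
          ring
      _ ≤ C * (E * q) ^ 2 * (1 / 2) ^ k := by gcongr
      _ = (2 * C * (E * q) ^ 2) * (1 / 2 : ℝ≥0) ^ (k + 1) := by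
          rw [pow_succ]
          have : (2 : ℝ≥0) * (1 / 2) = 1 := by norm_num
          calc C * (E * q) ^ 2 * (1 / 2) ^ k = (2 * (1 / 2)) * (C * (E * q) ^ 2 * (1 / 2) ^ k) := by
                rw [this, one_mul]
            _ = _ := by ring
      _ = _ := by rw [hk]
  calc ∑ l' ∈ Finset.Icc (6 * u) m₀, (((7 * n ^ l') ^ d : ℕ) : ℝ≥0) *
        ((11 ^ d : ℕ) * q) ^ (l' / u + 1)
      ≤ ∑ l' ∈ Finset.Icc (6 * u) m₀, (2 * C * (E * q) ^ 2) * (1 / 2 : ℝ≥0) ^ (l' / u) :=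
        Finset.sum_le_sum hterm
    _ = (2 * C * (E * q) ^ 2) * ∑ l' ∈ Finset.Icc (6 * u) m₀, (1 / 2 : ℝ≥0) ^ (l' / u) := by
        rw [Finset.mul_sum]
    _ ≤ (2 * C * (E * q) ^ 2) * (u * 2) := by
        gcongr
        exact recp1_sum u m₀ hu
    _ = (Z * q) * (q / 2) := by
        rw [hZ]
        ring
    _ ≤ 1 * (q / 2) := by gcongr
    _ = q / 2 := one_mul _

/-- Choice of `q`: with `u = h₀ u'`, `l₁ = 6 u`: for small `q > 0` and all `m₀`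
`∑_{l' = l₁}^{m₀} (7 n^l')^d (11^d q)^(l'/u + 1) ≤ q/2`. (Natural division; `l'/u + 1 ≥ l'/u` as
reals; `(11^d q)^(l'/u+1) ≤ (11^d q)^2 ((11^d q)^(1/(2u)))^l'`.. for `l' ≥ 6u`; the sum is geometric
with ratio at most `1/2` when `n^d (11^d q)^(1/(2u)) ≤ 1/2`.) -/
theorem exists_q (d n : ℕ) (hn : 2 ≤ n) {u : ℕ} (hu : 1 ≤ u) :
    ∃ q₀ : ℝ≥0, 0 < q₀ ∧ ∀ q : ℝ≥0, 0 < q → q ≤ q₀ → ∀ m₀ : ℕ,
      ∑ l' ∈ Finset.Icc (6 * u) m₀, (((7 * n ^ l') ^ d : ℕ) : ℝ≥0∞) *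
        ((11 ^ d : ℕ) * (q : ℝ≥0∞)) ^ (l' / u + 1) ≤ (q : ℝ≥0∞) / 2 := by
  obtain ⟨q₀, h0, h⟩ := recp1_main d n hn hu
  refine ⟨q₀, h0, fun q hq hq0 m₀ => ?_⟩
  have h1 := h q hq hq0 m₀
  have h2 : ((q / 2 : ℝ≥0) : ℝ≥0∞) = (q : ℝ≥0∞) / 2 := by
    rw [ENNReal.coe_div (by norm_num)]
    rfl
  rw [← h2]
  refine le_trans (le_of_eq ?_) (ENNReal.coe_le_coe.2 h1)
  push_cast
  rfl

end gtFQ
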