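import Pool.Agent.Lib.gtFQ.RecD
import Pool.Agent.Lib.gtFQ.PrA
import Pool.Agent.Lib.gtFQ.RecP1

/-! The main recursion, probabilistic part. -/

open MeasureTheory ProbabilityTheory Filter Topology
open scoped NNReal ENNReal

namespace gtFQ

open gtFP

/-- the cubes of level `l` whose ancestor of level `0` is at distance at most 2 from `0` -/
private noncomputable def bxP (d n l : ℕ) : Finset (Fin d → ℤ) :=
  Fintype.piFinset fun _ : Fin d => Finset.Ico (-(2 * (n : ℤ) ^ l)) (5 * (n : ℤ) ^ l)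

private theorem card_bxP (d n l : ℕ) : (bxP d n l).card = (7 * n ^ l) ^ d := by
  unfold bxP
  rw [Fintype.card_piFinset_const, Int.card_Ico]
  congr 1
  have : 5 * (n : ℤ) ^ l - -(2 * (n : ℤ) ^ l) = ((7 * n ^ l : ℕ) : ℤ) := by
    push_cast
    ring
  rw [this, Int.toNat_natCast]

private theorem mem_bxP {d n l : ℕ} (hn : 1 ≤ n) {a : Fin d → ℤ} (h : nd (anc n l a) 0 ≤ 2) :
    a ∈ bxP d n l := by
  unfold bxP
  rw [Fintype.mem_piFinset]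
  intro t
  have hpos : (0 : ℤ) < (n : ℤ) ^ l := by
    have : (0 : ℤ) < n := by exact_mod_cast hn
    positivity
  have h1 := nd_le.1 h t
  simp only [anc, Pi.zero_apply] at h1
  have h2 : -2 ≤ a t / (n : ℤ) ^ l := by omega
  have h3 : a t / (n : ℤ) ^ l ≤ 2 := by omega
  have h4 : (n : ℤ) ^ l * (a t / (n : ℤ) ^ l) + a t % (n : ℤ) ^ l = a t :=
    Int.mul_ediv_add_emod _ _
  have h5 : 0 ≤ a t % (n : ℤ) ^ l := Int.emod_nonneg _ hpos.ne'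
  have h6 : a t % (n : ℤ) ^ l < (n : ℤ) ^ l := Int.emod_lt_of_pos _ hpos
  have h7 := mul_le_mul_of_nonneg_left h2 hpos.le
  have h8 := mul_le_mul_of_nonneg_left h3 hpos.le
  rw [Finset.mem_Ico]
  constructor
  · linarith
  · linarith

private theorem exists_uP {c : ℝ≥0} (hc : 1 < c) (N : ℕ) :
    ∃ u' : ℕ, 2 ≤ u' ∧ ((N : ℕ) : ℝ≥0∞) ≤ (c : ℝ≥0∞) ^ u' := by
  obtain ⟨k, hk⟩ := pow_unbounded_of_one_lt ((N : ℕ) : ℝ≥0) hc
  refine ⟨k + 2, by omega, ?_⟩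
  have h1 : c ^ k ≤ c ^ (k + 2) := pow_le_pow_right₀ hc.le (by omega)
  have h2 : ((N : ℕ) : ℝ≥0) ≤ c ^ (k + 2) := hk.le.trans h1
  exact_mod_cast h2

private theorem exists_epsP {t : ℝ} (ht : 1 ≤ t) (l K : ℕ) (hl : 0 < l) (hK : 0 < K) :
    ∃ ε₁ : ℝ≥0, 0 < ε₁ ∧ ∀ ε₀ : ℝ≥0, ε₀ ≤ ε₁ →
      (l : ℝ≥0∞) * ((K : ℝ≥0∞) * (ε₀ : ℝ≥0∞) ^ (1 / t)) ≤ 1 / 2 := by
  have ht0 : 0 < t := by linarith
  obtain ⟨x, hx⟩ : ∃ x : ℝ≥0, x = 1 / (2 * ((l : ℝ≥0) * (K : ℝ≥0))) := ⟨_, rfl⟩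
  have hl' : (0 : ℝ≥0) < l := by exact_mod_cast hl
  have hK' : (0 : ℝ≥0) < K := by exact_mod_cast hK
  have hx0 : 0 < x := by
    rw [hx]
    positivity
  refine ⟨x ^ t, NNReal.rpow_pos hx0, fun ε₀ h => ?_⟩
  have h1 : (ε₀ : ℝ≥0∞) ^ (1 / t) ≤ (x : ℝ≥0∞) := by
    have h2 : (ε₀ : ℝ≥0∞) ≤ (x : ℝ≥0∞) ^ t := by
      rw [← ENNReal.coe_rpow_of_nonneg _ ht0.le]
      exact_mod_cast h
    rw [one_div]
    exact (ENNReal.rpow_inv_le_iff ht0).2 h2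
  have h3 : (l : ℝ≥0) * ((K : ℝ≥0) * x) = 1 / 2 := by
    rw [hx]
    field_simp
  calc (l : ℝ≥0∞) * ((K : ℝ≥0∞) * (ε₀ : ℝ≥0∞) ^ (1 / t))
      ≤ (l : ℝ≥0∞) * ((K : ℝ≥0∞) * (x : ℝ≥0∞)) := by gcongr
    _ = (((l : ℝ≥0) * ((K : ℝ≥0) * x) : ℝ≥0) : ℝ≥0∞) := by push_cast; rfl
    _ = ((1 / 2 : ℝ≥0) : ℝ≥0∞) := by rw [h3]
    _ = 1 / 2 := by
      rw [ENNReal.coe_div two_ne_zero]
      simp
    _ ≤ 1 / 2 := le_rfl

/-- the union bound over the cubes -/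
private theorem rings_sumP {d n : ℕ} (hn : 2 ≤ n) (p : unitInterval) {t : ℝ} {q : ℝ≥0}
    (u' : ℕ) (hu' : 2 ≤ u') (m₀ m : ℕ) (r : ℝ≥0∞)
    (hq : percLaw d p {ω | ¬ Good n m 0 ω 0 1 t r} ≤ q) (l' : ℕ) (a : Fin d → ℤ) :
    percLaw d p {ω | ∀ i, 3 * i * u' ≤ l' → ∃ z, nd z (anc n (3 * i) a) = 5 ∧
      ¬ Good n m (l' - 3 * i) ω z 1 t r} ≤
      ((11 ^ d : ℕ) * (q : ℝ≥0∞)) ^ (l' / (3 * u') + 1) := by
  have hn1 : 1 ≤ n := by omega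
  have hi : ∀ i < l' / (3 * u') + 1, 3 * i * u' ≤ l' := by
    intro i hi
    have h1 : i ≤ l' / (3 * u') := by omega
    have h2 : i * (3 * u') ≤ l' :=
      (Nat.mul_le_mul_right _ h1).trans (Nat.div_mul_le_self l' (3 * u'))
    calc 3 * i * u' = i * (3 * u') := by ring
      _ ≤ l' := h2
  refine le_trans (measure_mono ?_) (prob_rings (n := n) (h₀ := 3) (l' := l')
    (s := l' / (3 * u') + 1) hn1 ?_ p a ?_ (fun k z => {ω : Cfg d | ¬ Good n m k ω z 1 t r})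
    ?_ (e := (q : ℝ≥0∞)) ?_)
  · intro ω hω i h1
    exact hω i (hi i h1)
  · calc 8 = 2 ^ 3 := by norm_num
      _ ≤ n ^ 3 := Nat.pow_le_pow_left hn 3
  · intro i h1
    refine le_trans ?_ (hi i h1)
    calc 3 * i = 3 * i * 1 := by ring
      _ ≤ 3 * i * u' := Nat.mul_le_mul_left _ (by omega)
  · intro k z
    have h1 := meas_good (n := n) (m := m) (k := k) hn1 z (b := 1) (t := t) (θ := r)
    have h2 := sg_mono (LvN_subset (n := n) (m := m) (k := k) z) _ h1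
    exact @MeasurableSet.compl _ _ (sg (LvI n k z)) h2
  · intro k z
    exact (prob_good (n := n) (m := m) (k := k) hn1 z p).trans_le hq

/-- Probabilistic part of the recursion: `rec_det`, `prob_rings` (with `s = l'/u + 1`,
`E k z = {not Good n m k z 1 t r}`, `meas_good`, `prob_good`), union bound over
`l' ∈ [l₁, m₀]` and the at most `(7 n^l')^d` cubes `a` with `nd (anc n l' a) 0 ≤ 2`
(they belong to `Shell.blk`, or count directly). -/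
theorem rec_prob {d n : ℕ} (hn : 2 ≤ n) (p : unitInterval) {c : ℝ≥0} (hc : 1 < c) {t : ℝ}
    (ht : 1 ≤ t) :
    ∃ (Cst : ℝ≥0) (q₀ : ℝ≥0), 0 < q₀ ∧ ∀ q : ℝ≥0, 0 < q → q ≤ q₀ →
      ∃ ε₁ : ℝ≥0, 0 < ε₁ ∧ ∀ ε₀ : ℝ≥0, ε₀ ≤ ε₁ → ∀ m₀ : ℕ,
        percLaw d p {ω | ¬ Good n m₀ 0 ω 0 (c ^ 2) t ε₀} ≤ (q : ℝ≥0∞) / 2 →
        ∀ (m : ℕ) (r : ℝ≥0∞), percLaw d p {ω | ¬ Good n m 0 ω 0 1 t r} ≤ q →
          percLaw d p {ω | ¬ Good n (m₀ + m) 0 ω 0 1 t (Cst * ε₀ * r)} ≤ q := by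
  obtain ⟨u', hu2, hu⟩ := exists_uP hc (2 * n ^ d)
  obtain ⟨Cst, hCst⟩ := rec_det (d := d) n hn hc ht
  obtain ⟨q₀, hq₀, hQ⟩ := exists_q d n hn (u := 3 * u') (by omega)
  refine ⟨Cst, q₀, hq₀, fun q hq hqq => ?_⟩
  obtain ⟨ε₁, hε₁, hE⟩ := exists_epsP ht (6 * (3 * u')) ((7 * n ^ (6 * (3 * u'))) ^ d)
    (by omega) (by positivity)
  refine ⟨ε₁, hε₁, fun ε₀ hε m₀ h0 m r h1 => ?_⟩
  have hsub : {ω : Cfg d | ¬ Good n (m₀ + m) 0 ω 0 1 t (Cst * ε₀ * r)} ⊆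
      {ω | ¬ Good n m₀ 0 ω 0 (c ^ 2) t ε₀} ∪
        ⋃ l' ∈ Finset.Icc (6 * (3 * u')) m₀, ⋃ a ∈ bxP d n l',
          {ω | ∀ i, 3 * i * u' ≤ l' → ∃ z, nd z (anc n (3 * i) a) = 5 ∧
            ¬ Good n m (l' - 3 * i) ω z 1 t r} := by
    intro ω hω
    by_contra hcon
    rw [Set.mem_union, not_or] at hcon
    obtain ⟨hc1, hc2⟩ := hcon
    have hg : Good n m₀ 0 ω 0 (c ^ 2) t ε₀ := by
      by_contra h
      exact hc1 h
    apply hω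
    refine hCst u' 3 (6 * (3 * u')) m₀ m ω ε₀ r hu2 hu (by omega) (hE ε₀ hε) hg ?_
    intro l' hl1 hl2 a ha
    by_contra hbad
    apply hc2
    simp only [Set.mem_iUnion]
    refine ⟨l', Finset.mem_Icc.2 ⟨hl1, hl2⟩, a, mem_bxP (by omega) ha, ?_⟩
    intro i hi
    by_contra hno
    apply hbad
    refine ⟨i, hi, fun z hz => ?_⟩
    by_contra hz2
    exact hno ⟨z, hz, hz2⟩
  have hsum : percLaw d p (⋃ l' ∈ Finset.Icc (6 * (3 * u')) m₀, ⋃ a ∈ bxP d n l',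
      {ω | ∀ i, 3 * i * u' ≤ l' → ∃ z, nd z (anc n (3 * i) a) = 5 ∧
        ¬ Good n m (l' - 3 * i) ω z 1 t r}) ≤ (q : ℝ≥0∞) / 2 := by
    refine le_trans (measure_biUnion_finset_le _ _) (le_trans (Finset.sum_le_sum fun l' _ => ?_)
      (hQ q hq hqq m₀))
    refine le_trans (measure_biUnion_finset_le _ _) ?_
    refine le_trans (Finset.sum_le_sum fun a _ => rings_sumP hn p u' hu2 m₀ m r h1 l' a) ?_
    rw [Finset.sum_const, card_bxP, nsmul_eq_mul]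
  calc percLaw d p {ω | ¬ Good n (m₀ + m) 0 ω 0 1 t (Cst * ε₀ * r)}
      ≤ percLaw d p {ω | ¬ Good n m₀ 0 ω 0 (c ^ 2) t ε₀} + percLaw d p
        (⋃ l' ∈ Finset.Icc (6 * (3 * u')) m₀, ⋃ a ∈ bxP d n l',
          {ω | ∀ i, 3 * i * u' ≤ l' → ∃ z, nd z (anc n (3 * i) a) = 5 ∧
            ¬ Good n m (l' - 3 * i) ω z 1 t r}) :=
        (measure_mono hsub).trans (measure_union_le _ _)
    _ ≤ (q : ℝ≥0∞) / 2 + (q : ℝ≥0∞) / 2 := add_le_add h0 hsum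
    _ = q := ENNReal.add_halves _

end gtFQ
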