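import Pool.Agent.Lib.gtFQ.RecP2

/-! The main recursion, probabilistic part. -/

open MeasureTheory ProbabilityTheory Filter Topology
open scoped NNReal ENNReal

namespace gtFQ

open gtFP

/-- Exponential decay with probability at least `1 - q`: choose `ε₀ ≤ ε₁` with `Cst ε₀ ≤ 1/2`, `m₀`
from `tendsto_good` (hypothesis `hT`), start with `good_one` (`r = 1`, probability `0`). -/
theorem exp_decay {d n : ℕ} (hn : 2 ≤ n) (p : unitInterval) {c : ℝ≥0} (hc : 1 < c) {t : ℝ}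
    (ht : 1 ≤ t)
    (hT : ∀ θ ε : ℝ≥0∞, 0 < θ → 0 < ε →
      ∃ m, percLaw d p {ω | ¬ Good n m 0 ω 0 (c ^ 2) t θ} ≤ ε) :
    ∃ q₀ : ℝ≥0, 0 < q₀ ∧ ∀ q : ℝ≥0, 0 < q → q ≤ q₀ → ∃ m₀, 1 ≤ m₀ ∧ ∀ k : ℕ,
      percLaw d p {ω | ¬ Good n (k * m₀) 0 ω 0 1 t ((1 / 2 : ℝ≥0∞) ^ k)} ≤ q := by
  obtain ⟨Cst, q₀, hq₀, H⟩ := rec_prob (d := d) hn p hc ht
  refine ⟨q₀, hq₀, fun q hq hqq => ?_⟩
  obtain ⟨ε₁, hε₁, H1⟩ := H q hq hqq
  have ht0 : 0 < t := lt_of_lt_of_le one_pos ht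
  -- the choice of `ε₀`
  set ε₀ : ℝ≥0 := min ε₁ (1 / (2 * (Cst + 1))) with hε₀
  have hε₀pos : 0 < ε₀ := lt_min hε₁ (by positivity)
  have hCε : Cst * ε₀ ≤ 1 / 2 := by
    have h1 : ε₀ ≤ 1 / (2 * (Cst + 1)) := min_le_right _ _
    have h2 : Cst * ε₀ ≤ (Cst + 1) * (1 / (2 * (Cst + 1))) :=
      mul_le_mul (le_add_of_nonneg_right zero_le_one) h1 zero_le zero_le
    have h3 : (Cst + 1) * (1 / (2 * (Cst + 1))) = 1 / 2 := by
      have h4 : Cst + 1 ≠ 0 := (lt_of_lt_of_le one_pos (le_add_of_nonneg_left zero_le)).ne'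
      field_simp
    rw [h3] at h2
    exact h2
  obtain ⟨m₁, hm₁⟩ := hT ε₀ ((q : ℝ≥0∞) / 2) (by exact_mod_cast hε₀pos)
    (ENNReal.div_pos (by exact_mod_cast hq.ne') (by norm_num))
  have hm₀ : percLaw d p {ω | ¬ Good n (max m₁ 1) 0 ω 0 (c ^ 2) t ε₀} ≤ (q : ℝ≥0∞) / 2 := by
    refine le_trans (measure_mono ?_) hm₁
    intro ω hω hg
    exact hω (good_mono_m (by omega) (le_max_left _ _) hg)
  refine ⟨max m₁ 1, le_max_right _ _, fun k => ?_⟩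
  induction k with
  | zero =>
    have h1 : {ω : Cfg d | ¬ Good n (0 * max m₁ 1) 0 ω 0 1 t ((1 / 2 : ℝ≥0∞) ^ 0)} = ∅ := by
      rw [Set.eq_empty_iff_forall_notMem]
      intro ω hω
      rw [pow_zero] at hω
      exact hω (good_one ht0)
    rw [h1, measure_empty]
    exact zero_le
  | succ k ih =>
    have h1 := H1 ε₀ (min_le_left _ _) (max m₁ 1) hm₀ (k * max m₁ 1) _ ih
    refine le_trans (measure_mono ?_) h1
    intro ω hω hg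
    apply hω
    have e : (k + 1) * max m₁ 1 = max m₁ 1 + k * max m₁ 1 := by ring
    rw [e]
    refine good_mono_θ ?_ hg
    have h2 : (Cst : ℝ≥0∞) * ε₀ ≤ 1 / 2 := by
      have h3 : ((Cst * ε₀ : ℝ≥0) : ℝ≥0∞) ≤ ((1 / 2 : ℝ≥0) : ℝ≥0∞) := ENNReal.coe_le_coe.2 hCε
      rw [ENNReal.coe_mul, ENNReal.coe_div two_ne_zero, ENNReal.coe_one, ENNReal.coe_ofNat] at h3
      exact h3
    calc (Cst : ℝ≥0∞) * ε₀ * (1 / 2) ^ k ≤ 1 / 2 * (1 / 2) ^ k := mul_le_mul_left h2 _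
      _ = (1 / 2) ^ (k + 1) := by rw [pow_succ, mul_comm]

end gtFQ
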