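import Pool.Agent.Lib.gtFQ.SqX
import Pool.Agent.Lib.gtFQ.RecP

/-! The strong rate. -/

open MeasureTheory ProbabilityTheory Filter Topology
open scoped NNReal ENNReal

namespace gtFQ

open gtFP

theorem rate1_iter {P : ℕ → ℝ≥0∞ → ℝ≥0∞} {K L : ℝ≥0} {j : ℕ}
    (hsq : ∀ m θ, P (j + m) (L * θ) ≤ K * (P m θ) ^ 2) (m : ℕ) (θ : ℝ≥0∞) :
    ∀ i : ℕ, (K : ℝ≥0∞) * P (i * j + m) ((L : ℝ≥0∞) ^ i * θ) ≤ ((K : ℝ≥0∞) * P m θ) ^ (2 ^ i) := by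
  intro i
  induction i with
  | zero => simp
  | succ i ih =>
    have h1 := hsq (i * j + m) ((L : ℝ≥0∞) ^ i * θ)
    have e1 : (i + 1) * j + m = j + (i * j + m) := by ring
    have e2 : (L : ℝ≥0∞) ^ (i + 1) * θ = (L : ℝ≥0∞) * ((L : ℝ≥0∞) ^ i * θ) := by ring
    rw [e1, e2]
    calc (K : ℝ≥0∞) * P (j + (i * j + m)) ((L : ℝ≥0∞) * ((L : ℝ≥0∞) ^ i * θ))
        ≤ (K : ℝ≥0∞) * ((K : ℝ≥0∞) * (P (i * j + m) ((L : ℝ≥0∞) ^ i * θ)) ^ 2) :=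
          mul_le_mul_right h1 _
      _ = ((K : ℝ≥0∞) * P (i * j + m) ((L : ℝ≥0∞) ^ i * θ)) ^ 2 := by ring
      _ ≤ (((K : ℝ≥0∞) * P m θ) ^ (2 ^ i)) ^ 2 := pow_le_pow_left₀ zero_le ih 2
      _ = ((K : ℝ≥0∞) * P m θ) ^ (2 ^ (i + 1)) := by rw [← pow_mul, pow_succ 2 i]

/-- Pure analysis: iterate the squares inequality `i ≈ log_2 k + const` times, starting from
`p (k m₀) (2^{-k}) ≤ q`, `K q ≤ 1/2`: `p (i j + k m₀) (L^i 2^{-k}) ≤ (K q)^{2^i} ≤ 2^{-2^i}`.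
With `M = i j + k m₀`, `β = 4 m₀`, `2^i ≥ D log_2(n) M`, and `L^i 2^{-k} ≤ 2^{-(M/β)}` for large
`k`. -/
theorem sr_analysis {n : ℕ} (hn : 2 ≤ n) (P : ℕ → ℝ≥0∞ → ℝ≥0∞)
    (hmono : ∀ m θ θ', θ ≤ θ' → P m θ' ≤ P m θ) (K L : ℝ≥0) (hK : 1 ≤ K) (hL : 1 ≤ L) (j : ℕ)
    (hsq : ∀ m θ, P (j + m) (L * θ) ≤ K * (P m θ) ^ 2) {m₀ : ℕ} (hm₀ : 1 ≤ m₀) {q : ℝ≥0}
    (hq : K * q ≤ 1 / 2) (hk : ∀ k, P (k * m₀) ((1 / 2 : ℝ≥0∞) ^ k) ≤ q) :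
    ∃ β : ℕ, 1 ≤ β ∧ ∀ D M₀ : ℕ, ∃ M, M₀ ≤ M ∧
      P M ((1 / 2 : ℝ≥0∞) ^ (M / β)) ≤ (((n : ℝ≥0∞) ^ (D * M)))⁻¹ := by
  obtain ⟨l, hl⟩ : ∃ l : ℕ, (L : ℝ≥0∞) ≤ 2 ^ l := by
    obtain ⟨l, hl⟩ := pow_unbounded_of_one_lt L (by norm_num : (1 : ℝ≥0) < 2)
    refine ⟨l, ?_⟩
    exact_mod_cast hl.le
  refine ⟨4 * m₀, by omega, fun D M₀ => ?_⟩
  obtain ⟨C, hC⟩ : ∃ C : ℕ, C = j + 2 * (l + j + 1) * m₀ := ⟨_, rfl⟩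
  obtain ⟨a, ha⟩ : ∃ a : ℕ, a = 2 * (n * D * C) + M₀ := ⟨_, rfl⟩
  obtain ⟨i, hi⟩ : ∃ i : ℕ, i = 2 * a := ⟨_, rfl⟩
  obtain ⟨k, hkd⟩ : ∃ k : ℕ, k = 2 * i * (l + j + 1) := ⟨_, rfl⟩
  obtain ⟨M, hM⟩ : ∃ M : ℕ, M = i * j + k * m₀ := ⟨_, rfl⟩
  have hMC : M = i * C := by rw [hM, hkd, hC]; ring
  have hki : 2 * i ≤ k := by
    rw [hkd]
    exact Nat.le_mul_of_pos_right _ (by omega)
  have hkM : k ≤ M := by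
    rw [hM]
    have : k * 1 ≤ k * m₀ := Nat.mul_le_mul_left _ hm₀
    omega
  refine ⟨M, by omega, ?_⟩
  -- the two numerical facts
  have hpow : n * D * M ≤ 2 ^ i := by
    have h1 : a * a ≤ 2 ^ a * 2 ^ a := Nat.mul_le_mul Nat.lt_two_pow_self.le Nat.lt_two_pow_self.le
    have h2 : 2 ^ i = 2 ^ a * 2 ^ a := by rw [hi, two_mul, pow_add]
    have h3 : n * D * M = (2 * (n * D * C)) * a := by rw [hMC, hi]; ring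
    have h4 : (2 * (n * D * C)) * a ≤ a * a := Nat.mul_le_mul_right _ (by omega)
    rw [h2, h3]
    exact h4.trans h1
  have hli : l * i + M / (4 * m₀) ≤ k := by
    have h1 : M / (4 * m₀) ≤ (i * j + k) / 4 := by
      have h2 : M ≤ m₀ * (i * j + k) := by
        rw [hM]
        have : i * j * 1 ≤ i * j * m₀ := Nat.mul_le_mul_left _ hm₀
        nlinarith
      calc M / (4 * m₀) ≤ (m₀ * (i * j + k)) / (m₀ * 4) := by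
            rw [mul_comm 4 m₀]; exact Nat.div_le_div_right h2
        _ = (i * j + k) / 4 := Nat.mul_div_mul_left _ _ (by omega)
    have h3 : (i * j + k) / 4 * 4 ≤ i * j + k := Nat.div_mul_le_self _ _
    have h4 : k = 2 * (i * l) + 2 * (i * j) + 2 * i := by rw [hkd]; ring
    have h5 : l * i = i * l := mul_comm _ _
    omega
  -- iteration
  have h1 := rate1_iter hsq (k * m₀) ((1 / 2 : ℝ≥0∞) ^ k) i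
  rw [← hM] at h1
  have hKq : (K : ℝ≥0∞) * P (k * m₀) ((1 / 2 : ℝ≥0∞) ^ k) ≤ 1 / 2 := by
    calc (K : ℝ≥0∞) * P (k * m₀) ((1 / 2 : ℝ≥0∞) ^ k) ≤ (K : ℝ≥0∞) * q := mul_le_mul_right (hk k) _
      _ = ((K * q : ℝ≥0) : ℝ≥0∞) := by rw [ENNReal.coe_mul]
      _ ≤ ((1 / 2 : ℝ≥0) : ℝ≥0∞) := ENNReal.coe_le_coe.2 hq
      _ = 1 / 2 := by
        rw [ENNReal.coe_div (by norm_num)]
        norm_num
  have h2 : P M ((L : ℝ≥0∞) ^ i * (1 / 2 : ℝ≥0∞) ^ k) ≤ (1 / 2 : ℝ≥0∞) ^ (2 ^ i) := by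
    have hK1 : (1 : ℝ≥0∞) ≤ K := by exact_mod_cast hK
    calc P M ((L : ℝ≥0∞) ^ i * (1 / 2 : ℝ≥0∞) ^ k)
        = 1 * P M ((L : ℝ≥0∞) ^ i * (1 / 2 : ℝ≥0∞) ^ k) := (one_mul _).symm
      _ ≤ (K : ℝ≥0∞) * P M ((L : ℝ≥0∞) ^ i * (1 / 2 : ℝ≥0∞) ^ k) := mul_le_mul_left hK1 _
      _ ≤ ((K : ℝ≥0∞) * P (k * m₀) ((1 / 2 : ℝ≥0∞) ^ k)) ^ (2 ^ i) := h1
      _ ≤ (1 / 2 : ℝ≥0∞) ^ (2 ^ i) := pow_le_pow_left₀ zero_le hKq _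
  have h22 : (2 : ℝ≥0∞) * (1 / 2) = 1 := by
    rw [one_div, ENNReal.mul_inv_cancel (by norm_num) (by norm_num)]
  have hhalf : (1 / 2 : ℝ≥0∞) ≤ 1 := by
    rw [one_div]
    exact ENNReal.inv_le_one.2 (by norm_num)
  have h3 : (L : ℝ≥0∞) ^ i * (1 / 2 : ℝ≥0∞) ^ k ≤ (1 / 2 : ℝ≥0∞) ^ (M / (4 * m₀)) := by
    obtain ⟨t, ht⟩ : ∃ t : ℕ, t = M / (4 * m₀) := ⟨_, rfl⟩
    rw [← ht] at hli ⊢
    obtain ⟨r, hr⟩ : ∃ r : ℕ, k = l * i + r := ⟨k - l * i, by omega⟩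
    have hr2 : t ≤ r := by omega
    calc (L : ℝ≥0∞) ^ i * (1 / 2 : ℝ≥0∞) ^ k ≤ (2 ^ l) ^ i * (1 / 2 : ℝ≥0∞) ^ k :=
          mul_le_mul_left (pow_le_pow_left₀ zero_le hl i) _
      _ = (2 * (1 / 2 : ℝ≥0∞)) ^ (l * i) * (1 / 2 : ℝ≥0∞) ^ r := by
          rw [hr, pow_add, ← pow_mul, mul_pow]; ring
      _ = (1 / 2 : ℝ≥0∞) ^ r := by rw [h22, one_pow, one_mul]
      _ ≤ (1 / 2 : ℝ≥0∞) ^ t := pow_le_pow_right_of_le_one' hhalf hr2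
  refine (hmono M _ _ h3).trans (h2.trans ?_)
  have h4 : (1 / 2 : ℝ≥0∞) ^ (2 ^ i) = ((2 : ℝ≥0∞) ^ (2 ^ i))⁻¹ := by
    rw [one_div, ENNReal.inv_pow]
  rw [h4]
  apply ENNReal.inv_le_inv.2
  have h5 : (n : ℝ≥0∞) ≤ 2 ^ n := by exact_mod_cast (Nat.lt_two_pow_self (n := n)).le
  calc (n : ℝ≥0∞) ^ (D * M) ≤ (2 ^ n) ^ (D * M) := pow_le_pow_left₀ zero_le h5 _
    _ = 2 ^ (n * D * M) := by rw [← pow_mul, mul_assoc]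
    _ ≤ 2 ^ (2 ^ i) := pow_le_pow_right₀ (by norm_num) hpow

end gtFQ
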