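import Pool.Agent.Lib.gtFQ.SqX
import Pool.Agent.Lib.gtFQ.RecP
import Pool.Agent.Lib.gtFQ.Rate1

/-! The strong rate. -/

open MeasureTheory ProbabilityTheory Filter Topology
open scoped NNReal ENNReal

namespace gtFQ

open gtFP

/-- `exp_decay` with `q ≤ 1/(2K)`, `good_sq` for `b = 1`, `n^j ≥ 16`, `sr_analysis`. -/
theorem strong_rate {d n : ℕ} (hn : 2 ≤ n) (p : unitInterval) {c : ℝ≥0} (hc : 1 < c) {t : ℝ}
    (ht : 1 ≤ t)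
    (hT : ∀ θ ε : ℝ≥0∞, 0 < θ → 0 < ε →
      ∃ m, percLaw d p {ω | ¬ Good n m 0 ω 0 (c ^ 2) t θ} ≤ ε) :
    ∃ β : ℕ, 1 ≤ β ∧ ∀ D M₀ : ℕ, ∃ M, M₀ ≤ M ∧
      percLaw d p {ω | ¬ Good n M 0 ω 0 1 t ((1 / 2 : ℝ≥0∞) ^ (M / β))} ≤
        (((n : ℝ≥0∞) ^ (D * M)))⁻¹ := by
  have hj : 16 ≤ n ^ 4 := by
    calc 16 = 2 ^ 4 := by norm_num
      _ ≤ n ^ 4 := Nat.pow_le_pow_left hn 4
  have hB : 1 ≤ (7 * n ^ 4) ^ d := Nat.one_le_pow _ _ (by positivity)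
  set B : ℕ := (7 * n ^ 4) ^ d with hBdef
  have hB1 : (1 : ℝ≥0) ≤ (B : ℝ≥0) := by exact_mod_cast hB
  set K : ℝ≥0 := (B : ℝ≥0) ^ 2 with hKdef
  set L : ℝ≥0 := (B : ℝ≥0) ^ t with hLdef
  have hK : 1 ≤ K := one_le_pow₀ hB1
  have hL : 1 ≤ L := NNReal.one_le_rpow hB1 (by linarith)
  obtain ⟨q₀, hq₀, hexp⟩ := exp_decay hn p hc ht hT
  have hKpos : 0 < K := lt_of_lt_of_le one_pos hK
  obtain ⟨m₀, hm₀, hk⟩ := hexp (min q₀ (1 / (2 * K)))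
    (lt_min hq₀ (by positivity)) (min_le_left _ _)
  have hq : K * min q₀ (1 / (2 * K)) ≤ 1 / 2 := by
    calc K * min q₀ (1 / (2 * K)) ≤ K * (1 / (2 * K)) := by gcongr; exact min_le_right _ _
      _ = 1 / 2 := by field_simp
  refine sr_analysis hn (fun m θ => percLaw d p {ω | ¬ Good n m 0 ω 0 1 t θ}) ?_ K L hK hL 4 ?_
    hm₀ hq hk
  · intro m θ θ' h
    refine MeasureTheory.measure_mono ?_
    intro ω hω hG
    obtain ⟨σ, h1, h2⟩ := hG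
    exact hω ⟨σ, h1, h2.trans h⟩
  · intro m θ
    have h := good_sq (d := d) (j := 4) (n := n) (by omega) hj p (b := 1) ht m θ
    have e1 : (((((7 * n ^ 4) ^ d : ℕ) : ℝ≥0∞) * (((1 : ℝ≥0) : ℝ≥0∞)) ^ 4) ^ t) = (L : ℝ≥0∞) := by
      rw [ENNReal.coe_one, one_pow, mul_one, hLdef, ENNReal.coe_rpow_of_nonneg _ (by linarith),
        ENNReal.coe_natCast]
    have e2 : ((((7 * n ^ 4) ^ d : ℕ) : ℝ≥0∞) ^ 2) = (K : ℝ≥0∞) := by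
      rw [hKdef, ENNReal.coe_pow, ENNReal.coe_natCast]
    rw [e1, e2] at h
    exact h

end gtFQ
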