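import Pool.Agent.Lib.gtFQ.Shell1

/-! Shells: if the bad subcubes of level `j` are close together then some shell is clean, and weights of
the cubes of a clean shell give weights for the big cube. -/

open scoped NNReal ENNReal

namespace gtFQ

open gtFP

variable {d : ℕ}

/-- Weights from a clean shell: `σ' = ∑_{z ∈ blk, dB z = s} sh j σ_z`. A crossing chain of `0` at depth
`j + m` hits a cube `z` of level `j` with `dB z = s` (`exists_eq_of_steps`), whose distance to the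
first cube is at least `s ≥ 3` (`dB_le`, `dB_zero`), so `sub_len'` applies. Cost:
`(∑_z x_z)^t ≤ (card blk)^(t-1) ∑ x_z^t` (`ENNReal.inner_le_nnorm_mul..`/
`ENNReal.rpow_sum_le_const_mul_sum_rpow`), `cost_sh`; so
`cost ≤ card^(t-1) * card * b^(j t) * θ = (card * b^j)^t * θ`. -/
theorem good_of_shell {n m j : ℕ} (hn : 1 ≤ n) {ω : Cfg d} {b : ℝ≥0} {t : ℝ} (ht : 1 ≤ t)
    {θ : ℝ≥0∞} {s : ℕ} (hs : 3 ≤ s) (hs' : s ≤ n ^ j)
    (h : ∀ z ∈ blk d n j, dB n j z = s → Good n m j ω z b t θ) :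
    Good n (j + m) 0 ω 0 b t ((((7 * n ^ j) ^ d : ℕ) * (b : ℝ≥0∞) ^ j) ^ t * θ) := by
  classical
  have ht0 : 0 < t := by linarith
  have hch : ∀ z : Fin d → ℤ, ∃ σ : ℕ → (Fin d → ℤ) → ℝ≥0∞,
      z ∈ blk d n j → dB n j z = s → Adm n m j ω z σ ∧ cost b t σ ≤ θ := by
    intro z
    by_cases hz : z ∈ blk d n j ∧ dB n j z = s
    · obtain ⟨σ, hσ⟩ := h z hz.1 hz.2
      exact ⟨σ, fun _ _ => hσ⟩
    · exact ⟨0, fun h1 h2 => absurd ⟨h1, h2⟩ hz⟩
  choose σ hσ using hch
  set I : Finset (Fin d → ℤ) := (blk d n j).filter fun z => dB n j z = s with hI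
  have hσI : ∀ z ∈ I, Adm n m j ω z (σ z) ∧ cost b t (σ z) ≤ θ := fun z hz =>
    hσ z (Finset.mem_filter.1 hz).1 (Finset.mem_filter.1 hz).2
  refine ⟨fun l a => ∑ x ∈ I, (fun _ => (1 : ℝ≥0∞)) x * (fun x => sh j (σ x)) x l a, ?_, ?_⟩
  · -- admissibility
    intro r f hf
    obtain ⟨h0, hLoc, hstep, hin, hout⟩ := hf
    have ha0 : anc n j (anc n m (f 0)) = 0 := by rw [anc_anc, h0]
    have hd0 : dB n j (anc n m (f 0)) = 0 := dB_zero hn ha0
    have hdr : n ^ j ≤ dB n j (anc n m (f r)) := by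
      refine le_dB hn ha0 (nd_anc_ge hn ?_)
      rw [pow_add] at hout
      rwa [mul_assoc]
    obtain ⟨i, -, hir, hi⟩ := exists_eq_of_steps (g := fun i => dB n j (anc n m (f i)))
      (i₀ := 0) (i₁ := r) (s := s) (by
        intro i _ hi
        have hi' : i < r := by
          rw [max_eq_right (Nat.zero_le r)] at hi
          exact hi
        have h1 := nd_anc_le (s := m) hn (f i) (f (i + 1))
        have h2 := hstep i hi'
        have h3 := dB_le n j (anc n m (f i)) (anc n m (f (i + 1)))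
        have h4 := dB_le n j (anc n m (f (i + 1))) (anc n m (f i))
        rw [nd_comm (anc n m (f (i + 1)))] at h4
        show dB n j (anc n m (f i)) ≤ dB n j (anc n m (f (i + 1))) + 1 ∧
          dB n j (anc n m (f (i + 1))) ≤ dB n j (anc n m (f i)) + 1
        omega) (by
        show dB n j (anc n m (f 0)) ≤ s
        omega) (by
        show s ≤ dB n j (anc n m (f r))
        omega)
    have hi' : dB n j (anc n m (f i)) = s := hi
    rw [max_eq_right (Nat.zero_le r)] at hir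
    have hblk : anc n m (f i) ∈ blk d n j := by
      rw [mem_blk hn, anc_anc]
      have h1 := nd_anc_mul (s := j + m) hn (hin i hir)
      rw [h0, nd_comm] at h1
      omega
    have hmemI : anc n m (f i) ∈ I := Finset.mem_filter.2 ⟨hblk, hi'⟩
    have hfar : 3 ≤ nd (anc n m (f i)) (anc n m (f 0)) := by
      have h1 := dB_le n j (anc n m (f i)) (anc n m (f 0))
      omega
    have hsub : j + m - j = m := by omega
    have hlen : 1 ≤ len n (j + m) (sh j (σ (anc n m (f i)))) r f := by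
      refine sub_len' (k := 0) (M := j + m) (l := j) (m := m) (ω := ω) (i₀ := i) (i₁ := 0) hn le_rfl
        hLoc hstep hir (Nat.zero_le _) ?_ ?_
      · rw [hsub]
        exact hfar
      · rw [hsub, zero_add]
        exact (hσI _ hmemI).1
    rw [len_sum]
    refine hlen.trans ?_
    have h2 := Finset.single_le_sum (f := fun x => (fun _ => (1 : ℝ≥0∞)) x *
      len n (j + m) ((fun x => sh j (σ x)) x) r f) (fun _ _ => zero_le) hmemI
    refine le_trans ?_ h2
    show len n (j + m) (sh j (σ (anc n m (f i)))) r f ≤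
      1 * len n (j + m) (sh j (σ (anc n m (f i)))) r f
    rw [one_mul]
  · -- the cost
    set N : ℝ≥0∞ := (((7 * n ^ j) ^ d : ℕ) : ℝ≥0∞) with hN
    have hNI : (I.card : ℝ≥0∞) ≤ N := by
      rw [hN, ← card_blk]
      exact_mod_cast Finset.card_filter_le _ _
    have hN0 : N ≠ 0 := by
      rw [hN]
      have : 0 < (7 * n ^ j) ^ d := by positivity
      exact_mod_cast this.ne'
    have hNt : N ≠ ⊤ := ENNReal.natCast_ne_top _
    have h1 : cost b t (fun l a => ∑ x ∈ I, (fun _ => (1 : ℝ≥0∞)) x * (fun x => sh j (σ x)) x l a) ≤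
        N ^ (t - 1) * ∑ x ∈ I, cost b t (sh j (σ x)) := by
      unfold cost
      calc (∑' l : ℕ, ∑' a : Fin d → ℤ, ((b : ℝ≥0∞) ^ l * ∑ x ∈ I, 1 * sh j (σ x) l a) ^ t)
          ≤ ∑' l : ℕ, ∑' a : Fin d → ℤ,
              N ^ (t - 1) * ∑ x ∈ I, ((b : ℝ≥0∞) ^ l * sh j (σ x) l a) ^ t := by
            refine ENNReal.tsum_le_tsum fun l => ENNReal.tsum_le_tsum fun a => ?_
            rw [Finset.mul_sum]
            simp only [one_mul]
            refine (ENNReal.rpow_sum_le_const_mul_sum_rpow I _ ht).trans ?_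
            exact mul_le_mul_left (ENNReal.rpow_le_rpow hNI (by linarith)) _
        _ = N ^ (t - 1) * ∑ x ∈ I, ∑' l : ℕ, ∑' a : Fin d → ℤ,
              ((b : ℝ≥0∞) ^ l * sh j (σ x) l a) ^ t := by
            simp only [ENNReal.tsum_mul_left]
            congr 1
            rw [← Summable.tsum_finsetSum (fun _ _ => ENNReal.summable)]
            refine tsum_congr fun l => ?_
            rw [← Summable.tsum_finsetSum (fun _ _ => ENNReal.summable)]
    refine h1.trans ?_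
    have h2 : ∑ x ∈ I, cost b t (sh j (σ x)) ≤ N * (((b : ℝ≥0∞) ^ j) ^ t * θ) := by
      calc ∑ x ∈ I, cost b t (sh j (σ x)) ≤ ∑ _x ∈ I, (((b : ℝ≥0∞) ^ j) ^ t * θ) := by
            refine Finset.sum_le_sum fun x hx => ?_
            rw [cost_sh ht0]
            exact mul_le_mul_right (hσI x hx).2 _
        _ = (I.card : ℝ≥0∞) * (((b : ℝ≥0∞) ^ j) ^ t * θ) := by
            rw [Finset.sum_const, nsmul_eq_mul]
        _ ≤ N * (((b : ℝ≥0∞) ^ j) ^ t * θ) := mul_le_mul_left hNI _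
    calc N ^ (t - 1) * ∑ x ∈ I, cost b t (sh j (σ x))
        ≤ N ^ (t - 1) * (N * (((b : ℝ≥0∞) ^ j) ^ t * θ)) := mul_le_mul_right h2 _
      _ = (N * (b : ℝ≥0∞) ^ j) ^ t * θ := by
          rw [ENNReal.mul_rpow_of_nonneg _ _ ht0.le]
          have h3 : N ^ t = N ^ (t - 1) * N := by
            conv_lhs => rw [show t = (t - 1) + 1 by ring]
            rw [ENNReal.rpow_add _ _ hN0 hNt, ENNReal.rpow_one]
          rw [h3]
          ring

/-- the same for `Gz` (take the maximum of the finitely many depths) -/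
theorem gz_of_shell {n j : ℕ} (hn : 1 ≤ n) {ω : Cfg d} {b : ℝ≥0} {t : ℝ} (ht : 1 ≤ t)
    {s : ℕ} (hs : 3 ≤ s) (hs' : s ≤ n ^ j)
    (h : ∀ z ∈ blk d n j, dB n j z = s → Gz n j ω z b t) :
    Gz n 0 ω 0 b t := by
  classical
  have ht0 : 0 < t := by linarith
  intro i
  set K : ℝ≥0∞ := (((7 * n ^ j) ^ d : ℕ) * (b : ℝ≥0∞) ^ j) ^ t with hK
  have hKt : K ≠ ⊤ := by
    rw [hK]
    refine ENNReal.rpow_ne_top_of_nonneg ht0.le (ENNReal.mul_ne_top (ENNReal.natCast_ne_top _) ?_)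
    exact ENNReal.pow_ne_top ENNReal.coe_ne_top
  have hi1 : ((i : ℝ≥0∞) + 1) ≠ ⊤ := ENNReal.add_ne_top.2 ⟨ENNReal.natCast_ne_top _, ENNReal.one_ne_top⟩
  have hi0 : ((i : ℝ≥0∞) + 1) ≠ 0 := by simp
  obtain ⟨i', hi'⟩ := ENNReal.exists_nat_gt (ENNReal.mul_ne_top hKt hi1)
  have hch : ∀ z : Fin d → ℤ, ∃ m : ℕ, z ∈ blk d n j → dB n j z = s →
      Good n m j ω z b t (1 / ((i' : ℝ≥0∞) + 1)) := by
    intro z
    by_cases hz : z ∈ blk d n j ∧ dB n j z = s
    · obtain ⟨m, hm⟩ := h z hz.1 hz.2 i'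
      exact ⟨m, fun _ _ => hm⟩
    · exact ⟨0, fun h1 h2 => absurd ⟨h1, h2⟩ hz⟩
  choose m hm using hch
  refine ⟨j + (blk d n j).sup m, ?_⟩
  have h1 := good_of_shell (m := (blk d n j).sup m) hn (ω := ω) (b := b) ht hs hs'
    (θ := 1 / ((i' : ℝ≥0∞) + 1)) fun z hz hzs =>
      good_mono_m hn (Finset.le_sup (f := m) hz) (hm z hz hzs)
  refine good_mono_θ ?_ h1
  rw [← hK, mul_one_div]
  refine ENNReal.div_le_of_le_mul ?_
  rw [mul_comm, mul_one_div, ENNReal.le_div_iff_mul_le (Or.inl hi0) (Or.inl hi1)]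
  exact hi'.le.trans (le_add_of_nonneg_right zero_le_one)

end gtFQ
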