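import Pool.Agent.Lib.gtFQ.SsD
import Pool.Agent.Lib.gtFQ.Shell
import Pool.Agent.Lib.gtFQ.PrA

/-! Single scale weights: probability. -/

open MeasureTheory ProbabilityTheory Filter Topology
open scoped NNReal ENNReal

namespace gtFQ

open gtFP

variable {d : ℕ}

/-- Union bound: if there are no single scale weights of depth `H = B M` with the bound of
`ss_of_gs`, `gs_of_good` (`s = B - 1`, `k = 0`, `z = 0`) then some cube `(l, x)`, `l ≤ H`,
`nd (anc n l x) 0 ≤ 3` is not `Good n M l ω x 1 t e` (`mem_blk`, `card_blk`, `prob_good`). -/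
theorem prob_ss_le {n M B : ℕ} (hn : 2 ≤ n) (hB : 3 ≤ B) (hM : 2 ≤ M) (p : unitInterval) {t : ℝ}
    (ht : 1 ≤ t) {e : ℝ≥0∞} (he : 2 * (((5 * n) ^ d : ℕ) : ℝ≥0∞) * e ^ (1 / t) ≤ 1 / 2)
    (hAe : Acst d M t * e ≤ 1) :
    percLaw d p {ω | ¬ SS n (B * M) 0 ω 0 t ((((5 ^ d * (M + 1) : ℕ) : ℝ≥0∞)) ^ (t - 1) *
        ((5 * n ^ M) ^ d : ℕ) * (Acst d M t * e) ^ (B - 1))} ≤
      ((B * M + 1 : ℕ) : ℝ≥0∞) * (((7 * n ^ (B * M)) ^ d : ℕ)) *
        percLaw d p {ω | ¬ Good n M 0 ω 0 1 t e} := by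
  have hsub : {ω : Cfg d | ¬ SS n (B * M) 0 ω 0 t ((((5 ^ d * (M + 1) : ℕ) : ℝ≥0∞)) ^ (t - 1) *
        ((5 * n ^ M) ^ d : ℕ) * (Acst d M t * e) ^ (B - 1))} ⊆
      ⋃ l ∈ Finset.range (B * M + 1), ⋃ x ∈ blk d n l, {ω | ¬ Good n M l ω x 1 t e} := by
    intro ω hω
    by_contra hc
    simp only [Set.mem_iUnion, Set.mem_ofPred_eq, not_exists, not_not] at hc
    apply hω
    have hBM : M + 2 ≤ B * M := by nlinarith
    refine ss_of_gs hn hBM ht (gs_of_good hn ht he hAe (B * M) 0 (B - 1) 0 (Or.inr ?_) ?_)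
    · have h1 : B - 1 + 1 = B := by omega
      calc (B - 1) * M < (B - 1) * M + M := by omega
        _ = (B - 1 + 1) * M := by ring
        _ = B * M := by rw [h1]
    · intro l x hl hx
      rw [zero_add]
      exact hc l (Finset.mem_range.2 (by omega)) x ((mem_blk (by omega)).2 hx)
  calc percLaw d p {ω | ¬ SS n (B * M) 0 ω 0 t ((((5 ^ d * (M + 1) : ℕ) : ℝ≥0∞)) ^ (t - 1) *
        ((5 * n ^ M) ^ d : ℕ) * (Acst d M t * e) ^ (B - 1))}
      ≤ percLaw d p (⋃ l ∈ Finset.range (B * M + 1), ⋃ x ∈ blk d n l,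
        {ω | ¬ Good n M l ω x 1 t e}) := measure_mono hsub
    _ ≤ ∑ l ∈ Finset.range (B * M + 1), percLaw d p (⋃ x ∈ blk d n l,
        {ω | ¬ Good n M l ω x 1 t e}) := measure_biUnion_finset_le _ _
    _ ≤ ∑ l ∈ Finset.range (B * M + 1), ∑ x ∈ blk d n l, percLaw d p
        {ω | ¬ Good n M l ω x 1 t e} :=
          Finset.sum_le_sum fun l _ => measure_biUnion_finset_le _ _
    _ = ∑ l ∈ Finset.range (B * M + 1), ((blk d n l).card : ℝ≥0∞) *
          percLaw d p {ω | ¬ Good n M 0 ω 0 1 t e} := by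
        refine Finset.sum_congr rfl fun l _ => ?_
        rw [Finset.sum_congr rfl fun x _ => prob_good (by omega) x p, Finset.sum_const,
          nsmul_eq_mul]
    _ ≤ ∑ _l ∈ Finset.range (B * M + 1), ((((7 * n ^ (B * M)) ^ d : ℕ)) : ℝ≥0∞) *
          percLaw d p {ω | ¬ Good n M 0 ω 0 1 t e} := by
        refine Finset.sum_le_sum fun l hl => ?_
        have h1 : (blk d n l).card ≤ (7 * n ^ (B * M)) ^ d := by
          rw [card_blk]
          have h2 := Finset.mem_range.1 hl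
          exact Nat.pow_le_pow_left (Nat.mul_le_mul_left 7
            (Nat.pow_le_pow_right (by omega) (by omega))) d
        gcongr
    _ = _ := by
        rw [Finset.sum_const, Finset.card_range, nsmul_eq_mul, mul_assoc]

end gtFQ
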