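import Pool.Agent.Lib.gtFQ.SsD
import Pool.Agent.Lib.gtFQ.Shell
import Pool.Agent.Lib.gtFQ.PrA

/-! Single scale weights: probability. -/

open MeasureTheory ProbabilityTheory Filter Topology
open scoped NNReal ENNReal

namespace gtFQ

open gtFP

variable {d : ℕ}

theorem ss_mono {n H k : ℕ} {ω : Cfg d} {z : Fin d → ℤ} {t : ℝ} {η η' : ℝ≥0∞} (h : η ≤ η')
    (hs : SS n H k ω z t η) : SS n H k ω z t η' := by
  obtain ⟨w, h1, h2⟩ := hs
  exact ⟨w, h1, h2.trans h⟩

private theorem ss_congr {n H k : ℕ} (hn : 1 ≤ n) {ω ω' : Cfg d} {z : Fin d → ℤ} {t : ℝ}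
    {η : ℝ≥0∞} (h : ∀ i ∈ LvN n k H z, ω i = ω' i) (hg : SS n H k ω z t η) :
    SS n H k ω' z t η := by
  obtain ⟨w, h1, h2⟩ := hg
  refine ⟨w, fun r f hf => h1 r f ?_, h2⟩
  obtain ⟨a1, a2, a3, a4, a5⟩ := hf
  refine ⟨a1, fun i hi j hj1 hj2 => ?_, a3, a4, a5⟩
  rw [h (k + j, anc n (H - j) (f i)) ?_]
  · exact a2 i hi j hj1 hj2
  · refine ⟨by show k < k + j; omega, by show k + j ≤ k + H; omega, ?_⟩
    show nd (anc n (k + j - k) (anc n (H - j) (f i))) z ≤ 2
    rw [anc_anc, show k + j - k + (H - j) = H by omega, ← a1]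
    apply nd_anc_mul hn
    rw [nd_comm]
    exact a4 i hi

/-- like `good_congr` -/
theorem meas_ss {n H k : ℕ} (hn : 1 ≤ n) (z : Fin d → ℤ) {t : ℝ} {η : ℝ≥0∞} :
    MeasurableSet[sg (LvN n k H z)] {ω : Cfg d | SS n H k ω z t η} :=
  meas_of_dep (finite_LvN hn z) fun _ _ h hs => ss_congr hn h hs

private theorem ssanc_shift {n m l : ℕ} (hn : 1 ≤ n) (hl : l ≤ m) (z a : Fin d → ℤ) :
    anc n (m - l) (fun t => (n : ℤ) ^ m * z t + a t) =
      fun t => (n : ℤ) ^ l * z t + anc n (m - l) a t := by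
  have h := anc_add_mul (n := n) (s := m - l) hn a (fun t => (n : ℤ) ^ l * z t)
  rw [← h]
  congr 1
  funext t
  have : (n : ℤ) ^ m = (n : ℤ) ^ (m - l) * (n : ℤ) ^ l := by
    rw [← pow_add, Nat.sub_add_cancel hl]
  rw [this]
  ring

private theorem ssloc_shift {n m k : ℕ} (hn : 1 ≤ n) (z : Fin d → ℤ) (ω : Cfg d) (a : Fin d → ℤ) :
    Loc n m k ω (fun t => (n : ℤ) ^ m * z t + a t) ↔ Loc n m 0 (shiftCfg n k z ω) a := by
  unfold Loc
  refine forall_congr' fun i => forall_congr' fun h1 => forall_congr' fun h2 => ?_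
  rw [ssanc_shift hn h2]
  simp [shiftCfg]

private theorem ssnd_shift (w a b : Fin d → ℤ) :
    nd (fun t => w t + a t) (fun t => w t + b t) = nd a b := by
  unfold nd
  congr 1
  funext t
  congr 1
  ring

private theorem ssCr_shift {n m k : ℕ} (hn : 1 ≤ n) (z : Fin d → ℤ) (ω : Cfg d) (r : ℕ)
    (f : ℕ → Fin d → ℤ) :
    IsCr n m k ω z r (fun i t => (n : ℤ) ^ m * z t + f i t) ↔
      IsCr n m 0 (shiftCfg n k z ω) 0 r f := by
  unfold IsCr
  simp only [ssnd_shift (fun t => (n : ℤ) ^ m * z t), ssloc_shift hn, anc_add_mul hn]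
  refine and_congr ?_ Iff.rfl
  constructor
  · intro h
    funext t
    have := congrFun h t
    simp only [Pi.zero_apply]
    linarith
  · intro h
    rw [h]
    funext t
    simp

private theorem sum_image_shift (r : ℕ) (v : Fin d → ℤ) (f : ℕ → Fin d → ℤ)
    (w : (Fin d → ℤ) → ℝ≥0∞) :
    ∑ a ∈ (Finset.range (r + 1)).image (fun i t => v t + f i t), w a =
      ∑ a ∈ (Finset.range (r + 1)).image f, w (fun t => v t + a t) := by
  classical
  have h1 : (Finset.range (r + 1)).image (fun i t => v t + f i t) =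
      ((Finset.range (r + 1)).image f).map (Equiv.addLeft v).toEmbedding := by
    rw [Finset.map_eq_image, Finset.image_image]
    rfl
  rw [h1, Finset.sum_map]
  rfl

private theorem ss_shift {n H k : ℕ} (hn : 1 ≤ n) (z : Fin d → ℤ) (ω : Cfg d) {t : ℝ}
    {η : ℝ≥0∞} :
    SS n H k ω z t η ↔ SS n H 0 (shiftCfg n k z ω) 0 t η := by
  constructor
  · rintro ⟨w, h1, h2⟩
    refine ⟨fun a => w (fun t => (n : ℤ) ^ H * z t + a t), fun r f hf => ?_, ?_⟩
    · rw [← sum_image_shift r (fun t => (n : ℤ) ^ H * z t) f w]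
      exact h1 r _ ((ssCr_shift hn z ω r f).2 hf)
    · refine le_trans (le_of_eq ?_) h2
      exact (Equiv.addLeft fun t => (n : ℤ) ^ H * z t).tsum_eq (fun a : Fin d → ℤ => w a ^ t)
  · rintro ⟨w, h1, h2⟩
    refine ⟨fun a => w (fun t => a t - (n : ℤ) ^ H * z t), fun r g hg => ?_, ?_⟩
    · have e : g = fun i t => (n : ℤ) ^ H * z t + (g i t - (n : ℤ) ^ H * z t) := by
        funext i t
        ring
      rw [e, ssCr_shift hn] at hg
      have h3 := h1 r _ hg
      rw [e, sum_image_shift r (fun t => (n : ℤ) ^ H * z t)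
        (fun i t => g i t - (n : ℤ) ^ H * z t)]
      refine h3.trans (le_of_eq ?_)
      refine Finset.sum_congr rfl fun a _ => ?_
      congr 1
      funext t
      ring
    · refine le_trans (le_of_eq ?_) h2
      exact (Equiv.subRight fun t => (n : ℤ) ^ H * z t).tsum_eq (fun a : Fin d → ℤ => w a ^ t)

/-- like `good_shift`, `prob_good` -/
theorem prob_ss {n H k : ℕ} (hn : 1 ≤ n) (z : Fin d → ℤ) (p : unitInterval) {t : ℝ} {η : ℝ≥0∞} :
    percLaw d p {ω | ¬ SS n H k ω z t η} = percLaw d p {ω | ¬ SS n H 0 ω 0 t η} := by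
  have hmeas : Measurable (shiftCfg (d := d) n k z) :=
    measurable_pi_lambda _ fun i => measurable_pi_apply _
  have h1 : {ω | ¬ SS n H k ω z t η} = shiftCfg n k z ⁻¹' {ω | ¬ SS n H 0 ω 0 t η} := by
    ext ω
    exact not_congr (ss_shift hn z ω)
  have h2 : MeasurableSet {ω : Cfg d | ¬ SS n H 0 ω 0 t η} :=
    (sg_le _ _ (meas_ss (k := 0) hn (0 : Fin d → ℤ))).compl
  rw [h1, ← Measure.map_apply hmeas h2, map_shiftCfg]

end gtFQ
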