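import Pool.Agent.Lib.gtFQ.SsP2
import Pool.Agent.Lib.gtFQ.SsP1

/-! Single scale weights: probability. -/

open MeasureTheory ProbabilityTheory Filter Topology
open scoped NNReal ENNReal

namespace gtFQ

open gtFP

variable {d : ℕ}

private theorem ssr_half : (1 / 2 : ℝ≥0∞) = ((1 / 2 : ℝ≥0) : ℝ≥0∞) := by
  rw [ENNReal.coe_div (by norm_num), ENNReal.coe_one, ENNReal.coe_ofNat]

private theorem ssr_lim (C : ℝ≥0) (K : ℕ) {r : ℝ≥0} (hr : 0 < r) :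
    ∃ m₀ : ℕ, ∀ m, m₀ ≤ m → C * ((m : ℝ≥0) + 2) ^ K * (1 / 2) ^ m ≤ r := by
  have h1 : Tendsto (fun m : ℕ => (m : ℝ) ^ K * (1 / 2 : ℝ) ^ m) atTop (𝓝 0) :=
    tendsto_pow_const_mul_const_pow_of_abs_lt_one K (by rw [abs_of_pos] <;> norm_num)
  have h2 := (h1.comp (tendsto_add_atTop_nat 2)).const_mul (4 * (C : ℝ))
  rw [mul_zero] at h2
  have h3 : ∀ᶠ m : ℕ in atTop, 4 * (C : ℝ) *
      ((fun m : ℕ => (m : ℝ) ^ K * (1 / 2 : ℝ) ^ m) ∘ fun a => a + 2) m < r :=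
    h2.eventually (gt_mem_nhds (by exact_mod_cast hr))
  obtain ⟨m₀, hm₀⟩ := eventually_atTop.1 h3
  refine ⟨m₀, fun m hm => ?_⟩
  have h4 := hm₀ m hm
  simp only [Function.comp_apply] at h4
  rw [← NNReal.coe_le_coe]
  push_cast at h4 ⊢
  have e : (C : ℝ) * ((m : ℝ) + 2) ^ K * (1 / 2) ^ m =
      4 * (C : ℝ) * (((m : ℝ) + 2) ^ K * (1 / 2) ^ (m + 2)) := by
    rw [pow_add]
    ring
  rw [e]
  exact h4.le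

private theorem ssr_geo (C : ℝ≥0) {x : ℝ≥0} (hx : x < 1) {r : ℝ≥0} (hr : 0 < r) :
    ∃ m₀ : ℕ, ∀ m, m₀ ≤ m → C * x ^ m ≤ r := by
  have h1 : Tendsto (fun m : ℕ => C * x ^ m) atTop (𝓝 (C * 0)) :=
    (NNReal.tendsto_pow_atTop_nhds_zero_of_lt_one hx).const_mul C
  rw [mul_zero] at h1
  obtain ⟨m₀, hm₀⟩ := eventually_atTop.1 (h1.eventually (gt_mem_nhds hr))
  exact ⟨m₀, fun m hm => (hm₀ m hm).le⟩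

private theorem ssr_base {β τ M : ℕ} (hβ : 1 ≤ β) {t : ℝ} (hτ : t ≤ τ) :
    ((5 ^ d * (M + 1) : ℕ) : ℝ≥0) ^ (t - 1) ≤
      (((5 ^ d * β : ℕ) : ℝ≥0) * (((M / β : ℕ) : ℝ≥0) + 2)) ^ τ := by
  have h1 : (1 : ℝ≥0) ≤ ((5 ^ d * (M + 1) : ℕ) : ℝ≥0) := by
    have : 1 ≤ 5 ^ d * (M + 1) := Nat.mul_pos (by positivity) (Nat.succ_pos _)
    exact_mod_cast this
  have h2 : ((5 ^ d * (M + 1) : ℕ) : ℝ≥0) ^ (t - 1) ≤ ((5 ^ d * (M + 1) : ℕ) : ℝ≥0) ^ (τ : ℝ) :=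
    NNReal.rpow_le_rpow_of_exponent_le h1 (by linarith)
  rw [NNReal.rpow_natCast] at h2
  refine h2.trans ?_
  have h3 : M + 1 ≤ β * (M / β + 2) := by
    have := Nat.lt_mul_div_succ M (show 0 < β by omega)
    have h4 : β * (M / β + 2) = β * (M / β + 1) + β := by ring
    omega
  have h5 : 5 ^ d * (M + 1) ≤ (5 ^ d * β) * (M / β + 2) := by
    calc 5 ^ d * (M + 1) ≤ 5 ^ d * (β * (M / β + 2)) := Nat.mul_le_mul_left _ h3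
      _ = _ := by ring
  have h6 : ((5 ^ d * (M + 1) : ℕ) : ℝ≥0) ≤
      ((5 ^ d * β : ℕ) : ℝ≥0) * (((M / β : ℕ) : ℝ≥0) + 2) := by
    have := (Nat.cast_le (α := ℝ≥0)).2 h5
    rw [Nat.cast_mul (5 ^ d * β)] at this
    refine this.trans (le_of_eq ?_)
    push_cast
    rfl
  exact pow_le_pow_left₀ zero_le h6 τ

private theorem ssr_two {t : ℝ} {τ : ℕ} (hτ : t ≤ τ) : (2 : ℝ≥0) ^ t ≤ 2 ^ τ := by
  rw [← NNReal.rpow_natCast]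
  exact NNReal.rpow_le_rpow_of_exponent_le (by norm_num) hτ

private theorem ssr_cost {n β s τ : ℕ} (hn : 1 ≤ n) (hβ : 1 ≤ β) {t : ℝ}
    (hτ : t ≤ τ) (hs : n ^ (β * d) * 2 ≤ 2 ^ s) (M : ℕ) :
    ((5 ^ d * (M + 1) : ℕ) : ℝ≥0) ^ (t - 1) * (((5 * n ^ M) ^ d : ℕ) : ℝ≥0) *
      ((2 : ℝ≥0) ^ t * ((5 ^ d * (M + 1) : ℕ) : ℝ≥0) ^ (t - 1) * (1 / 2) ^ (M / β)) ^ s ≤
    (((5 ^ d * β : ℕ) : ℝ≥0) ^ τ * 5 ^ d * (n : ℝ≥0) ^ (β * d) *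
      (2 ^ τ * ((5 ^ d * β : ℕ) : ℝ≥0) ^ τ) ^ s) * (((M / β : ℕ) : ℝ≥0) + 2) ^ (τ + τ * s) *
      (1 / 2) ^ (M / β) := by
  obtain ⟨m, hm⟩ : ∃ m, m = M / β := ⟨_, rfl⟩
  have hb := ssr_base (d := d) (M := M) hβ hτ
  rw [← hm] at hb ⊢
  obtain ⟨q, hq⟩ : ∃ q : ℝ≥0, q = ((5 ^ d * β : ℕ) : ℝ≥0) := ⟨_, rfl⟩
  obtain ⟨a, ha⟩ : ∃ a : ℝ≥0, a = ((5 ^ d * (M + 1) : ℕ) : ℝ≥0) ^ (t - 1) := ⟨_, rfl⟩
  rw [← ha, ← hq] at hb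
  rw [← ha, ← hq]
  have h2 : (((5 * n ^ M) ^ d : ℕ) : ℝ≥0) ≤ 5 ^ d * ((n : ℝ≥0) ^ (β * d) * ((n : ℝ≥0) ^ (β * d)) ^ m) := by
    have h3 : (5 * n ^ M) ^ d ≤ 5 ^ d * (n ^ (β * d) * (n ^ (β * d)) ^ m) := by
      rw [mul_pow, ← pow_mul, ← pow_mul, ← pow_add]
      refine Nat.mul_le_mul_left _ (Nat.pow_le_pow_right hn ?_)
      have h4 := Nat.lt_mul_div_succ M (show 0 < β by omega)
      rw [← hm] at h4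
      calc M * d ≤ (β * (m + 1)) * d := Nat.mul_le_mul_right _ h4.le
        _ = _ := by ring
    exact_mod_cast h3
  have h5 : ((n : ℝ≥0) ^ (β * d)) ^ m * ((1 / 2 : ℝ≥0) ^ m) ^ s ≤ (1 / 2) ^ m := by
    have e0 : ((1 / 2 : ℝ≥0) ^ m) ^ s = ((1 / 2 : ℝ≥0) ^ s) ^ m := by
      rw [← pow_mul, ← pow_mul, mul_comm]
    rw [e0, ← mul_pow]
    refine pow_le_pow_left₀ zero_le ?_ m
    have h6 : ((n : ℝ≥0) ^ (β * d)) * 2 ≤ 2 ^ s := by exact_mod_cast hs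
    rw [one_div, inv_pow, ← div_eq_mul_inv, div_le_iff₀ (by positivity), ← div_eq_inv_mul,
      le_div_iff₀ (by norm_num)]
    exact h6
  calc a * (((5 * n ^ M) ^ d : ℕ) : ℝ≥0) * ((2 : ℝ≥0) ^ t * a * (1 / 2) ^ m) ^ s
      ≤ (q * ((m : ℝ≥0) + 2)) ^ τ * (5 ^ d * ((n : ℝ≥0) ^ (β * d) * ((n : ℝ≥0) ^ (β * d)) ^ m)) *
        (2 ^ τ * (q * ((m : ℝ≥0) + 2)) ^ τ * (1 / 2) ^ m) ^ s := by
        gcongr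
        exact ssr_two hτ
    _ = (q ^ τ * 5 ^ d * (n : ℝ≥0) ^ (β * d) * (2 ^ τ * q ^ τ) ^ s) *
        ((m : ℝ≥0) + 2) ^ (τ + τ * s) *
        (((n : ℝ≥0) ^ (β * d)) ^ m * ((1 / 2 : ℝ≥0) ^ m) ^ s) := by
        rw [mul_pow (q : ℝ≥0), mul_pow (2 ^ τ * (q ^ τ * ((m : ℝ≥0) + 2) ^ τ)),
          ← mul_assoc (2 ^ τ : ℝ≥0), mul_pow (2 ^ τ * q ^ τ), ← pow_mul ((m : ℝ≥0) + 2), pow_add]
        ring
    _ ≤ _ := by gcongr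

/-- Pure analysis: with `e = 2^{-(M/β)}`, `B` large enough (depending on `β`, `d`, `n`, `t`), `D`
large enough (depending on `B`) and `M → ∞` (chosen from the strong rate) the bound on the cost tends
to `0` and `n^(H d) *` the bound on the probability tends to `0`. -/
theorem ss_rate {n : ℕ} (hn : 2 ≤ n) (p : unitInterval) {t : ℝ} (ht : 1 ≤ t) {β : ℕ} (hβ : 1 ≤ β)
    (h : ∀ D M₀ : ℕ, ∃ M, M₀ ≤ M ∧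
      percLaw d p {ω | ¬ Good n M 0 ω 0 1 t ((1 / 2 : ℝ≥0∞) ^ (M / β))} ≤
        (((n : ℝ≥0∞) ^ (D * M)))⁻¹)
    (η ε : ℝ≥0∞) (hη : 0 < η) (hε : 0 < ε) (H₀ : ℕ) :
    ∃ H, H₀ ≤ H ∧ (((n ^ H) ^ d : ℕ) : ℝ≥0∞) * percLaw d p {ω | ¬ SS n H 0 ω 0 t η} ≤ ε := by
  obtain ⟨rη, hrη, hrη'⟩ := ENNReal.lt_iff_exists_nnreal_btwn.1 hη
  obtain ⟨rε, hrε, hrε'⟩ := ENNReal.lt_iff_exists_nnreal_btwn.1 hε
  have hrη : 0 < rη := by exact_mod_cast hrη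
  have hrε : 0 < rε := by exact_mod_cast hrε
  have hn1 : 1 ≤ n := by omega
  obtain ⟨τ, hτ⟩ : ∃ τ : ℕ, t ≤ τ := ⟨_, Nat.le_ceil t⟩
  obtain ⟨s, hs2, hs⟩ : ∃ s : ℕ, 2 ≤ s ∧ n ^ (β * d) * 2 ≤ 2 ^ s := by
    refine ⟨n * (β * d) + 2, by omega, ?_⟩
    have h1 : n ^ (β * d) ≤ 2 ^ (n * (β * d)) := by
      calc n ^ (β * d) ≤ (2 ^ n) ^ (β * d) := Nat.pow_le_pow_left Nat.lt_two_pow_self.le _
        _ = 2 ^ (n * (β * d)) := (pow_mul _ _ _).symm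
    rw [pow_add]
    omega
  have ht0 : 0 < t := by linarith
  -- thresholds
  obtain ⟨m₁, hm₁⟩ := ssr_lim (((5 ^ d * β : ℕ) : ℝ≥0) ^ τ * 5 ^ d * (n : ℝ≥0) ^ (β * d) *
      (2 ^ τ * ((5 ^ d * β : ℕ) : ℝ≥0) ^ τ) ^ s) (τ + τ * s) hrη
  obtain ⟨m₂, hm₂⟩ := ssr_lim (2 ^ τ * ((5 ^ d * β : ℕ) : ℝ≥0) ^ τ) τ one_pos
  have hx : ((1 / 2 : ℝ≥0) ^ (1 / t)) < 1 :=
    NNReal.rpow_lt_one (by rw [div_lt_one] <;> norm_num) (by positivity)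
  obtain ⟨m₃, hm₃⟩ := ssr_geo (2 * (((5 * n) ^ d : ℕ) : ℝ≥0)) hx (r := 1 / 2) (by positivity)
  obtain ⟨m₄, hm₄⟩ := ssr_lim (7 ^ d * ((s + 1 : ℕ) : ℝ≥0)) 1 hrε
  obtain ⟨M, hM₀, hP⟩ := h (2 * (s + 1) * d + 1)
    (2 + H₀ + β * m₁ + β * m₂ + β * m₃ + m₄)
  obtain ⟨m, hm⟩ : ∃ m, m = M / β := ⟨_, rfl⟩
  have hdiv : ∀ j, β * j ≤ M → j ≤ m := fun j hj => by
    rw [hm]
    exact (Nat.le_div_iff_mul_le (by omega)).2 (by rw [mul_comm]; exact hj)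
  have h1 := hm₁ m (hdiv _ (by omega))
  have h2 := hm₂ m (hdiv _ (by omega))
  have h3 := hm₃ m (hdiv _ (by omega))
  have h4 := hm₄ M (by omega)
  have hcost := ssr_cost (d := d) hn1 hβ hτ hs M
  rw [← hm] at hcost hP
  have hbase := ssr_base (d := d) (M := M) hβ hτ
  rw [← hm] at hbase
  -- the two hypotheses of `prob_ss_le`
  have hpow : ((1 / 2 : ℝ≥0∞) ^ m) = (((1 / 2 : ℝ≥0) ^ m : ℝ≥0) : ℝ≥0∞) := by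
    rw [ssr_half, ENNReal.coe_pow]
  have ha : ((((5 ^ d * (M + 1) : ℕ) : ℝ≥0∞)) ^ (t - 1)) =
      ((((5 ^ d * (M + 1) : ℕ) : ℝ≥0) ^ (t - 1) : ℝ≥0) : ℝ≥0∞) := by
    rw [← ENNReal.coe_natCast, ENNReal.coe_rpow_of_nonneg _ (by linarith)]
  have h2t : ((2 : ℝ≥0∞) ^ t) = (((2 : ℝ≥0) ^ t : ℝ≥0) : ℝ≥0∞) := by
    rw [ENNReal.coe_rpow_of_nonneg _ ht0.le, ENNReal.coe_ofNat]
  have hAe' : Acst d M t * (1 / 2 : ℝ≥0∞) ^ m =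
      (((2 : ℝ≥0) ^ t * ((5 ^ d * (M + 1) : ℕ) : ℝ≥0) ^ (t - 1) * (1 / 2) ^ m : ℝ≥0) : ℝ≥0∞) := by
    unfold Acst
    rw [hpow, ha, h2t, ← ENNReal.coe_mul, ← ENNReal.coe_mul]
  have hAe : Acst d M t * (1 / 2 : ℝ≥0∞) ^ m ≤ 1 := by
    rw [hAe']
    have h5 : (2 : ℝ≥0) ^ t * ((5 ^ d * (M + 1) : ℕ) : ℝ≥0) ^ (t - 1) * (1 / 2) ^ m ≤ 1 := by
      refine le_trans ?_ h2
      calc (2 : ℝ≥0) ^ t * ((5 ^ d * (M + 1) : ℕ) : ℝ≥0) ^ (t - 1) * (1 / 2) ^ m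
          ≤ 2 ^ τ * (((5 ^ d * β : ℕ) : ℝ≥0) * ((m : ℝ≥0) + 2)) ^ τ * (1 / 2) ^ m := by
            gcongr
            exact ssr_two hτ
        _ = _ := by
            rw [mul_pow]
            ring
    exact_mod_cast h5
  have he : 2 * (((5 * n) ^ d : ℕ) : ℝ≥0∞) * ((1 / 2 : ℝ≥0∞) ^ m) ^ (1 / t) ≤ 1 / 2 := by
    have e1 : ((1 / 2 : ℝ≥0∞) ^ m) ^ (1 / t) = ((((1 / 2 : ℝ≥0) ^ (1 / t)) ^ m : ℝ≥0) : ℝ≥0∞) := by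
      rw [hpow, ← ENNReal.coe_rpow_of_nonneg _ (by positivity)]
      congr 1
      rw [← NNReal.rpow_natCast, ← NNReal.rpow_natCast, ← NNReal.rpow_mul, ← NNReal.rpow_mul,
        mul_comm]
    rw [e1, ssr_half]
    have e3 : 2 * (((5 * n) ^ d : ℕ) : ℝ≥0∞) * ((((1 / 2 : ℝ≥0) ^ (1 / t)) ^ m : ℝ≥0) : ℝ≥0∞) =
        ((2 * (((5 * n) ^ d : ℕ) : ℝ≥0) * ((1 / 2 : ℝ≥0) ^ (1 / t)) ^ m : ℝ≥0) : ℝ≥0∞) := by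
      rw [ENNReal.coe_mul, ENNReal.coe_mul, ENNReal.coe_ofNat, ENNReal.coe_natCast]
    rw [e3]
    exact_mod_cast h3
  have hmain := prob_ss_le (d := d) (n := n) (M := M) (B := s + 1) hn (by omega) (by omega) p ht
    he hAe
  -- the cost
  have hη' : (((5 ^ d * (M + 1) : ℕ) : ℝ≥0∞)) ^ (t - 1) * ((5 * n ^ M) ^ d : ℕ) *
      (Acst d M t * (1 / 2 : ℝ≥0∞) ^ m) ^ (s + 1 - 1) ≤ η := by
    rw [hAe', ha, Nat.add_sub_cancel]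
    refine le_trans ?_ hrη'.le
    have e4 : ((((5 ^ d * (M + 1) : ℕ) : ℝ≥0) ^ (t - 1) : ℝ≥0) : ℝ≥0∞) *
        (((5 * n ^ M) ^ d : ℕ) : ℝ≥0∞) *
        (((2 : ℝ≥0) ^ t * ((5 ^ d * (M + 1) : ℕ) : ℝ≥0) ^ (t - 1) * (1 / 2) ^ m : ℝ≥0) : ℝ≥0∞) ^ s =
        ((((5 ^ d * (M + 1) : ℕ) : ℝ≥0) ^ (t - 1) * (((5 * n ^ M) ^ d : ℕ) : ℝ≥0) *
      ((2 : ℝ≥0) ^ t * ((5 ^ d * (M + 1) : ℕ) : ℝ≥0) ^ (t - 1) * (1 / 2) ^ m) ^ s : ℝ≥0) : ℝ≥0∞) := by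
      rw [← ENNReal.coe_pow, ← ENNReal.coe_natCast, ← ENNReal.coe_mul, ← ENNReal.coe_mul]
    rw [e4]
    exact_mod_cast hcost.trans h1
  refine ⟨(s + 1) * M, ?_, ?_⟩
  · calc H₀ ≤ M := by omega
      _ ≤ (s + 1) * M := Nat.le_mul_of_pos_left _ (by omega)
  · have h6 : percLaw d p {ω | ¬ SS n ((s + 1) * M) 0 ω 0 t η} ≤
        (((s + 1) * M + 1 : ℕ) : ℝ≥0∞) * (((7 * n ^ ((s + 1) * M)) ^ d : ℕ)) *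
          ((n : ℝ≥0∞) ^ ((2 * (s + 1) * d + 1) * M))⁻¹ := by
      refine le_trans (measure_mono ?_) (hmain.trans (mul_le_mul_right hP _))
      intro ω hω hs'
      exact hω (ss_mono hη' hs')
    have hN0 : ((n : ℝ≥0∞) ^ (2 * (s + 1) * d * M)) ≠ 0 := by
      apply pow_ne_zero
      exact_mod_cast (by omega : n ≠ 0)
    have hNT : ((n : ℝ≥0∞) ^ (2 * (s + 1) * d * M)) ≠ ⊤ := by
      exact ENNReal.pow_ne_top (ENNReal.natCast_ne_top n)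
    have h7 : ((n : ℝ≥0∞) ^ ((2 * (s + 1) * d + 1) * M)) =
        (n : ℝ≥0∞) ^ (2 * (s + 1) * d * M) * (n : ℝ≥0∞) ^ M := by
      rw [← pow_add]
      congr 1
      ring
    have h8 : (((n ^ ((s + 1) * M)) ^ d : ℕ) : ℝ≥0∞) * ((((s + 1) * M + 1 : ℕ) : ℝ≥0∞) *
        (((7 * n ^ ((s + 1) * M)) ^ d : ℕ)) * ((n : ℝ≥0∞) ^ ((2 * (s + 1) * d + 1) * M))⁻¹) =
        (7 ^ d * (((s + 1) * M + 1 : ℕ) : ℝ≥0∞)) * ((n : ℝ≥0∞) ^ M)⁻¹ := by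
      rw [h7, ENNReal.mul_inv (Or.inl hN0) (Or.inl hNT)]
      have e5 : (((n ^ ((s + 1) * M)) ^ d : ℕ) : ℝ≥0∞) *
          (((7 * n ^ ((s + 1) * M)) ^ d : ℕ) : ℝ≥0∞) =
          7 ^ d * (n : ℝ≥0∞) ^ (2 * (s + 1) * d * M) := by
        push_cast
        rw [mul_pow, ← pow_mul, mul_left_comm, ← pow_add]
        congr 2
        ring
      calc _ = ((((n ^ ((s + 1) * M)) ^ d : ℕ) : ℝ≥0∞) *
            (((7 * n ^ ((s + 1) * M)) ^ d : ℕ) : ℝ≥0∞)) * (((s + 1) * M + 1 : ℕ) : ℝ≥0∞) *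
            (((n : ℝ≥0∞) ^ (2 * (s + 1) * d * M))⁻¹ * ((n : ℝ≥0∞) ^ M)⁻¹) := by ring
        _ = (((n : ℝ≥0∞) ^ (2 * (s + 1) * d * M)) * ((n : ℝ≥0∞) ^ (2 * (s + 1) * d * M))⁻¹) *
            ((7 ^ d * (((s + 1) * M + 1 : ℕ) : ℝ≥0∞)) * ((n : ℝ≥0∞) ^ M)⁻¹) := by
            rw [e5]
            ring
        _ = _ := by rw [ENNReal.mul_inv_cancel hN0 hNT, one_mul]
    have h9 : ((n : ℝ≥0∞) ^ M)⁻¹ ≤ (1 / 2 : ℝ≥0∞) ^ M := by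
      rw [one_div, ← ENNReal.inv_pow]
      refine ENNReal.inv_le_inv.2 ?_
      gcongr
      exact_mod_cast hn
    calc (((n ^ ((s + 1) * M)) ^ d : ℕ) : ℝ≥0∞) *
          percLaw d p {ω | ¬ SS n ((s + 1) * M) 0 ω 0 t η}
        ≤ (((n ^ ((s + 1) * M)) ^ d : ℕ) : ℝ≥0∞) * ((((s + 1) * M + 1 : ℕ) : ℝ≥0∞) *
          (((7 * n ^ ((s + 1) * M)) ^ d : ℕ)) *
            ((n : ℝ≥0∞) ^ ((2 * (s + 1) * d + 1) * M))⁻¹) := by gcongr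
      _ = (7 ^ d * (((s + 1) * M + 1 : ℕ) : ℝ≥0∞)) * ((n : ℝ≥0∞) ^ M)⁻¹ := h8
      _ ≤ (7 ^ d * (((s + 1) * M + 1 : ℕ) : ℝ≥0∞)) * (1 / 2 : ℝ≥0∞) ^ M := by gcongr
      _ ≤ ((7 ^ d * ((s + 1 : ℕ) : ℝ≥0) * ((M : ℝ≥0) + 2) ^ 1 * (1 / 2) ^ M : ℝ≥0) : ℝ≥0∞) := by
          have e6 : (7 ^ d * (((s + 1) * M + 1 : ℕ) : ℝ≥0∞)) * (1 / 2 : ℝ≥0∞) ^ M =
              ((7 ^ d * (((s + 1) * M + 1 : ℕ) : ℝ≥0) * (1 / 2) ^ M : ℝ≥0) : ℝ≥0∞) := by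
            rw [ssr_half, ENNReal.coe_mul, ENNReal.coe_mul, ENNReal.coe_pow, ENNReal.coe_pow,
              ENNReal.coe_ofNat, ENNReal.coe_natCast]
          rw [e6]
          refine ENNReal.coe_le_coe.2 ?_
          have e7 : (s + 1) * M + 1 ≤ (s + 1) * (M + 2) := by
            have : (s + 1) * (M + 2) = (s + 1) * M + 2 * (s + 1) := by ring
            omega
          have e8 : (((s + 1) * M + 1 : ℕ) : ℝ≥0) ≤ ((s + 1 : ℕ) : ℝ≥0) * ((M : ℝ≥0) + 2) := by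
            exact_mod_cast e7
          calc 7 ^ d * (((s + 1) * M + 1 : ℕ) : ℝ≥0) * (1 / 2) ^ M
              ≤ 7 ^ d * (((s + 1 : ℕ) : ℝ≥0) * ((M : ℝ≥0) + 2)) * (1 / 2) ^ M := by gcongr
            _ = _ := by ring
      _ ≤ rε := ENNReal.coe_le_coe.2 h4
      _ ≤ ε := hrε'.le

end gtFQ
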