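import Pool.Agent.Lib.gtFQ.ZE2

/-! Zero-one law for general events, part 3: assembly (port of gtFP/ZeroE.lean). -/

open MeasureTheory ProbabilityTheory Filter Topology
open scoped NNReal ENNReal

namespace gtFQ

open gtFP

variable {d : ℕ}

private theorem ze3_meas_Rf (n k : ℕ) (S : Finset (Fin d → ℤ)) :
    MeasurableSet {ω : Cfg d | Rf n 1 k ω = S} := by
  have h1 : {ω : Cfg d | Rf n 1 k ω = S} =
      ⋂ a : Fin d → ℤ, {ω : Cfg d | a ∈ S ↔ (InBox (n ^ k) a ∧ Kept n k ω a)} := by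
    ext ω
    simp only [Set.mem_ofPred_eq, Set.mem_iInter, Finset.ext_iff, mem_Rf, one_mul]
    exact forall_congr' fun a => Iff.comm
  rw [h1]
  refine MeasurableSet.iInter fun a => ?_
  have h2 : MeasurableSet {ω : Cfg d | Kept n k ω a} := sg_le _ _ (meas_kept a)
  by_cases hb : InBox (n ^ k) a
  · by_cases hS : a ∈ S
    · convert h2 using 2
      ext ω
      simp [hb, hS]
    · convert h2.compl using 2
      ext ω
      simp [hb, hS]
  · convert (MeasurableSet.const (¬ a ∈ S) : MeasurableSet {_ω : Cfg d | ¬ a ∈ S}) using 2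
    ext ω
    simp [hb]

private theorem ze3_bound {n : ℕ} (hn : 2 ≤ n) {E : ℕ → (Fin d → ℤ) → Set (Cfg d)}
    (hs : ∀ k z ω, ω ∈ E k z ↔ shiftCfg n k z ω ∈ E 0 0)
    (hm : ∀ k z, MeasurableSet[sg (LvI n k z)] (E k z)) (p : unitInterval) (k L : ℕ) :
    percLaw d p {ω | (perc n ω).Nonempty ∧ ¬ ∃ k z, Blk n k ω z ∧ ω ∈ E k z} ≤
      percLaw d p {ω | (Rf n 1 k ω).Nonempty ∧ (Rf n 1 k ω).card ≤ L} +
        (1 - percLaw d p (EvtE n E 0 0)) ^ L := by
  classical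
  have : IsProbabilityMeasure (percLaw d p) := by
    unfold percLaw
    infer_instance
  set c := percLaw d p (EvtE n E 0 0) with hc
  set P : Finset (Finset (Fin d → ℤ)) := (boxF d (n ^ (1 * k))).powerset.filter fun S => L ≤ S.card
    with hP
  have hsub : {ω : Cfg d | (perc n ω).Nonempty ∧ ¬ ∃ k z, Blk n k ω z ∧ ω ∈ E k z} ⊆
      {ω | (Rf n 1 k ω).Nonempty ∧ (Rf n 1 k ω).card ≤ L} ∪
        ⋃ S ∈ P, {ω | Rf n 1 k ω = S ∧ ∀ Q ∈ S, ω ∉ EvtE n E k Q} := by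
    rintro ω ⟨⟨x, hx⟩, h2⟩
    have h3 : x ∈ percStep n (1 * k) ω := Set.mem_iInter.1 hx _
    obtain ⟨a, ha1, ha2, -⟩ := h3
    have h4 : a ∈ Rf n 1 k ω := mem_Rf.2 ⟨ha1, ha2⟩
    rcases le_or_gt (Rf n 1 k ω).card L with h6 | h6
    · exact Or.inl ⟨⟨a, h4⟩, h6⟩
    · refine Or.inr ?_
      simp only [Set.mem_iUnion]
      refine ⟨Rf n 1 k ω, ?_, rfl, fun Q hQ hE => h2 ⟨k + 3, _, blk_of_evtE hn hQ hE, hE.2⟩⟩
      rw [hP, Finset.mem_filter, Finset.mem_powerset]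
      exact ⟨fun b hb => mem_boxF.2 (mem_Rf.1 hb).1, h6.le⟩
  refine (measure_mono hsub).trans ((measure_union_le _ _).trans ?_)
  refine add_le_add le_rfl ?_
  refine (measure_biUnion_finset_le _ _).trans ?_
  calc ∑ S ∈ P, percLaw d p {ω | Rf n 1 k ω = S ∧ ∀ Q ∈ S, ω ∉ EvtE n E k Q}
      = ∑ S ∈ P, percLaw d p {ω | Rf n 1 k ω = S} * (1 - c) ^ S.card :=
        Finset.sum_congr rfl fun S _ => prob_no_evtE hn hs hm p S S
    _ ≤ ∑ S ∈ P, percLaw d p {ω | Rf n 1 k ω = S} * (1 - c) ^ L := by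
        refine Finset.sum_le_sum fun S hS => ?_
        refine mul_le_mul' le_rfl ?_
        exact pow_le_pow_right_of_le_one' tsub_le_self (Finset.mem_filter.1 hS).2
    _ = (∑ S ∈ P, percLaw d p {ω | Rf n 1 k ω = S}) * (1 - c) ^ L := by rw [Finset.sum_mul]
    _ ≤ 1 * (1 - c) ^ L := by
        refine mul_le_mul' ?_ le_rfl
        rw [← measure_univ (μ := percLaw d p)]
        refine sum_measure_le_measure_univ (fun S _ => (ze3_meas_Rf n k S).nullMeasurableSet) ?_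
        intro S _ S' _ hSS
        refine Disjoint.aedisjoint ?_
        rw [Set.disjoint_left]
        intro ω h1 h2
        exact hSS (h1.symm.trans h2)
    _ = _ := one_mul _

/-- port of `gtFP.ae_not_td`: with the bad set
`{F ≠ ∅, no (k, z) with Blk n k ω z and ω ∈ E k z}` instead of `{F ≠ ∅, F totally disconnected}` and
`blk_of_evtE` instead of `not_td_of_evt`. -/
theorem ae_exists_blk {n : ℕ} (hn : 2 ≤ n) {p : unitInterval} (hp0 : 0 < p) (hp : p < 1)
    {E : ℕ → (Fin d → ℤ) → Set (Cfg d)}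
    (hs : ∀ k z ω, ω ∈ E k z ↔ shiftCfg n k z ω ∈ E 0 0)
    (hm : ∀ k z, MeasurableSet[sg (LvI n k z)] (E k z))
    (h : percLaw d p (E 0 0) ≠ 0) :
    ∀ᵐ ω ∂(percLaw d p), (perc n ω).Nonempty → ∃ k z, Blk n k ω z ∧ ω ∈ E k z := by
  have hc : 0 < percLaw d p (EvtE n E 0 0) := prob_evtE_pos hn hs hm hp0 h
  set c := percLaw d p (EvtE n E 0 0) with hcd
  have h1 : ∀ L, percLaw d p {ω | (perc n ω).Nonempty ∧ ¬ ∃ k z, Blk n k ω z ∧ ω ∈ E k z} ≤
      (1 - c) ^ L := by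
    intro L
    have h2 := (tendsto_few (d := d) hn hp L).add_const ((1 - c) ^ L)
    rw [zero_add] at h2
    exact ge_of_tendsto h2 (Eventually.of_forall fun k => ze3_bound hn hs hm p k L)
  have h3 : (1 - c) < 1 := ENNReal.sub_lt_self (by norm_num) (by norm_num) hc.ne'
  have h4 : percLaw d p {ω | (perc n ω).Nonempty ∧ ¬ ∃ k z, Blk n k ω z ∧ ω ∈ E k z} ≤ 0 :=
    ge_of_tendsto (ENNReal.tendsto_pow_atTop_nhds_zero_of_lt_one h3)
      (Eventually.of_forall fun L => h1 L)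
  rw [ae_iff]
  refine le_antisymm ((measure_mono ?_).trans h4) zero_le
  intro ω hω
  simp only [Set.mem_ofPred_eq, Classical.not_imp] at hω ⊢
  exact hω

end gtFQ
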