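import Pool.Agent.Lib.gtFQ.DsG
import Pool.Agent.Lib.gtFQ.ZE3
import Pool.Agent.Lib.gtFQ.Rate
import Pool.Agent.Lib.gtFQ.Fin2
import Pool.Agent.Lib.gtFQ.SsP
import Pool.Agent.Lib.gtFQ.FdA
import Pool.Agent.Lib.gtFP.Main

/-! The alternative for `s < t` and the final theorem. -/

open MeasureTheory ProbabilityTheory Filter Topology
open scoped NNReal ENNReal

namespace gtFQ

open gtFP

variable {d : ℕ}

/-- If `P(∀ i, not Gz (1+1/(i+1))) = 0`: `exists_b`, `tendsto_good` with `b = c^2`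
(`c = NNReal.sqrt b`), `strong_rate`, `ss_rate`, `ae_confDimB_le`. Otherwise `ae_exists_blk` for
`E k z = {ω | ∀ i, ¬ Gz n k ω z (1 + 1/(i+1)) t}` (`gz_shift`, `meas_gz`) and `gz_of_confDimH_lt`. -/
theorem alt {n : ℕ} (hn : 2 ≤ n) (hd : 1 ≤ d) {p : unitInterval} (hp0 : 0 < p) (hp : p < 1)
    {s t : ℝ} (hs : 0 < s) (hst : s < t) (ht : 1 ≤ t) :
    (∀ᵐ ω ∂(percLaw d p), (perc n ω).Nonempty → ENNReal.ofReal s ≤ confDimH (perc n ω)) ∨
      (∀ᵐ ω ∂(percLaw d p), confDimB (perc n ω) ≤ ENNReal.ofReal t) := by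
  have hn1 : 1 ≤ n := by omega
  by_cases h : percLaw d p {ω | ∀ i : ℕ, ¬ Gz n 0 ω 0 (1 + 1 / ((i : ℝ≥0) + 1)) t} = 0
  · right
    obtain ⟨b, hb, hb'⟩ := exists_b hn p ht h
    obtain ⟨c, hc⟩ : ∃ c : ℝ≥0, c = NNReal.sqrt b := ⟨_, rfl⟩
    have hc2 : c ^ 2 = b := by rw [hc]; exact NNReal.sq_sqrt b
    have hc1 : 1 < c := by
      by_contra hcon
      have h1 : c ^ 2 ≤ 1 := pow_le_one₀ zero_le (not_lt.1 hcon)
      rw [hc2] at h1
      exact absurd hb (not_lt.2 h1)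
    rw [← hc2] at hb'
    obtain ⟨β, hβ, hr⟩ := strong_rate hn p hc1 ht
      (fun θ ε hθ hε => tendsto_good hn1 p hb' hθ hε)
    exact ae_confDimB_le hn hd p ht
      (fun η ε hη hε H₀ => ss_rate hn p ht hβ hr η ε hη hε H₀)
  · left
    have h1 := ae_exists_blk (d := d) hn hp0 hp
      (E := fun k z => {ω | ∀ i : ℕ, ¬ Gz n k ω z (1 + 1 / ((i : ℝ≥0) + 1)) t})
      (fun k z ω => forall_congr' fun i => not_congr (gz_shift hn1 z ω))
      (fun k z => by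
        have e : {ω : Cfg d | ∀ i : ℕ, ¬ Gz n k ω z (1 + 1 / ((i : ℝ≥0) + 1)) t} =
            ⋂ i : ℕ, {ω : Cfg d | Gz n k ω z (1 + 1 / ((i : ℝ≥0) + 1)) t}ᶜ := by
          ext ω
          simp only [Set.mem_ofPred_eq, Set.mem_iInter, Set.mem_compl_iff]
        rw [e]
        exact MeasurableSet.iInter fun i => (meas_gz hn1 z).compl)
      h
    filter_upwards [h1] with ω hω hne
    obtain ⟨k, z, hblk, hE⟩ := hω hne
    by_contra hcon
    obtain ⟨i, hi⟩ := gz_of_confDimH_lt hn hblk hs hst ht (not_le.1 hcon)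
    exact hE i hi

end gtFQ
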