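import Pool.Agent.Lib.gtFQ.FdB

/-! The final theorem. -/

open MeasureTheory ProbabilityTheory Filter Topology
open scoped NNReal ENNReal

namespace gtFQ

open gtFP

/-- For `0 < p < 1` there is a constant `h` such that a.s. on `F ≠ ∅` the conformal upper box dimension
and the conformal Hausdorff dimension of `F` are both equal to `h`. Proof. `main_dich`: in the dust
case `h = 0`. Otherwise a.s. on `F ≠ ∅` `1 ≤ confDimH`. Let
`T = {t : ℚ | 1 ≤ t ∧ a.s. confDimB ≤ ofReal t}`, `h = ⨅ t ∈ T, ofReal t`. A.s. `confDimB ≤ h`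
(countably many `t`). A.s. on `F ≠ ∅`, for all rationals `0 < s < t`, `1 ≤ t`, `t ∉ T`:
`ofReal s ≤ confDimH` (`alt`). If `confDimH < h` then there are rationals with
`confDimH < ofReal s < ofReal t < h`; `t ∉ T`, `1 < s`; a contradiction. So
`h ≤ confDimH ≤ confDimB ≤ h` (`confDimH_le_confDimB`, `isCompact_perc`). -/
theorem final_pos {d n : ℕ} (hd : 1 ≤ d) (hn : 2 ≤ n) {p : unitInterval} (hp0 : 0 < p)
    (hp : p < 1) :
    ∃ h : ℝ≥0∞, ∀ᵐ ω ∂(percLaw d p), (perc n ω).Nonempty →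
      confDimB (perc n ω) = h ∧ confDimH (perc n ω) = h := by
  classical
  rcases main_dich d n hd hn p hp with hdust | hcon
  · refine ⟨0, ?_⟩
    filter_upwards [hdust] with ω hω _
    exact ⟨hω.2.1, hω.2.2⟩
  · -- the set of the rationals `t ≥ 1` with `confDimB ≤ t` almost surely
    let P : ℚ → Prop := fun t =>
      ∀ᵐ ω ∂(percLaw d p), confDimB (perc n ω) ≤ ENNReal.ofReal (t : ℝ)
    refine ⟨⨅ (t : ℚ) (_ : (1 : ℝ) ≤ (t : ℝ) ∧ P t), ENNReal.ofReal (t : ℝ), ?_⟩
    have hA : ∀ᵐ ω ∂(percLaw d p), ∀ t : ℚ, P t →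
        confDimB (perc n ω) ≤ ENNReal.ofReal (t : ℝ) := by
      rw [ae_all_iff]
      intro t
      by_cases hP : P t
      · filter_upwards [hP] with ω hω _
        exact hω
      · exact Eventually.of_forall fun ω h => absurd h hP
    have hB : ∀ᵐ ω ∂(percLaw d p), ∀ q : ℚ × ℚ, (0 : ℝ) < (q.1 : ℝ) → (q.1 : ℝ) < (q.2 : ℝ) →
        (1 : ℝ) ≤ (q.2 : ℝ) → ¬ P q.2 → (perc n ω).Nonempty →
        ENNReal.ofReal (q.1 : ℝ) ≤ confDimH (perc n ω) := by
      rw [ae_all_iff]
      rintro ⟨s, t⟩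
      by_cases hc : (0 : ℝ) < (s : ℝ) ∧ (s : ℝ) < (t : ℝ) ∧ (1 : ℝ) ≤ (t : ℝ) ∧ ¬ P t
      · obtain ⟨h1, h2, h3, h4⟩ := hc
        rcases alt hn hd hp0 hp h1 h2 h3 with h5 | h5
        · filter_upwards [h5] with ω hω _ _ _ _ hne
          exact hω hne
        · exact absurd h5 h4
      · exact Eventually.of_forall fun ω h1 h2 h3 h4 _ => absurd ⟨h1, h2, h3, h4⟩ hc
    filter_upwards [hA, hB, hcon] with ω h1 h2 h3 hne
    have hcomp : CompactSpace (perc n ω) :=
      isCompact_iff_compactSpace.1 (isCompact_perc (by omega) ω)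
    have hup : confDimB (perc n ω) ≤
        ⨅ (t : ℚ) (_ : (1 : ℝ) ≤ (t : ℝ) ∧ P t), ENNReal.ofReal (t : ℝ) :=
      le_iInf fun t => le_iInf fun ht => h1 t ht.2
    have hHB : confDimH (perc n ω) ≤ confDimB (perc n ω) := confDimH_le_confDimB
    have hlow : ⨅ (t : ℚ) (_ : (1 : ℝ) ≤ (t : ℝ) ∧ P t), ENNReal.ofReal (t : ℝ) ≤
        confDimH (perc n ω) := by
      by_contra hc
      rw [not_le] at hc
      obtain ⟨s, hs0, hs1, hs2⟩ := ENNReal.lt_iff_exists_rat_btwn.1 hc
      obtain ⟨t, ht0, ht1, ht2⟩ := ENNReal.lt_iff_exists_rat_btwn.1 hs2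
      have hone : (1 : ℝ≥0∞) < ENNReal.ofReal (s : ℝ) := (h3 hne).2.trans_lt hs1
      have hs' : (1 : ℝ) < (s : ℝ) := by
        rw [← ENNReal.ofReal_one, ENNReal.ofReal_lt_ofReal_iff_of_nonneg zero_le_one] at hone
        exact hone
      have hst : (s : ℝ) < (t : ℝ) := by
        have h4 : ENNReal.ofReal (s : ℝ) < ENNReal.ofReal (t : ℝ) := ht1
        rw [ENNReal.ofReal_lt_ofReal_iff_of_nonneg (by linarith)] at h4
        exact h4
      have hnP : ¬ P t := by
        intro hP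
        have h4 : ⨅ (t : ℚ) (_ : (1 : ℝ) ≤ (t : ℝ) ∧ P t), ENNReal.ofReal (t : ℝ) ≤
            ENNReal.ofReal (t : ℝ) := iInf₂_le t ⟨by linarith, hP⟩
        exact absurd ht2 (not_lt.2 h4)
      have h5 := h2 (s, t) (by show (0 : ℝ) < (s : ℝ); linarith) hst (by show (1 : ℝ) ≤ (t : ℝ); linarith) hnP hne
      exact absurd hs1 (not_lt.2 h5)
    exact ⟨le_antisymm hup (hlow.trans hHB), le_antisymm (hHB.trans hup) hlow⟩

/-- both conformal dimensions of the empty set are `0` (the space itself: `dimH` and the covering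
numbers are `0`) -/
theorem confDim_empty {X : Type} [MetricSpace X] [IsEmpty X] : confDimB X = 0 ∧ confDimH X = 0 := by
  have hq : QSEquiv X X := ⟨Homeomorph.refl X, Homeomorph.refl ℝ≥0, fun x _ _ _ _ => isEmptyElim x⟩
  constructor
  · refine le_antisymm ?_ zero_le
    unfold confDimB
    refine ((iInf_le _ X).trans ((iInf_le _ ‹MetricSpace X›).trans (iInf_le _ hq))).trans ?_
    unfold upperBoxDim
    have h0 : ∀ r : ℝ, coverNum X r = 0 := by
      intro r
      unfold coverNum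
      exact Nat.sInf_eq_zero.2 (Or.inl ⟨∅, rfl, fun y => isEmptyElim y⟩)
    simp only [h0, Nat.cast_zero, Real.log_zero, zero_div, ENNReal.ofReal_zero]
    simp
  · refine le_antisymm ?_ zero_le
    unfold confDimH
    refine ((iInf_le _ X).trans ((iInf_le _ ‹MetricSpace X›).trans (iInf_le _ hq))).trans ?_
    rw [dimH_subsingleton (Set.subsingleton_of_subsingleton)]

theorem final {d n : ℕ} (hd : 1 ≤ d) (hn : 2 ≤ n) (p : unitInterval) (hp : p < 1) :
    ∀ᵐ ω ∂(percLaw d p), confDimB (perc n ω) = confDimH (perc n ω) := by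
  rcases eq_or_ne p 0 with hp0 | hp0
  · filter_upwards [ae_empty_zero (d := d) hn hp0] with ω hω
    haveI : IsEmpty (perc n ω) := by rw [hω]; infer_instance
    rw [confDim_empty.1, confDim_empty.2]
  · obtain ⟨h, hh⟩ := final_pos hd hn (unitInterval.pos_iff_ne_zero.2 hp0) hp
    filter_upwards [hh] with ω hω
    rcases Set.eq_empty_or_nonempty (perc n ω) with he | hne
    · haveI : IsEmpty (perc n ω) := by rw [he]; infer_instance
      rw [confDim_empty.1, confDim_empty.2]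
    · rw [(hω hne).1, (hω hne).2]

end gtFQ
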