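import Pool.Agent.Lib.gtFQ.LL2a
import Pool.Agent.Lib.gtFQ.NetA
import Pool.Agent.Lib.gtFP.GeoD
import Pool.Agent.Lib.gtFP.GeoE
import Pool.Agent.Lib.gtFP.GeoF

/-! The weights `LL2` form a `LamB` on `F` with the greedy crossing condition. -/

open MeasureTheory Filter Topology
open scoped NNReal ENNReal

namespace gtFQ

open gtFP

variable {d : ℕ}

theorem LamP2_eq {n H M : ℕ} {δ K : ℝ≥0} {t : ℝ} {η : ℝ≥0∞} {ω : Cfg d} (j : ℕ)
    (x : EuclideanSpace ℝ (Fin d)) :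
    LamP2 n H M δ K t η ω j x = LL2 n H M δ K t η ω j (fl n (H * j) x) := rfl

/-- port of gtFP/GeoE.lean -/
theorem low_perc2 {n H M : ℕ} (hn : 1 ≤ n) {δ K : ℝ≥0} (hδ : δ ≤ 1 / 2) {t : ℝ} {η : ℝ≥0∞}
    {ω : Cfg d} (j : ℕ) {x : EuclideanSpace ℝ (Fin d)} (hx : x ∈ perc n ω) :
    (δ : ℝ) / 4 ^ M * LamP2 n H M δ K t η ω j x ≤ LamP2 n H M δ K t η ω (j + 1) x := by
  obtain ⟨c, hc, hxc⟩ := exists_Rf (n := n) (m := H) (j := j + 1) hx
  have hmj : H * (j + 1) = H * j + H := by ring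
  have hnd1 : nd (fl n (H * (j + 1)) x) c ≤ 1 := nd_fl_cube hn hxc
  have hnd2 : nd (fl n (H * j) x) (anc n H c) ≤ 1 := by
    rw [← anc_fl (m := H) hn x, ← hmj]
    exact (nd_anc_le hn _ _).trans hnd1
  have hlow := LL2_low (M := M) (δ := δ) (K := K) (t := t) (η := η)
    (a := fl n (H * (j + 1)) x) hc
  have hhar := LL2_har (M := M) (δ := δ) (K := K) (t := t) (η := η) (ω := ω) (n := n) (H := H) j
    (fl n (H * j) x) (anc n H c)
  have hw : δ ≤ wt2 n H δ K t η j ω c := le_wt2 hδ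
  rw [LamP2_eq, LamP2_eq]
  generalize LL2 n H M δ K t η ω (j + 1) (fl n (H * (j + 1)) x) = A at hlow ⊢
  generalize LL2 n H M δ K t η ω j (fl n (H * j) x) = B at hhar ⊢
  generalize LL2 n H M δ K t η ω j (anc n H c) = L at hlow hhar
  generalize wt2 n H δ K t η j ω c = W at hlow hw
  have hL : (0 : ℝ) ≤ (L : ℝ) := L.2
  have hδ0 : (0 : ℝ) ≤ (δ : ℝ) := δ.2
  have hWr : (δ : ℝ) ≤ (W : ℝ) := by exact_mod_cast hw
  have hB : (B : ℝ) ≤ 2 ^ M * (L : ℝ) := by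
    have h7 : (B : ℝ) ≤ (1 + (nd (fl n (H * j) x) (anc n H c) : ℝ)) ^ M * (L : ℝ) := by
      exact_mod_cast hhar
    refine h7.trans (mul_le_mul_of_nonneg_right ?_ hL)
    refine pow_le_pow_left₀ (by positivity) ?_ _
    have : (nd (fl n (H * j) x) (anc n H c) : ℝ) ≤ 1 := by exact_mod_cast hnd2
    linarith
  have hA : (δ : ℝ) * (L : ℝ) * ((2 : ℝ) ^ M)⁻¹ ≤ (A : ℝ) := by
    have h8 : (W : ℝ) * (L : ℝ) * ((1 + (nd (fl n (H * (j + 1)) x) c : ℝ)) ^ M)⁻¹ ≤ (A : ℝ) := by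
      exact_mod_cast hlow
    refine le_trans ?_ h8
    refine mul_le_mul (mul_le_mul_of_nonneg_right hWr hL) ?_ (by positivity)
      (mul_nonneg (hδ0.trans hWr) hL)
    refine inv_anti₀ (by positivity) ?_
    refine pow_le_pow_left₀ (by positivity) ?_ _
    have : (nd (fl n (H * (j + 1)) x) c : ℝ) ≤ 1 := by exact_mod_cast hnd1
    linarith
  have h4 : (4 : ℝ) ^ M = 2 ^ M * 2 ^ M := by
    rw [← mul_pow]
    norm_num
  calc (δ : ℝ) / 4 ^ M * (B : ℝ) ≤ (δ : ℝ) / 4 ^ M * (2 ^ M * (L : ℝ)) := by gcongr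
    _ = (δ : ℝ) * (L : ℝ) * ((2 : ℝ) ^ M)⁻¹ := by
        rw [h4]
        field_simp
    _ ≤ (A : ℝ) := hA

/-- port of gtFP/GeoF.lean -/
theorem lamB_perc {n H M : ℕ} (hn : 1 ≤ n) {δ K : ℝ≥0} (hδ0 : 0 < δ) (hδ : δ ≤ 1 / 2) {t : ℝ}
    {η : ℝ≥0∞} {ω : Cfg d} (hN : 4 * 10 ^ M ≤ n ^ H) :
    LamB (X := perc n ω) (fun x y => sd x.1 y.1) (n ^ H)
      (fun j x => LamP2 n H M δ K t η ω j x.1) ((δ : ℝ) / 4 ^ M) (4 ^ M) := by
  have h10 : 1 ≤ 10 ^ M := Nat.one_le_pow _ _ (by norm_num)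
  have hfl : ∀ (k : ℕ) (x : EuclideanSpace ℝ (Fin d)),
      anc n H (fl n (H * (k + 1)) x) = fl n (H * k) x := by
    intro k x
    rw [show H * (k + 1) = H * k + H by ring]
    exact anc_fl hn x
  have hne : ∀ x : perc n ω, ∀ j, (Rf n H j ω).Nonempty := by
    intro x j
    obtain ⟨c, hc, _⟩ := exists_Rf (n := n) (m := H) (j := j) (ω := ω) x.2
    exact ⟨c, hc⟩
  refine
    { hN := by omega
      s_self := fun x => sd_self _
      s_symm := fun x y => sd_comm _ _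
      s_tri := fun x y z => sd_tri _ _ _
      s_pos := fun x y hxy => sd_pos fun h => hxy (Subtype.ext h)
      s_le := ?_
      pos := ?_
      zero := ?_
      dec := ?_
      low := fun k x => low_perc2 hn hδ k x.2
      δpos := div_pos (by exact_mod_cast hδ0) (by positivity)
      H1 := one_le_pow₀ (by norm_num)
      har := ?_ }
  · intro x y
    refine (sd_le_iff zero_le_one).2 fun t => ?_
    obtain ⟨h1, h2⟩ := perc_mem x.2 t
    obtain ⟨h3, h4⟩ := perc_mem y.2 t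
    rw [abs_le]
    constructor <;> linarith
  · intro k x
    show (0 : ℝ) < ((LL2 n H M δ K t η ω k (fl n (H * k) x.1) : ℝ≥0) : ℝ)
    exact_mod_cast LL2_pos hδ0 hδ (hne x) k _
  · intro x
    show ((LL2 n H M δ K t η ω 0 (fl n (H * 0) x.1) : ℝ≥0) : ℝ) ≤ 1
    show ((1 : ℝ≥0) : ℝ) ≤ 1
    rw [NNReal.coe_one]
  · intro k x
    show ((LL2 n H M δ K t η ω (k + 1) (fl n (H * (k + 1)) x.1) : ℝ≥0) : ℝ) ≤
      1 / 2 * ((LL2 n H M δ K t η ω k (fl n (H * k) x.1) : ℝ≥0) : ℝ)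
    have h := LL2_dec (M := M) (δ := δ) (K := K) (t := t) (η := η) hn (ω := ω) (H := H) k
      (fl n (H * (k + 1)) x.1)
    rw [hfl k x.1] at h
    have h' : ((LL2 n H M δ K t η ω (k + 1) (fl n (H * (k + 1)) x.1) : ℝ≥0) : ℝ) ≤
      ((1 / 2 * LL2 n H M δ K t η ω k (fl n (H * k) x.1) : ℝ≥0) : ℝ) := NNReal.coe_le_coe.2 h
    simpa using h'
  · intro k x y hxy
    show ((LL2 n H M δ K t η ω k (fl n (H * k) x.1) : ℝ≥0) : ℝ) ≤
      4 ^ M * ((LL2 n H M δ K t η ω k (fl n (H * k) y.1) : ℝ≥0) : ℝ)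
    have hn0 : (0 : ℝ) < (n : ℝ) ^ (H * k) := by
      have : (0 : ℝ) < (n : ℝ) := by exact_mod_cast hn
      positivity
    have hnd : nd (fl n (H * k) x.1) (fl n (H * k) y.1) ≤ 3 := by
      apply nd_fl_le
      have h1 : sd x.1 y.1 ≤ 3 / (n : ℝ) ^ (H * k) := by
        have : (((n ^ H : ℕ) : ℝ)) ^ k = (n : ℝ) ^ (H * k) := by
          push_cast
          rw [pow_mul]
        rw [← this]
        exact hxy
      rw [le_div_iff₀ hn0] at h1
      push_cast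
      linarith
    have h := LL2_har (M := M) (δ := δ) (K := K) (t := t) (η := η) (ω := ω) (n := n) (H := H) k
      (fl n (H * k) x.1) (fl n (H * k) y.1)
    have h2 : (1 + (nd (fl n (H * k) x.1) (fl n (H * k) y.1) : ℝ≥0)) ^ M ≤ 4 ^ M := by
      apply pow_le_pow_left₀ (zero_le)
      have : ((nd (fl n (H * k) x.1) (fl n (H * k) y.1) : ℕ) : ℝ≥0) ≤ ((3 : ℕ) : ℝ≥0) := by
        exact_mod_cast hnd
      calc 1 + (nd (fl n (H * k) x.1) (fl n (H * k) y.1) : ℝ≥0) ≤ 1 + ((3 : ℕ) : ℝ≥0) := by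
            gcongr
        _ = 4 := by norm_num
    have h3 : LL2 n H M δ K t η ω k (fl n (H * k) x.1) ≤
        4 ^ M * LL2 n H M δ K t η ω k (fl n (H * k) y.1) :=
      h.trans (mul_le_mul_left h2 _)
    have h4 := NNReal.coe_le_coe.2 h3
    simpa using h4

end gtFQ
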