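import Pool.Agent.Lib.gtFQ.SsP
import Pool.Agent.Lib.gtFP.SumB

/-! The weights for the metric, built from single scale weights. Block scale `N = n^H`; a cube of
block level `j` is a cube of level `H * j`. -/

open scoped NNReal ENNReal

namespace gtFQ

open gtFP

variable {d : ℕ}

open Classical in
/-- a choice of single scale weights (zero if there are none) -/
noncomputable def wS (n H k : ℕ) (ω : Cfg d) (z : Fin d → ℤ) (t : ℝ) (η : ℝ≥0∞) :
    (Fin d → ℤ) → ℝ≥0∞ :=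
  if h : SS n H k ω z t η then Classical.choose h else 0

/-- some cube near `Q` (block level `j`) has no single scale weights -/
def Nb2 (n H j : ℕ) (t : ℝ) (η : ℝ≥0∞) (ω : Cfg d) (Q : Fin d → ℤ) : Prop :=
  ∃ z, nd Q z ≤ 3 ∧ ¬ SS n H (H * j) ω z t η

open Classical in
/-- weight factor of the cube `c` of block level `j + 1` -/
noncomputable def wt2 (n H : ℕ) (δ K : ℝ≥0) (t : ℝ) (η : ℝ≥0∞) (j : ℕ) (ω : Cfg d)
    (c : Fin d → ℤ) : ℝ≥0 :=
  if Nb2 n H j t η ω (anc n H c) then 1 / 2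
  else min (1 / 2) (max δ (K * ∑ z ∈ nbF (anc n H c), (wS n H (H * j) ω z t η c).toNNReal))

/-- The weights (as `gtFP.LL`, with the factor `wt2` of the cube itself). -/
noncomputable def LL2 (n H M : ℕ) (δ K : ℝ≥0) (t : ℝ) (η : ℝ≥0∞) (ω : Cfg d) :
    ℕ → (Fin d → ℤ) → ℝ≥0
  | 0 => fun _ => 1
  | (j + 1) => fun a => (Rf n H (j + 1) ω).sup fun c =>
      wt2 n H δ K t η j ω c * LL2 n H M δ K t η ω j (anc n H c) * ((1 + (nd a c : ℝ≥0)) ^ M)⁻¹

noncomputable def YY2 (n H M : ℕ) (δ K : ℝ≥0) (t : ℝ) (η : ℝ≥0∞) (j : ℕ) (ω : Cfg d) : ℝ≥0∞ :=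
  ∑ c ∈ Rf n H j ω, (LL2 n H M δ K t η ω j c : ℝ≥0∞) ^ t

private theorem isCr_of {n H k : ℕ} (hn : 1 ≤ n) {ω ω' : Cfg d} {z : Fin d → ℤ}
    (h : ∀ i ∈ LvN n k H z, ω i = ω' i) {r : ℕ} {f : ℕ → Fin d → ℤ} (hc : IsCr n H k ω z r f) :
    IsCr n H k ω' z r f := by
  obtain ⟨h0, h1, h2, h3, h4⟩ := hc
  refine ⟨h0, fun i hi j hj1 hj2 => ?_, h2, h3, h4⟩
  have hm : (k + j, anc n (H - j) (f i)) ∈ LvN n k H z := by
    refine ⟨by simp only; omega, by simp only; omega, ?_⟩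
    simp only
    rw [anc_anc, show k + j - k + (H - j) = H by omega, ← h0, nd_comm]
    exact nd_anc_mul hn (h3 i hi)
  rw [← h _ hm]
  exact h1 i hi j hj1 hj2

open Classical in
private noncomputable def wG (C : ℕ → (ℕ → Fin d → ℤ) → Prop) (t : ℝ) (η : ℝ≥0∞) :
    (Fin d → ℤ) → ℝ≥0∞ :=
  if h : ∃ w : (Fin d → ℤ) → ℝ≥0∞,
    (∀ r f, C r f → 1 ≤ ∑ a ∈ (Finset.range (r + 1)).image f, w a) ∧ ∑' a, w a ^ t ≤ η
  then Classical.choose h else 0

/-- if two configurations agree on `LvN n k H z` then the weights `wS` are the same (the two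
predicates in `SS` are the same by `funext`, `propext`, so `Classical.choose` gives the same) -/
theorem wS_congr {n H k : ℕ} (hn : 1 ≤ n) {ω ω' : Cfg d} {z : Fin d → ℤ} {t : ℝ} {η : ℝ≥0∞}
    (h : ∀ i ∈ LvN n k H z, ω i = ω' i) : wS n H k ω z t η = wS n H k ω' z t η := by
  have h1 : IsCr n H k ω z = IsCr n H k ω' z := by
    funext r f
    exact propext ⟨isCr_of hn h, isCr_of hn fun i hi => (h i hi).symm⟩
  change wG (IsCr n H k ω z) t η = wG (IsCr n H k ω' z) t η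
  rw [h1]

theorem wS_spec {n H k : ℕ} {ω : Cfg d} {z : Fin d → ℤ} {t : ℝ} {η : ℝ≥0∞}
    (h : SS n H k ω z t η) :
    (∀ r f, IsCr n H k ω z r f → 1 ≤ ∑ a ∈ (Finset.range (r + 1)).image f, wS n H k ω z t η a) := by
  rw [wS, dif_pos h]
  exact (Classical.choose_spec h).1

theorem wS_cost {n H k : ℕ} {ω : Cfg d} {z : Fin d → ℤ} {t : ℝ} (ht : 0 < t) {η : ℝ≥0∞} :
    ∑' a, wS n H k ω z t η a ^ t ≤ η := by
  by_cases h : SS n H k ω z t η
  · rw [wS, dif_pos h]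
    exact (Classical.choose_spec h).2
  · rw [wS, dif_neg h]
    simp [ENNReal.zero_rpow_of_pos ht]

theorem wt2_le {n H j : ℕ} {δ K : ℝ≥0} {t : ℝ} {η : ℝ≥0∞} {ω : Cfg d} {c : Fin d → ℤ} :
    wt2 n H δ K t η j ω c ≤ 1 / 2 := by
  unfold wt2
  split_ifs
  · exact le_rfl
  · exact min_le_left _ _

theorem le_wt2 {n H j : ℕ} {δ K : ℝ≥0} (hδ : δ ≤ 1 / 2) {t : ℝ} {η : ℝ≥0∞} {ω : Cfg d}
    {c : Fin d → ℤ} : δ ≤ wt2 n H δ K t η j ω c := by
  unfold wt2
  split_ifs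
  · exact hδ
  · exact le_min hδ (le_max_left _ _)

/-- If `K η^(1/t) ≤ 1/2` then `K * wS z c ≤ wt2 c` for all `z` near the parent of `c`: either `wt2 = 1/2`,
or the minimum is bounded below; `wS z c ≤ η^(1/t)` by `wS_cost`. -/
theorem K_wS_le {n H j : ℕ} {δ K : ℝ≥0} {t : ℝ} (ht : 0 < t) {η : ℝ≥0∞}
    (hK : (K : ℝ≥0∞) * η ^ (1 / t) ≤ 1 / 2) {ω : Cfg d} {c z : Fin d → ℤ}
    (hz : nd (anc n H c) z ≤ 3) :
    (K : ℝ≥0∞) * wS n H (H * j) ω z t η c ≤ wt2 n H δ K t η j ω c := by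
  have h1 : wS n H (H * j) ω z t η c ≤ η ^ (1 / t) := by
    have h2 : wS n H (H * j) ω z t η c ^ t ≤ η :=
      (ENNReal.le_tsum (f := fun a => wS n H (H * j) ω z t η a ^ t) c).trans (wS_cost ht)
    calc wS n H (H * j) ω z t η c = (wS n H (H * j) ω z t η c ^ t) ^ (1 / t) := by
          rw [← ENNReal.rpow_mul, mul_one_div_cancel ht.ne', ENNReal.rpow_one]
      _ ≤ η ^ (1 / t) := ENNReal.rpow_le_rpow h2 (by positivity)
  have h3 : (K : ℝ≥0∞) * wS n H (H * j) ω z t η c ≤ 1 / 2 :=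
    (mul_le_mul' le_rfl h1).trans hK
  have h4 : ((1 / 2 : ℝ≥0) : ℝ≥0∞) = 1 / 2 := by
    rw [ENNReal.coe_div (by norm_num)]
    norm_num
  unfold wt2
  split_ifs
  · rw [h4]
    exact h3
  · rcases eq_or_ne K 0 with hK0 | hK0
    · simp [hK0]
    have hfin : wS n H (H * j) ω z t η c ≠ ⊤ := by
      intro htop
      rw [htop, ENNReal.mul_top (by exact_mod_cast hK0)] at h3
      exact absurd h3 (by simp)
    rw [ENNReal.coe_min, h4]
    refine le_min h3 ?_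
    calc (K : ℝ≥0∞) * wS n H (H * j) ω z t η c
        = ((K * (wS n H (H * j) ω z t η c).toNNReal : ℝ≥0) : ℝ≥0∞) := by
          rw [ENNReal.coe_mul, ENNReal.coe_toNNReal hfin]
      _ ≤ _ := by
          rw [ENNReal.coe_le_coe]
          refine le_trans ?_ (le_max_right _ _)
          refine mul_le_mul' le_rfl ?_
          exact Finset.single_le_sum (f := fun z => (wS n H (H * j) ω z t η c).toNNReal)
            (fun _ _ => zero_le) (mem_nbF.2 hz)

end gtFQ
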