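import Pool.Agent.Lib.gtFQ.LL2
import Pool.Agent.Lib.gtFP.LLb

/-! Basic properties of the weights `LL2`: ports of gtFP/LLb.lean. -/

open scoped NNReal ENNReal

namespace gtFQ

open gtFP

variable {d : ℕ}

theorem LL2_low {n H M j : ℕ} {δ K : ℝ≥0} {t : ℝ} {η : ℝ≥0∞} {ω : Cfg d} {a c : Fin d → ℤ}
    (hc : c ∈ Rf n H (j + 1) ω) :
    wt2 n H δ K t η j ω c * LL2 n H M δ K t η ω j (anc n H c) * ((1 + (nd a c : ℝ≥0)) ^ M)⁻¹ ≤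
      LL2 n H M δ K t η ω (j + 1) a :=
  Finset.le_sup (f := fun c => wt2 n H δ K t η j ω c * LL2 n H M δ K t η ω j (anc n H c) *
    ((1 + (nd a c : ℝ≥0)) ^ M)⁻¹) hc

private theorem inv_har {a b c : Fin d → ℤ} {M : ℕ} :
    ((1 + (nd a c : ℝ≥0)) ^ M)⁻¹ ≤ (1 + (nd a b : ℝ≥0)) ^ M * ((1 + (nd b c : ℝ≥0)) ^ M)⁻¹ := by
  have h1 : (1 + (nd b c : ℝ≥0)) ≤ (1 + (nd a b : ℝ≥0)) * (1 + (nd a c : ℝ≥0)) := by
    have h2 := nd_tri b a c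
    rw [nd_comm b a] at h2
    have h3 : (nd b c : ℝ≥0) ≤ (nd a b : ℝ≥0) + (nd a c : ℝ≥0) := by exact_mod_cast h2
    calc (1 + (nd b c : ℝ≥0)) ≤ 1 + ((nd a b : ℝ≥0) + (nd a c : ℝ≥0)) := by gcongr
      _ ≤ 1 + ((nd a b : ℝ≥0) + (nd a c : ℝ≥0)) + (nd a b : ℝ≥0) * (nd a c : ℝ≥0) :=
          le_self_add
      _ = _ := by ring
  have h2 : (1 + (nd b c : ℝ≥0)) ^ M ≤ (1 + (nd a b : ℝ≥0)) ^ M * (1 + (nd a c : ℝ≥0)) ^ M := by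
    rw [← mul_pow]
    exact pow_le_pow_left₀ bot_le h1 M
  have hx : (1 + (nd a c : ℝ≥0)) ^ M ≠ 0 := by positivity
  have hz : (1 + (nd b c : ℝ≥0)) ^ M ≠ 0 := by positivity
  calc ((1 + (nd a c : ℝ≥0)) ^ M)⁻¹ =
        (1 + (nd b c : ℝ≥0)) ^ M * (((1 + (nd b c : ℝ≥0)) ^ M)⁻¹ * ((1 + (nd a c : ℝ≥0)) ^ M)⁻¹) := by
          rw [← mul_assoc, mul_inv_cancel₀ hz, one_mul]
    _ ≤ ((1 + (nd a b : ℝ≥0)) ^ M * (1 + (nd a c : ℝ≥0)) ^ M) *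
        (((1 + (nd b c : ℝ≥0)) ^ M)⁻¹ * ((1 + (nd a c : ℝ≥0)) ^ M)⁻¹) := by gcongr
    _ = (1 + (nd a b : ℝ≥0)) ^ M * ((1 + (nd b c : ℝ≥0)) ^ M)⁻¹ *
        ((1 + (nd a c : ℝ≥0)) ^ M * ((1 + (nd a c : ℝ≥0)) ^ M)⁻¹) := by ring
    _ = _ := by rw [mul_inv_cancel₀ hx, mul_one]

theorem LL2_har {n H M : ℕ} {δ K : ℝ≥0} {t : ℝ} {η : ℝ≥0∞} {ω : Cfg d} (j : ℕ)
    (a b : Fin d → ℤ) :
    LL2 n H M δ K t η ω j a ≤ (1 + (nd a b : ℝ≥0)) ^ M * LL2 n H M δ K t η ω j b := by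
  cases j with
  | zero =>
    show (1 : ℝ≥0) ≤ (1 + (nd a b : ℝ≥0)) ^ M * 1
    rw [mul_one]
    exact one_le_pow₀ le_self_add
  | succ j =>
    show ((Rf n H (j + 1) ω).sup fun c =>
      wt2 n H δ K t η j ω c * LL2 n H M δ K t η ω j (anc n H c) *
        ((1 + (nd a c : ℝ≥0)) ^ M)⁻¹) ≤ _
    refine Finset.sup_le fun c hc => ?_
    calc wt2 n H δ K t η j ω c * LL2 n H M δ K t η ω j (anc n H c) *
          ((1 + (nd a c : ℝ≥0)) ^ M)⁻¹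
        ≤ wt2 n H δ K t η j ω c * LL2 n H M δ K t η ω j (anc n H c) *
          ((1 + (nd a b : ℝ≥0)) ^ M * ((1 + (nd b c : ℝ≥0)) ^ M)⁻¹) :=
          mul_le_mul_right inv_har _
      _ = (1 + (nd a b : ℝ≥0)) ^ M * (wt2 n H δ K t η j ω c *
          LL2 n H M δ K t η ω j (anc n H c) * ((1 + (nd b c : ℝ≥0)) ^ M)⁻¹) := by ring
      _ ≤ _ := mul_le_mul_right (LL2_low hc) _

theorem LL2_dec {n H M : ℕ} (hn : 1 ≤ n) {δ K : ℝ≥0} {t : ℝ} {η : ℝ≥0∞} {ω : Cfg d} (j : ℕ)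
    (a : Fin d → ℤ) :
    LL2 n H M δ K t η ω (j + 1) a ≤ 1 / 2 * LL2 n H M δ K t η ω j (anc n H a) := by
  show ((Rf n H (j + 1) ω).sup fun c =>
    wt2 n H δ K t η j ω c * LL2 n H M δ K t η ω j (anc n H c) * ((1 + (nd a c : ℝ≥0)) ^ M)⁻¹) ≤ _
  refine Finset.sup_le fun c hc => ?_
  have h1 : (nd (anc n H c) (anc n H a) : ℝ≥0) ≤ (nd a c : ℝ≥0) := by
    have := nd_anc_le (s := H) hn c a
    rw [nd_comm c a] at this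
    exact_mod_cast this
  have h2 : (1 + (nd (anc n H c) (anc n H a) : ℝ≥0)) ^ M ≤ (1 + (nd a c : ℝ≥0)) ^ M := by
    gcongr
  have h3 : LL2 n H M δ K t η ω j (anc n H c) ≤
      (1 + (nd a c : ℝ≥0)) ^ M * LL2 n H M δ K t η ω j (anc n H a) :=
    (LL2_har j _ _).trans (by gcongr)
  have hx : (1 + (nd a c : ℝ≥0)) ^ M ≠ 0 := by positivity
  calc wt2 n H δ K t η j ω c * LL2 n H M δ K t η ω j (anc n H c) * ((1 + (nd a c : ℝ≥0)) ^ M)⁻¹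
      ≤ 1 / 2 * ((1 + (nd a c : ℝ≥0)) ^ M * LL2 n H M δ K t η ω j (anc n H a)) *
        ((1 + (nd a c : ℝ≥0)) ^ M)⁻¹ := by
          refine mul_le_mul_left ?_ _
          exact mul_le_mul' wt2_le h3
    _ = 1 / 2 * LL2 n H M δ K t η ω j (anc n H a) *
        ((1 + (nd a c : ℝ≥0)) ^ M * ((1 + (nd a c : ℝ≥0)) ^ M)⁻¹) := by ring
    _ = _ := by rw [mul_inv_cancel₀ hx, mul_one]

theorem LL2_pos {n H M : ℕ} {δ K : ℝ≥0} (hδ0 : 0 < δ) (hδ : δ ≤ 1 / 2) {t : ℝ} {η : ℝ≥0∞}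
    {ω : Cfg d} (hne : ∀ j, (Rf n H j ω).Nonempty) (j : ℕ) (a : Fin d → ℤ) :
    0 < LL2 n H M δ K t η ω j a := by
  induction j generalizing a with
  | zero => exact one_pos
  | succ j ih =>
    obtain ⟨c, hc⟩ := hne (j + 1)
    refine lt_of_lt_of_le ?_ (LL2_low (a := a) hc)
    have h1 : 0 < wt2 n H δ K t η j ω c := lt_of_lt_of_le hδ0 (le_wt2 hδ)
    have h2 := ih (anc n H c)
    have h3 : 0 < ((1 + (nd a c : ℝ≥0)) ^ M)⁻¹ := by positivity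
    exact mul_pos (mul_pos h1 h2) h3

/-- the weight function on points, block level `j` -/
noncomputable def LamP2 (n H M : ℕ) (δ K : ℝ≥0) (t : ℝ) (η : ℝ≥0∞) (ω : Cfg d) (j : ℕ)
    (x : EuclideanSpace ℝ (Fin d)) : ℝ := LL2 n H M δ K t η ω j (fun s => ⌊(n : ℝ) ^ (H * j) * x s⌋)

end gtFQ
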