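import Pool.Agent.Lib.gtFP.SqA
import Pool.Agent.Lib.gtFP.Shift

/-! Multi-scale weights and crossings. All levels are relative to the level `k` of the cube `z`. -/

open scoped NNReal ENNReal

namespace gtFQ

open gtFP

variable {d : ℕ}

/-- `(r, f)` is a chain of touching cubes of level `k + m`, kept in the steps `k+1, …, k+m`, which
starts in the cube `z` of level `k` and reaches sup-distance `2 n^m` from its start. -/
def IsCr (n m k : ℕ) (ω : Cfg d) (z : Fin d → ℤ) (r : ℕ) (f : ℕ → Fin d → ℤ) : Prop :=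
  anc n m (f 0) = z ∧ (∀ i ≤ r, Loc n m k ω (f i)) ∧ (∀ i < r, nd (f i) (f (i + 1)) ≤ 1) ∧
    (∀ i ≤ r, nd (f 0) (f i) ≤ 2 * n ^ m) ∧ 2 * n ^ m ≤ nd (f 0) (f r)

/-- the distinct cubes of relative level `l` hit by the chain -/
def hits (n m l r : ℕ) (f : ℕ → Fin d → ℤ) : Finset (Fin d → ℤ) :=
  (Finset.range (r + 1)).image fun i => anc n (m - l) (f i)

theorem mem_hits {n m l r : ℕ} {f : ℕ → Fin d → ℤ} {a : Fin d → ℤ} :
    a ∈ hits n m l r f ↔ ∃ i ≤ r, anc n (m - l) (f i) = a := by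
  simp [hits, Nat.lt_succ_iff]

/-- the length of the chain for the weights `σ` (`σ l a` = weight of the cube `a` of relative level
`l`): every cube hit by the chain is counted once -/
noncomputable def len (n m : ℕ) (σ : ℕ → (Fin d → ℤ) → ℝ≥0∞) (r : ℕ) (f : ℕ → Fin d → ℤ) : ℝ≥0∞ :=
  ∑ l ∈ Finset.range (m + 1), ∑ a ∈ hits n m l r f, σ l a

/-- admissible weights -/
def Adm (n m k : ℕ) (ω : Cfg d) (z : Fin d → ℤ) (σ : ℕ → (Fin d → ℤ) → ℝ≥0∞) : Prop :=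
  ∀ r f, IsCr n m k ω z r f → 1 ≤ len n m σ r f

/-- the cost `∑ (b^l σ(l,a))^t` -/
noncomputable def cost (b : ℝ≥0) (t : ℝ) (σ : ℕ → (Fin d → ℤ) → ℝ≥0∞) : ℝ≥0∞ :=
  ∑' l : ℕ, ∑' a : Fin d → ℤ, ((b : ℝ≥0∞) ^ l * σ l a) ^ t

/-- there are admissible weights of depth `m` and cost at most `θ` -/
def Good (n m k : ℕ) (ω : Cfg d) (z : Fin d → ℤ) (b : ℝ≥0) (t : ℝ) (θ : ℝ≥0∞) : Prop :=
  ∃ σ : ℕ → (Fin d → ℤ) → ℝ≥0∞, Adm n m k ω z σ ∧ cost b t σ ≤ θ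

/-- weights of relative level `l'` moved to relative level `l + l'` -/
noncomputable def sh (l : ℕ) (σ : ℕ → (Fin d → ℤ) → ℝ≥0∞) : ℕ → (Fin d → ℤ) → ℝ≥0∞ :=
  fun l' a => if l ≤ l' then σ (l' - l) a else 0

/-- `z` has weights of arbitrarily small cost -/
def Gz (n k : ℕ) (ω : Cfg d) (z : Fin d → ℤ) (b : ℝ≥0) (t : ℝ) : Prop :=
  ∀ i : ℕ, ∃ m, Good n m k ω z b t (1 / ((i : ℝ≥0∞) + 1))

/-- coordinates of all levels `> k` with ancestor of level `k` at distance at most 2 from `z` -/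
def LvI (n k : ℕ) (z : Fin d → ℤ) : Set (ℕ × (Fin d → ℤ)) :=
  {i | k < i.1 ∧ nd (anc n (i.1 - k) i.2) z ≤ 2}

end gtFQ
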