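import Pool.Agent.Lib.gtFQ.MS

/-! Monotonicity, dependence on coordinates, shift invariance. -/

open scoped NNReal ENNReal

namespace gtFQ

open gtFP

variable {d : ℕ}

theorem good_mono_b {n m k : ℕ} {ω : Cfg d} {z : Fin d → ℤ} {b b' : ℝ≥0} (hb : b' ≤ b) {t : ℝ}
    (ht : 0 < t) {θ : ℝ≥0∞} (h : Good n m k ω z b t θ) : Good n m k ω z b' t θ := by
  obtain ⟨σ, h1, h2⟩ := h
  refine ⟨σ, h1, le_trans ?_ h2⟩
  unfold cost
  refine ENNReal.tsum_le_tsum fun l => ENNReal.tsum_le_tsum fun a => ?_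
  refine ENNReal.rpow_le_rpow ?_ ht.le
  have hb' : (b' : ℝ≥0∞) ≤ (b : ℝ≥0∞) := ENNReal.coe_le_coe.2 hb
  gcongr

theorem good_mono_θ {n m k : ℕ} {ω : Cfg d} {z : Fin d → ℤ} {b : ℝ≥0} {t : ℝ} {θ θ' : ℝ≥0∞}
    (hθ : θ ≤ θ') (h : Good n m k ω z b t θ) : Good n m k ω z b t θ' := by
  obtain ⟨σ, h1, h2⟩ := h
  exact ⟨σ, h1, h2.trans hθ⟩

/-- the weight `1` on `z` itself -/
theorem good_one {n m k : ℕ} {ω : Cfg d} {z : Fin d → ℤ} {b : ℝ≥0} {t : ℝ} (ht : 0 < t) :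
    Good n m k ω z b t 1 := by
  classical
  refine ⟨fun l a => if l = 0 ∧ a = z then 1 else 0, ?_, ?_⟩
  · rintro r f ⟨h1, -⟩
    unfold len
    have h2 : z ∈ hits n m 0 r f := mem_hits.2 ⟨0, Nat.zero_le _, h1⟩
    calc (1 : ℝ≥0∞) = (if (0 : ℕ) = 0 ∧ z = z then (1 : ℝ≥0∞) else 0) := by simp
      _ ≤ ∑ a ∈ hits n m 0 r f, (if (0 : ℕ) = 0 ∧ a = z then (1 : ℝ≥0∞) else 0) :=
        Finset.single_le_sum (f := fun a => if (0 : ℕ) = 0 ∧ a = z then (1 : ℝ≥0∞) else 0)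
          (fun _ _ => zero_le) h2
      _ ≤ ∑ l ∈ Finset.range (m + 1), ∑ a ∈ hits n m l r f,
          (if l = 0 ∧ a = z then (1 : ℝ≥0∞) else 0) :=
        Finset.single_le_sum
          (f := fun l => ∑ a ∈ hits n m l r f, (if l = 0 ∧ a = z then (1 : ℝ≥0∞) else 0))
          (fun _ _ => zero_le) (Finset.mem_range.2 (Nat.succ_pos m))
  · unfold cost
    rw [tsum_eq_single 0, tsum_eq_single z]
    · simp
    · intro a ha
      beta_reduce
      rw [if_neg (fun h : (0 : ℕ) = 0 ∧ a = z => ha h.2), mul_zero, ENNReal.zero_rpow_of_pos ht]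
    · intro l hl
      have h3 : ∀ a : Fin d → ℤ, ((b : ℝ≥0∞) ^ l * (if l = 0 ∧ a = z then (1 : ℝ≥0∞) else 0)) ^ t = 0 := by
        intro a
        have : ¬ (l = 0 ∧ a = z) := fun h => hl h.1
        simp only [this, if_false, mul_zero, ENNReal.zero_rpow_of_pos ht]
      simp only [h3, tsum_zero]

/-- `Good` depends only on the coordinates of the levels in `(k, k+m]` with ancestor of level `k` at
distance at most 2 from `z` (all cubes of a crossing chain satisfy this, `nd_anc_mul`). -/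
theorem good_congr {n m k : ℕ} (hn : 1 ≤ n) {ω ω' : Cfg d} {z : Fin d → ℤ} {b : ℝ≥0} {t : ℝ}
    {θ : ℝ≥0∞} (h : ∀ i ∈ LvN n k m z, ω i = ω' i) (hg : Good n m k ω z b t θ) :
    Good n m k ω' z b t θ := by
  obtain ⟨σ, h1, h2⟩ := hg
  refine ⟨σ, fun r f hf => h1 r f ?_, h2⟩
  obtain ⟨a1, a2, a3, a4, a5⟩ := hf
  refine ⟨a1, fun i hi j hj1 hj2 => ?_, a3, a4, a5⟩
  rw [h (k + j, anc n (m - j) (f i)) ?_]
  · exact a2 i hi j hj1 hj2
  · refine ⟨by show k < k + j; omega, by show k + j ≤ k + m; omega, ?_⟩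
    show nd (anc n (k + j - k) (anc n (m - j) (f i))) z ≤ 2
    rw [anc_anc, show k + j - k + (m - j) = m by omega, ← a1]
    apply nd_anc_mul hn
    rw [nd_comm]
    exact a4 i hi

end gtFQ
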