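import Pool.Agent.Lib.gtFQ.MS

/-! Monotonicity, dependence on coordinates, shift invariance. -/

open scoped NNReal ENNReal

namespace gtFQ

open gtFP

variable {d : ℕ}

private theorem anc_shift {n m l : ℕ} (hn : 1 ≤ n) (hl : l ≤ m) (z a : Fin d → ℤ) :
    anc n (m - l) (fun t => (n : ℤ) ^ m * z t + a t) =
      fun t => (n : ℤ) ^ l * z t + anc n (m - l) a t := by
  have h := anc_add_mul (n := n) (s := m - l) hn a (fun t => (n : ℤ) ^ l * z t)
  rw [← h]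
  congr 1
  funext t
  have : (n : ℤ) ^ m = (n : ℤ) ^ (m - l) * (n : ℤ) ^ l := by
    rw [← pow_add, Nat.sub_add_cancel hl]
  rw [this]
  ring

private theorem loc_shift' {n m k : ℕ} (hn : 1 ≤ n) (z : Fin d → ℤ) (ω : Cfg d) (a : Fin d → ℤ) :
    Loc n m k ω (fun t => (n : ℤ) ^ m * z t + a t) ↔ Loc n m 0 (shiftCfg n k z ω) a := by
  unfold Loc
  refine forall_congr' fun i => forall_congr' fun h1 => forall_congr' fun h2 => ?_
  rw [anc_shift hn h2]
  simp [shiftCfg]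

private theorem nd_shift' (w a b : Fin d → ℤ) :
    nd (fun t => w t + a t) (fun t => w t + b t) = nd a b := by
  unfold nd
  congr 1
  funext t
  congr 1
  ring

private theorem isCr_shift {n m k : ℕ} (hn : 1 ≤ n) (z : Fin d → ℤ) (ω : Cfg d) (r : ℕ)
    (f : ℕ → Fin d → ℤ) :
    IsCr n m k ω z r (fun i t => (n : ℤ) ^ m * z t + f i t) ↔
      IsCr n m 0 (shiftCfg n k z ω) 0 r f := by
  unfold IsCr
  simp only [nd_shift' (fun t => (n : ℤ) ^ m * z t), loc_shift' hn, anc_add_mul hn]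
  refine and_congr ?_ Iff.rfl
  constructor
  · intro h
    funext t
    have := congrFun h t
    simp only [Pi.zero_apply]
    linarith
  · intro h
    rw [h]
    funext t
    simp

private theorem hits_shift {n m l : ℕ} (hn : 1 ≤ n) (hl : l ≤ m) (z : Fin d → ℤ) (r : ℕ)
    (f : ℕ → Fin d → ℤ) :
    hits n m l r (fun i t => (n : ℤ) ^ m * z t + f i t) =
      (hits n m l r f).map (Equiv.addLeft fun t => (n : ℤ) ^ l * z t).toEmbedding := by
  classical
  ext a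
  rw [mem_hits, Finset.mem_map]
  constructor
  · rintro ⟨i, hi, h⟩
    refine ⟨anc n (m - l) (f i), mem_hits.2 ⟨i, hi, rfl⟩, ?_⟩
    rw [← h, anc_shift hn hl]
    rfl
  · rintro ⟨b, hb, h⟩
    obtain ⟨i, hi, rfl⟩ := mem_hits.1 hb
    refine ⟨i, hi, ?_⟩
    rw [← h, anc_shift hn hl]
    rfl

/-- the translated weights -/
private noncomputable def trW (n : ℕ) (z : Fin d → ℤ) (σ : ℕ → (Fin d → ℤ) → ℝ≥0∞) :
    ℕ → (Fin d → ℤ) → ℝ≥0∞ :=
  fun l a => σ l (fun t => (n : ℤ) ^ l * z t + a t)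

private theorem len_shift {n m : ℕ} (hn : 1 ≤ n) (z : Fin d → ℤ)
    (σ : ℕ → (Fin d → ℤ) → ℝ≥0∞) (r : ℕ) (f : ℕ → Fin d → ℤ) :
    len n m σ r (fun i t => (n : ℤ) ^ m * z t + f i t) = len n m (trW n z σ) r f := by
  unfold len
  refine Finset.sum_congr rfl fun l hl => ?_
  rw [hits_shift hn (Nat.lt_succ_iff.1 (Finset.mem_range.1 hl)), Finset.sum_map]
  rfl

private theorem cost_shift (n : ℕ) (z : Fin d → ℤ) (b : ℝ≥0) (t : ℝ)
    (σ : ℕ → (Fin d → ℤ) → ℝ≥0∞) : cost b t (trW n z σ) = cost b t σ := by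
  unfold cost
  refine tsum_congr fun l => ?_
  exact (Equiv.addLeft fun t => (n : ℤ) ^ l * z t).tsum_eq
    (fun a : Fin d → ℤ => ((b : ℝ≥0∞) ^ l * σ l a) ^ t)

private theorem adm_shift {n m k : ℕ} (hn : 1 ≤ n) (z : Fin d → ℤ) (ω : Cfg d)
    (σ : ℕ → (Fin d → ℤ) → ℝ≥0∞) :
    Adm n m k ω z σ ↔ Adm n m 0 (shiftCfg n k z ω) 0 (trW n z σ) := by
  constructor
  · intro h r f hf
    rw [← len_shift hn]
    exact h r _ ((isCr_shift hn z ω r f).2 hf)
  · intro h r g hg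
    have e : g = fun i t => (n : ℤ) ^ m * z t + (g i t - (n : ℤ) ^ m * z t) := by
      funext i t
      ring
    rw [e, isCr_shift hn] at hg
    rw [e, len_shift hn]
    exact h r _ hg

private theorem trW_surj (n : ℕ) (z : Fin d → ℤ) (σ : ℕ → (Fin d → ℤ) → ℝ≥0∞) :
    ∃ σ', trW n z σ' = σ := by
  refine ⟨fun l a => σ l (fun t => a t - (n : ℤ) ^ l * z t), ?_⟩
  funext l a
  change σ l (fun t => ((n : ℤ) ^ l * z t + a t) - (n : ℤ) ^ l * z t) = σ l a
  congr 1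
  funext t
  ring

/-- Translation: `σ' l a = σ l (a + n^l z)`; a chain `f` for `0` corresponds to `f + n^m z`. -/
theorem good_shift {n m k : ℕ} (hn : 1 ≤ n) (z : Fin d → ℤ) (ω : Cfg d) {b : ℝ≥0} {t : ℝ}
    {θ : ℝ≥0∞} :
    Good n m k ω z b t θ ↔ Good n m 0 (shiftCfg n k z ω) 0 b t θ := by
  constructor
  · rintro ⟨σ, h1, h2⟩
    exact ⟨trW n z σ, (adm_shift hn z ω σ).1 h1, (cost_shift n z b t σ).le.trans h2⟩
  · rintro ⟨σ, h1, h2⟩
    obtain ⟨σ', rfl⟩ := trW_surj n z σ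
    exact ⟨σ', (adm_shift hn z ω σ').2 h1, (cost_shift n z b t σ').ge.trans h2⟩

theorem gz_shift {n k : ℕ} (hn : 1 ≤ n) (z : Fin d → ℤ) (ω : Cfg d) {b : ℝ≥0} {t : ℝ} :
    Gz n k ω z b t ↔ Gz n 0 (shiftCfg n k z ω) 0 b t :=
  forall_congr' fun _ => exists_congr fun _ => good_shift hn z ω

end gtFQ
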