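import Pool.Agent.Lib.gtFQ.MS

/-! Monotonicity, dependence on coordinates, shift invariance. -/

open scoped NNReal ENNReal

namespace gtFQ

open gtFP

variable {d : ℕ}

/-- Projection of a crossing chain to a smaller depth: replace all cubes by their ancestors
(`nd_anc_mul`, `nd_anc_le`, `nd_anc_ge`, `anc_anc`). -/
theorem isCr_proj {n m m' k : ℕ} (hn : 1 ≤ n) {ω : Cfg d} {z : Fin d → ℤ} {r : ℕ}
    {f : ℕ → Fin d → ℤ} (h : IsCr n (m + m') k ω z r f) :
    IsCr n m k ω z r (fun i => anc n m' (f i)) := by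
  obtain ⟨h1, h2, h3, h4, h5⟩ := h
  refine ⟨?_, ?_, ?_, ?_, ?_⟩
  · rw [anc_anc]
    exact h1
  · intro i hi j hj1 hjm
    have h6 := h2 i hi j hj1 (by omega)
    rw [anc_anc, show m - j + m' = m + m' - j by omega]
    exact h6
  · intro i hi
    exact (nd_anc_le hn _ _).trans (h3 i hi)
  · intro i hi
    apply nd_anc_mul hn
    rw [mul_assoc, ← pow_add]
    exact h4 i hi
  · apply nd_anc_ge hn
    rw [mul_assoc, ← pow_add]
    exact h5

/-- The hits of the projected chain are the hits of the chain (levels `l ≤ m`), so the length does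
not decrease when the depth grows. -/
theorem len_proj {n m m' r : ℕ} {f : ℕ → Fin d → ℤ} (σ : ℕ → (Fin d → ℤ) → ℝ≥0∞) :
    len n m σ r (fun i => anc n m' (f i)) ≤ len n (m + m') σ r f := by
  have e : ∀ l ∈ Finset.range (m + 1), ∑ a ∈ hits n m l r (fun i => anc n m' (f i)), σ l a =
      ∑ a ∈ hits n (m + m') l r f, σ l a := by
    intro l hl
    have hl' : l ≤ m := Nat.lt_succ_iff.1 (Finset.mem_range.1 hl)
    congr 1
    unfold hits
    congr 1
    funext i
    rw [anc_anc, show m - l + m' = m + m' - l by omega]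
  unfold len
  rw [Finset.sum_congr rfl e]
  exact Finset.sum_le_sum_of_subset (Finset.range_mono (by omega))

theorem good_mono_m {n m m' k : ℕ} (hn : 1 ≤ n) (hm : m ≤ m') {ω : Cfg d} {z : Fin d → ℤ}
    {b : ℝ≥0} {t : ℝ} {θ : ℝ≥0∞} (h : Good n m k ω z b t θ) : Good n m' k ω z b t θ := by
  obtain ⟨σ, h1, h2⟩ := h
  obtain ⟨s, rfl⟩ := Nat.exists_eq_add_of_le hm
  exact ⟨σ, fun r f hf => (h1 r _ (isCr_proj hn hf)).trans (len_proj σ), h2⟩

end gtFQ
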