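import Pool.Agent.Lib.gtFQ.MSb1

/-! Subchains. -/

open scoped NNReal ENNReal

namespace gtFQ

open gtFP

variable {d : ℕ}

/-- The length of the subchain for `σ` is at most the length of the chain for the shifted
weights. -/
private theorem len_le_sh {n m M l : ℕ} (hl : l + m ≤ M) {r : ℕ} {f : ℕ → Fin d → ℤ}
    {σ : ℕ → (Fin d → ℤ) → ℝ≥0∞} {r' : ℕ} {idx : ℕ → ℕ} (hidx : ∀ j ≤ r', idx j ≤ r) :
    len n m σ r' (fun j => anc n (M - l - m) (f (idx j))) ≤ len n M (sh l σ) r f := by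
  have h1 : len n m σ r' (fun j => anc n (M - l - m) (f (idx j))) ≤
      ∑ j ∈ Finset.range (m + 1), ∑ a ∈ hits n M (l + j) r f, sh l σ (l + j) a := by
    refine Finset.sum_le_sum fun j hj => ?_
    have hj' : j ≤ m := by
      have := Finset.mem_range.1 hj
      omega
    have h2 : ∀ a, sh l σ (l + j) a = σ j a := by
      intro a
      simp [sh]
    simp only [h2]
    refine Finset.sum_le_sum_of_subset fun a ha => ?_
    obtain ⟨i, hi, hia⟩ := mem_hits.1 ha
    refine mem_hits.2 ⟨idx i, hidx i hi, ?_⟩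
    rw [← hia, anc_anc, show m - j + (M - l - m) = M - (l + j) by omega]
  refine h1.trans ?_
  have h3 : ∑ j ∈ Finset.range (m + 1), ∑ a ∈ hits n M (l + j) r f, sh l σ (l + j) a =
      ∑ l' ∈ Finset.Ico l (l + (m + 1)), ∑ a ∈ hits n M l' r f, sh l σ l' a := by
    rw [Finset.sum_Ico_eq_sum_range]
    simp
  rw [h3]
  refine Finset.sum_le_sum_of_subset fun x hx => ?_
  have := Finset.mem_Ico.1 hx
  exact Finset.mem_range.2 (by omega)

/-- The main lemma for a reparametrised piece of the chain. -/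
private theorem sub_aux {n m k M l : ℕ} (hn : 1 ≤ n) (hl : l + m ≤ M) {ω : Cfg d} {r : ℕ}
    {f : ℕ → Fin d → ℤ} (hLoc : ∀ i ≤ r, Loc n M k ω (f i)) {R : ℕ} {idx : ℕ → ℕ}
    (hidx : ∀ j ≤ R, idx j ≤ r)
    (hst : ∀ j < R, nd (f (idx j)) (f (idx (j + 1))) ≤ 1)
    (hfar : 2 * n ^ m ≤ nd (anc n (M - l - m) (f (idx 0))) (anc n (M - l - m) (f (idx R))))
    {σ : ℕ → (Fin d → ℤ) → ℝ≥0∞} (hσ : Adm n m (k + l) ω (anc n (M - l) (f (idx 0))) σ) :
    1 ≤ len n M (sh l σ) r f := by
  classical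
  have hex : ∃ j, 2 * n ^ m ≤ nd (anc n (M - l - m) (f (idx 0))) (anc n (M - l - m) (f (idx j))) :=
    ⟨R, hfar⟩
  obtain ⟨r', hr'⟩ : ∃ r', r' = Nat.find hex := ⟨_, rfl⟩
  have hspec : 2 * n ^ m ≤
      nd (anc n (M - l - m) (f (idx 0))) (anc n (M - l - m) (f (idx r'))) := by
    rw [hr']
    exact Nat.find_spec hex
  have hr'R : r' ≤ R := by
    rw [hr']
    exact Nat.find_min' hex hfar
  have hmin : ∀ j < r', nd (anc n (M - l - m) (f (idx 0))) (anc n (M - l - m) (f (idx j))) <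
      2 * n ^ m := by
    intro j hj
    rw [hr'] at hj
    exact not_le.1 (Nat.find_min hex hj)
  have hstA : ∀ j < R, nd (anc n (M - l - m) (f (idx j))) (anc n (M - l - m) (f (idx (j + 1)))) ≤ 1 :=
    fun j hj => (nd_anc_le hn _ _).trans (hst j hj)
  have hle : ∀ j ≤ r', nd (anc n (M - l - m) (f (idx 0))) (anc n (M - l - m) (f (idx j))) ≤
      2 * n ^ m := by
    intro j hj
    rcases Nat.lt_or_eq_of_le hj with h | h
    · exact (hmin j h).le
    · subst h
      rcases Nat.eq_zero_or_pos j with h0 | h0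
      · subst h0
        rw [nd_self]
        exact Nat.zero_le _
      · obtain ⟨j', rfl⟩ : ∃ j', j = j' + 1 := ⟨j - 1, by omega⟩
        have h4 := hmin j' (by omega)
        have h5 := hstA j' (by omega)
        have h6 := nd_tri (anc n (M - l - m) (f (idx 0))) (anc n (M - l - m) (f (idx j')))
          (anc n (M - l - m) (f (idx (j' + 1))))
        omega
  have hcr : IsCr n m (k + l) ω (anc n (M - l) (f (idx 0))) r'
      (fun j => anc n (M - l - m) (f (idx j))) := by
    refine ⟨?_, ?_, ?_, hle, hspec⟩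
    · show anc n m (anc n (M - l - m) (f (idx 0))) = _
      rw [anc_anc, show m + (M - l - m) = M - l by omega]
    · intro j hj i hi1 him
      have h7 := hLoc (idx j) (hidx j (hj.trans hr'R)) (l + i) (by omega) (by omega)
      show ω (k + l + i, anc n (m - i) (anc n (M - l - m) (f (idx j)))) = true
      rw [anc_anc, show m - i + (M - l - m) = M - (l + i) by omega, show k + l + i = k + (l + i) by omega]
      exact h7
    · intro j hj
      exact hstA j (by omega)
  exact (hσ r' _ hcr).trans (len_le_sh hl fun j hj => hidx j (hj.trans hr'R))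

/-- Main lemma on subchains. Let `f` be a chain of touching cubes of level `k + M`, kept in the steps
`k+1..k+M`; let `l + m ≤ M`, and let `i₀, i₁ ≤ r` be such that the ancestors of level `k+l+m` of
`f i₀` and `f i₁` have distance at least `2 n^m`. Then the piece of the (projected) chain from `i₀`
towards `i₁` (reversed if `i₁ < i₀`), stopped when it reaches distance `2 n^m`, is a crossing chain of
depth `m` of the ancestor `anc n (M-l) (f i₀)` of level `k + l`, and its hits are hits of `f`. So every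
admissible `σ` for this ancestor gives `1 ≤ len` of the chain `f` for `sh l σ`. -/
theorem sub_len {n m k M l : ℕ} (hn : 1 ≤ n) (hl : l + m ≤ M) {ω : Cfg d} {r : ℕ}
    {f : ℕ → Fin d → ℤ} (hLoc : ∀ i ≤ r, Loc n M k ω (f i))
    (hstep : ∀ i < r, nd (f i) (f (i + 1)) ≤ 1) {i₀ i₁ : ℕ} (h0 : i₀ ≤ r) (h1 : i₁ ≤ r)
    (hfar : 2 * n ^ m ≤ nd (anc n (M - l - m) (f i₀)) (anc n (M - l - m) (f i₁)))
    {σ : ℕ → (Fin d → ℤ) → ℝ≥0∞} (hσ : Adm n m (k + l) ω (anc n (M - l) (f i₀)) σ) :
    1 ≤ len n M (sh l σ) r f := by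
  rcases le_total i₀ i₁ with h | h
  · refine sub_aux (R := i₁ - i₀) (idx := fun j => i₀ + j) hn hl hLoc (fun j hj => by omega)
      (fun j hj => ?_) ?_ ?_
    · exact hstep (i₀ + j) (by omega)
    · show 2 * n ^ m ≤ nd (anc n (M - l - m) (f (i₀ + 0)))
        (anc n (M - l - m) (f (i₀ + (i₁ - i₀))))
      rw [show i₀ + (i₁ - i₀) = i₁ by omega]
      exact hfar
    · exact hσ
  · refine sub_aux (R := i₀ - i₁) (idx := fun j => i₀ - j) hn hl hLoc (fun j hj => by omega)
      (fun j hj => ?_) ?_ ?_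
    · show nd (f (i₀ - j)) (f (i₀ - (j + 1))) ≤ 1
      have h2 := hstep (i₀ - (j + 1)) (by omega)
      rw [show i₀ - (j + 1) + 1 = i₀ - j by omega] at h2
      rw [nd_comm]
      exact h2
    · show 2 * n ^ m ≤ nd (anc n (M - l - m) (f (i₀ - 0)))
        (anc n (M - l - m) (f (i₀ - (i₀ - i₁))))
      rw [show i₀ - (i₀ - i₁) = i₁ by omega]
      exact hfar
    · exact hσ

/-- `sub_len` when the ancestors of level `k + l` have distance at least 3
(if the ancestors of level `k+l+m` had distance `< 2 n^m` then, by `nd_anc_mul`, those of level `k+l`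
would have distance at most 2). -/
theorem sub_len' {n m k M l : ℕ} (hn : 1 ≤ n) (hl : l + m ≤ M) {ω : Cfg d} {r : ℕ}
    {f : ℕ → Fin d → ℤ} (hLoc : ∀ i ≤ r, Loc n M k ω (f i))
    (hstep : ∀ i < r, nd (f i) (f (i + 1)) ≤ 1) {i₀ i₁ : ℕ} (h0 : i₀ ≤ r) (h1 : i₁ ≤ r)
    (hfar : 3 ≤ nd (anc n (M - l) (f i₀)) (anc n (M - l) (f i₁)))
    {σ : ℕ → (Fin d → ℤ) → ℝ≥0∞} (hσ : Adm n m (k + l) ω (anc n (M - l) (f i₀)) σ) :
    1 ≤ len n M (sh l σ) r f := by
  refine sub_len hn hl hLoc hstep h0 h1 ?_ hσ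
  by_contra hc
  have h2 := nd_anc_mul (s := m) hn (not_le.1 hc).le
  rw [anc_anc, anc_anc, show m + (M - l - m) = M - l by omega] at h2
  omega

end gtFQ
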