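import Pool.Agent.Lib.gtFQ.MSa

/-! Subchains. -/

open scoped NNReal ENNReal

namespace gtFQ

open gtFP

variable {d : ℕ}

/-- One can assume that admissible weights are supported near `z`: `σ l a = 0` unless
`nd (anc n l a) z ≤ 2` and `l ≤ m` (the cubes hit by crossing chains satisfy this). -/
theorem good_supp {n m k : ℕ} (hn : 1 ≤ n) {ω : Cfg d} {z : Fin d → ℤ} {b : ℝ≥0} {t : ℝ}
    (ht : 0 < t) {θ : ℝ≥0∞} (h : Good n m k ω z b t θ) :
    ∃ σ : ℕ → (Fin d → ℤ) → ℝ≥0∞, Adm n m k ω z σ ∧ cost b t σ ≤ θ ∧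
      ∀ l a, σ l a ≠ 0 → l ≤ m ∧ nd (anc n l a) z ≤ 2 := by
  classical
  obtain ⟨σ, hA, hc⟩ := h
  refine ⟨fun l a => if l ≤ m ∧ nd (anc n l a) z ≤ 2 then σ l a else 0, ?_, ?_, ?_⟩
  · intro r f hf
    refine (hA r f hf).trans (le_of_eq ?_)
    unfold len
    refine Finset.sum_congr rfl fun l hl => Finset.sum_congr rfl fun a ha => ?_
    have hlm : l ≤ m := by
      have := Finset.mem_range.1 hl
      omega
    obtain ⟨i, hi, rfl⟩ := mem_hits.1 ha
    have h1 : nd (anc n l (anc n (m - l) (f i))) z ≤ 2 := by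
      rw [anc_anc, show l + (m - l) = m by omega, ← hf.1, nd_comm]
      exact nd_anc_mul hn (hf.2.2.2.1 i hi)
    exact (if_pos ⟨hlm, h1⟩).symm
  · refine le_trans ?_ hc
    unfold cost
    refine ENNReal.tsum_le_tsum fun l => ENNReal.tsum_le_tsum fun a => ?_
    refine ENNReal.rpow_le_rpow ?_ ht.le
    dsimp only
    split_ifs with h1
    · exact le_rfl
    · rw [mul_zero]
      exact bot_le
  · intro l a hla
    by_contra h1
    exact hla (if_neg h1)

end gtFQ
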