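import Pool.Agent.Lib.gtFQ.MSa

/-! Subchains. -/

open scoped NNReal ENNReal

namespace gtFQ

open gtFP

variable {d : ℕ}

/-- Discrete intermediate value theorem for an `ℕ`-valued function with steps at most one. -/
theorem exists_eq_of_steps {g : ℕ → ℕ} {i₀ i₁ s : ℕ}
    (hstep : ∀ i, min i₀ i₁ ≤ i → i < max i₀ i₁ → g i ≤ g (i + 1) + 1 ∧ g (i + 1) ≤ g i + 1)
    (h0 : g i₀ ≤ s) (h1 : s ≤ g i₁) : ∃ i, min i₀ i₁ ≤ i ∧ i ≤ max i₀ i₁ ∧ g i = s := by
  classical
  rcases le_or_gt i₀ i₁ with h | h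
  · have hex : ∃ j, s ≤ g (i₀ + j) := ⟨i₁ - i₀, by rw [Nat.add_sub_cancel' h]; exact h1⟩
    have hsp := Nat.find_spec hex
    have hle : Nat.find hex ≤ i₁ - i₀ :=
      Nat.find_min' hex (by rw [Nat.add_sub_cancel' h]; exact h1)
    have hmin : ∀ j, j < Nat.find hex → g (i₀ + j) < s := fun j hj =>
      not_le.1 (Nat.find_min hex hj)
    generalize Nat.find hex = j at hsp hle hmin
    refine ⟨i₀ + j, by omega, by omega, ?_⟩
    rcases Nat.eq_zero_or_pos j with h2 | h2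
    · subst h2
      rw [Nat.add_zero] at hsp ⊢
      omega
    · have h3 := hmin (j - 1) (by omega)
      have h4 := (hstep (i₀ + (j - 1)) (by omega) (by omega)).2
      rw [show i₀ + (j - 1) + 1 = i₀ + j by omega] at h4
      omega
  · have hex : ∃ j, g (i₁ + j) ≤ s := ⟨i₀ - i₁, by rw [Nat.add_sub_cancel' h.le]; exact h0⟩
    have hsp := Nat.find_spec hex
    have hle : Nat.find hex ≤ i₀ - i₁ :=
      Nat.find_min' hex (by rw [Nat.add_sub_cancel' h.le]; exact h0)
    have hmin : ∀ j, j < Nat.find hex → s < g (i₁ + j) := fun j hj =>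
      not_le.1 (Nat.find_min hex hj)
    generalize Nat.find hex = j at hsp hle hmin
    refine ⟨i₁ + j, by omega, by omega, ?_⟩
    rcases Nat.eq_zero_or_pos j with h2 | h2
    · subst h2
      rw [Nat.add_zero] at hsp ⊢
      omega
    · have h3 := hmin (j - 1) (by omega)
      have h4 := (hstep (i₁ + (j - 1)) (by omega) (by omega)).1
      rw [show i₁ + (j - 1) + 1 = i₁ + j by omega] at h4
      omega

/-- Linearity of the length. -/
theorem len_sum {n m r : ℕ} {f : ℕ → Fin d → ℤ} {ι : Type} (I : Finset ι)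
    (σ : ι → ℕ → (Fin d → ℤ) → ℝ≥0∞) (c : ι → ℝ≥0∞) :
    len n m (fun l a => ∑ x ∈ I, c x * σ x l a) r f = ∑ x ∈ I, c x * len n m (σ x) r f := by
  unfold len
  simp only [Finset.mul_sum]
  exact (Finset.sum_congr rfl fun l _ => Finset.sum_comm).trans Finset.sum_comm

/-- Shifted weights: `cost b t (sh l σ) = (b^l)^t * cost b t σ`. -/
theorem cost_sh {l : ℕ} {b : ℝ≥0} {t : ℝ} (ht : 0 < t) (σ : ℕ → (Fin d → ℤ) → ℝ≥0∞) :
    cost b t (sh l σ) = (((b : ℝ≥0∞) ^ l) ^ t) * cost b t σ := by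
  unfold cost
  rw [← Summable.sum_add_tsum_nat_add' (k := l) ENNReal.summable]
  have h1 : ∑ i ∈ Finset.range l, ∑' a : Fin d → ℤ, ((b : ℝ≥0∞) ^ i * sh l σ i a) ^ t = 0 := by
    refine Finset.sum_eq_zero fun i hi => ?_
    have hi' := Finset.mem_range.1 hi
    have h2 : ∀ a : Fin d → ℤ, ((b : ℝ≥0∞) ^ i * sh l σ i a) ^ t = 0 := by
      intro a
      unfold sh
      rw [if_neg (by omega), mul_zero, ENNReal.zero_rpow_of_pos ht]
    simp [h2]
  rw [h1, zero_add, ← ENNReal.tsum_mul_left]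
  refine tsum_congr fun j => ?_
  rw [← ENNReal.tsum_mul_left]
  refine tsum_congr fun a => ?_
  unfold sh
  rw [if_pos (by omega), Nat.add_sub_cancel, ← ENNReal.mul_rpow_of_nonneg _ _ ht.le]
  congr 1
  rw [pow_add]
  ring

end gtFQ
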