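import Pool.Agent.Lib.gtFQ.MSa
import Pool.Agent.Lib.gtFP.MeasB

/-! Probability: measurability, two far apart events, independence over rings. -/

open MeasureTheory ProbabilityTheory Filter Topology
open scoped NNReal ENNReal

namespace gtFQ

open gtFP

variable {d : ℕ}

/-- An event which depends only on finitely many coordinates is measurable for their σ-algebra:
it is the finite union, over the maps `c : I → Bool` which are restrictions of elements of `A`, of the
finite intersections of the events `ω i = c i`. -/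
theorem meas_of_dep {I : Set (ℕ × (Fin d → ℤ))} (hI : I.Finite) {A : Set (Cfg d)}
    (h : ∀ ω ω' : Cfg d, (∀ i ∈ I, ω i = ω' i) → ω ∈ A → ω' ∈ A) : MeasurableSet[sg I] A := by
  classical
  haveI : Finite I := hI
  have h1 : A = ⋃ c ∈ {c : I → Bool | ∃ ω ∈ A, ∀ i : I, ω i.1 = c i},
      ⋂ i : I, {ω : Cfg d | ω i.1 = c i} := by
    ext ω
    simp only [Set.mem_iUnion, Set.mem_iInter, Set.mem_ofPred_eq, exists_prop]
    constructor
    · intro hω
      exact ⟨fun i => ω i.1, ⟨ω, hω, fun i => rfl⟩, fun i => rfl⟩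
    · rintro ⟨c, ⟨ω₀, h0, h1⟩, h2⟩
      exact h ω₀ ω (fun i hi => (h1 ⟨i, hi⟩).trans (h2 ⟨i, hi⟩).symm) h0
  rw [h1]
  refine @MeasurableSet.biUnion _ _ (sg I) _ _ (Set.to_countable _) fun c _ => ?_
  exact @MeasurableSet.iInter _ _ (sg I) _ _ fun i => meas_coord i.2 (c i)

private theorem finite_anc {n : ℕ} (hn : 1 ≤ n) (s : ℕ) (z : Fin d → ℤ) :
    {a : Fin d → ℤ | nd (anc n s a) z ≤ 2}.Finite := by
  refine ((Fintype.piFinset fun t =>
    Finset.Icc ((n : ℤ) ^ s * (z t - 2)) ((n : ℤ) ^ s * (z t + 3))).finite_toSet).subset ?_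
  intro a ha
  rw [Finset.mem_coe, Fintype.mem_piFinset]
  intro t
  rw [Finset.mem_Icc]
  have hpos : (0 : ℤ) < (n : ℤ) ^ s := by positivity
  have h1 := nd_le.1 ha t
  simp only [anc] at h1
  have h2 : z t - 2 ≤ a t / (n : ℤ) ^ s := by omega
  have h3 : a t / (n : ℤ) ^ s ≤ z t + 2 := by omega
  have h4 : (n : ℤ) ^ s * (a t / (n : ℤ) ^ s) + a t % (n : ℤ) ^ s = a t := Int.mul_ediv_add_emod _ _
  have h5 : 0 ≤ a t % (n : ℤ) ^ s := Int.emod_nonneg _ hpos.ne'
  have h6 : a t % (n : ℤ) ^ s < (n : ℤ) ^ s := Int.emod_lt_of_pos _ hpos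
  have h7 := mul_le_mul_of_nonneg_left h2 hpos.le
  have h8 := mul_le_mul_of_nonneg_left h3 hpos.le
  constructor
  · linarith
  · have h9 : (n : ℤ) ^ s * (z t + 3) = (n : ℤ) ^ s * (z t + 2) + (n : ℤ) ^ s := by ring
    linarith

/-- For each of the levels `k < i ≤ k + m` finitely many cubes have their ancestor at distance at most
2 from `z`. -/
theorem finite_LvN {n m k : ℕ} (hn : 1 ≤ n) (z : Fin d → ℤ) : (LvN n k m z).Finite := by
  have h1 : LvN n k m z ⊆ ⋃ l ∈ (Finset.Icc k (k + m) : Finset ℕ),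
      (fun a : Fin d → ℤ => (l, a)) '' {a : Fin d → ℤ | nd (anc n (l - k) a) z ≤ 2} := by
    rintro ⟨l, a⟩ ⟨h2, h3, h4⟩
    simp only [Set.mem_iUnion, exists_prop]
    exact ⟨l, Finset.mem_Icc.2 ⟨le_of_lt h2, h3⟩, a, h4, rfl⟩
  refine Set.Finite.subset ?_ h1
  exact (Finset.Icc k (k + m)).finite_toSet.biUnion fun l _ => (finite_anc hn (l - k) z).image _

theorem LvN_subset {n m k : ℕ} (z : Fin d → ℤ) : LvN n k m z ⊆ LvI n k z :=
  fun _ hi => ⟨hi.1, hi.2.2⟩

end gtFQ
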