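import Pool.Agent.Lib.gtFQ.MSb

/-! The main recursion, deterministic part. -/

open scoped NNReal ENNReal

namespace gtFQ

open gtFP

variable {d : ℕ}

private theorem recD2_hits {n m l r : ℕ} (hn : 1 ≤ n) (hl : l ≤ m) {ω : Cfg d}
    {f : ℕ → Fin d → ℤ} (h : IsCr n m 0 ω 0 r f) : (hits n m l r f).card ≤ (7 * n ^ l) ^ d := by
  classical
  obtain ⟨h0, -, -, h3, -⟩ := h
  have hnl : (0 : ℤ) < (n : ℤ) ^ l := by
    have : (0 : ℤ) < n := by exact_mod_cast hn
    positivity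
  have hsub : hits n m l r f ⊆ Fintype.piFinset fun _ : Fin d =>
      Finset.Ico (-(2 * (n : ℤ) ^ l)) (5 * (n : ℤ) ^ l) := by
    intro a ha
    obtain ⟨i, hi, rfl⟩ := mem_hits.1 ha
    rw [Fintype.mem_piFinset]
    intro t
    have e1 : nd (f 0) (f i) ≤ (2 * n ^ l) * n ^ (m - l) := by
      refine (h3 i hi).trans (le_of_eq ?_)
      rw [mul_assoc, ← pow_add]
      congr 2
      omega
    have e2 := nd_le.1 (nd_anc_mul hn e1) t
    have e3 : anc n l (anc n (m - l) (f 0)) = 0 := by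
      rw [anc_anc]
      have : l + (m - l) = m := by omega
      rw [this]
      exact h0
    have e4 : (anc n (m - l) (f 0)) t / ((n : ℤ) ^ l) = 0 := congrFun e3 t
    have e5 := Int.emod_add_mul_ediv ((anc n (m - l) (f 0)) t) ((n : ℤ) ^ l)
    have e6 := Int.emod_nonneg ((anc n (m - l) (f 0)) t) hnl.ne'
    have e7 := Int.emod_lt_of_pos ((anc n (m - l) (f 0)) t) hnl
    rw [e4, mul_zero, add_zero] at e5
    have e8 : ((((anc n (m - l) (f 0)) t - (anc n (m - l) (f i)) t).natAbs : ℕ) : ℤ) ≤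
        2 * (n : ℤ) ^ l := by
      have := e2
      exact_mod_cast this
    rw [Finset.mem_Ico]
    omega
  refine (Finset.card_le_card hsub).trans (le_of_eq ?_)
  rw [Fintype.card_piFinset_const, Int.card_Ico]
  congr 1
  have : 5 * (n : ℤ) ^ l - -(2 * (n : ℤ) ^ l) = ((7 * n ^ l : ℕ) : ℤ) := by
    push_cast
    ring
  rw [this, Int.toNat_natCast]

private theorem recD2_weight {b : ℝ≥0} (hb : 1 ≤ b) {t : ℝ} (ht : 1 ≤ t) {ε₀ : ℝ≥0∞}
    {σ : ℕ → (Fin d → ℤ) → ℝ≥0∞} (hc : cost b t σ ≤ ε₀) (l : ℕ) (a : Fin d → ℤ) :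
    σ l a ≤ ε₀ ^ (1 / t) := by
  have h1 : ((b : ℝ≥0∞) ^ l * σ l a) ^ t ≤ ε₀ := by
    refine le_trans ?_ hc
    unfold cost
    refine le_trans ?_ (ENNReal.le_tsum l)
    exact ENNReal.le_tsum (f := fun a : Fin d → ℤ => ((b : ℝ≥0∞) ^ l * σ l a) ^ t) a
  have h2 : (b : ℝ≥0∞) ^ l * σ l a ≤ ε₀ ^ (1 / t) :=
    by
      rw [one_div]
      exact (ENNReal.le_rpow_inv_iff (by linarith)).2 h1
  refine le_trans ?_ h2
  have h3 : (1 : ℝ≥0∞) ≤ (b : ℝ≥0∞) ^ l := one_le_pow₀ (by exact_mod_cast hb)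
  calc σ l a = 1 * σ l a := (one_mul _).symm
    _ ≤ (b : ℝ≥0∞) ^ l * σ l a := by gcongr

/-- Removing the low levels: if `σ` is admissible with cost at most `ε₀` (`b ≥ 1`) and
`l₁ (7 n^l₁)^d ε₀^(1/t) ≤ 1/2` then the part of the length in the levels `< l₁` is at most `1/2`:
every weight `σ l a` is at most `ε₀^(1/t)` and a crossing chain of `0` hits at most
`(7 n^l)^d ≤ (7 n^l₁)^d` cubes of level `l` (those with ancestor at distance at most 2 from `0`). -/
theorem len_high {n m l₁ : ℕ} (hn : 1 ≤ n) {ω : Cfg d} {b : ℝ≥0} (hb : 1 ≤ b) {t : ℝ}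
    (ht : 1 ≤ t) {ε₀ : ℝ≥0∞} {σ : ℕ → (Fin d → ℤ) → ℝ≥0∞} (hσ : Adm n m 0 ω 0 σ)
    (hc : cost b t σ ≤ ε₀)
    (hε : (l₁ : ℝ≥0∞) * (((7 * n ^ l₁) ^ d : ℕ) * ε₀ ^ (1 / t)) ≤ 1 / 2) :
    Adm n m 0 ω 0 (fun l a => if l₁ ≤ l then 2 * σ l a else 0) := by
  classical
  intro r f hf
  have h1 := hσ r f hf
  set S : ℕ → ℝ≥0∞ := fun l => ∑ a ∈ hits n m l r f, σ l a with hS
  set M : ℝ≥0∞ := ((7 * n ^ l₁) ^ d : ℕ) * ε₀ ^ (1 / t) with hM
  have hlen : len n m σ r f = (∑ l ∈ (Finset.range (m + 1)).filter (fun l => l < l₁), S l) +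
      ∑ l ∈ (Finset.range (m + 1)).filter (fun l => ¬ l < l₁), S l :=
    (Finset.sum_filter_add_sum_filter_not _ _ _).symm
  have hlow : ∑ l ∈ (Finset.range (m + 1)).filter (fun l => l < l₁), S l ≤ 1 / 2 := by
    refine le_trans ?_ hε
    have h2 : ∀ l ∈ (Finset.range (m + 1)).filter (fun l => l < l₁), S l ≤ M := by
      intro l hl
      rw [Finset.mem_filter, Finset.mem_range] at hl
      calc S l ≤ ∑ a ∈ hits n m l r f, ε₀ ^ (1 / t) :=
            Finset.sum_le_sum fun a _ => recD2_weight hb ht hc l a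
        _ = ((hits n m l r f).card : ℝ≥0∞) * ε₀ ^ (1 / t) := by
            rw [Finset.sum_const, nsmul_eq_mul]
        _ ≤ M := by
            rw [hM]
            gcongr
            refine (recD2_hits hn (by omega) hf).trans ?_
            have : n ^ l ≤ n ^ l₁ := Nat.pow_le_pow_right hn (by omega)
            gcongr
    calc ∑ l ∈ (Finset.range (m + 1)).filter (fun l => l < l₁), S l
        ≤ ∑ l ∈ (Finset.range (m + 1)).filter (fun l => l < l₁), M := Finset.sum_le_sum h2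
      _ = (((Finset.range (m + 1)).filter (fun l => l < l₁)).card : ℝ≥0∞) * M := by
          rw [Finset.sum_const, nsmul_eq_mul]
      _ ≤ (l₁ : ℝ≥0∞) * M := by
          gcongr
          have : (Finset.range (m + 1)).filter (fun l => l < l₁) ⊆ Finset.range l₁ := by
            intro l hl
            rw [Finset.mem_filter] at hl
            exact Finset.mem_range.2 hl.2
          exact (Finset.card_le_card this).trans (le_of_eq (Finset.card_range l₁))
  have hhigh : 1 / 2 ≤ ∑ l ∈ (Finset.range (m + 1)).filter (fun l => ¬ l < l₁), S l := by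
    by_contra hcon
    rw [not_le] at hcon
    have hne : ∑ l ∈ (Finset.range (m + 1)).filter (fun l => l < l₁), S l ≠ ⊤ :=
      ne_of_lt (lt_of_le_of_lt hlow (by norm_num))
    have h3 : len n m σ r f < 1 / 2 + 1 / 2 := by
      rw [hlen]
      exact ENNReal.add_lt_add_of_le_of_lt hne hlow hcon
    rw [ENNReal.add_halves] at h3
    exact absurd h1 (not_le.2 h3)
  have hlen2 : len n m (fun l a => if l₁ ≤ l then 2 * σ l a else 0) r f =
      2 * ∑ l ∈ (Finset.range (m + 1)).filter (fun l => ¬ l < l₁), S l := by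
    unfold len
    rw [Finset.mul_sum, Finset.sum_filter]
    refine Finset.sum_congr rfl fun l _ => ?_
    by_cases hl : l₁ ≤ l
    · rw [if_pos (not_lt.2 hl), hS, Finset.mul_sum]
      exact Finset.sum_congr rfl fun a _ => if_pos hl
    · rw [if_neg (by omega)]
      exact Finset.sum_eq_zero fun a _ => if_neg hl
  rw [hlen2]
  calc (1 : ℝ≥0∞) = 2 * (1 / 2) := by
        rw [one_div, ENNReal.mul_inv_cancel two_ne_zero ENNReal.ofNat_ne_top]
    _ ≤ _ := by gcongr

end gtFQ
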