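import Pool.Agent.Lib.gtFQ.RecD1
import Pool.Agent.Lib.gtFQ.RecD2

/-! The main recursion, deterministic part. -/

open scoped NNReal ENNReal

namespace gtFQ

open gtFP

variable {d : ℕ}

/-- the cubes at distance at most `K` from `c` -/
private noncomputable def rdBall (K : ℕ) (c : Fin d → ℤ) : Finset (Fin d → ℤ) :=
  Fintype.piFinset fun t => Finset.Icc (c t - K) (c t + K)

private theorem mem_rdBall {K : ℕ} {c a : Fin d → ℤ} : a ∈ rdBall K c ↔ nd a c ≤ K := by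
  unfold rdBall
  rw [Fintype.mem_piFinset, nd_le]
  refine forall_congr' fun t => ?_
  rw [Finset.mem_Icc]
  omega

private theorem card_rdBall (K : ℕ) (c : Fin d → ℤ) : (rdBall K c).card = (2 * K + 1) ^ d := by
  unfold rdBall
  rw [Fintype.card_piFinset]
  have h : ∀ t : Fin d, (Finset.Icc (c t - K) (c t + K)).card = 2 * K + 1 := by
    intro t
    rw [Int.card_Icc]
    omega
  rw [Finset.prod_congr rfl fun t _ => h t, Finset.prod_const, Finset.card_univ, Fintype.card_fin]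

/-- the cubes at distance 5 from `b` -/
private noncomputable def rdRing (b : Fin d → ℤ) : Finset (Fin d → ℤ) := (rdBall 5 b).filter fun z => nd z b = 5

private theorem mem_rdRing {b z : Fin d → ℤ} : z ∈ rdRing b ↔ nd z b = 5 := by
  unfold rdRing
  rw [Finset.mem_filter, mem_rdBall]
  omega

private theorem card_rdRing (b : Fin d → ℤ) : (rdRing b).card ≤ 11 ^ d := by
  refine (Finset.card_filter_le _ _).trans (le_of_eq ?_)
  rw [card_rdBall]

/-- the number of cubes with a given ancestor -/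
private theorem rd_fiber {n : ℕ} (hn : 1 ≤ n) (k : ℕ) (b : Fin d → ℤ) (s : Finset (Fin d → ℤ))
    (hs : ∀ a ∈ s, anc n k a = b) : s.card ≤ (n ^ d) ^ k := by
  have hpos : (0 : ℤ) < (n : ℤ) ^ k := by
    have : (0 : ℤ) < n := by exact_mod_cast hn
    positivity
  have hsub : s ⊆ Fintype.piFinset fun t : Fin d =>
      Finset.Ico ((n : ℤ) ^ k * b t) ((n : ℤ) ^ k * b t + (n : ℤ) ^ k) := by
    intro a ha
    rw [Fintype.mem_piFinset]
    intro t
    have e : (a t) / ((n : ℤ) ^ k) = b t := congrFun (hs a ha) t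
    have e1 := Int.emod_add_mul_ediv (a t) ((n : ℤ) ^ k)
    have e2 := Int.emod_nonneg (a t) hpos.ne'
    have e3 := Int.emod_lt_of_pos (a t) hpos
    rw [e] at e1
    rw [Finset.mem_Ico]
    constructor <;> linarith
  refine (Finset.card_le_card hsub).trans (le_of_eq ?_)
  rw [Fintype.card_piFinset]
  have h : ∀ t : Fin d, (Finset.Ico ((n : ℤ) ^ k * b t) ((n : ℤ) ^ k * b t + (n : ℤ) ^ k)).card =
      n ^ k := by
    intro t
    rw [Int.card_Ico]
    have : (n : ℤ) ^ k * b t + (n : ℤ) ^ k - (n : ℤ) ^ k * b t = ((n ^ k : ℕ) : ℤ) := by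
      push_cast
      ring
    rw [this, Int.toNat_natCast]
  rw [Finset.prod_congr rfl fun t _ => h t, Finset.prod_const, Finset.card_univ, Fintype.card_fin]
  exact pow_right_comm n k d

/-- for a fixed cube `(l, a)` and a fixed level `k` only boundedly many pairs contribute -/
private theorem rd_count {n m l : ℕ} {a : Fin d → ℤ}
    (τ : ℕ → (Fin d → ℤ) → ℕ → (Fin d → ℤ) → ℝ≥0∞)
    (hsupp : ∀ L z l a, τ L z l a ≠ 0 → l ≤ m ∧ nd (anc n l a) z ≤ 2)
    (I : Finset ((_ : ℕ × (Fin d → ℤ)) × (Fin d → ℤ)))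
    (hI : ∀ x ∈ I, nd x.2 x.1.2 = 5 ∧ sh x.1.1 (τ x.1.1 x.2) l a ≠ 0) (k : ℕ) :
    (I.filter fun x => x.1.1 = k).card ≤ 5 ^ d * 11 ^ d := by
  classical
  have hsub : (I.filter fun x => x.1.1 = k) ⊆
      ((rdBall 2 (anc n (l - k) a)).sigma fun z => rdBall 5 z).image
        (fun y => (⟨(k, y.2), y.1⟩ : (_ : ℕ × (Fin d → ℤ)) × (Fin d → ℤ))) := by
    rintro ⟨⟨k', b⟩, z⟩ hx
    rw [Finset.mem_filter] at hx
    obtain ⟨hx1, hx2⟩ := hx
    simp only at hx2
    subst hx2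
    obtain ⟨h5, hne⟩ := hI _ hx1
    simp only at h5 hne
    have hk : k' ≤ l := by
      by_contra hcon
      exact hne (if_neg hcon)
    have hne' : τ k' z (l - k') a ≠ 0 := by
      intro h0
      exact hne ((if_pos hk).trans h0)
    have h2 := (hsupp k' z (l - k') a hne').2
    rw [Finset.mem_image]
    refine ⟨⟨z, b⟩, ?_, rfl⟩
    rw [Finset.mem_sigma]
    refine ⟨mem_rdBall.2 ?_, mem_rdBall.2 ?_⟩
    · rw [nd_comm]
      exact h2
    · rw [nd_comm]
      exact h5.le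
  refine (Finset.card_le_card hsub).trans (Finset.card_image_le.trans ?_)
  rw [Finset.card_sigma, Finset.sum_congr rfl fun z _ => card_rdBall 5 z, Finset.sum_const,
    card_rdBall]
  exact le_of_eq rfl

/-- a long chain through `b` crosses the ring around `b` in a cube of the ring -/
private theorem rd_adm {n m m₀ : ℕ} (hn : 2 ≤ n) {ω : Cfg d} {L : ℕ} (hL3 : 3 ≤ L) (hLm : L ≤ m₀)
    {r : ℕ} {f : ℕ → Fin d → ℤ} (hf : IsCr n (m₀ + m) 0 ω 0 r f) {i₀ : ℕ} (hi₀ : i₀ ≤ r)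
    {b : Fin d → ℤ} (hb : anc n (m₀ + m - L) (f i₀) = b)
    (τ : (Fin d → ℤ) → ℕ → (Fin d → ℤ) → ℝ≥0∞)
    (hτ : ∀ z, nd z b = 5 → Adm n m L ω z (τ z)) :
    ∃ z, nd z b = 5 ∧ 1 ≤ len n (m₀ + m) (sh L (τ z)) r f := by
  obtain ⟨-, hloc, hstep, -, hlong⟩ := hf
  have hn1 : 1 ≤ n := by omega
  set g : ℕ → ℕ := fun i => nd (anc n (m₀ + m - L) (f i)) b with hg
  have h8 : 8 ≤ n ^ L := by
    calc 8 = 2 ^ 3 := by norm_num
      _ ≤ n ^ 3 := Nat.pow_le_pow_left hn 3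
      _ ≤ n ^ L := Nat.pow_le_pow_right hn1 hL3
  have hends : 2 * n ^ L ≤ nd (anc n (m₀ + m - L) (f 0)) (anc n (m₀ + m - L) (f r)) := by
    refine nd_anc_ge hn1 ?_
    refine le_trans (le_of_eq ?_) hlong
    rw [mul_assoc, ← pow_add]
    congr 2
    omega
  have htri := nd_tri (anc n (m₀ + m - L) (f 0)) b (anc n (m₀ + m - L) (f r))
  rw [nd_comm b] at htri
  have hex : ∃ i₁ ≤ r, 5 ≤ g i₁ := by
    by_cases h : 5 ≤ g 0
    · exact ⟨0, Nat.zero_le _, h⟩
    · refine ⟨r, le_rfl, ?_⟩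
      have h1 : g 0 = nd (anc n (m₀ + m - L) (f 0)) b := rfl
      have h2 : g r = nd (anc n (m₀ + m - L) (f r)) b := rfl
      omega
  obtain ⟨i₁, hi₁, h5⟩ := hex
  have hg0 : g i₀ = 0 := by
    rw [hg]
    simp only [hb]
    exact nd_self b
  have hst : ∀ i, min i₀ i₁ ≤ i → i < max i₀ i₁ → g i ≤ g (i + 1) + 1 ∧ g (i + 1) ≤ g i + 1 := by
    intro i _ hi
    have hir : i < r := lt_of_lt_of_le hi (max_le hi₀ hi₁)
    have h1 := (nd_anc_le (s := m₀ + m - L) hn1 (f i) (f (i + 1))).trans (hstep i hir)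
    have h2 := nd_tri (anc n (m₀ + m - L) (f i)) (anc n (m₀ + m - L) (f (i + 1))) b
    have h3 := nd_tri (anc n (m₀ + m - L) (f (i + 1))) (anc n (m₀ + m - L) (f i)) b
    rw [nd_comm (anc n (m₀ + m - L) (f (i + 1))) (anc n (m₀ + m - L) (f i))] at h3
    have e1 : g i = nd (anc n (m₀ + m - L) (f i)) b := rfl
    have e2 : g (i + 1) = nd (anc n (m₀ + m - L) (f (i + 1))) b := rfl
    omega
  obtain ⟨i, hi1, hi2, hi5⟩ := exists_eq_of_steps (s := 5) hst (by omega) h5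
  have hir : i ≤ r := hi2.trans (max_le hi₀ hi₁)
  refine ⟨anc n (m₀ + m - L) (f i), hi5, ?_⟩
  refine sub_len' (m := m) (k := 0) (l := L) hn1 (by omega) hloc hstep hir hi₀ ?_ ?_
  · rw [hb]
    have : nd (anc n (m₀ + m - L) (f i)) b = 5 := hi5
    omega
  · rw [zero_add]
    exact hτ _ hi5

/-- MAIN RECURSION, deterministic part (see the memo, step 5).
`σ` = weights of `Good n m₀ 0 ω 0 (c^2) t ε₀`, made to vanish in the levels `< l₁` (`len_high`) and
supported in the levels `≤ m₀` near `0` (`good_supp`). For each cube `(l', a)` with `l₁ ≤ l' ≤ m₀` near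
`0` choose the least `i` of the hypothesis, `h = h₀ i`, `P = anc n h a` (level `l' - h`);
`s(P) = ∑ σ l' a` over the `(l', a)` with this `P` (and level `l' - h` = level of `P`),
`σ' = ∑_P s(P) ∑_{z : nd z P = 5} sh (level P) σ_z`, `σ_z` from `Good n m (level P) ω z 1 t r`.
Admissible: a crossing chain `f` of `0` of depth `m₀ + m` has (projection, `isCr_proj`, `len_proj`)
length at least 1 for `σ`; if it hits `(l', a)` then it has a cube with ancestor `P`; since one of the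
two ends of the chain has distance at least `n^(level P) ≥ 5` from `P` (level `P` `≥ l'/2 ≥ 3`), it has
a cube with ancestor `z`, `nd z P = 5` (`exists_eq_of_steps`), so by `sub_len'` its length for
`sh (level P) σ_z` is at least one. Hence the length for `σ'` is at least
`∑_{P : some (l',a) of P is hit} s(P) ≥ ∑_{(l',a) hit} σ l' a ≥ 1`.
Cost: for fixed `(l'', a'')` at most `5^d 11^d` pairs `(P, z)` of each level contribute
(`good_supp`: `σ_z` is supported near `z`), `hoelder_level` with `c`; then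
`s(P)^t ≤ (2 A)^(t-1) ∑ ((2 n^d)^h σ l' a)^t` by `hoelder_geom` (`D = n^d`, `A = 1`, the number of
`a` with `anc n h a = P` is `n^(d h)`), and `c^(level P) (2 n^d)^h ≤ c^(level P) c^(u' h) ≤ c^(2 l')`
because `h u' ≤ l'`. -/
theorem rec_det (n : ℕ) (hn : 2 ≤ n) {c : ℝ≥0} (hc : 1 < c) {t : ℝ} (ht : 1 ≤ t) :
    ∃ Cst : ℝ≥0, ∀ (u' h₀ l₁ m₀ m : ℕ) (ω : Cfg d) (ε₀ r : ℝ≥0∞),
      2 ≤ u' → ((2 * n ^ d : ℕ) : ℝ≥0∞) ≤ (c : ℝ≥0∞) ^ u' → 6 ≤ l₁ →
      (l₁ : ℝ≥0∞) * (((7 * n ^ l₁) ^ d : ℕ) * ε₀ ^ (1 / t)) ≤ 1 / 2 →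
      Good n m₀ 0 ω 0 (c ^ 2) t ε₀ →
      (∀ l', l₁ ≤ l' → l' ≤ m₀ → ∀ a : Fin d → ℤ, nd (anc n l' a) 0 ≤ 2 →
        ∃ i, h₀ * i * u' ≤ l' ∧ ∀ z, nd z (anc n (h₀ * i) a) = 5 →
          Good n m (l' - h₀ * i) ω z 1 t r) →
      Good n (m₀ + m) 0 ω 0 1 t (Cst * ε₀ * r) := by
  classical
  have ht0 : 0 < t := lt_of_lt_of_le one_pos ht
  have hn1 : 1 ≤ n := by omega
  obtain ⟨C1, hC1⟩ := hoelder_level hc ht (5 ^ d * 11 ^ d)
  refine ⟨C1 * (11 ^ d * (2 ^ (t - 1) * 2 ^ t)), ?_⟩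
  intro u' h₀ l₁ m₀ m ω ε₀ r hu hcu hl₁ hε hgood H
  have hc1 : (1 : ℝ≥0∞) ≤ (c : ℝ≥0∞) := by exact_mod_cast hc.le
  -- the weights `σ`
  obtain ⟨σ0, hA0, hcost0, hsupp0⟩ := good_supp hn1 ht0 hgood
  have hA1 := len_high (l₁ := l₁) hn1 (one_le_pow₀ hc.le : 1 ≤ c ^ 2) ht hA0 hcost0 hε
  set σ1 : ℕ → (Fin d → ℤ) → ℝ≥0∞ := fun l a => if l₁ ≤ l then 2 * σ0 l a else 0 with hσ1
  have hsupp1 : ∀ l a, σ1 l a ≠ 0 → l₁ ≤ l ∧ l ≤ m₀ ∧ nd (anc n l a) 0 ≤ 2 := by
    intro l a h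
    have hl : l₁ ≤ l := by
      by_contra hcon
      exact h (if_neg hcon)
    have h' : σ0 l a ≠ 0 := by
      intro h0
      apply h
      rw [hσ1]
      simp only [if_pos hl, h0, mul_zero]
    exact ⟨hl, hsupp0 l a h'⟩
  have hcost1 : cost (c ^ 2) t σ1 ≤ 2 ^ t * ε₀ := by
    calc cost (c ^ 2) t σ1 ≤ ∑' l : ℕ, ∑' a : Fin d → ℤ,
          2 ^ t * (((c ^ 2 : ℝ≥0) : ℝ≥0∞) ^ l * σ0 l a) ^ t := by
          unfold cost
          refine ENNReal.tsum_le_tsum fun l => ENNReal.tsum_le_tsum fun a => ?_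
          rw [← ENNReal.mul_rpow_of_nonneg _ _ ht0.le]
          refine ENNReal.rpow_le_rpow ?_ ht0.le
          rw [hσ1]
          by_cases hl : l₁ ≤ l
          · simp only [if_pos hl]
            rw [mul_left_comm]
          · simp only [if_neg hl, mul_zero]
            exact bot_le
      _ = 2 ^ t * cost (c ^ 2) t σ0 := by
          unfold cost
          simp only [ENNReal.tsum_mul_left]
      _ ≤ 2 ^ t * ε₀ := by gcongr
  -- the heights
  choose! ih hih using H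
  set hh : ℕ × (Fin d → ℤ) → ℕ := fun p => h₀ * ih p.1 p.2 with hhh
  set PP : ℕ × (Fin d → ℤ) → ℕ × (Fin d → ℤ) := fun p => (p.1 - hh p, anc n (hh p) p.2) with hPP
  -- the finite set of cubes
  set J : Finset (ℕ × (Fin d → ℤ)) := (Finset.Icc l₁ m₀).biUnion fun l =>
    ((Fintype.piFinset fun _ : Fin d => Finset.Ico (-(2 * (n : ℤ) ^ l)) (3 * (n : ℤ) ^ l)).filter
      fun a => nd (anc n l a) 0 ≤ 2).image fun a => (l, a) with hJ
  have memJ : ∀ l a, (l, a) ∈ J ↔ l₁ ≤ l ∧ l ≤ m₀ ∧ nd (anc n l a) 0 ≤ 2 := by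
    intro l a
    rw [hJ, Finset.mem_biUnion]
    constructor
    · rintro ⟨l', hl', ha⟩
      rw [Finset.mem_image] at ha
      obtain ⟨a', ha', he⟩ := ha
      rw [Prod.mk.injEq] at he
      obtain ⟨rfl, rfl⟩ := he
      rw [Finset.mem_Icc] at hl'
      rw [Finset.mem_filter] at ha'
      exact ⟨hl'.1, hl'.2, ha'.2⟩
    · rintro ⟨h1, h2, h3⟩
      refine ⟨l, Finset.mem_Icc.2 ⟨h1, h2⟩, Finset.mem_image.2 ⟨a, ?_, rfl⟩⟩
      rw [Finset.mem_filter]
      refine ⟨?_, h3⟩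
      rw [Fintype.mem_piFinset]
      intro t'
      have hpos : (0 : ℤ) < (n : ℤ) ^ l := by
        have : (0 : ℤ) < n := by exact_mod_cast hn1
        positivity
      have e0 := nd_le.1 h3 t'
      have e4 : anc n l a t' = (a t') / ((n : ℤ) ^ l) := rfl
      rw [e4] at e0
      have e5 : -2 ≤ (a t') / ((n : ℤ) ^ l) ∧ (a t') / ((n : ℤ) ^ l) ≤ 2 := by
        have : ((0 : Fin d → ℤ) t') = 0 := rfl
        rw [this] at e0
        omega
      have e1 := Int.emod_add_mul_ediv (a t') ((n : ℤ) ^ l)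
      have e2 := Int.emod_nonneg (a t') hpos.ne'
      have e3 := Int.emod_lt_of_pos (a t') hpos
      rw [Finset.mem_Ico]
      constructor
      · nlinarith [e5.1]
      · nlinarith [e5.2]
  -- facts on the heights
  have hhJ : ∀ p ∈ J, hh p * u' ≤ p.1 ∧ 6 ≤ p.1 ∧ p.1 ≤ m₀ ∧
      ∀ z, nd z (PP p).2 = 5 → Good n m (PP p).1 ω z 1 t r := by
    rintro ⟨l, a⟩ hp
    obtain ⟨h1, h2, h3⟩ := (memJ l a).1 hp
    obtain ⟨h4, h5⟩ := hih l h1 h2 a h3
    exact ⟨h4, hl₁.trans h1, h2, h5⟩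
  -- the weights of the pieces
  have hτex : ∀ (L : ℕ) (z : Fin d → ℤ), ∃ τ : ℕ → (Fin d → ℤ) → ℝ≥0∞,
      (Good n m L ω z 1 t r → Adm n m L ω z τ) ∧ cost 1 t τ ≤ r ∧
        ∀ l a, τ l a ≠ 0 → l ≤ m ∧ nd (anc n l a) z ≤ 2 := by
    intro L z
    by_cases hG : Good n m L ω z 1 t r
    · obtain ⟨τ, h1, h2, h3⟩ := good_supp hn1 ht0 hG
      exact ⟨τ, fun _ => h1, h2, h3⟩
    · refine ⟨fun _ _ => 0, fun h => absurd h hG, ?_, fun l a h => absurd rfl h⟩
      have : cost (1 : ℝ≥0) t (fun (_ : ℕ) (_ : Fin d → ℤ) => (0 : ℝ≥0∞)) = 0 := by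
        unfold cost
        simp only [mul_zero, ENNReal.zero_rpow_of_pos ht0, tsum_zero]
      rw [this]
      exact bot_le
  choose τ hτA hτc hτs using hτex
  set s : ℕ × (Fin d → ℤ) → ℝ≥0∞ := fun P => ∑ p ∈ J.filter fun p => PP p = P, σ1 p.1 p.2 with hs
  set Im : Finset (ℕ × (Fin d → ℤ)) := J.image PP with hIm
  set I : Finset ((_ : ℕ × (Fin d → ℤ)) × (Fin d → ℤ)) := Im.sigma fun P => rdRing P.2 with hI
  refine ⟨fun l a => ∑ x ∈ I, s x.1 * sh x.1.1 (τ x.1.1 x.2) l a, ?_, ?_⟩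
  · -- admissibility
    intro r' f hf
    rw [len_sum I (fun x => sh x.1.1 (τ x.1.1 x.2)) (fun x => s x.1)]
    set W : ℕ × (Fin d → ℤ) → ℝ≥0∞ := fun P =>
      ∑ z ∈ rdRing P.2, len n (m₀ + m) (sh P.1 (τ P.1 z)) r' f with hW
    have e1 : ∑ x ∈ I, s x.1 * len n (m₀ + m) (sh x.1.1 (τ x.1.1 x.2)) r' f =
        ∑ p ∈ J, σ1 p.1 p.2 * W (PP p) := by
      rw [hI, Finset.sum_sigma]
      rw [← Finset.sum_fiberwise_of_maps_to (s := J) (t := Im) (g := PP)
        (fun p hp => Finset.mem_image_of_mem _ hp)]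
      refine Finset.sum_congr rfl fun P _ => ?_
      show ∑ z ∈ rdRing P.2, s P * len n (m₀ + m) (sh P.1 (τ P.1 z)) r' f = _
      rw [← Finset.mul_sum]
      show s P * W P = _
      rw [hs, Finset.sum_mul]
      refine Finset.sum_congr rfl fun p hp => ?_
      rw [(Finset.mem_filter.1 hp).2]
    rw [e1]
    have h1 := hA1 r' _ (isCr_proj hn1 hf)
    refine h1.trans ?_
    have key : ∀ l a, l ≤ m₀ → a ∈ hits n m₀ l r' (fun i => anc n m (f i)) → σ1 l a ≠ 0 →
        (l, a) ∈ J ∧ 1 ≤ W (PP (l, a)) := by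
      intro l a hl ha hne
      have hpJ : (l, a) ∈ J := (memJ l a).2 (hsupp1 l a hne)
      refine ⟨hpJ, ?_⟩
      obtain ⟨h2, h3, h4, h5⟩ := hhJ _ hpJ
      simp only at h2 h3 h4
      obtain ⟨i₀, hi₀, hia⟩ := mem_hits.1 ha
      have hh2 : hh (l, a) * 2 ≤ l := (Nat.mul_le_mul_left _ hu).trans h2
      have hb : anc n (m₀ + m - (l - hh (l, a))) (f i₀) = anc n (hh (l, a)) a := by
        obtain ⟨k, hk⟩ : ∃ k, hh (l, a) = k := ⟨_, rfl⟩
        rw [hk] at hh2 ⊢
        rw [← hia, anc_anc, anc_anc]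
        congr 1
        omega
      obtain ⟨z, hz, hz1⟩ := rd_adm (m := m) hn (L := l - hh (l, a)) (by omega) (by omega) hf hi₀ hb
        (fun z => τ (l - hh (l, a)) z) (fun z hz => hτA _ _ (h5 z hz))
      refine hz1.trans ?_
      rw [hW]
      exact Finset.single_le_sum
        (f := fun z => len n (m₀ + m) (sh (l - hh (l, a)) (τ (l - hh (l, a)) z)) r' f)
        (fun _ _ => bot_le) (mem_rdRing.2 hz)
    -- the sum over the hits as a sum over a finite set of pairs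
    have e2 : len n m₀ σ1 r' (fun i => anc n m (f i)) =
        ∑ p ∈ (Finset.range (m₀ + 1)).biUnion (fun l =>
          (hits n m₀ l r' (fun i => anc n m (f i))).image fun a => (l, a)), σ1 p.1 p.2 := by
      unfold len
      rw [Finset.sum_biUnion]
      · refine Finset.sum_congr rfl fun l _ => ?_
        rw [Finset.sum_image]
        intro a _ a' _ h
        exact (Prod.mk.inj h).2
      · intro l _ l' _ hll
        rw [Function.onFun, Finset.disjoint_left]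
        intro p hp hp'
        rw [Finset.mem_image] at hp hp'
        obtain ⟨a, _, rfl⟩ := hp
        obtain ⟨a', _, he⟩ := hp'
        exact hll (Prod.mk.inj he).1.symm
    show len n m₀ σ1 r' (fun i => anc n m (f i)) ≤ _
    rw [e2]
    set U := (Finset.range (m₀ + 1)).biUnion (fun l =>
          (hits n m₀ l r' (fun i => anc n m (f i))).image fun a => (l, a)) with hU
    have e3 : ∑ p ∈ U, σ1 p.1 p.2 = ∑ p ∈ U.filter (fun p => σ1 p.1 p.2 ≠ 0), σ1 p.1 p.2 := by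
      rw [Finset.sum_filter_of_ne]
      intro p _ h
      exact h
    rw [e3]
    have key2 : ∀ p ∈ U.filter (fun p => σ1 p.1 p.2 ≠ 0), p ∈ J ∧ 1 ≤ W (PP p) := by
      rintro ⟨l, a⟩ hp
      rw [Finset.mem_filter, hU, Finset.mem_biUnion] at hp
      obtain ⟨⟨l', hl', hp⟩, hne⟩ := hp
      rw [Finset.mem_image] at hp
      obtain ⟨a', ha', he⟩ := hp
      rw [Prod.mk.injEq] at he
      obtain ⟨rfl, rfl⟩ := he
      exact key l' a' (by have := Finset.mem_range.1 hl'; omega) ha' hne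
    calc ∑ p ∈ U.filter (fun p => σ1 p.1 p.2 ≠ 0), σ1 p.1 p.2
        ≤ ∑ p ∈ U.filter (fun p => σ1 p.1 p.2 ≠ 0), σ1 p.1 p.2 * W (PP p) := by
          refine Finset.sum_le_sum fun p hp => ?_
          exact le_mul_of_one_le_right' (key2 p hp).2
      _ ≤ ∑ p ∈ J, σ1 p.1 p.2 * W (PP p) :=
          Finset.sum_le_sum_of_subset fun p hp => (key2 p hp).1
  · -- the cost
    have hx : ∀ (l : ℕ) (a : Fin d → ℤ),
        (∑ x ∈ I, s x.1 * sh x.1.1 (τ x.1.1 x.2) l a) ^ t ≤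
          C1 * ∑ x ∈ I, ((c : ℝ≥0∞) ^ x.1.1 * s x.1) ^ t * (sh x.1.1 (τ x.1.1 x.2) l a) ^ t := by
      intro l a
      set I0 := I.filter fun x => sh x.1.1 (τ x.1.1 x.2) l a ≠ 0 with hI0
      have e1 : ∑ x ∈ I, s x.1 * sh x.1.1 (τ x.1.1 x.2) l a =
          ∑ x ∈ I0, s x.1 * sh x.1.1 (τ x.1.1 x.2) l a := by
        rw [hI0, Finset.sum_filter_of_ne]
        intro x _ h h0
        exact h (by rw [h0, mul_zero])
      rw [e1]
      refine (hC1 I0 _ (fun x => x.1.1) fun k => ?_).trans ?_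
      · refine rd_count (n := n) (m := m) (l := l) (a := a) τ hτs I0 (fun x hx => ?_) k
        rw [hI0, Finset.mem_filter, hI, Finset.mem_sigma] at hx
        exact ⟨mem_rdRing.1 hx.1.2, hx.2⟩
      · gcongr
        refine (Finset.sum_le_sum_of_subset (Finset.filter_subset _ _)).trans (le_of_eq ?_)
        refine Finset.sum_congr rfl fun x _ => ?_
        rw [← mul_assoc, ENNReal.mul_rpow_of_nonneg _ _ ht0.le]
    have h2 : cost 1 t (fun l a => ∑ x ∈ I, s x.1 * sh x.1.1 (τ x.1.1 x.2) l a) ≤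
        C1 * ∑ x ∈ I, ((c : ℝ≥0∞) ^ x.1.1 * s x.1) ^ t * r := by
      calc cost 1 t (fun l a => ∑ x ∈ I, s x.1 * sh x.1.1 (τ x.1.1 x.2) l a)
          ≤ ∑' l : ℕ, ∑' a : Fin d → ℤ,
            C1 * ∑ x ∈ I, ((c : ℝ≥0∞) ^ x.1.1 * s x.1) ^ t * (sh x.1.1 (τ x.1.1 x.2) l a) ^ t := by
            unfold cost
            refine ENNReal.tsum_le_tsum fun l => ENNReal.tsum_le_tsum fun a => ?_
            rw [ENNReal.coe_one, one_pow, one_mul]
            exact hx l a
        _ = C1 * ∑ x ∈ I, ((c : ℝ≥0∞) ^ x.1.1 * s x.1) ^ t *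
              ∑' l : ℕ, ∑' a : Fin d → ℤ, (sh x.1.1 (τ x.1.1 x.2) l a) ^ t := by
            simp only [ENNReal.tsum_mul_left]
            congr 1
            have e3 : ∀ l : ℕ, ∑' a : Fin d → ℤ, ∑ x ∈ I, ((c : ℝ≥0∞) ^ x.1.1 * s x.1) ^ t *
                (sh x.1.1 (τ x.1.1 x.2) l a) ^ t = ∑ x ∈ I, ∑' a : Fin d → ℤ,
                ((c : ℝ≥0∞) ^ x.1.1 * s x.1) ^ t * (sh x.1.1 (τ x.1.1 x.2) l a) ^ t :=
              fun l => Summable.tsum_finsetSum fun _ _ => ENNReal.summable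
            simp only [e3]
            rw [Summable.tsum_finsetSum fun _ _ => ENNReal.summable]
            simp only [ENNReal.tsum_mul_left]
        _ ≤ C1 * ∑ x ∈ I, ((c : ℝ≥0∞) ^ x.1.1 * s x.1) ^ t * r := by
            gcongr with x hxI
            have e4 := cost_sh (l := x.1.1) (b := 1) ht0 (τ x.1.1 x.2)
            rw [ENNReal.coe_one, one_pow, ENNReal.one_rpow, one_mul] at e4
            have e5 := hτc x.1.1 x.2
            rw [← e4] at e5
            unfold cost at e5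
            simpa only [ENNReal.coe_one, one_pow, one_mul] using e5
    refine h2.trans ?_
    -- the sum over the ring
    have h3 : ∑ x ∈ I, ((c : ℝ≥0∞) ^ x.1.1 * s x.1) ^ t * r ≤
        11 ^ d * (∑ P ∈ Im, ((c : ℝ≥0∞) ^ P.1 * s P) ^ t) * r := by
      rw [hI, Finset.sum_sigma, Finset.mul_sum, Finset.sum_mul]
      refine Finset.sum_le_sum fun P _ => ?_
      show ∑ _z ∈ rdRing P.2, ((c : ℝ≥0∞) ^ P.1 * s P) ^ t * r ≤ _
      rw [Finset.sum_const, nsmul_eq_mul, mul_assoc]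
      gcongr
      exact_mod_cast card_rdRing P.2
    -- Hoelder for each `P`
    have h4 : ∀ P ∈ Im, ((c : ℝ≥0∞) ^ P.1 * s P) ^ t ≤
        2 ^ (t - 1) * ∑ p ∈ J.filter (fun p => PP p = P),
          (((c ^ 2 : ℝ≥0) : ℝ≥0∞) ^ p.1 * σ1 p.1 p.2) ^ t := by
      intro P _
      have h5 := hoelder_geom (J.filter fun p => PP p = P) (fun p => σ1 p.1 p.2) hh ht 1 (n ^ d)
        (Nat.one_le_pow _ _ hn1) le_rfl (by
          intro k
          rw [one_mul]
          refine le_trans ?_ (rd_fiber hn1 k P.2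
            (((J.filter fun p => PP p = P).filter fun p => hh p = k).image Prod.snd) ?_)
          · rw [Finset.card_image_of_injOn]
            rintro ⟨l, a⟩ hp ⟨l', a'⟩ hp' he
            simp only at he
            subst he
            rw [Finset.mem_coe, Finset.mem_filter, Finset.mem_filter] at hp hp'
            have q1 : l - hh (l, a) = P.1 := congrArg Prod.fst hp.1.2
            have q2 : l' - hh (l', a) = P.1 := congrArg Prod.fst hp'.1.2
            have q3 := (hhJ _ hp.1.1).1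
            have q4 := (hhJ _ hp'.1.1).1
            simp only at q3 q4
            have q5 : hh (l, a) ≤ hh (l, a) * u' := Nat.le_mul_of_pos_right _ (by omega)
            have q6 : hh (l', a) ≤ hh (l', a) * u' := Nat.le_mul_of_pos_right _ (by omega)
            have q7 := hp.2
            have q8 := hp'.2
            have : l = l' := by omega
            rw [this]
          · intro a ha
            rw [Finset.mem_image] at ha
            obtain ⟨p, hp, rfl⟩ := ha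
            rw [Finset.mem_filter, Finset.mem_filter] at hp
            rw [← hp.2]
            exact congrArg Prod.snd hp.1.2)
      rw [mul_one, Nat.cast_ofNat] at h5
      rw [ENNReal.mul_rpow_of_nonneg _ _ ht0.le]
      calc ((c : ℝ≥0∞) ^ P.1) ^ t * s P ^ t
          ≤ ((c : ℝ≥0∞) ^ P.1) ^ t * (2 ^ (t - 1) * ∑ p ∈ J.filter (fun p => PP p = P),
            (((2 * n ^ d : ℕ) : ℝ≥0∞) ^ hh p * σ1 p.1 p.2) ^ t) := by
            gcongr
        _ = 2 ^ (t - 1) * ∑ p ∈ J.filter (fun p => PP p = P),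
            ((c : ℝ≥0∞) ^ P.1 * (((2 * n ^ d : ℕ) : ℝ≥0∞) ^ hh p * σ1 p.1 p.2)) ^ t := by
            rw [mul_left_comm, Finset.mul_sum]
            congr 1
            refine Finset.sum_congr rfl fun p _ => ?_
            rw [ENNReal.mul_rpow_of_nonneg ((c : ℝ≥0∞) ^ P.1) _ ht0.le]
        _ ≤ _ := by
            refine mul_le_mul' le_rfl (Finset.sum_le_sum fun p hp => ENNReal.rpow_le_rpow ?_ ht0.le)
            rw [Finset.mem_filter] at hp
            rw [← mul_assoc]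
            refine mul_le_mul' ?_ le_rfl
            have q1 : p.1 - hh p = P.1 := congrArg Prod.fst hp.2
            have q3 := (hhJ _ hp.1).1
            rw [← q1]
            calc (c : ℝ≥0∞) ^ (p.1 - hh p) * ((2 * n ^ d : ℕ) : ℝ≥0∞) ^ hh p
                ≤ (c : ℝ≥0∞) ^ (p.1 - hh p) * ((c : ℝ≥0∞) ^ u') ^ hh p := by gcongr
              _ = (c : ℝ≥0∞) ^ (p.1 - hh p + u' * hh p) := by rw [← pow_mul, ← pow_add]
              _ ≤ (c : ℝ≥0∞) ^ (2 * p.1) := by
                  refine pow_le_pow_right₀ hc1 ?_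
                  rw [mul_comm u']
                  omega
              _ = ((c ^ 2 : ℝ≥0) : ℝ≥0∞) ^ p.1 := by
                  rw [ENNReal.coe_pow, ← pow_mul]
    have h6 : ∑ P ∈ Im, ((c : ℝ≥0∞) ^ P.1 * s P) ^ t ≤ 2 ^ (t - 1) * (2 ^ t * ε₀) := by
      calc ∑ P ∈ Im, ((c : ℝ≥0∞) ^ P.1 * s P) ^ t
          ≤ ∑ P ∈ Im, 2 ^ (t - 1) * ∑ p ∈ J.filter (fun p => PP p = P),
            (((c ^ 2 : ℝ≥0) : ℝ≥0∞) ^ p.1 * σ1 p.1 p.2) ^ t := Finset.sum_le_sum h4
        _ = 2 ^ (t - 1) * ∑ p ∈ J, (((c ^ 2 : ℝ≥0) : ℝ≥0∞) ^ p.1 * σ1 p.1 p.2) ^ t := by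
            rw [← Finset.mul_sum]
            congr 1
            exact Finset.sum_fiberwise_of_maps_to (s := J) (t := Im) (g := PP)
              (fun p hp => Finset.mem_image_of_mem _ hp) _
        _ ≤ 2 ^ (t - 1) * cost (c ^ 2) t σ1 := by
            gcongr
            unfold cost
            rw [← ENNReal.tsum_prod]
            exact ENNReal.sum_le_tsum (f := fun p : ℕ × (Fin d → ℤ) =>
              (((c ^ 2 : ℝ≥0) : ℝ≥0∞) ^ p.1 * σ1 p.1 p.2) ^ t) J
        _ ≤ _ := by gcongr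
    calc (C1 : ℝ≥0∞) * ∑ x ∈ I, ((c : ℝ≥0∞) ^ x.1.1 * s x.1) ^ t * r
        ≤ C1 * (11 ^ d * (2 ^ (t - 1) * (2 ^ t * ε₀)) * r) := by
          gcongr
          refine h3.trans ?_
          gcongr
      _ = ((C1 * (11 ^ d * (2 ^ (t - 1) * 2 ^ t)) : ℝ≥0) : ℝ≥0∞) * ε₀ * r := by
          push_cast
          rw [ENNReal.coe_rpow_of_nonneg _ (by linarith : 0 ≤ t - 1),
            ENNReal.coe_rpow_of_nonneg _ ht0.le]
          push_cast
          ring

end gtFQ
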