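import Pool.Agent.Lib.gtFQ.MSb

/-! The main recursion, deterministic part. -/

open scoped NNReal ENNReal

namespace gtFQ

open gtFP

variable {d : ℕ}

private theorem hoelder_aux {ι : Type} (I : Finset ι) (x v : ι → ℝ≥0∞) {t : ℝ} (ht : 1 ≤ t)
    {B : ℝ≥0∞} (hv0 : ∀ i, v i ≠ 0) (hv1 : ∀ i, v i ≤ 1) (hB : ∑ i ∈ I, v i ≤ B) :
    (∑ i ∈ I, x i) ^ t ≤ B ^ (t - 1) * ∑ i ∈ I, ((v i)⁻¹ * x i) ^ t := by
  have ht0 : 0 < t := lt_of_lt_of_le one_pos ht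
  have h1 := ENNReal.inner_le_weight_mul_Lp_of_nonneg I ht v fun i => (v i)⁻¹ * x i
  have h2 : ∑ i ∈ I, v i * ((v i)⁻¹ * x i) = ∑ i ∈ I, x i := by
    refine Finset.sum_congr rfl fun i _ => ?_
    rw [← mul_assoc, ENNReal.mul_inv_cancel (hv0 i) ((hv1 i).trans_lt ENNReal.one_lt_top).ne,
      one_mul]
  rw [h2] at h1
  calc (∑ i ∈ I, x i) ^ t
      ≤ ((∑ i ∈ I, v i) ^ (1 - t⁻¹) * (∑ i ∈ I, v i * ((v i)⁻¹ * x i) ^ t) ^ t⁻¹) ^ t :=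
        ENNReal.rpow_le_rpow h1 ht0.le
    _ = (∑ i ∈ I, v i) ^ (t - 1) * ∑ i ∈ I, v i * ((v i)⁻¹ * x i) ^ t := by
        rw [ENNReal.mul_rpow_of_nonneg _ _ ht0.le, ← ENNReal.rpow_mul, ← ENNReal.rpow_mul,
          inv_mul_cancel₀ ht0.ne', ENNReal.rpow_one, sub_mul, one_mul, inv_mul_cancel₀ ht0.ne']
    _ ≤ B ^ (t - 1) * ∑ i ∈ I, ((v i)⁻¹ * x i) ^ t := by
        refine mul_le_mul' (ENNReal.rpow_le_rpow hB (by linarith)) (Finset.sum_le_sum fun i _ => ?_)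
        exact mul_le_of_le_one_left' (hv1 i)

private theorem hoelder_sum {ι : Type} (I : Finset ι) (h : ι → ℕ) (g : ℕ → ℝ≥0∞) (A : ℝ≥0∞)
    (u : ℝ≥0∞) (hg : ∀ k, ((I.filter fun i => h i = k).card : ℝ≥0∞) * g k ≤ A * u ^ k) :
    ∑ i ∈ I, g (h i) ≤ A * (1 - u)⁻¹ := by
  classical
  calc ∑ i ∈ I, g (h i) = ∑ k ∈ I.image h, (I.filter fun i => h i = k).card • g k :=
        Finset.sum_comp g h
    _ ≤ ∑ k ∈ I.image h, A * u ^ k := by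
        refine Finset.sum_le_sum fun k _ => ?_
        rw [nsmul_eq_mul]
        exact hg k
    _ ≤ ∑' k, A * u ^ k := ENNReal.sum_le_tsum _
    _ = A * (1 - u)⁻¹ := by rw [ENNReal.tsum_mul_left, ENNReal.tsum_geometric]

/-- Hoelder with geometric weights: if at most `A n'^h`... in the form: a finite family `x`, heights
`h`, at most `A * D^k` indices of height `k`; then
`(∑ x)^t ≤ (2 A)^(t-1) * ∑ ((2 D)^h x)^t` for `t ≥ 1`, `D ≥ 1`.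
(Hoelder: `∑ x = ∑ (2D)^{-h} ((2D)^h x) ≤ (∑ (2D)^{-h t'})^{1/t'} (∑ ((2D)^h x)^t)^{1/t}` and
`∑ (2D)^{-h t'} ≤ ∑_k A D^k (2D)^{-k} = 2 A`; for `t = 1` trivial.) -/
theorem hoelder_geom {ι : Type} (I : Finset ι) (x : ι → ℝ≥0∞) (h : ι → ℕ) {t : ℝ} (ht : 1 ≤ t)
    (A D : ℕ) (hD : 1 ≤ D) (hA : 1 ≤ A)
    (hcard : ∀ k, (I.filter fun i => h i = k).card ≤ A * D ^ k) :
    (∑ i ∈ I, x i) ^ t ≤ ((2 * A : ℕ) : ℝ≥0∞) ^ (t - 1) *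
      ∑ i ∈ I, (((2 * D : ℕ) : ℝ≥0∞) ^ (h i) * x i) ^ t := by
  have hD0 : ((2 * D : ℕ) : ℝ≥0∞) ≠ 0 := by
    rw [Nat.cast_ne_zero]
    omega
  have hDt : ((2 * D : ℕ) : ℝ≥0∞) ≠ ⊤ := ENNReal.natCast_ne_top _
  have h1D : (1 : ℝ≥0∞) ≤ ((2 * D : ℕ) : ℝ≥0∞) := by
    rw [Nat.one_le_cast]
    omega
  have hsum := hoelder_sum I h (fun k => (((2 * D : ℕ) : ℝ≥0∞) ^ k)⁻¹) A 2⁻¹ (by
    intro k
    have e1 : (D : ℝ≥0∞) ^ k * (((2 * D : ℕ) : ℝ≥0∞) ^ k)⁻¹ = (2⁻¹ : ℝ≥0∞) ^ k := by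
      rw [ENNReal.inv_pow, ← mul_pow]
      congr 1
      rw [Nat.cast_mul, ENNReal.mul_inv (Or.inl (by simp)) (Or.inl (by simp)), mul_comm, mul_assoc,
        ENNReal.inv_mul_cancel (by rw [Nat.cast_ne_zero]; omega) (ENNReal.natCast_ne_top _),
        mul_one]
      rfl
    calc ((I.filter fun i => h i = k).card : ℝ≥0∞) * (((2 * D : ℕ) : ℝ≥0∞) ^ k)⁻¹
        ≤ ((A * D ^ k : ℕ) : ℝ≥0∞) * (((2 * D : ℕ) : ℝ≥0∞) ^ k)⁻¹ :=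
          mul_le_mul_left (Nat.cast_le.2 (hcard k)) _
      _ = (A : ℝ≥0∞) * 2⁻¹ ^ k := by
          rw [Nat.cast_mul, Nat.cast_pow, mul_assoc, e1])
  have e2 : (A : ℝ≥0∞) * (1 - 2⁻¹)⁻¹ = ((2 * A : ℕ) : ℝ≥0∞) := by
    rw [ENNReal.one_sub_inv_two, inv_inv, Nat.cast_mul, mul_comm]
    rfl
  rw [e2] at hsum
  have := hoelder_aux I x (fun i => (((2 * D : ℕ) : ℝ≥0∞) ^ h i)⁻¹) ht
    (fun i => ENNReal.inv_ne_zero.2 (ENNReal.pow_ne_top hDt))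
    (fun i => ENNReal.inv_le_one.2 (one_le_pow₀ h1D)) hsum
  simpa only [inv_inv] using this

/-- Hoelder over levels with a slack `c > 1`: at most `A` indices of each height; then
`(∑ x)^t ≤ C * ∑ (c^h x)^t` with a constant `C = C(A, c, t)`. -/
theorem hoelder_level {c : ℝ≥0} (hc : 1 < c) {t : ℝ} (ht : 1 ≤ t) (A : ℕ) :
    ∃ C : ℝ≥0, ∀ {ι : Type} (I : Finset ι) (x : ι → ℝ≥0∞) (h : ι → ℕ),
      (∀ k, (I.filter fun i => h i = k).card ≤ A) →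
      (∑ i ∈ I, x i) ^ t ≤ C * ∑ i ∈ I, ((c : ℝ≥0∞) ^ (h i) * x i) ^ t := by
  have hc0 : c ≠ 0 := (lt_trans one_pos hc).ne'
  have hc1 : c⁻¹ < 1 := inv_lt_one_of_one_lt₀ hc
  refine ⟨((A : ℝ≥0) * (1 - c⁻¹)⁻¹) ^ (t - 1), ?_⟩
  intro ι I x h hcard
  have hsum := hoelder_sum I h (fun k => ((c : ℝ≥0∞) ^ k)⁻¹) A (c : ℝ≥0∞)⁻¹ (by
    intro k
    rw [ENNReal.inv_pow]
    exact mul_le_mul_left (Nat.cast_le.2 (hcard k)) _)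
  have e2 : (A : ℝ≥0∞) * (1 - (c : ℝ≥0∞)⁻¹)⁻¹ = (((A : ℝ≥0) * (1 - c⁻¹)⁻¹ : ℝ≥0) : ℝ≥0∞) := by
    rw [ENNReal.coe_mul, ENNReal.coe_natCast, ENNReal.coe_inv (tsub_pos_of_lt hc1).ne',
      ENNReal.coe_sub, ENNReal.coe_one, ENNReal.coe_inv hc0]
  rw [e2] at hsum
  have := hoelder_aux I x (fun i => ((c : ℝ≥0∞) ^ h i)⁻¹) ht
    (fun i => ENNReal.inv_ne_zero.2 (ENNReal.pow_ne_top ENNReal.coe_ne_top))
    (fun i => ENNReal.inv_le_one.2 (one_le_pow₀ (by exact_mod_cast hc.le))) hsum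
  rw [ENNReal.coe_rpow_of_nonneg _ (by linarith)]
  simpa only [inv_inv] using this

end gtFQ
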