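import Pool.Agent.Lib.gtFQ.MSb

/-! Shells: if the bad subcubes of level `j` are close together then some shell is clean, and weights of
the cubes of a clean shell give weights for the big cube. -/

open scoped NNReal ENNReal

namespace gtFQ

open gtFP

variable {d : ℕ}

/-- the cubes of level `j` whose ancestor of level `0` is at distance at most 3 from `0` -/
noncomputable def blk (d n j : ℕ) : Finset (Fin d → ℤ) :=
  Fintype.piFinset fun _ => Finset.Ico (-3 * (n : ℤ) ^ j) (4 * (n : ℤ) ^ j)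

theorem mem_blk {n j : ℕ} (hn : 1 ≤ n) {a : Fin d → ℤ} : a ∈ blk d n j ↔ nd (anc n j a) 0 ≤ 3 := by
  have hpos : (0 : ℤ) < (n : ℤ) ^ j := by positivity
  simp only [blk, Fintype.mem_piFinset, Finset.mem_Ico, nd_le]
  refine forall_congr' fun t => ?_
  have h1 : -3 * (n : ℤ) ^ j ≤ a t ↔ -3 ≤ a t / (n : ℤ) ^ j := (Int.le_ediv_iff_mul_le hpos).symm
  have h2 : a t < 4 * (n : ℤ) ^ j ↔ a t / (n : ℤ) ^ j < 4 := (Int.ediv_lt_iff_lt_mul hpos).symm
  rw [h1, h2]
  simp only [anc, Pi.zero_apply]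
  omega

theorem card_blk (n j : ℕ) : (blk d n j).card = (7 * n ^ j) ^ d := by
  simp only [blk, Fintype.card_piFinset, Int.card_Ico]
  have h : (4 * (n : ℤ) ^ j - -3 * (n : ℤ) ^ j).toNat = 7 * n ^ j := by
    have e : 4 * (n : ℤ) ^ j - -3 * (n : ℤ) ^ j = ((7 * n ^ j : ℕ) : ℤ) := by
      push_cast
      ring
    rw [e, Int.toNat_natCast]
  rw [h]
  simp

/-- distance of a cube of level `j` to the cube `0` of level `0` -/
def dB (n j : ℕ) (a : Fin d → ℤ) : ℕ :=
  Finset.univ.sup fun t => (max (-(a t)) (max (a t - ((n : ℤ) ^ j - 1)) 0)).toNat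

private theorem dB_le_iff {n j : ℕ} {a : Fin d → ℤ} {K : ℕ} :
    dB n j a ≤ K ↔ ∀ t, (max (-(a t)) (max (a t - ((n : ℤ) ^ j - 1)) 0)).toNat ≤ K := by
  simp [dB]

/-- 1-Lipschitz -/
theorem dB_le (n j : ℕ) (a b : Fin d → ℤ) : dB n j a ≤ dB n j b + nd a b := by
  rw [dB_le_iff]
  intro t
  have h1 := dB_le_iff.1 (le_refl (dB n j b)) t
  have h2 := nd_le.1 (le_refl (nd a b)) t
  generalize (n : ℤ) ^ j = N at h1 ⊢
  omega

theorem dB_zero {n j : ℕ} (hn : 1 ≤ n) {a : Fin d → ℤ} (h : anc n j a = 0) : dB n j a = 0 := by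
  have hpos : (0 : ℤ) < (n : ℤ) ^ j := by positivity
  have h0 : dB n j a ≤ 0 := by
    rw [dB_le_iff]
    intro t
    have h1 : a t / (n : ℤ) ^ j = 0 := congrFun h t
    have h2 : 0 ≤ a t := by
      have := (Int.le_ediv_iff_mul_le (a := 0) (b := a t) hpos).1 h1.ge
      omega
    have h3 : a t < (n : ℤ) ^ j := by
      have := (Int.ediv_lt_iff_lt_mul (a := a t) (b := 1) hpos).1 (by omega)
      omega
    omega
  omega

/-- a cube at distance at least `2 n^j` from a cube of the box is at distance at least `n^j` from the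
box -/
theorem le_dB {n j : ℕ} (hn : 1 ≤ n) {a b : Fin d → ℤ} (ha : anc n j a = 0)
    (h : 2 * n ^ j ≤ nd a b) : n ^ j ≤ dB n j b := by
  have hpos : (0 : ℤ) < (n : ℤ) ^ j := by positivity
  have hposN : 0 < n ^ j := by positivity
  obtain ⟨t, ht⟩ := exists_of_le_nd (K := 2 * n ^ j) (by omega) h
  have h1 : a t / (n : ℤ) ^ j = 0 := congrFun ha t
  have h2 : 0 ≤ a t := by
    have := (Int.le_ediv_iff_mul_le (a := 0) (b := a t) hpos).1 h1.ge
    omega
  have h3 : a t < (n : ℤ) ^ j := by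
    have := (Int.ediv_lt_iff_lt_mul (a := a t) (b := 1) hpos).1 (by omega)
    omega
  have h4 := dB_le_iff.1 (le_refl (dB n j b)) t
  have e : ((n ^ j : ℕ) : ℤ) = (n : ℤ) ^ j := by push_cast; rfl
  rw [← e] at h3 h4
  generalize n ^ j = N at ht h3 h4 ⊢
  omega

/-- If no two cubes of `S` have distance at least 7 and `n^j ≥ 16` then there is a shell
`{dB = s}`, `3 ≤ s ≤ n^j`, without cubes of `S` (the values of `dB` on `S` lie in an interval of
length at most 6). -/
theorem exists_shell {n j : ℕ} (hj : 16 ≤ n ^ j) (S : Set (Fin d → ℤ))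
    (hS : ∀ z₀ ∈ S, ∀ z₁ ∈ S, nd z₀ z₁ < 7) :
    ∃ s, 3 ≤ s ∧ s ≤ n ^ j ∧ ∀ z ∈ S, dB n j z ≠ s := by
  rcases S.eq_empty_or_nonempty with h | ⟨z₀, hz₀⟩
  · exact ⟨3, le_rfl, by omega, fun z hz => by rw [h] at hz; exact absurd hz (Set.notMem_empty z)⟩
  · rcases le_or_gt 10 (dB n j z₀) with h | h
    · refine ⟨3, le_rfl, by omega, fun z hz h1 => ?_⟩
      have h2 := dB_le n j z₀ z
      have h3 := hS z₀ hz₀ z hz
      omega
    · refine ⟨16, by omega, hj, fun z hz h1 => ?_⟩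
      have h2 := dB_le n j z z₀
      have h3 := hS z hz z₀ hz₀
      omega

end gtFQ
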