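import Pool.Agent.Lib.gtFQ.SqX1

/-! Squares: `P(not Good (j+m) (Lθ)) ≤ K P(not Good m θ)^2`, and the same for `Gz`. -/

open MeasureTheory ProbabilityTheory Filter Topology
open scoped NNReal ENNReal

namespace gtFQ

open gtFP

variable {d : ℕ}

private theorem SqX2_ev {μ : Measure (Cfg d)} [IsFiniteMeasure μ] {E : ℕ → Set (Cfg d)}
    (hE : ∀ i, MeasurableSet (E i)) (hanti : Antitone E) (h0 : μ (⋂ i, E i) = 0) {ε : ℝ≥0∞}
    (hε : 0 < ε) : ∃ i, μ (E i) ≤ ε := by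
  have h := tendsto_measure_iInter_atTop (μ := μ) (fun i => (hE i).nullMeasurableSet) hanti
    ⟨0, measure_ne_top _ _⟩
  rw [h0] at h
  exact (h.eventually_le_const hε).exists

/-- If almost surely `Gz` holds for some `b = 1 + 1/(i+1)` then for one of these `b` it holds almost
surely. (`P(not Gz (1+1/(i+1)))` decreases to `0` as `i → ∞`, `good_mono_b`; a probability `g` with
`g ≤ K g^2`, `K g < 1` is zero, `gz_sq` with `n^j ≥ 16`.) -/
theorem exists_b {n : ℕ} (hn : 2 ≤ n) (p : unitInterval) {t : ℝ} (ht : 1 ≤ t)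
    (h : percLaw d p {ω | ∀ i : ℕ, ¬ Gz n 0 ω 0 (1 + 1 / ((i : ℝ≥0) + 1)) t} = 0) :
    ∃ b : ℝ≥0, 1 < b ∧ percLaw d p {ω | ¬ Gz n 0 ω 0 b t} = 0 := by
  have hp : IsProbabilityMeasure (percLaw d p) := by unfold percLaw; infer_instance
  have hn1 : 1 ≤ n := by omega
  have hj : 16 ≤ n ^ 4 := by
    calc 16 = 2 ^ 4 := by norm_num
      _ ≤ n ^ 4 := Nat.pow_le_pow_left hn 4
  set K : ℝ≥0∞ := (((7 * n ^ 4) ^ d : ℕ) : ℝ≥0∞) ^ 2 with hK
  have hKtop : K ≠ ⊤ := ENNReal.pow_ne_top (ENNReal.natCast_ne_top _)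
  have hε : 0 < (2 * K)⁻¹ := ENNReal.inv_pos.2 (ENNReal.mul_ne_top ENNReal.ofNat_ne_top hKtop)
  let E : ℕ → Set (Cfg d) := fun i => {ω | ¬ Gz n 0 ω 0 (1 + 1 / ((i : ℝ≥0) + 1)) t}
  have hE : ∀ i, MeasurableSet (E i) := fun i => (sg_le _ _ (meas_gz hn1 0)).compl
  have hanti : Antitone E := by
    intro i i' hii ω hω hg
    refine hω fun l => ?_
    obtain ⟨m, hm⟩ := hg l
    refine ⟨m, good_mono_b ?_ (by linarith) hm⟩
    have h1 : (i : ℝ≥0) ≤ i' := by exact_mod_cast hii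
    gcongr
  have h0 : percLaw d p (⋂ i, E i) = 0 := by
    have e : (⋂ i, E i) = {ω | ∀ i : ℕ, ¬ Gz n 0 ω 0 (1 + 1 / ((i : ℝ≥0) + 1)) t} := by
      ext ω
      simp only [E, Set.mem_iInter, Set.mem_ofPred_eq]
    rw [e, h]
  obtain ⟨i, hi⟩ := SqX2_ev hE hanti h0 hε
  refine ⟨1 + 1 / ((i : ℝ≥0) + 1), by
    have h1 : (0 : ℝ≥0) < 1 / ((i : ℝ≥0) + 1) := by positivity
    exact lt_add_of_pos_right 1 h1, ?_⟩
  have hsq := gz_sq (d := d) (j := 4) hn1 hj p (b := 1 + 1 / ((i : ℝ≥0) + 1)) ht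
  rw [← hK] at hsq
  have hi' : percLaw d p {ω | ¬ Gz n 0 ω 0 (1 + 1 / ((i : ℝ≥0) + 1)) t} ≤ (2 * K)⁻¹ := hi
  generalize percLaw d p {ω | ¬ Gz n 0 ω 0 (1 + 1 / ((i : ℝ≥0) + 1)) t} = g at hsq hi' ⊢
  by_contra hg
  have hgtop : g ≠ ⊤ := ne_top_of_le_ne_top (by
    rw [Ne, ENNReal.inv_eq_top, mul_eq_zero]
    rintro (h2 | h2)
    · exact two_ne_zero h2
    · rw [h2, zero_mul] at hsq
      exact hg (le_antisymm hsq bot_le)) hi'
  have h2 : K * g ≤ 2⁻¹ := by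
    calc K * g ≤ K * (2 * K)⁻¹ := mul_le_mul_right hi' K
      _ = 2⁻¹ * (K * K⁻¹) := by
        rw [ENNReal.mul_inv (Or.inl two_ne_zero) (Or.inl ENNReal.ofNat_ne_top)]
        ring
      _ ≤ 2⁻¹ * 1 := mul_le_mul_right (ENNReal.mul_inv_le_one K) _
      _ = 2⁻¹ := mul_one _
  have h3 : g ≤ g / 2 := by
    calc g ≤ K * g ^ 2 := hsq
      _ = (K * g) * g := by ring
      _ ≤ 2⁻¹ * g := mul_le_mul_left h2 g
      _ = g / 2 := by rw [div_eq_mul_inv, mul_comm]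
  exact absurd h3 (not_le.2 (ENNReal.half_lt_self hg hgtop))

/-- If `Gz` holds almost surely then `P(not Good m θ) → 0` for every `θ > 0`
(`good_mono_m`, `good_mono_θ`, continuity from above). -/
theorem tendsto_good {n : ℕ} (hn : 1 ≤ n) (p : unitInterval) {b : ℝ≥0} {t : ℝ}
    (h : percLaw d p {ω | ¬ Gz n 0 ω 0 b t} = 0) {θ ε : ℝ≥0∞} (hθ : 0 < θ) (hε : 0 < ε) :
    ∃ m, percLaw d p {ω | ¬ Good n m 0 ω 0 b t θ} ≤ ε := by
  have hp : IsProbabilityMeasure (percLaw d p) := by unfold percLaw; infer_instance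
  let E : ℕ → Set (Cfg d) := fun m => {ω | ¬ Good n m 0 ω 0 b t θ}
  have hE : ∀ m, MeasurableSet (E m) := fun m => (sg_le _ _ (meas_good hn 0)).compl
  have hanti : Antitone E := by
    intro m m' hmm ω hω hg
    exact hω (good_mono_m hn hmm hg)
  have h0 : percLaw d p (⋂ m, E m) = 0 := by
    refine measure_mono_null ?_ h
    intro ω hω hg
    obtain ⟨i, hi⟩ : ∃ i : ℕ, 1 / ((i : ℝ≥0∞) + 1) ≤ θ := by
      obtain ⟨i, hi⟩ := ENNReal.exists_inv_nat_lt hθ.ne'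
      refine ⟨i, le_trans ?_ hi.le⟩
      rw [one_div]
      exact ENNReal.inv_le_inv.2 le_self_add
    obtain ⟨m, hm⟩ := hg i
    exact (Set.mem_iInter.1 hω m) (good_mono_θ hi hm)
  obtain ⟨m, hm⟩ := SqX2_ev hE hanti h0 hε
  exact ⟨m, hm⟩

end gtFQ
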