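import Pool.Agent.Lib.gtFQ.Shell
import Pool.Agent.Lib.gtFQ.PrA

/-! Squares: `P(not Good (j+m) (Lθ)) ≤ K P(not Good m θ)^2`, and the same for `Gz`. -/

open MeasureTheory ProbabilityTheory Filter Topology
open scoped NNReal ENNReal

namespace gtFQ

open gtFP

variable {d : ℕ}

/-- If the cubes of `blk` outside an event are never far apart then some shell is clean. -/
private theorem sqX1_shell {n j : ℕ} (hj : 16 ≤ n ^ j) (G : (Fin d → ℤ) → Prop)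
    (h : ¬ ∃ z₀ ∈ blk d n j, ∃ z₁ ∈ blk d n j, 7 ≤ nd z₀ z₁ ∧ ¬ G z₀ ∧ ¬ G z₁) :
    ∃ s, 3 ≤ s ∧ s ≤ n ^ j ∧ ∀ z ∈ blk d n j, dB n j z = s → G z := by
  obtain ⟨s, h1, h2, h3⟩ := exists_shell hj {z | z ∈ blk d n j ∧ ¬ G z} (by
    rintro z₀ ⟨hz₀, hg₀⟩ z₁ ⟨hz₁, hg₁⟩
    by_contra hc
    exact h ⟨z₀, hz₀, z₁, hz₁, not_lt.1 hc, hg₀, hg₁⟩)
  refine ⟨s, h1, h2, fun z hz hzs => ?_⟩
  by_contra hg
  exact h3 z ⟨hz, hg⟩ hzs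

/-- `exists_shell` for `S` = the cubes of `blk` which are not good, `good_of_shell`, `two_far`,
`prob_good`, `card_blk`, `meas_good` (with `LvN_subset`, `sg_mono`). -/
theorem good_sq {n j : ℕ} (hn : 1 ≤ n) (hj : 16 ≤ n ^ j) (p : unitInterval) {b : ℝ≥0} {t : ℝ}
    (ht : 1 ≤ t) (m : ℕ) (θ : ℝ≥0∞) :
    percLaw d p {ω | ¬ Good n (j + m) 0 ω 0 b t
        ((((7 * n ^ j) ^ d : ℕ) * (b : ℝ≥0∞) ^ j) ^ t * θ)} ≤
      ((((7 * n ^ j) ^ d : ℕ) : ℝ≥0∞) ^ 2) * (percLaw d p {ω | ¬ Good n m 0 ω 0 b t θ}) ^ 2 := by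
  have hsub : {ω : Cfg d | ¬ Good n (j + m) 0 ω 0 b t
        ((((7 * n ^ j) ^ d : ℕ) * (b : ℝ≥0∞) ^ j) ^ t * θ)} ⊆
      {ω | ∃ z₀ ∈ blk d n j, ∃ z₁ ∈ blk d n j, 7 ≤ nd z₀ z₁ ∧
        ω ∈ {ω : Cfg d | ¬ Good n m j ω z₀ b t θ} ∧ ω ∈ {ω : Cfg d | ¬ Good n m j ω z₁ b t θ}} := by
    intro ω hω
    by_contra hc
    obtain ⟨s, h1, h2, h3⟩ := sqX1_shell hj (fun z => Good n m j ω z b t θ) hc
    exact hω (good_of_shell hn ht h1 h2 h3)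
  refine (measure_mono hsub).trans ?_
  have h := two_far (k := j) hn p (blk d n j) (fun z => {ω : Cfg d | ¬ Good n m j ω z b t θ})
    (fun z => sg_mono (LvN_subset z) _ (@MeasurableSet.compl _ _ (sg _) (meas_good hn z)))
    (fun z => (prob_good hn z p).le)
  rwa [card_blk] at h

theorem gz_sq {n j : ℕ} (hn : 1 ≤ n) (hj : 16 ≤ n ^ j) (p : unitInterval) {b : ℝ≥0} {t : ℝ}
    (ht : 1 ≤ t) :
    percLaw d p {ω | ¬ Gz n 0 ω 0 b t} ≤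
      ((((7 * n ^ j) ^ d : ℕ) : ℝ≥0∞) ^ 2) * (percLaw d p {ω | ¬ Gz n 0 ω 0 b t}) ^ 2 := by
  have hsub : {ω : Cfg d | ¬ Gz n 0 ω 0 b t} ⊆
      {ω | ∃ z₀ ∈ blk d n j, ∃ z₁ ∈ blk d n j, 7 ≤ nd z₀ z₁ ∧
        ω ∈ {ω : Cfg d | ¬ Gz n j ω z₀ b t} ∧ ω ∈ {ω : Cfg d | ¬ Gz n j ω z₁ b t}} := by
    intro ω hω
    by_contra hc
    obtain ⟨s, h1, h2, h3⟩ := sqX1_shell hj (fun z => Gz n j ω z b t) hc
    exact hω (gz_of_shell hn ht h1 h2 h3)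
  refine (measure_mono hsub).trans ?_
  have h := two_far (k := j) hn p (blk d n j) (fun z => {ω : Cfg d | ¬ Gz n j ω z b t})
    (fun z => @MeasurableSet.compl _ _ (sg _) (meas_gz hn z))
    (fun z => (prob_gz hn z p).le)
  rwa [card_blk] at h

end gtFQ
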