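import Pool.Agent.Lib.gtFQ.SsD0

/-! Single scale weights: composition and pushing down (deterministic part). -/

open scoped NNReal ENNReal

namespace gtFQ

open gtFP

variable {d : ℕ}

/-- the cubes `a` of relative level `l` whose ancestor is at distance at most 2 from `z` -/
private noncomputable def bxS (n l : ℕ) (z : Fin d → ℤ) : Finset (Fin d → ℤ) :=
  Fintype.piFinset fun t => Finset.Ico ((n : ℤ) ^ l * (z t - 2)) ((n : ℤ) ^ l * (z t + 3))

private theorem mem_bxS {n l : ℕ} (hn : 1 ≤ n) {z a : Fin d → ℤ} :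
    a ∈ bxS n l z ↔ nd (anc n l a) z ≤ 2 := by
  have hpos : (0 : ℤ) < (n : ℤ) ^ l := by positivity
  simp only [bxS, Fintype.mem_piFinset, Finset.mem_Ico, nd_le]
  refine forall_congr' fun t => ?_
  have h1 : (n : ℤ) ^ l * (z t - 2) ≤ a t ↔ z t - 2 ≤ a t / (n : ℤ) ^ l := by
    rw [Int.le_ediv_iff_mul_le hpos, mul_comm]
  have h2 : a t < (n : ℤ) ^ l * (z t + 3) ↔ a t / (n : ℤ) ^ l < z t + 3 := by
    rw [Int.ediv_lt_iff_lt_mul hpos, mul_comm]
  rw [h1, h2]
  simp only [anc]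
  omega

private theorem card_bxS {n l : ℕ} (z : Fin d → ℤ) : (bxS n l z).card = (5 * n ^ l) ^ d := by
  simp only [bxS, Fintype.card_piFinset, Int.card_Ico]
  rw [Finset.prod_congr rfl fun t _ => show ((n : ℤ) ^ l * (z t + 3) -
    (n : ℤ) ^ l * (z t - 2)).toNat = 5 * n ^ l by
    rw [show (n : ℤ) ^ l * (z t + 3) - (n : ℤ) ^ l * (z t - 2) = ((5 * n ^ l : ℕ) : ℤ) by
      push_cast; ring]
    exact Int.toNat_natCast _]
  simp

private theorem hits_near {n m k l r : ℕ} (hn : 1 ≤ n) {ω : Cfg d} {z : Fin d → ℤ}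
    {f : ℕ → Fin d → ℤ} (h : IsCr n m k ω z r f) (hl : l ≤ m) {a : Fin d → ℤ}
    (ha : a ∈ hits n m l r f) : nd (anc n l a) z ≤ 2 := by
  obtain ⟨i, hi, rfl⟩ := mem_hits.1 ha
  rw [anc_anc, show l + (m - l) = m by omega]
  have h1 := nd_anc_mul hn (h.2.2.2.1 i hi)
  rw [h.1] at h1
  rw [nd_comm]
  exact h1

private theorem cost_oneS {t : ℝ} (σ : ℕ → (Fin d → ℤ) → ℝ≥0∞) :
    cost 1 t σ = ∑' l : ℕ, ∑' a : Fin d → ℤ, σ l a ^ t := by
  simp [cost]

private theorem le_costS {t : ℝ} {σ : ℕ → (Fin d → ℤ) → ℝ≥0∞} {e : ℝ≥0∞}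
    (ht : 0 < t) (h : cost 1 t σ ≤ e) (l : ℕ) (a : Fin d → ℤ) : σ l a ≤ e ^ (1 / t) := by
  rw [cost_oneS] at h
  have h1 : σ l a ^ t ≤ e :=
    ((ENNReal.le_tsum (f := fun a => σ l a ^ t) a).trans
      (ENNReal.le_tsum (f := fun l => ∑' a : Fin d → ℤ, σ l a ^ t) l)).trans h
  have h2 := ENNReal.rpow_le_rpow h1 (z := 1 / t) (by positivity)
  rwa [← ENNReal.rpow_mul, mul_one_div_cancel ht.ne', ENNReal.rpow_one] at h2

/-- The levels at least two carry at least one half of the length. -/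
private theorem half_le {n M k : ℕ} (hn : 2 ≤ n) {ω : Cfg d} {z : Fin d → ℤ} {t : ℝ}
    (ht : 1 ≤ t) {e : ℝ≥0∞} (he : 2 * (((5 * n) ^ d : ℕ) : ℝ≥0∞) * e ^ (1 / t) ≤ 1 / 2)
    {σ : ℕ → (Fin d → ℤ) → ℝ≥0∞} (hσ : Adm n M k ω z σ) (hc : cost 1 t σ ≤ e) {r : ℕ}
    {g : ℕ → Fin d → ℤ} (hg : IsCr n M k ω z r g) :
    1 ≤ ∑ l ∈ Finset.Icc 2 M, ∑ a ∈ hits n M l r g, 2 * σ l a := by
  have h1 := hσ r g hg
  have hf : (Finset.range (M + 1)).filter (fun l => 2 ≤ l) = Finset.Icc 2 M := by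
    ext l
    simp only [Finset.mem_filter, Finset.mem_range, Finset.mem_Icc]
    omega
  rw [len, ← Finset.sum_filter_add_sum_filter_not _ (fun l => 2 ≤ l), hf] at h1
  have h2 : ∑ l ∈ (Finset.range (M + 1)).filter (fun l => ¬ 2 ≤ l),
      ∑ a ∈ hits n M l r g, σ l a ≤ 1 / 2 := by
    refine le_trans ?_ he
    have h3 : ∀ l ∈ (Finset.range (M + 1)).filter (fun l => ¬ 2 ≤ l),
        ∑ a ∈ hits n M l r g, σ l a ≤ (((5 * n) ^ d : ℕ) : ℝ≥0∞) * e ^ (1 / t) := by
      intro l hl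
      simp only [Finset.mem_filter, Finset.mem_range, not_le] at hl
      have h4 : (hits n M l r g).card ≤ (5 * n) ^ d := by
        have h5 : hits n M l r g ⊆ bxS n l z := fun a ha =>
          (mem_bxS (by omega)).2 (hits_near (by omega) hg (by omega) ha)
        refine (Finset.card_le_card h5).trans ?_
        rw [card_bxS]
        refine Nat.pow_le_pow_left (Nat.mul_le_mul_left 5 ?_) d
        have h6 : l = 0 ∨ l = 1 := by omega
        rcases h6 with h6 | h6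
        · rw [h6, pow_zero]; omega
        · rw [h6, pow_one]
      calc ∑ a ∈ hits n M l r g, σ l a ≤ ∑ a ∈ hits n M l r g, e ^ (1 / t) :=
            Finset.sum_le_sum fun a _ => le_costS (by linarith) hc l a
        _ = ((hits n M l r g).card : ℝ≥0∞) * e ^ (1 / t) := by
            rw [Finset.sum_const, nsmul_eq_mul]
        _ ≤ _ := by
            gcongr
    calc _ ≤ ∑ l ∈ (Finset.range (M + 1)).filter (fun l => ¬ 2 ≤ l),
          (((5 * n) ^ d : ℕ) : ℝ≥0∞) * e ^ (1 / t) := Finset.sum_le_sum h3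
      _ ≤ ∑ l ∈ Finset.range 2, (((5 * n) ^ d : ℕ) : ℝ≥0∞) * e ^ (1 / t) := by
          refine Finset.sum_le_sum_of_subset ?_
          intro l hl
          simp only [Finset.mem_filter, Finset.mem_range, not_le] at hl ⊢
          exact hl.2
      _ = _ := by
          rw [Finset.sum_const, Finset.card_range, nsmul_eq_mul, mul_assoc]
          norm_num
  have h7 : (1 : ℝ≥0∞) ≤ (∑ l ∈ Finset.Icc 2 M, ∑ a ∈ hits n M l r g, σ l a) + 1 / 2 :=
    h1.trans (by gcongr)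
  have h8 : (1 / 2 : ℝ≥0∞) ≤ ∑ l ∈ Finset.Icc 2 M, ∑ a ∈ hits n M l r g, σ l a := by
    have h9 : (1 / 2 : ℝ≥0∞) + 1 / 2 ≤
        (∑ l ∈ Finset.Icc 2 M, ∑ a ∈ hits n M l r g, σ l a) + 1 / 2 := by
      rw [ENNReal.add_halves]; exact h7
    exact (ENNReal.add_le_add_iff_right (by norm_num)).1 h9
  calc (1 : ℝ≥0∞) = 2 * (1 / 2) := by
        rw [one_div, ENNReal.mul_inv_cancel (by norm_num) (by norm_num)]
    _ ≤ 2 * ∑ l ∈ Finset.Icc 2 M, ∑ a ∈ hits n M l r g, σ l a := by gcongr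
    _ = _ := by
        rw [Finset.mul_sum]
        exact Finset.sum_congr rfl fun l _ => Finset.mul_sum _ _ _

/-- One composition step. `σ` = weights of `Good n M k ω z 1 t e` (supported near `z` in the levels
`≤ M`, `good_supp`), made to vanish in the levels `0` and `1` and doubled: every weight is at most
`e^(1/t)`, a crossing chain hits at most `(5n)^d` cubes of level at most one (each), hypothesis `he`.
For `(l', a')` with `σ l' a' ≠ 0`, `l' ≥ 2`, take `σ_{a'}` from `Gs` at depth `D - l'`, and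
`σ'' = ∑ 2 σ l' a' * sh l' σ_{a'}`. A crossing chain of `z` of depth `D` has (projection to depth `M`)
length at least 1 for `2 σ` (levels `≥ 2`); if it hits `(l', a')` then one of its ends has an ancestor
of level `l'` at distance at least `n^l' ≥ 3` from `a'`, so `sub_len'` gives length at least one for
`sh l' σ_{a'}`. Cost: at most `5^d (M+1)` pairs contribute to each `(l'', a'')` (levels `l' ≤ M`,
`nd (anc a'') a' ≤ 2`), `(∑ x)^t ≤ A^(t-1) ∑ x^t`. Support: levels `≥ D - M`; finally cut off the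
weights outside `nd (anc n l a) z ≤ 2` (crossing chains do not hit such cubes, as in `good_supp`). -/
theorem gs_step {n M k D : ℕ} (hn : 2 ≤ n) (hD : M ≤ D) {ω : Cfg d} {z : Fin d → ℤ} {t : ℝ}
    (ht : 1 ≤ t) {e θ : ℝ≥0∞} (he : 2 * (((5 * n) ^ d : ℕ) : ℝ≥0∞) * e ^ (1 / t) ≤ 1 / 2)
    (hg : Good n M k ω z 1 t e)
    (h : ∀ l' a', 2 ≤ l' → l' ≤ M → nd (anc n l' a') z ≤ 2 → Gs n (D - l') M (k + l') ω a' t θ) :
    Gs n D M k ω z t (Acst d M t * e * θ) := by
  classical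
  have hn1 : 1 ≤ n := by omega
  have ht0 : 0 < t := by linarith
  obtain ⟨σ, hσ, hcσ⟩ := hg
  have h' : ∀ l' a', 2 ≤ l' → l' ≤ M → nd (anc n l' a') z ≤ 2 →
      ∃ s : ℕ → (Fin d → ℤ) → ℝ≥0∞, Adm n (D - l') (k + l') ω a' s ∧ cost 1 t s ≤ θ ∧
        ∀ l a, s l a ≠ 0 → D - l' ≤ l + M ∧ l ≤ D - l' ∧ nd (anc n l a) a' ≤ 2 := h
  choose! s hs using h'
  set I : Finset ((_ : ℕ) × (Fin d → ℤ)) := (Finset.Icc 2 M).sigma fun l => bxS n l z with hI
  have hmI : ∀ x ∈ I, 2 ≤ x.1 ∧ x.1 ≤ M ∧ nd (anc n x.1 x.2) z ≤ 2 := by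
    intro x hx
    rw [hI, Finset.mem_sigma, Finset.mem_Icc, mem_bxS hn1] at hx
    exact ⟨hx.1.1, hx.1.2, hx.2⟩
  set τ₀ : ℕ → (Fin d → ℤ) → ℝ≥0∞ := fun l a =>
    ∑ x ∈ I, 2 * σ x.1 x.2 * sh x.1 (s x.1 x.2) l a with hτ₀
  refine ⟨fun l a => if nd (anc n l a) z ≤ 2 then τ₀ l a else 0, ?_, ?_, ?_⟩
  · intro r f hc
    have h1 : len n D (fun l a => if nd (anc n l a) z ≤ 2 then τ₀ l a else 0) r f =
        len n D τ₀ r f := by
      refine Finset.sum_congr rfl fun l hl => Finset.sum_congr rfl fun a ha => ?_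
      rw [Finset.mem_range] at hl
      exact if_pos (hits_near hn1 hc (by omega) ha)
    rw [h1, hτ₀, len_sum I (fun x => sh x.1 (s x.1 x.2)) (fun x => 2 * σ x.1 x.2)]
    have hD' : M + (D - M) = D := by omega
    have hc' : IsCr n (M + (D - M)) k ω z r f := by rw [hD']; exact hc
    have hp := isCr_proj hn1 hc'
    refine (half_le hn ht he hσ hcσ hp).trans ?_
    rw [hI, Finset.sum_sigma]
    refine Finset.sum_le_sum fun l hl => ?_
    rw [Finset.mem_Icc] at hl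
    have hsub : hits n M l r (fun i => anc n (D - M) (f i)) ⊆ bxS n l z := fun a ha =>
      (mem_bxS hn1).2 (hits_near hn1 hp hl.2 ha)
    refine le_trans ?_ (Finset.sum_le_sum_of_subset hsub)
    refine Finset.sum_le_sum fun a ha => ?_
    have hnear := hits_near hn1 hp hl.2 ha
    obtain ⟨i, hi, hia⟩ := mem_hits.1 ha
    rw [anc_anc, show M - l + (D - M) = D - l by omega] at hia
    have hadm := (hs l a hl.1 hl.2 hnear).1
    have hfar : 2 * n ^ l ≤ nd (anc n (D - l) (f 0)) (anc n (D - l) (f r)) := by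
      refine nd_anc_ge hn1 ?_
      rw [mul_assoc, ← pow_add, show l + (D - l) = D by omega]
      exact hc.2.2.2.2
    have h4 : 4 ≤ n ^ l := by
      calc 4 = 2 ^ 2 := by norm_num
        _ ≤ n ^ 2 := Nat.pow_le_pow_left hn 2
        _ ≤ n ^ l := Nat.pow_le_pow_right (by omega) hl.1
    have hlen : 1 ≤ len n D (sh l (s l a)) r f := by
      rw [← hia] at hadm ⊢
      rcases le_or_gt 3 (nd (anc n (D - l) (f i)) (anc n (D - l) (f 0))) with h5 | h5
      · exact sub_len' hn1 (by omega) hc.2.1 hc.2.2.1 hi (Nat.zero_le r) h5 hadm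
      · have h6 := nd_tri (anc n (D - l) (f 0)) (anc n (D - l) (f i)) (anc n (D - l) (f r))
        rw [nd_comm (anc n (D - l) (f 0)) (anc n (D - l) (f i))] at h6
        exact sub_len' hn1 (by omega) hc.2.1 hc.2.2.1 hi le_rfl (by omega) hadm
    calc 2 * σ l a = 2 * σ l a * 1 := (mul_one _).symm
      _ ≤ _ := by gcongr
  · have hcard : ∀ l a, (I.filter fun x => 2 * σ x.1 x.2 * sh x.1 (s x.1 x.2) l a ≠ 0).card ≤
        5 ^ d * (M + 1) := by
      intro l a
      have h1 : (I.filter fun x => 2 * σ x.1 x.2 * sh x.1 (s x.1 x.2) l a ≠ 0) ⊆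
          (Finset.Icc 2 M).sigma fun l' => bxS n 0 (anc n (l - l') a) := by
        intro x hx
        rw [Finset.mem_filter] at hx
        obtain ⟨hx, hx0⟩ := hx
        obtain ⟨x1, x2, x3⟩ := hmI x hx
        have hsh : sh x.1 (s x.1 x.2) l a ≠ 0 := fun h0 => hx0 (by rw [h0, mul_zero])
        rw [Finset.mem_sigma, Finset.mem_Icc, mem_bxS hn1, anc_zero]
        refine ⟨⟨x1, x2⟩, ?_⟩
        by_cases hxl : x.1 ≤ l
        · rw [sh, if_pos hxl] at hsh
          rw [nd_comm]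
          exact ((hs x.1 x.2 x1 x2 x3).2.2 _ _ hsh).2.2
        · exact absurd (by rw [sh, if_neg hxl]) hsh
      refine (Finset.card_le_card h1).trans ?_
      rw [Finset.card_sigma, Finset.sum_congr rfl fun l' _ => card_bxS (n := n) (l := 0)
        (anc n (l - l') a), Finset.sum_const, Nat.card_Icc, pow_zero, mul_one, smul_eq_mul,
        mul_comm]
      exact Nat.mul_le_mul_left _ (by omega)
    have hpt : ∀ l a, τ₀ l a ^ t ≤ (((5 ^ d * (M + 1) : ℕ) : ℝ≥0∞)) ^ (t - 1) *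
        ∑ x ∈ I, (2 * σ x.1 x.2) ^ t * sh x.1 (s x.1 x.2) l a ^ t := by
      intro l a
      have h1 : τ₀ l a = ∑ x ∈ I.filter (fun x => 2 * σ x.1 x.2 * sh x.1 (s x.1 x.2) l a ≠ 0),
          2 * σ x.1 x.2 * sh x.1 (s x.1 x.2) l a := by
        rw [hτ₀]
        exact (Finset.sum_filter_ne_zero I).symm
      rw [h1]
      refine (ENNReal.rpow_sum_le_const_mul_sum_rpow _ _ ht).trans ?_
      refine mul_le_mul' ?_ ?_
      · refine ENNReal.rpow_le_rpow ?_ (by linarith)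
        exact_mod_cast hcard l a
      · refine (Finset.sum_le_sum_of_subset (Finset.filter_subset _ I)).trans ?_
        refine Finset.sum_le_sum fun x _ => ?_
        rw [ENNReal.mul_rpow_of_nonneg _ _ ht0.le]
    have hsum : ∑ x ∈ I, σ x.1 x.2 ^ t ≤ e := by
      refine le_trans ?_ hcσ
      rw [cost_oneS, hI, Finset.sum_sigma]
      refine (Finset.sum_le_sum fun l _ => ENNReal.sum_le_tsum (f := fun a => σ l a ^ t) _).trans ?_
      exact ENNReal.sum_le_tsum (f := fun l => ∑' a : Fin d → ℤ, σ l a ^ t) _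
    rw [cost_oneS]
    calc ∑' l, ∑' a : Fin d → ℤ, (if nd (anc n l a) z ≤ 2 then τ₀ l a else 0) ^ t
        ≤ ∑' l, ∑' a : Fin d → ℤ, (((5 ^ d * (M + 1) : ℕ) : ℝ≥0∞)) ^ (t - 1) *
          ∑ x ∈ I, (2 * σ x.1 x.2) ^ t * sh x.1 (s x.1 x.2) l a ^ t := by
          refine ENNReal.tsum_le_tsum fun l => ENNReal.tsum_le_tsum fun a => ?_
          refine le_trans (ENNReal.rpow_le_rpow ?_ ht0.le) (hpt l a)
          split_ifs
          · exact le_rfl
          · exact zero_le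
      _ = (((5 ^ d * (M + 1) : ℕ) : ℝ≥0∞)) ^ (t - 1) *
          ∑ x ∈ I, (2 * σ x.1 x.2) ^ t * cost 1 t (sh x.1 (s x.1 x.2)) := by
          simp only [ENNReal.tsum_mul_left]
          congr 1
          have h1 : ∀ l, ∑' a : Fin d → ℤ, ∑ x ∈ I,
              (2 * σ x.1 x.2) ^ t * sh x.1 (s x.1 x.2) l a ^ t =
              ∑ x ∈ I, (2 * σ x.1 x.2) ^ t * ∑' a : Fin d → ℤ, sh x.1 (s x.1 x.2) l a ^ t := by
            intro l
            rw [Summable.tsum_finsetSum fun _ _ => ENNReal.summable]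
            exact Finset.sum_congr rfl fun x _ => ENNReal.tsum_mul_left
          simp only [h1]
          rw [Summable.tsum_finsetSum fun _ _ => ENNReal.summable]
          refine Finset.sum_congr rfl fun x _ => ?_
          rw [ENNReal.tsum_mul_left, cost_oneS]
      _ ≤ (((5 ^ d * (M + 1) : ℕ) : ℝ≥0∞)) ^ (t - 1) * ∑ x ∈ I, (2 * σ x.1 x.2) ^ t * θ := by
          refine mul_le_mul' le_rfl (Finset.sum_le_sum fun x hx => mul_le_mul' le_rfl ?_)
          obtain ⟨x1, x2, x3⟩ := hmI x hx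
          rw [cost_sh ht0]
          simpa using (hs x.1 x.2 x1 x2 x3).2.1
      _ = (((5 ^ d * (M + 1) : ℕ) : ℝ≥0∞)) ^ (t - 1) * (((2 : ℝ≥0∞) ^ t *
          ∑ x ∈ I, σ x.1 x.2 ^ t) * θ) := by
          congr 1
          rw [← Finset.sum_mul, Finset.mul_sum]
          congr 1
          exact Finset.sum_congr rfl fun x _ => ENNReal.mul_rpow_of_nonneg _ _ ht0.le
      _ ≤ (((5 ^ d * (M + 1) : ℕ) : ℝ≥0∞)) ^ (t - 1) * (((2 : ℝ≥0∞) ^ t * e) * θ) := by
          gcongr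
      _ = Acst d M t * e * θ := by
          rw [Acst]
          ring
  · intro l a hla
    by_cases hz : nd (anc n l a) z ≤ 2
    · simp only [hz, if_true] at hla
      obtain ⟨x, hx, hx0⟩ := Finset.exists_ne_zero_of_sum_ne_zero hla
      obtain ⟨x1, x2, x3⟩ := hmI x hx
      have hsh : sh x.1 (s x.1 x.2) l a ≠ 0 := fun h0 => hx0 (by rw [h0, mul_zero])
      by_cases hxl : x.1 ≤ l
      · rw [sh, if_pos hxl] at hsh
        obtain ⟨y1, y2, -⟩ := (hs x.1 x.2 x1 x2 x3).2.2 _ _ hsh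
        exact ⟨by omega, by omega, hz⟩
      · exact absurd (by rw [sh, if_neg hxl]) hsh
    · simp only [hz, if_false] at hla
      exact absurd rfl hla

end gtFQ
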