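import Pool.Agent.Lib.gtFQ.SsD1

/-! Single scale weights: composition and pushing down (deterministic part). -/

open scoped NNReal ENNReal

namespace gtFQ

open gtFP

variable {d : ℕ}

/-- the weight `1` on the cube `z` itself -/
private theorem gs_triv {n D M : ℕ} (hD : D ≤ M) (k : ℕ) (ω : Cfg d) (z : Fin d → ℤ) {t : ℝ}
    (ht : 1 ≤ t) : Gs n D M k ω z t 1 := by
  classical
  refine ⟨fun l a => if l = 0 ∧ a = z then 1 else 0, ?_, ?_, ?_⟩
  · intro r f hf
    have h0 : anc n D (f 0) = z := hf.1
    have hz : z ∈ hits n D 0 r f := mem_hits.2 ⟨0, Nat.zero_le _, by rw [Nat.sub_zero, h0]⟩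
    unfold len
    calc (1 : ℝ≥0∞) = (if (0 : ℕ) = 0 ∧ z = z then 1 else 0) := by simp
      _ ≤ ∑ a ∈ hits n D 0 r f, (if (0 : ℕ) = 0 ∧ a = z then (1 : ℝ≥0∞) else 0) :=
          Finset.single_le_sum (f := fun a => if (0 : ℕ) = 0 ∧ a = z then (1 : ℝ≥0∞) else 0)
            (fun _ _ => zero_le) hz
      _ ≤ _ := Finset.single_le_sum
            (f := fun l => ∑ a ∈ hits n D l r f, (if l = 0 ∧ a = z then (1 : ℝ≥0∞) else 0))
            (fun _ _ => zero_le) (Finset.mem_range.2 (Nat.succ_pos _))
  · unfold cost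
    have ht0 : 0 < t := by linarith
    rw [tsum_eq_single 0, tsum_eq_single z]
    · simp
    · intro a ha
      simp [ha, ht0]
    · intro l hl
      simp [hl, ht0]
  · intro l a h
    by_cases hc : l = 0 ∧ a = z
    · obtain ⟨rfl, rfl⟩ := hc
      refine ⟨by omega, Nat.zero_le _, ?_⟩
      rw [anc_zero, nd_self]
      omega
    · exact absurd (if_neg hc) h

/-- Composition. Strong induction on `D` (for all `k`, `z`, `s`): if `D ≤ M` (then `s = 0`) the weight
`1` on `z`; otherwise `gs_step` with `θ = (A e)^(s-1)` (or `θ = 1`, `A e ≤ 1` if `s = 0`). The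
hypothesis on the cubes is inherited: if `nd (anc n l' a') z ≤ 2`, `l' ≥ 2` and
`nd (anc n l x) a' ≤ 3` then `nd (anc n (l'+l) x) z ≤ 2 + 1` (`nd_anc_mul` with `3 ≤ n^l'`). -/
theorem gs_of_good {n M : ℕ} (hn : 2 ≤ n) {ω : Cfg d} {t : ℝ} (ht : 1 ≤ t) {e : ℝ≥0∞}
    (he : 2 * (((5 * n) ^ d : ℕ) : ℝ≥0∞) * e ^ (1 / t) ≤ 1 / 2) (hAe : Acst d M t * e ≤ 1) :
    ∀ (D k s : ℕ) (z : Fin d → ℤ), (s = 0 ∨ s * M < D) →
      (∀ l x, l ≤ D → nd (anc n l x) z ≤ 3 → Good n M (k + l) ω x 1 t e) →
      Gs n D M k ω z t ((Acst d M t * e) ^ s) := by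
  intro D
  induction D using Nat.strong_induction_on with
  | _ D ih =>
    intro k s z hs h
    rcases Nat.lt_or_ge M D with hMD | hMD
    · -- a composition step
      have hg : Good n M k ω z 1 t e := by
        have := h 0 z (Nat.zero_le _) (by rw [anc_zero, nd_self]; omega)
        simpa using this
      have hcub : ∀ l' a', 2 ≤ l' → l' ≤ M → nd (anc n l' a') z ≤ 2 →
          ∀ l x, l ≤ D - l' → nd (anc n l x) a' ≤ 3 → Good n M (k + l' + l) ω x 1 t e := by
        intro l' a' h1 h2 h3 l x hl hx
        rw [add_assoc]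
        refine h (l' + l) x (by omega) ?_
        rw [← anc_anc]
        have h4 : 4 ≤ n ^ l' := by
          calc 4 = 2 ^ 2 := by norm_num
            _ ≤ n ^ 2 := Nat.pow_le_pow_left hn 2
            _ ≤ n ^ l' := Nat.pow_le_pow_right (by omega) h1
        have h5 : nd (anc n l' (anc n l x)) (anc n l' a') ≤ 1 :=
          nd_anc_mul (by omega) (by omega)
        have h6 := nd_tri (anc n l' (anc n l x)) (anc n l' a') z
        omega
      rcases Nat.eq_zero_or_pos s with hs0 | hs0
      · subst hs0
        have key := gs_step (θ := 1) hn hMD.le (ω := ω) (z := z) ht he hg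
          (fun l' a' h1 h2 h3 => by
            have := ih (D - l') (by omega) (k + l') 0 a' (Or.inl rfl) (hcub l' a' h1 h2 h3)
            simpa using this)
        obtain ⟨σ, h1, h2, h3⟩ := key
        refine ⟨σ, h1, h2.trans ?_, h3⟩
        rw [mul_one, pow_zero]
        exact hAe
      · obtain ⟨s, rfl⟩ : ∃ s', s = s' + 1 := ⟨s - 1, by omega⟩
        have hsD : (s + 1) * M < D := by
          rcases hs with hs | hs
          · omega
          · exact hs
        have hsD' : s * M + M < D := by
          rw [add_mul, one_mul] at hsD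
          exact hsD
        have key := gs_step (θ := (Acst d M t * e) ^ s) hn hMD.le (ω := ω) (z := z) ht he hg
          (fun l' a' h1 h2 h3 =>
            ih (D - l') (by omega) (k + l') s a' (Or.inr (by omega)) (hcub l' a' h1 h2 h3))
        rw [pow_succ']
        exact key
    · -- the trivial weight
      have hs0 : s = 0 := by
        rcases hs with hs | hs
        · exact hs
        · by_contra hc
          have : 1 * M ≤ s * M := Nat.mul_le_mul_right M (by omega)
          omega
      subst hs0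
      rw [pow_zero]
      exact gs_triv hMD k ω z ht

end gtFQ
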