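import Pool.Agent.Lib.gtFQ.SsD0

/-! Single scale weights: composition and pushing down (deterministic part). -/

open scoped NNReal ENNReal

namespace gtFQ

open gtFP

variable {d : ℕ}

/-- the cubes of the fibre of `anc n s` over `a` -/
private noncomputable def d3fb (n s : ℕ) (a : Fin d → ℤ) : Finset (Fin d → ℤ) :=
  Fintype.piFinset fun t => Finset.Ico ((n : ℤ) ^ s * a t) ((n : ℤ) ^ s * a t + (n : ℤ) ^ s)

private theorem mem_d3fb {n s : ℕ} (hn : 1 ≤ n) {a c : Fin d → ℤ} :
    c ∈ d3fb n s a ↔ anc n s c = a := by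
  have hpos : (0 : ℤ) < (n : ℤ) ^ s := by positivity
  simp only [d3fb, Fintype.mem_piFinset, Finset.mem_Ico, funext_iff, anc]
  refine forall_congr' fun t => ?_
  constructor
  · rintro ⟨h1, h2⟩
    apply le_antisymm
    · rw [← Int.lt_add_one_iff, Int.ediv_lt_iff_lt_mul hpos]
      linarith
    · rw [Int.le_ediv_iff_mul_le hpos]
      linarith
  · intro h
    have h1 := Int.emod_add_mul_ediv (c t) ((n : ℤ) ^ s)
    have h2 := Int.emod_nonneg (c t) hpos.ne'
    have h3 := Int.emod_lt_of_pos (c t) hpos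
    rw [h] at h1
    constructor <;> linarith

private theorem card_d3fb {n s : ℕ} (a : Fin d → ℤ) : (d3fb n s a).card = (n ^ s) ^ d := by
  simp only [d3fb, Fintype.card_piFinset, Int.card_Ico]
  rw [Finset.prod_congr rfl fun t _ => show
    ((n : ℤ) ^ s * a t + (n : ℤ) ^ s - (n : ℤ) ^ s * a t).toNat = n ^ s by
      rw [add_sub_cancel_left]
      have e : (n : ℤ) ^ s = ((n ^ s : ℕ) : ℤ) := by push_cast; rfl
      rw [e, Int.toNat_natCast]]
  simp

private theorem d3_fib {n s : ℕ} (hn : 1 ≤ n) (G : (Fin d → ℤ) → ℝ≥0∞) :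
    ∑' c : Fin d → ℤ, G (anc n s c) = ((n ^ s) ^ d : ℕ) * ∑' a, G a := by
  classical
  have h1 : ∀ c : Fin d → ℤ, G (anc n s c) = ∑' a, if c ∈ d3fb n s a then G a else 0 := by
    intro c
    rw [tsum_eq_single (anc n s c) fun a ha => if_neg fun h => ha ((mem_d3fb hn).1 h).symm]
    rw [if_pos ((mem_d3fb hn).2 rfl)]
  have h2 : ∀ a : Fin d → ℤ, ∑' c : Fin d → ℤ, (if c ∈ d3fb n s a then G a else 0) =
      ((n ^ s) ^ d : ℕ) * G a := by
    intro a
    rw [tsum_eq_sum (s := d3fb n s a) fun c hc => if_neg hc]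
    rw [Finset.sum_congr rfl fun c hc => if_pos hc, Finset.sum_const, card_d3fb, nsmul_eq_mul]
  rw [tsum_congr h1, ENNReal.tsum_comm, tsum_congr h2, ENNReal.tsum_mul_left]

/-- the vectors of sup-norm at most 2 -/
private noncomputable def d3V (d : ℕ) : Finset (Fin d → ℤ) :=
  Fintype.piFinset fun _ => Finset.Icc (-2 : ℤ) 2

private theorem card_d3V : (d3V d).card = 5 ^ d := by
  simp [d3V, Fintype.card_piFinset]

private theorem mem_d3V {q a : Fin d → ℤ} : (fun t => a t - q t) ∈ d3V d ↔ nd q a ≤ 2 := by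
  simp only [d3V, Fintype.mem_piFinset, Finset.mem_Icc, nd_le]
  refine forall_congr' fun t => ?_
  omega

/-- discrete intermediate values -/
private theorem d3_ivt {g : ℕ → ℕ} {v : ℕ} (b : ℕ) (h0 : g 0 = 0)
    (hg : ∀ j, j < b → g (j + 1) ≤ g j + 1) (hv : v ≤ g b) : ∃ j ≤ b, g j = v := by
  induction b with
  | zero => exact ⟨0, le_rfl, by omega⟩
  | succ b ih =>
    rcases le_or_gt v (g b) with h1 | h1
    · obtain ⟨j, j1, j2⟩ := ih (fun j hj => hg j (by omega)) h1
      exact ⟨j, by omega, j2⟩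
    · have h2 := hg b (by omega)
      exact ⟨b + 1, le_rfl, by omega⟩

/-- a chain which goes far from `f i` has many cubes near `f i` -/
private theorem d3_card {n D s r i : ℕ} (hn : 1 ≤ n) (hs : s ≤ D) {f : ℕ → Fin d → ℤ}
    (h2 : ∀ i < r, nd (f i) (f (i + 1)) ≤ 1) (h3 : 2 * n ^ D ≤ nd (f 0) (f r)) (hi : i ≤ r) :
    n ^ s ≤ (((Finset.range (r + 1)).image f).filter fun c =>
      nd (anc n s c) (anc n s (f i)) ≤ 2).card := by
  classical
  have hsD : n ^ s ≤ n ^ D := Nat.pow_le_pow_right hn hs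
  have key : ∀ v ≤ n ^ s, ∃ j ≤ r, nd (f i) (f j) = v := by
    intro v hv
    have htri := nd_tri (f 0) (f i) (f r)
    rcases le_or_gt (n ^ D) (nd (f i) (f r)) with h | h
    · obtain ⟨j, j1, j2⟩ := d3_ivt (g := fun j => nd (f i) (f (i + j))) (v := v) (r - i)
        (by simpa using nd_self (f i))
        (fun j hj => by
          have e1 := nd_tri (f i) (f (i + j)) (f (i + (j + 1)))
          have e2 := h2 (i + j) (by omega)
          have e3 : i + (j + 1) = i + j + 1 := by omega
          simp only [e3] at e1 ⊢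
          omega)
        (by
          have e : i + (r - i) = r := by omega
          simp only [e]
          omega)
      exact ⟨i + j, by omega, j2⟩
    · have h' : n ^ D ≤ nd (f i) (f 0) := by
        rw [nd_comm (f i) (f 0)]
        omega
      obtain ⟨j, j1, j2⟩ := d3_ivt (g := fun j => nd (f i) (f (i - j))) (v := v) i
        (by simpa using nd_self (f i))
        (fun j hj => by
          have e1 := nd_tri (f i) (f (i - j)) (f (i - (j + 1)))
          have e2 := h2 (i - (j + 1)) (by omega)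
          have e3 : i - (j + 1) + 1 = i - j := by omega
          rw [e3, nd_comm] at e2
          show nd (f i) (f (i - (j + 1))) ≤ nd (f i) (f (i - j)) + 1
          omega)
        (by
          have e : i - i = 0 := by omega
          simp only [e]
          omega)
      exact ⟨i - j, by omega, j2⟩
  have hsub : Finset.range (n ^ s) ⊆ ((((Finset.range (r + 1)).image f).filter fun c =>
      nd (anc n s c) (anc n s (f i)) ≤ 2).image fun c => nd (f i) c) := by
    intro v hv
    rw [Finset.mem_range] at hv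
    obtain ⟨j, j1, j2⟩ := key v hv.le
    refine Finset.mem_image.2 ⟨f j, Finset.mem_filter.2 ⟨Finset.mem_image.2
      ⟨j, Finset.mem_range.2 (by omega), rfl⟩, ?_⟩, j2⟩
    have e1 : nd (f j) (f i) ≤ 1 * n ^ s := by
      rw [nd_comm, j2]
      omega
    have e2 := nd_anc_mul hn e1
    omega
  have h5 := Finset.card_le_card hsub
  rw [Finset.card_range] at h5
  exact h5.trans Finset.card_image_le

/-- Pushing down: `w c = ∑_{(l,a), D - M ≤ l ≤ D, nd (anc n (D-l) c) a ≤ 2} σ l a / n^(D-l)`. A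
crossing chain which hits `(l, a)`, `l ≥ 2`, contains at least `n^(D-l)` distinct cubes `c` with
`nd (anc n (D-l) c) a ≤ 2` (the distances `0, 1, …, n^(D-l)` from a cube in `a` are all attained, as
one of its ends is far away). Cost: at most `5^d (M+1)` pairs for each `c`, and each pair contributes
to at most `(5 n^(D-l))^d ≤ (5 n^M)^d` cubes `c`. -/
theorem ss_of_gs {n M D k : ℕ} (hn : 2 ≤ n) (hM : M + 2 ≤ D) {ω : Cfg d} {z : Fin d → ℤ} {t : ℝ}
    (ht : 1 ≤ t) {θ : ℝ≥0∞} (h : Gs n D M k ω z t θ) :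
    SS n D k ω z t ((((5 ^ d * (M + 1) : ℕ) : ℝ≥0∞)) ^ (t - 1) * ((5 * n ^ M) ^ d : ℕ) * θ) := by
  classical
  obtain ⟨σ, hadm, hcost, hsup⟩ := h
  have hn1 : 1 ≤ n := by omega
  have ht0 : 0 ≤ t := by linarith
  have hpow0 : ∀ s : ℕ, ((n : ℝ≥0∞) ^ s) ≠ 0 := fun s =>
    pow_ne_zero _ (by exact_mod_cast (show n ≠ 0 by omega))
  have hpowT : ∀ s : ℕ, ((n : ℝ≥0∞) ^ s) ≠ ⊤ := fun s => ENNReal.pow_ne_top (ENNReal.natCast_ne_top n)
  have hpow1 : ∀ s : ℕ, 1 ≤ ((n : ℝ≥0∞) ^ s) := fun s => one_le_pow₀ (by exact_mod_cast hn1)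
  let x : ℕ → (Fin d → ℤ) → ℝ≥0∞ := fun s a => σ (D - s) a / (n : ℝ≥0∞) ^ s
  let P : Finset (ℕ × (Fin d → ℤ)) := Finset.range (M + 1) ×ˢ d3V d
  have hPc : P.card = 5 ^ d * (M + 1) := by
    rw [Finset.card_product, Finset.card_range, card_d3V, mul_comm]
  refine ⟨fun c => ∑ p ∈ P, x p.1 (fun i => anc n p.1 c i + p.2 i), ?_, ?_⟩
  · intro r f hf
    obtain ⟨f1, f2, f3, f4, f5⟩ := hf
    have h1 := hadm r f ⟨f1, f2, f3, f4, f5⟩
    refine h1.trans ?_
    -- the sum over one level
    have hlev : ∀ s ∈ Finset.range (M + 1), ∑ a ∈ hits n D (D - s) r f, σ (D - s) a ≤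
        ∑ c ∈ (Finset.range (r + 1)).image f, ∑ v ∈ d3V d, x s (fun i => anc n s c i + v i) := by
      intro s hs
      rw [Finset.mem_range] at hs
      have eD : D - (D - s) = s := by omega
      have hc : ∀ c ∈ (Finset.range (r + 1)).image f,
          (∑ a ∈ hits n D (D - s) r f, if nd (anc n s c) a ≤ 2 then x s a else 0) ≤
            ∑ v ∈ d3V d, x s (fun i => anc n s c i + v i) := by
        intro c _
        rw [← Finset.sum_filter]
        have e1 : ∑ a ∈ (hits n D (D - s) r f).filter (fun a => nd (anc n s c) a ≤ 2), x s a =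
            ∑ v ∈ ((hits n D (D - s) r f).filter (fun a => nd (anc n s c) a ≤ 2)).image
              (fun a i => a i - anc n s c i), x s (fun i => anc n s c i + v i) := by
          rw [Finset.sum_image fun a _ a' _ haa => by
            funext i
            have h9 : a i - anc n s c i = a' i - anc n s c i := congrFun haa i
            omega]
          refine Finset.sum_congr rfl fun a _ => ?_
          have e2 : (fun i => anc n s c i + (a i - anc n s c i)) = a := by
            funext i
            ring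
          rw [e2]
        rw [e1]
        refine Finset.sum_le_sum_of_subset fun v hv => ?_
        obtain ⟨a, ha, rfl⟩ := Finset.mem_image.1 hv
        exact mem_d3V.2 (Finset.mem_filter.1 ha).2
      refine le_trans ?_ (Finset.sum_le_sum hc)
      rw [Finset.sum_comm]
      refine Finset.sum_le_sum fun a ha => ?_
      obtain ⟨i, hi, hia⟩ := mem_hits.1 ha
      rw [eD] at hia
      rw [← Finset.sum_filter, Finset.sum_const, nsmul_eq_mul]
      have h6 := d3_card (s := s) (i := i) hn1 (by omega) f3 f5 hi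
      rw [hia] at h6
      have h7 : ((n : ℝ≥0∞) ^ s) ≤ ((((Finset.range (r + 1)).image f).filter fun c =>
          nd (anc n s c) a ≤ 2).card : ℝ≥0∞) := by exact_mod_cast h6
      calc σ (D - s) a = (n : ℝ≥0∞) ^ s * x s a :=
            (ENNReal.mul_div_cancel (hpow0 s) (hpowT s)).symm
        _ ≤ _ := mul_le_mul_left h7 _
    have hlen : len n D σ r f ≤
        ∑ s ∈ Finset.range (M + 1), ∑ a ∈ hits n D (D - s) r f, σ (D - s) a := by
      have e4 := Finset.sum_range_reflect (fun l => ∑ a ∈ hits n D l r f, σ l a) (D + 1)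
      simp only [Nat.add_sub_cancel] at e4
      unfold len
      rw [← e4]
      refine le_of_eq (Finset.sum_subset (Finset.range_mono (by omega)) fun s hs hs' => ?_).symm
      rw [Finset.mem_range] at hs hs'
      refine Finset.sum_eq_zero fun a _ => ?_
      by_contra hne
      have := (hsup _ _ hne).1
      omega
    refine hlen.trans ((Finset.sum_le_sum hlev).trans ?_)
    rw [Finset.sum_comm]
    refine le_of_eq (Finset.sum_congr rfl fun c _ => ?_)
    exact (Finset.sum_product (Finset.range (M + 1)) (d3V d)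
      fun p => x p.1 (fun i => anc n p.1 c i + p.2 i)).symm
  · -- the cost
    have hc : ∀ c : Fin d → ℤ, (∑ p ∈ P, x p.1 (fun i => anc n p.1 c i + p.2 i)) ^ t ≤
        (((5 ^ d * (M + 1) : ℕ) : ℝ≥0∞)) ^ (t - 1) *
          ∑ p ∈ P, x p.1 (fun i => anc n p.1 c i + p.2 i) ^ t := by
      intro c
      have := ENNReal.rpow_sum_le_const_mul_sum_rpow P
        (fun p => x p.1 (fun i => anc n p.1 c i + p.2 i)) ht
      rwa [hPc] at this
    refine (ENNReal.tsum_le_tsum hc).trans ?_
    rw [ENNReal.tsum_mul_left, mul_assoc]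
    refine mul_le_mul_right ?_ _
    rw [Summable.tsum_finsetSum fun p _ => ENNReal.summable]
    have hp : ∀ p ∈ P, ∑' c : Fin d → ℤ, x p.1 (fun i => anc n p.1 c i + p.2 i) ^ t ≤
        ((n ^ M) ^ d : ℕ) * ∑' a, σ (D - p.1) a ^ t := by
      intro p hp
      have hpM : p.1 ≤ M := by
        have := (Finset.mem_product.1 hp).1
        rw [Finset.mem_range] at this
        omega
      rw [d3_fib hn1 (fun a => x p.1 (fun i => a i + p.2 i) ^ t)]
      have e1 : ∑' a : Fin d → ℤ, x p.1 (fun i => a i + p.2 i) ^ t = ∑' a, x p.1 a ^ t :=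
        (Equiv.addRight p.2).tsum_eq fun a => x p.1 a ^ t
      rw [e1]
      refine mul_le_mul' ?_ (ENNReal.tsum_le_tsum fun a => ?_)
      · have : (n ^ p.1) ^ d ≤ (n ^ M) ^ d := Nat.pow_le_pow_left (Nat.pow_le_pow_right hn1 hpM) d
        exact_mod_cast this
      · refine ENNReal.rpow_le_rpow ?_ ht0
        exact ENNReal.div_le_of_le_mul (le_mul_of_one_le_right' (hpow1 _))
    refine (Finset.sum_le_sum hp).trans ?_
    rw [Finset.sum_product]
    simp only [Finset.sum_const, card_d3V, nsmul_eq_mul]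
    rw [← Finset.mul_sum, ← Finset.mul_sum, ← mul_assoc]
    have e2 : (((5 ^ d : ℕ) : ℝ≥0∞)) * (((n ^ M) ^ d : ℕ) : ℝ≥0∞) =
        (((5 * n ^ M) ^ d : ℕ) : ℝ≥0∞) := by
      rw [mul_pow]
      push_cast
      rfl
    rw [e2]
    refine mul_le_mul_right ?_ _
    refine le_trans ?_ hcost
    have e3 : cost 1 t σ = ∑' l : ℕ, ∑' a : Fin d → ℤ, σ l a ^ t := by
      unfold cost
      simp
    rw [e3]
    refine le_trans (Finset.sum_le_sum_of_subset (Finset.range_mono (show M + 1 ≤ D + 1 by omega))) ?_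
    have e4 := Finset.sum_range_reflect (fun l => ∑' a : Fin d → ℤ, σ l a ^ t) (D + 1)
    simp only [Nat.add_sub_cancel] at e4
    rw [e4]
    exact ENNReal.sum_le_tsum _

end gtFQ
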