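import Pool.Agent.Lib.gtFQ.MSb

/-! Single scale weights: composition and pushing down (deterministic part). -/

open scoped NNReal ENNReal

namespace gtFQ

open gtFP

variable {d : ℕ}

/-- Single scale weights: `w` on the cubes of level `k + H`, sum at least one over the distinct cubes
of every crossing chain, `∑ w^t ≤ η`. -/
def SS (n H k : ℕ) (ω : Cfg d) (z : Fin d → ℤ) (t : ℝ) (η : ℝ≥0∞) : Prop :=
  ∃ w : (Fin d → ℤ) → ℝ≥0∞,
    (∀ r f, IsCr n H k ω z r f → 1 ≤ ∑ a ∈ (Finset.range (r + 1)).image f, w a) ∧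
    ∑' a, w a ^ t ≤ η

/-- Weights of depth `D` supported on the last `M` levels. -/
def Gs (n D M k : ℕ) (ω : Cfg d) (z : Fin d → ℤ) (t : ℝ) (θ : ℝ≥0∞) : Prop :=
  ∃ σ : ℕ → (Fin d → ℤ) → ℝ≥0∞, Adm n D k ω z σ ∧ cost 1 t σ ≤ θ ∧
    ∀ l a, σ l a ≠ 0 → D ≤ l + M ∧ l ≤ D ∧ nd (anc n l a) z ≤ 2

/-- the factor of one composition step -/
noncomputable def Acst (d M : ℕ) (t : ℝ) : ℝ≥0∞ :=
  (2 : ℝ≥0∞) ^ t * (((5 ^ d * (M + 1) : ℕ) : ℝ≥0∞)) ^ (t - 1)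

end gtFQ
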