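import Pool.Agent.Lib.gtFQ.Sum2a

/-! The sums `YY2`: one step, deterministic (ports of gtFP/SumB.lean). -/

open scoped NNReal ENNReal

namespace gtFQ

open gtFP

variable {d : ℕ}

/-- at most `(n^H)^d` children -/
theorem sum2b_card {n H : ℕ} (hn : 1 ≤ n) (Q : Fin d → ℤ) (B : Finset (Fin d → ℤ))
    (hB : ∀ c ∈ B, anc n H c = Q) : B.card ≤ (n ^ H) ^ d := by
  classical
  have hpos : (0 : ℤ) < (n : ℤ) ^ H := by positivity
  have hsub : B ⊆ Fintype.piFinset fun s : Fin d => Finset.Ico ((n : ℤ) ^ H * Q s)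
      ((n : ℤ) ^ H * Q s + (n : ℤ) ^ H) := by
    intro x hx
    have hx2 := hB x hx
    rw [Fintype.mem_piFinset]
    intro s
    have h3 : x s / (n : ℤ) ^ H = Q s := congrFun hx2 s
    have h4 := Int.mul_ediv_add_emod (x s) ((n : ℤ) ^ H)
    have h5 := Int.emod_nonneg (x s) hpos.ne'
    have h6 := Int.emod_lt_of_pos (x s) hpos
    rw [h3] at h4
    rw [Finset.mem_Ico]
    constructor <;> linarith
  have hcard : (Fintype.piFinset fun s : Fin d => Finset.Ico ((n : ℤ) ^ H * Q s)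
      ((n : ℤ) ^ H * Q s + (n : ℤ) ^ H)).card = (n ^ H) ^ d := by
    rw [Fintype.card_piFinset]
    rw [Finset.prod_congr rfl fun s _ => show (Finset.Ico ((n : ℤ) ^ H * Q s)
      ((n : ℤ) ^ H * Q s + (n : ℤ) ^ H)).card = n ^ H by
        rw [Int.card_Ico, add_sub_cancel_left]
        have : ((n : ℤ) ^ H) = ((n ^ H : ℕ) : ℤ) := by push_cast; rfl
        rw [this, Int.toNat_natCast]]
    simp
  have := Finset.card_le_card hsub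
  rwa [hcard] at this

/-- the factor if no cube near the parent is bad -/
theorem sum2b_wt2 {n H : ℕ} {δ K : ℝ≥0} {t : ℝ} (ht : 1 ≤ t) {η : ℝ≥0∞} (j : ℕ)
    (ω : Cfg d) (Q c : Fin d → ℤ) (hc : anc n H c = Q) (hN : ¬ Nb2 n H j t η ω Q) :
    (wt2 n H δ K t η j ω c : ℝ≥0∞) ^ t ≤ (δ : ℝ≥0∞) ^ t +
      (K : ℝ≥0∞) ^ t * (((7 ^ d : ℕ) : ℝ≥0∞) ^ (t - 1) *
        ∑ z ∈ nbF Q, wS n H (H * j) ω z t η c ^ t) := by
  have ht0 : 0 ≤ t := by linarith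
  set S : ℝ≥0 := ∑ z ∈ nbF Q, (wS n H (H * j) ω z t η c).toNNReal with hS
  have h1 : wt2 n H δ K t η j ω c ≤ max δ (K * S) := by
    unfold wt2
    rw [hc, if_neg hN]
    exact min_le_right _ _
  have h2 : (S : ℝ≥0∞) ^ t ≤ ((7 ^ d : ℕ) : ℝ≥0∞) ^ (t - 1) *
      ∑ z ∈ nbF Q, wS n H (H * j) ω z t η c ^ t := by
    have h3 : (S : ℝ≥0∞) ≤ ∑ z ∈ nbF Q, wS n H (H * j) ω z t η c := by
      rw [hS, ENNReal.ofNNReal_finsetSum]
      exact Finset.sum_le_sum fun z _ => ENNReal.coe_toNNReal_le_self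
    refine (ENNReal.rpow_le_rpow h3 ht0).trans ?_
    have h4 := ENNReal.rpow_sum_le_const_mul_sum_rpow (nbF Q)
      (fun z => wS n H (H * j) ω z t η c) ht
    rwa [card_nbF] at h4
  have h5 : ((max δ (K * S) : ℝ≥0) : ℝ≥0∞) ^ t ≤ (δ : ℝ≥0∞) ^ t + (K : ℝ≥0∞) ^ t * (S : ℝ≥0∞) ^ t := by
    rcases le_total δ (K * S) with h6 | h6
    · rw [max_eq_right h6, ENNReal.coe_mul, ENNReal.mul_rpow_of_nonneg _ _ ht0]
      exact le_add_self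
    · rw [max_eq_left h6]
      exact le_self_add
  refine (ENNReal.rpow_le_rpow (ENNReal.coe_le_coe.2 h1) ht0).trans (h5.trans ?_)
  gcongr

open Classical in
/-- Sum of the factors over the children of `Q`: at most `(n^H)^d` children; near a bad cube the factor
is `(1/2)^t ≤ 1`; otherwise `wt2^t ≤ δ^t + K^t (∑_{z ∈ nbF Q} wS z c)^t` and
`(∑_z x_z)^t ≤ (7^d)^(t-1) ∑ x_z^t`, `wS_cost`. -/
theorem sum_wt2_le {n H : ℕ} (hn : 1 ≤ n) {δ K : ℝ≥0} {t : ℝ} (ht : 1 ≤ t) {η : ℝ≥0∞} (j : ℕ)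
    (ω : Cfg d) (Q : Fin d → ℤ) (B : Finset (Fin d → ℤ)) (hB : ∀ c ∈ B, anc n H c = Q) :
    ∑ c ∈ B, (wt2 n H δ K t η j ω c : ℝ≥0∞) ^ t ≤
      ((n ^ H) ^ d : ℕ) * (δ : ℝ≥0∞) ^ t + (K : ℝ≥0∞) ^ t * ((7 ^ d : ℕ) : ℝ≥0∞) ^ t * η +
        ((n ^ H) ^ d : ℕ) * ∑ z ∈ nbF Q, if SS n H (H * j) ω z t η then 0 else 1 := by
  have ht0 : 0 < t := by linarith
  have hcard : (B.card : ℝ≥0∞) ≤ ((n ^ H) ^ d : ℕ) := by
    exact_mod_cast sum2b_card hn Q B hB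
  by_cases hN : Nb2 n H j t η ω Q
  · have h1 : ∀ c ∈ B, (wt2 n H δ K t η j ω c : ℝ≥0∞) ^ t ≤ 1 := by
      intro c _
      refine ENNReal.rpow_le_one ?_ ht0.le
      rw [ENNReal.coe_le_one_iff]
      exact wt2_le.trans (half_le_self zero_le_one)
    have h2 : (1 : ℝ≥0∞) ≤ ∑ z ∈ nbF Q, if SS n H (H * j) ω z t η then 0 else 1 := by
      obtain ⟨z, hz1, hz2⟩ := hN
      refine le_trans ?_ (Finset.single_le_sum
        (f := fun z => if SS n H (H * j) ω z t η then (0 : ℝ≥0∞) else 1) (fun _ _ => zero_le)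
        (mem_nbF.2 hz1))
      rw [if_neg hz2]
    refine (Finset.sum_le_sum h1).trans ?_
    rw [Finset.sum_const, nsmul_eq_mul, mul_one]
    refine (hcard.trans ?_).trans le_add_self
    calc (((n ^ H) ^ d : ℕ) : ℝ≥0∞) = ((n ^ H) ^ d : ℕ) * 1 := (mul_one _).symm
      _ ≤ _ := mul_le_mul' le_rfl h2
  · have h1 : ∀ c ∈ B, (wt2 n H δ K t η j ω c : ℝ≥0∞) ^ t ≤ (δ : ℝ≥0∞) ^ t +
        (K : ℝ≥0∞) ^ t * (((7 ^ d : ℕ) : ℝ≥0∞) ^ (t - 1) *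
          ∑ z ∈ nbF Q, wS n H (H * j) ω z t η c ^ t) := fun c hc =>
      sum2b_wt2 ht j ω Q c (hB c hc) hN
    refine (Finset.sum_le_sum h1).trans ?_
    rw [Finset.sum_add_distrib, Finset.sum_const, nsmul_eq_mul, ← Finset.mul_sum,
      ← Finset.mul_sum, Finset.sum_comm]
    have h2 : ∑ z ∈ nbF Q, ∑ c ∈ B, wS n H (H * j) ω z t η c ^ t ≤ ((7 ^ d : ℕ) : ℝ≥0∞) * η := by
      calc ∑ z ∈ nbF Q, ∑ c ∈ B, wS n H (H * j) ω z t η c ^ t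
          ≤ ∑ z ∈ nbF Q, η := Finset.sum_le_sum fun z _ =>
            (ENNReal.sum_le_tsum B).trans (wS_cost ht0)
        _ = ((7 ^ d : ℕ) : ℝ≥0∞) * η := by
            rw [Finset.sum_const, card_nbF, nsmul_eq_mul]
    have h70 : ((7 ^ d : ℕ) : ℝ≥0∞) ≠ 0 := by
      exact_mod_cast (pow_pos (by norm_num) d).ne'
    have h7t : ((7 ^ d : ℕ) : ℝ≥0∞) ≠ ⊤ := ENNReal.natCast_ne_top _
    have h3 : ((7 ^ d : ℕ) : ℝ≥0∞) ^ (t - 1) * ((7 ^ d : ℕ) : ℝ≥0∞) =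
        ((7 ^ d : ℕ) : ℝ≥0∞) ^ t := by
      have h4 := ENNReal.rpow_add (t - 1) 1 h70 h7t
      rw [ENNReal.rpow_one] at h4
      rw [← h4]
      congr 1
      ring
    refine le_trans ?_ (le_self_add (b := ((n ^ H) ^ d : ℕ) *
      ∑ z ∈ nbF Q, if SS n H (H * j) ω z t η then (0 : ℝ≥0∞) else 1))
    refine add_le_add (mul_le_mul' hcard le_rfl) ?_
    calc (K : ℝ≥0∞) ^ t * (((7 ^ d : ℕ) : ℝ≥0∞) ^ (t - 1) *
          ∑ z ∈ nbF Q, ∑ c ∈ B, wS n H (H * j) ω z t η c ^ t)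
        ≤ (K : ℝ≥0∞) ^ t * (((7 ^ d : ℕ) : ℝ≥0∞) ^ (t - 1) * (((7 ^ d : ℕ) : ℝ≥0∞) * η)) :=
          mul_le_mul' le_rfl (mul_le_mul' le_rfl h2)
      _ = (K : ℝ≥0∞) ^ t * ((7 ^ d : ℕ) : ℝ≥0∞) ^ t * η := by
          rw [← h3]
          ring

open Classical in
theorem YY2_succ_le' {n H M : ℕ} (hn : 1 ≤ n) {δ K : ℝ≥0} {t : ℝ} (ht : 1 ≤ t) {η : ℝ≥0∞} (j : ℕ)
    (ω : Cfg d) :
    YY2 n H M δ K t η (j + 1) ω ≤ CC d M t *
      ∑ Q ∈ boxF d (n ^ (H * j)),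
        (if Kept n (H * j) ω Q then (LL2 n H M δ K t η ω j Q : ℝ≥0∞) ^ t else 0) *
        (((n ^ H) ^ d : ℕ) * (δ : ℝ≥0∞) ^ t + (K : ℝ≥0∞) ^ t * ((7 ^ d : ℕ) : ℝ≥0∞) ^ t * η +
          ((n ^ H) ^ d : ℕ) * ∑ z ∈ nbF Q, if SS n H (H * j) ω z t η then 0 else 1) := by
  have ht0 : 0 < t := by linarith
  refine (YY2_succ_le ht0 j ω).trans (mul_le_mul' le_rfl ?_)
  have hmaps : ∀ c ∈ Rf n H (j + 1) ω, anc n H c ∈ Rf n H j ω := by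
    intro c hc
    rw [mem_Rf] at hc ⊢
    obtain ⟨h1, h2⟩ := hc
    rw [show H * (j + 1) = H * j + H by ring] at h1 h2
    exact ⟨inBox_anc hn h1, (kept_add.1 h2).1⟩
  rw [← Finset.sum_fiberwise_of_maps_to hmaps]
  have h1 : ∀ F : (Fin d → ℤ) → ℝ≥0∞, ∑ Q ∈ Rf n H j ω, F Q =
      ∑ Q ∈ boxF d (n ^ (H * j)), if Kept n (H * j) ω Q then F Q else 0 := by
    intro F
    unfold Rf
    rw [Finset.sum_filter]
  rw [h1]
  refine Finset.sum_le_sum fun Q _ => ?_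
  split_ifs with h
  · refine le_trans (le_of_eq ?_) (mul_le_mul' le_rfl (sum_wt2_le hn ht j ω Q
      ((Rf n H (j + 1) ω).filter fun c => anc n H c = Q) fun c hc => (Finset.mem_filter.1 hc).2))
    rw [Finset.mul_sum]
    refine Finset.sum_congr rfl fun c hc => ?_
    rw [(Finset.mem_filter.1 hc).2, ENNReal.coe_mul, ENNReal.mul_rpow_of_nonneg _ _ ht0.le,
      mul_comm]
  · exact zero_le

end gtFQ
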