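import Pool.Agent.Lib.gtFQ.LL2a

/-! The sums `YY2`: one step, deterministic (ports of gtFP/SumB.lean). -/

open scoped NNReal ENNReal

namespace gtFQ

open gtFP

variable {d : ℕ}

/-- Like `gtFP.YY_succ_le`. -/
theorem YY2_succ_le {n H M : ℕ} {δ K : ℝ≥0} {t : ℝ} (ht : 0 < t) {η : ℝ≥0∞} (j : ℕ) (ω : Cfg d) :
    YY2 n H M δ K t η (j + 1) ω ≤ CC d M t * ∑ c ∈ Rf n H (j + 1) ω,
      ((wt2 n H δ K t η j ω c * LL2 n H M δ K t η ω j (anc n H c) : ℝ≥0) : ℝ≥0∞) ^ t := by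
  unfold YY2
  have h1 : ∀ a ∈ Rf n H (j + 1) ω, ((LL2 n H M δ K t η ω (j + 1) a : ℝ≥0) : ℝ≥0∞) ^ t ≤
      ∑ c ∈ Rf n H (j + 1) ω,
        ((wt2 n H δ K t η j ω c * LL2 n H M δ K t η ω j (anc n H c) : ℝ≥0) : ℝ≥0∞) ^ t *
          (((1 + (nd a c : ℝ≥0∞)) ^ M)⁻¹) ^ t := by
    intro a _
    have h2 := sumB_sup_rpow_le ht (Rf n H (j + 1) ω) (fun c =>
      wt2 n H δ K t η j ω c * LL2 n H M δ K t η ω j (anc n H c) * ((1 + (nd a c : ℝ≥0)) ^ M)⁻¹)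
    refine (show ((LL2 n H M δ K t η ω (j + 1) a : ℝ≥0) : ℝ≥0∞) ^ t ≤ _ from h2).trans
      (le_of_eq (Finset.sum_congr rfl fun c _ => ?_))
    rw [ENNReal.coe_mul (wt2 n H δ K t η j ω c * LL2 n H M δ K t η ω j (anc n H c)),
      ENNReal.mul_rpow_of_nonneg _ _ ht.le, ENNReal.coe_inv (by positivity), ENNReal.coe_pow,
      ENNReal.coe_add, ENNReal.coe_one, ENNReal.coe_natCast]
  refine (Finset.sum_le_sum h1).trans ?_
  rw [Finset.sum_comm, Finset.mul_sum]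
  refine Finset.sum_le_sum fun c _ => ?_
  rw [← Finset.mul_sum, mul_comm]
  refine mul_le_mul' ?_ le_rfl
  rw [← tsum_decay (d := d) (M := M) (t := t) c]
  exact ENNReal.sum_le_tsum _

end gtFQ
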