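import Pool.Agent.Lib.gtFQ.DsE
import Pool.Agent.Lib.gtFP.ZeroE

/-! Zero-one law for general events (port of gtFP/ZeroA, ZeroC, ZeroE), part 1: the event inside a
cube. -/

open MeasureTheory ProbabilityTheory Filter Topology
open scoped NNReal ENNReal

namespace gtFQ

open gtFP

variable {d : ℕ}

private theorem ze1_anc_eq {n : ℕ} (hk : 5 ≤ n ^ 3) {Q b : Fin d → ℤ}
    (h : nd (fun t => (n : ℤ) ^ 3 * Q t + 2) b ≤ 2) : anc n 3 b = Q := by
  funext t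
  have h1 := nd_le.1 h t
  have h5 : (5 : ℤ) ≤ (n : ℤ) ^ 3 := by exact_mod_cast hk
  have hpos : (0 : ℤ) < (n : ℤ) ^ 3 := by linarith
  show b t / (n : ℤ) ^ 3 = Q t
  generalize (n : ℤ) ^ 3 = N at *
  generalize hM : N * Q t = M at *
  obtain ⟨c, hc, hc0, hc4⟩ : ∃ c, b t = M + c ∧ 0 ≤ c ∧ c ≤ 4 := ⟨b t - M, by ring, by omega, by omega⟩
  rw [hc, ← hM, Int.add_comm, Int.add_mul_ediv_left _ _ hpos.ne',
    Int.ediv_eq_zero_of_lt hc0 (by linarith), zero_add]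

private theorem ze1_inBox_of_anc {n k s : ℕ} (hn : 1 ≤ n) {a : Fin d → ℤ}
    (h : InBox (n ^ k) (anc n s a)) : InBox (n ^ (k + s)) a := by
  intro t
  have hpos : (0 : ℤ) < (n : ℤ) ^ s := by positivity
  obtain ⟨h1, h2⟩ := h t
  simp only [anc] at h1 h2
  push_cast at h2 ⊢
  constructor
  · by_contra hc
    push Not at hc
    have := Int.ediv_neg_of_neg_of_pos hc hpos
    omega
  · rw [Int.ediv_lt_iff_lt_mul hpos] at h2
    rw [pow_add]
    exact h2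

private theorem ze1_five {n : ℕ} (hn : 2 ≤ n) : 5 ≤ n ^ 3 := by
  have : 2 ^ 3 ≤ n ^ 3 := Nat.pow_le_pow_left hn 3
  omega

private theorem ze1_shift_shift (n k : ℕ) (Q : Fin d → ℤ) (ω : Cfg d) :
    shiftCfg n (0 + 3) (fun t => (n : ℤ) ^ 3 * (0 : Fin d → ℤ) t + 2) (shiftCfg n k Q ω) =
      shiftCfg n (k + 3) (fun t => (n : ℤ) ^ 3 * Q t + 2) ω := by
  funext i
  unfold shiftCfg
  simp only [Pi.zero_apply]
  have h1 : k + (0 + 3 + i.1) = k + 3 + i.1 := by ring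
  have h2 : (fun t => (n : ℤ) ^ (0 + 3 + i.1) * Q t + ((n : ℤ) ^ i.1 * ((n : ℤ) ^ 3 * 0 + 2) +
      i.2 t)) = fun t => (n : ℤ) ^ i.1 * ((n : ℤ) ^ 3 * Q t + 2) + i.2 t := by
    funext t
    rw [zero_add, pow_add]
    ring
  rw [h1, h2]

/-- All descendants of `Q` (level `k`) in the levels `k+1, k+2, k+3` are kept (when they are examined)
and the event `E` holds for the descendant `n^3 Q + (2,…,2)` of level `k + 3`. -/
def EvtE (n : ℕ) (E : ℕ → (Fin d → ℤ) → Set (Cfg d)) (k : ℕ) (Q : Fin d → ℤ) : Set (Cfg d) :=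
  {ω | (∀ i, 1 ≤ i → i ≤ 3 → ∀ b, anc n i b = Q → ω (k + i, b) = true) ∧
    ω ∈ E (k + 3) (fun t => (n : ℤ) ^ 3 * Q t + 2)}

private theorem ze1_shift {n k : ℕ} (hn : 1 ≤ n) {E : ℕ → (Fin d → ℤ) → Set (Cfg d)}
    (hs : ∀ k z ω, ω ∈ E k z ↔ shiftCfg n k z ω ∈ E 0 0) (Q : Fin d → ℤ) (ω : Cfg d) :
    ω ∈ EvtE n E k Q ↔ shiftCfg n k Q ω ∈ EvtE n E 0 0 := by
  have h1 : ω ∈ E (k + 3) (fun t => (n : ℤ) ^ 3 * Q t + 2) ↔
      shiftCfg n k Q ω ∈ E (0 + 3) (fun t => (n : ℤ) ^ 3 * (0 : Fin d → ℤ) t + 2) := by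
    rw [hs (k + 3), hs (0 + 3), ze1_shift_shift]
  have h2 : (∀ i, 1 ≤ i → i ≤ 3 → ∀ b, anc n i b = Q → ω (k + i, b) = true) ↔
      ∀ i, 1 ≤ i → i ≤ 3 → ∀ b, anc n i b = 0 → shiftCfg n k Q ω (0 + i, b) = true := by
    refine forall_congr' fun i => forall_congr' fun _ => forall_congr' fun _ => ?_
    have h3 : ∀ b, shiftCfg n k Q ω (0 + i, b) = ω (k + i, fun t => (n : ℤ) ^ i * Q t + b t) := by
      intro b
      unfold shiftCfg
      simp only [zero_add]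
    constructor
    · intro h b hb
      rw [h3]
      apply h
      rw [anc_add_mul hn b Q, hb]
      funext t
      simp
    · intro h b hb
      have h4 : (fun t => (n : ℤ) ^ i * Q t + (fun t => b t - (n : ℤ) ^ i * Q t) t) = b := by
        funext t
        ring
      have h5 := anc_add_mul (s := i) hn (fun t => b t - (n : ℤ) ^ i * Q t) Q
      rw [h4, hb] at h5
      have h6 := h (fun t => b t - (n : ℤ) ^ i * Q t) (by
        funext t
        have := congrFun h5 t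
        simp only [Pi.zero_apply]
        linarith)
      rw [h3, h4] at h6
      exact h6
  unfold EvtE
  rw [Set.mem_ofPred_eq, Set.mem_ofPred_eq, h1, h2]

/-- like `gtFP.meas_evt` (`5 ≤ n^3`) -/
theorem meas_evtE {n k : ℕ} (hn : 2 ≤ n) {E : ℕ → (Fin d → ℤ) → Set (Cfg d)}
    (hm : ∀ k z, MeasurableSet[sg (LvI n k z)] (E k z)) (Q : Fin d → ℤ) :
    MeasurableSet[sg (Desc n k Q)] (EvtE n E k Q) := by
  have h1 : EvtE n E k Q =
      (⋂ i ∈ {i : ℕ | 1 ≤ i ∧ i ≤ 3}, ⋂ b ∈ {b : Fin d → ℤ | anc n i b = Q},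
        {ω : Cfg d | ω (k + i, b) = true}) ∩ E (k + 3) (fun t => (n : ℤ) ^ 3 * Q t + 2) := by
    ext ω
    simp only [EvtE, Set.mem_ofPred_eq, Set.mem_inter_iff, Set.mem_iInter, and_imp]
  rw [h1]
  refine @MeasurableSet.inter _ (sg (Desc n k Q)) _ _ ?_ ?_
  · refine @MeasurableSet.biInter _ _ (sg (Desc n k Q)) _ _ (Set.to_countable _) fun i hi => ?_
    refine @MeasurableSet.biInter _ _ (sg (Desc n k Q)) _ _ (Set.to_countable _) fun b hb => ?_
    refine meas_coord (I := Desc n k Q) ⟨?_, ?_⟩ true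
    · show k < k + i
      have := hi.1
      omega
    · show anc n (k + i - k) b = Q
      rw [show k + i - k = i by omega]
      exact hb
  · refine sg_mono ?_ _ (hm (k + 3) (fun t => (n : ℤ) ^ 3 * Q t + 2))
    rintro ⟨i, b⟩ ⟨hi1, hi3⟩
    simp only at hi1 hi3
    refine ⟨?_, ?_⟩
    · show k < i
      omega
    · show anc n (i - k) b = Q
      have h2 : anc n (i - k) b = anc n 3 (anc n (i - (k + 3)) b) := by
        rw [anc_anc, show 3 + (i - (k + 3)) = i - k by omega]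
      rw [h2]
      refine ze1_anc_eq (ze1_five hn) ?_
      rw [nd_comm]
      exact hi3

/-- like `gtFP.evt_shift`, `gtFP.prob_evt` -/
theorem prob_evtE {n k : ℕ} (hn : 2 ≤ n) {E : ℕ → (Fin d → ℤ) → Set (Cfg d)}
    (hs : ∀ k z ω, ω ∈ E k z ↔ shiftCfg n k z ω ∈ E 0 0)
    (hm : ∀ k z, MeasurableSet[sg (LvI n k z)] (E k z)) (p : unitInterval) (Q : Fin d → ℤ) :
    percLaw d p (EvtE n E k Q) = percLaw d p (EvtE n E 0 0) := by
  have hn1 : 1 ≤ n := by omega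
  have hmeas : Measurable (shiftCfg (d := d) n k Q) :=
    measurable_pi_lambda _ fun i => measurable_pi_apply _
  have h1 : EvtE n E k Q = shiftCfg n k Q ⁻¹' EvtE n E 0 0 := by
    ext ω
    exact ze1_shift hn1 hs Q ω
  rw [h1, ← Measure.map_apply hmeas (sg_le _ _ (meas_evtE hn hm 0)), map_shiftCfg]

/-- like `gtFP.prob_evt_pos` (independence of `allKept d n 3` and `E 3 2`; the latter has the
probability of `E 0 0` by `hs` and `map_shiftCfg`) -/
theorem prob_evtE_pos {n : ℕ} (hn : 2 ≤ n) {E : ℕ → (Fin d → ℤ) → Set (Cfg d)}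
    (hs : ∀ k z ω, ω ∈ E k z ↔ shiftCfg n k z ω ∈ E 0 0)
    (hm : ∀ k z, MeasurableSet[sg (LvI n k z)] (E k z)) {p : unitInterval} (hp : 0 < p)
    (h : percLaw d p (E 0 0) ≠ 0) :
    0 < percLaw d p (EvtE n E 0 0) := by
  have hn1 : 1 ≤ n := by omega
  obtain ⟨z, hz⟩ : ∃ z : Fin d → ℤ, z = fun t => (n : ℤ) ^ 3 * (0 : Fin d → ℤ) t + 2 := ⟨_, rfl⟩
  have hmeas : Measurable (shiftCfg (d := d) n 3 z) :=
    measurable_pi_lambda _ fun i => measurable_pi_apply _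
  have h1 : E 3 z = shiftCfg n 3 z ⁻¹' E 0 0 := by
    ext ω
    exact hs 3 z ω
  have h2 : percLaw d p (E 3 z) = percLaw d p (E 0 0) := by
    rw [h1, ← Measure.map_apply hmeas (sg_le _ _ (hm 0 0)), map_shiftCfg]
  have h3 : Disjoint (Lv d 0 3) (LvI n 3 z) := by
    refine Set.disjoint_left.2 fun i hi hj => ?_
    have h4 : i.1 ≤ 0 + 3 := hi.2
    have h5 : 3 < i.1 := hj.1
    omega
  have h6 : percLaw d p (allKept d n 3 ∩ E 3 z) =
      percLaw d p (allKept d n 3) * percLaw d p (E 3 z) :=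
    (Indep_iff _ _ _).1 (sg_indep (p := p) h3) _ _ (allKept_meas n 3) (hm 3 z)
  have hsub : allKept d n 3 ∩ E 3 z ⊆ EvtE n E 0 0 := by
    rintro ω ⟨hω1, hω2⟩
    refine ⟨fun i hi1 hi2 b hb => ?_, ?_⟩
    · rw [zero_add]
      refine hω1 i hi1 hi2 b fun t => ?_
      have hpos : (0 : ℤ) < (n : ℤ) ^ i := by positivity
      have h3 : b t / (n : ℤ) ^ i = 0 := congrFun hb t
      have h4 := Int.emod_add_mul_ediv (b t) ((n : ℤ) ^ i)
      rw [h3, mul_zero, add_zero] at h4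
      refine ⟨?_, ?_⟩
      · rw [← h4]
        exact Int.emod_nonneg _ hpos.ne'
      · rw [← h4]
        push_cast
        exact Int.emod_lt_of_pos _ hpos
    · rw [hz] at hω2
      exact hω2
  refine lt_of_lt_of_le ?_ (measure_mono hsub)
  rw [h6, h2]
  exact ENNReal.mul_pos (allKept_pos n 3 hp).ne' h

/-- a kept cube with `EvtE` gives a block: if `nd z a ≤ 2`, `z = n^3 Q + 2` then `anc n 3 a = Q`
(as in gtFP/ZeroB.lean, private `zb_anc_eq`, `zb_inBox_of_anc`), `kept_add`. -/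
theorem blk_of_evtE {n k : ℕ} (hn : 2 ≤ n) {E : ℕ → (Fin d → ℤ) → Set (Cfg d)} {ω : Cfg d}
    {Q : Fin d → ℤ} (hQ : Q ∈ Rf n 1 k ω) (h : ω ∈ EvtE n E k Q) :
    Blk n (k + 3) ω (fun t => (n : ℤ) ^ 3 * Q t + 2) := by
  have hn1 : 1 ≤ n := by omega
  obtain ⟨hall, -⟩ := h
  obtain ⟨hQ1, hQ2⟩ := mem_Rf.1 hQ
  rw [one_mul] at hQ1 hQ2
  intro a ha
  have hA : anc n 3 a = Q := ze1_anc_eq (ze1_five hn) ha
  refine ⟨ze1_inBox_of_anc hn1 ?_, kept_add.2 ⟨?_, ?_⟩⟩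
  · rw [hA]
    exact hQ1
  · rw [hA]
    exact hQ2
  · intro j hj1 hj3
    refine hall j hj1 hj3 _ ?_
    rw [anc_anc, show j + (3 - j) = 3 by omega]
    exact hA

end gtFQ
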