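import Pool.Agent.Lib.gtFQ.ZE1

/-! Zero-one law for general events, part 2: independence (port of gtFP/ZeroC.lean). -/

open MeasureTheory ProbabilityTheory Filter Topology
open scoped NNReal ENNReal

namespace gtFQ

open gtFP

variable {d : ℕ}

private theorem ze2_meas_Rf (n k : ℕ) (S : Finset (Fin d → ℤ)) :
    MeasurableSet[sg (Lv d 0 k)] {ω : Cfg d | Rf n 1 k ω = S} := by
  have h1 : {ω : Cfg d | Rf n 1 k ω = S} =
      ⋂ a : Fin d → ℤ, {ω : Cfg d | a ∈ S ↔ (InBox (n ^ k) a ∧ Kept n k ω a)} := by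
    ext ω
    simp only [Set.mem_ofPred_eq, Set.mem_iInter, Finset.ext_iff, mem_Rf, one_mul]
    exact forall_congr' fun a => Iff.comm
  rw [h1]
  refine @MeasurableSet.iInter _ _ (sg (Lv d 0 k)) _ _ fun a => ?_
  by_cases hb : InBox (n ^ k) a
  · by_cases hS : a ∈ S
    · have h2 : {ω : Cfg d | a ∈ S ↔ (InBox (n ^ k) a ∧ Kept n k ω a)} =
          {ω : Cfg d | Kept n k ω a} := by
        ext ω
        simp [hb, hS]
      rw [h2]
      exact meas_kept a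
    · have h2 : {ω : Cfg d | a ∈ S ↔ (InBox (n ^ k) a ∧ Kept n k ω a)} =
          {ω : Cfg d | Kept n k ω a}ᶜ := by
        ext ω
        simp [hb, hS]
      rw [h2]
      exact @MeasurableSet.compl _ _ (sg (Lv d 0 k)) (meas_kept a)
  · have h2 : {ω : Cfg d | a ∈ S ↔ (InBox (n ^ k) a ∧ Kept n k ω a)} =
        {_ω : Cfg d | ¬ a ∈ S} := by
      ext ω
      simp [hb]
    rw [h2]
    exact @MeasurableSet.const _ (sg (Lv d 0 k)) _

private theorem ze2_meas_no_evt {n k : ℕ} (hn : 2 ≤ n) {E : ℕ → (Fin d → ℤ) → Set (Cfg d)}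
    (hm : ∀ k z, MeasurableSet[sg (LvI n k z)] (E k z)) (S S' : Finset (Fin d → ℤ)) :
    MeasurableSet[sg (Lv d 0 k ∪ ⋃ Q ∈ S', Desc n k Q)]
      {ω : Cfg d | Rf n 1 k ω = S ∧ ∀ Q ∈ S', ω ∉ EvtE n E k Q} := by
  have h1 : {ω : Cfg d | Rf n 1 k ω = S ∧ ∀ Q ∈ S', ω ∉ EvtE n E k Q} =
      {ω : Cfg d | Rf n 1 k ω = S} ∩ ⋂ Q ∈ {Q | Q ∈ S'}, (EvtE n E k Q)ᶜ := by
    ext ω
    simp only [Set.mem_ofPred_eq, Set.mem_inter_iff, Set.mem_iInter, Set.mem_compl_iff]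
  rw [h1]
  refine @MeasurableSet.inter _ (sg (Lv d 0 k ∪ ⋃ Q ∈ S', Desc n k Q)) _ _ ?_ ?_
  · exact sg_mono Set.subset_union_left _ (ze2_meas_Rf n k S)
  · refine @MeasurableSet.biInter _ _ (sg (Lv d 0 k ∪ ⋃ Q ∈ S', Desc n k Q)) _ _
      (Set.to_countable _) fun Q hQ => ?_
    refine @MeasurableSet.compl _ _ (sg (Lv d 0 k ∪ ⋃ Q ∈ S', Desc n k Q)) ?_
    refine sg_mono (show Desc n k Q ⊆ Lv d 0 k ∪ ⋃ Q ∈ S', Desc n k Q from ?_) _
      (meas_evtE hn hm Q)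
    intro i hi
    refine Or.inr ?_
    simp only [Set.mem_iUnion]
    exact ⟨Q, hQ, hi⟩

/-- port of `gtFP.prob_no_evt` -/
theorem prob_no_evtE {n k : ℕ} (hn : 2 ≤ n) {E : ℕ → (Fin d → ℤ) → Set (Cfg d)}
    (hs : ∀ k z ω, ω ∈ E k z ↔ shiftCfg n k z ω ∈ E 0 0)
    (hm : ∀ k z, MeasurableSet[sg (LvI n k z)] (E k z)) (p : unitInterval)
    (S S' : Finset (Fin d → ℤ)) :
    percLaw d p {ω | Rf n 1 k ω = S ∧ ∀ Q ∈ S', ω ∉ EvtE n E k Q} =
      percLaw d p {ω | Rf n 1 k ω = S} * (1 - percLaw d p (EvtE n E 0 0)) ^ S'.card := by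
  haveI : IsProbabilityMeasure (percLaw d p) := by
    unfold percLaw
    infer_instance
  classical
  induction S' using Finset.induction_on with
  | empty => simp
  | insert Q S' hQ ih =>
    have h1 : {ω : Cfg d | Rf n 1 k ω = S ∧ ∀ Q' ∈ insert Q S', ω ∉ EvtE n E k Q'} =
        {ω : Cfg d | Rf n 1 k ω = S ∧ ∀ Q' ∈ S', ω ∉ EvtE n E k Q'} ∩
          (EvtE n E k Q)ᶜ := by
      ext ω
      simp only [Set.mem_ofPred_eq, Set.mem_inter_iff, Set.mem_compl_iff, Finset.mem_insert,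
        forall_eq_or_imp]
      tauto
    have hdis : Disjoint (Lv d 0 k ∪ ⋃ Q' ∈ S', Desc n k Q') (Desc n k Q) := by
      rw [Set.disjoint_left]
      rintro i (hi | hi) ⟨h2, h3⟩
      · have := hi.2
        omega
      · simp only [Set.mem_iUnion] at hi
        obtain ⟨Q', hQ', h4, h5⟩ := hi
        rw [h3] at h5
        exact hQ (h5 ▸ hQ')
    have hm1 := ze2_meas_no_evt (k := k) hn hm S S'
    have hm2 : MeasurableSet[sg (Desc n k Q)] (EvtE n E k Q)ᶜ :=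
      @MeasurableSet.compl _ _ (sg (Desc n k Q)) (meas_evtE hn hm Q)
    have hind := (Indep_iff _ _ _).1 (sg_indep (p := p) hdis) _ _ hm1 hm2
    have hm3 : MeasurableSet (EvtE n E k Q) := sg_le _ _ (meas_evtE hn hm Q)
    rw [h1, hind, ih, prob_compl_eq_one_sub hm3, prob_evtE hn hs hm p Q,
      Finset.card_insert_of_notMem hQ, pow_succ, mul_assoc]

end gtFQ
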